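import Pool.Agent.Lib.MP_d0f9e0_co.Rg.Count

set_option autoImplicit false

namespace Pool.Agent.SicRg

open Finset

variable {K : Type*} [Field K] [StarRing K] {n ι : Type} [Fintype n] [Fintype ι]

/-!
Cirles of maximal equiangular systems.
-/

section tanalg

variable [DecidableEq ι] {v z z' : ι → n → K}

omit [DecidableEq ι] in
theorem Tan.comb (f g : K) (h : Tan v z) (h' : Tan v z') :
    Tan v (fun k => f • z k + g • z' k) := by
  refine ⟨⟨fun k => ?_, fun x y => ?_⟩, fun i k => ?_, fun x x' y y' => ?_⟩
  · rw [ip_add, ip_smul, ip_smul, h.diag, h'.diag]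
    ring
  · have e : ∀ k, ip x (f • z k + g • z' k) * ip (v k) y =
        f * (ip x (z k) * ip (v k) y) + g * (ip x (z' k) * ip (v k) y) := by
      intro k
      rw [ip_add, ip_smul, ip_smul]
      ring
    rw [sum_congr rfl fun k _ => e k, sum_add_distrib, ← mul_sum, ← mul_sum, h.hor, h'.hor]
    ring
  · have e : ∀ i k, rat v (fun k => f • z k + g • z' k) i k =
        f * rat v z i k + g * rat v z' i k := by
      intro i k
      unfold rat
      rw [ip_add, ip_smul, ip_smul]
      ring
    rw [e, e, h.anti i k, h'.anti i k]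
    ring
  · have e : ∀ k, (ip x (v k) * ip x' (f • z k + g • z' k) +
        ip x (f • z k + g • z' k) * ip x' (v k)) * (ip (v k) y * ip (v k) y') =
        f * ((ip x (v k) * ip x' (z k) + ip x (z k) * ip x' (v k)) *
          (ip (v k) y * ip (v k) y')) +
        g * ((ip x (v k) * ip x' (z' k) + ip x (z' k) * ip x' (v k)) *
          (ip (v k) y * ip (v k) y')) := by
      intro k
      rw [ip_add, ip_add, ip_smul, ip_smul, ip_smul, ip_smul]
      ring
    rw [sum_congr rfl fun k _ => e k, sum_add_distrib, ← mul_sum, ← mul_sum, h.bb, h'.bb]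
    ring

omit [DecidableEq ι] [Fintype ι] in
theorem rat_comb (f g : K) (i k : ι) : rat v (fun k => f • z k + g • z' k) i k =
    f * rat v z i k + g * rat v z' i k := by
  unfold rat
  rw [ip_add, ip_smul, ip_smul]
  ring

/-- combination of curves with real coefficients -/
theorem Curve.comb {D D' : K → K} {X X' : n → n → K} {th th' : ι → K} {f g : K}
    (hf : star f = f) (hg : star g = g) (h : Curve D X th v z) (h' : Curve D' X' th' v z') :
    Curve (fun a => f * D a + g * D' a) (fun p q => f * X p q + g * X' p q)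
      (fun k => f * th k + g * th' k) v (fun k => f • z k + g • z' k) := by
  refine ⟨⟨fun a b => ?_, fun a b => ?_, fun a => ?_⟩, ⟨fun p q => ?_, fun k => ?_⟩, h.sys, ?_,
    h.tan.comb f g h'.tan⟩
  · rw [h.der.add, h'.der.add]; ring
  · rw [h.der.mul, h'.der.mul]; ring
  · rw [h.der.star, h'.der.star, star_add, star_mul', star_mul', hf, hg]
  · rw [star_add, star_mul', star_mul', hf, hg, h.skew.X, h'.skew.X]; ring
  · rw [star_add, star_mul', star_mul', hf, hg, h.skew.th, h'.skew.th]; ring
  · have e1 := h.dv
    have e2 := h'.dv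
    funext k p
    have e3 := congrFun (congrFun e1 k) p
    have e4 := congrFun (congrFun e2 k) p
    simp only [nab] at e3 e4 ⊢
    simp only [Pi.add_apply, Pi.smul_apply, smul_eq_mul]
    rw [← e3, ← e4]
    have e5 : ∑ q, (f * X p q + g * X' p q) * v k q =
        f * ∑ q, X p q * v k q + g * ∑ q, X' p q * v k q := by
      rw [mul_sum, mul_sum, ← sum_add_distrib]
      exact sum_congr rfl fun q _ => by ring
    rw [e5]
    ring

end tanalg

variable [CharZero K] [DecidableEq ι] {v z w : ι → n → K}

/-- A tangent vector with real ratios vanishes. -/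
theorem Tan.eq_zero_of_real (hpos : SicAb.PosStar K) (hv : Sys v) (hz : Tan v z) (i : ι)
    (h : ∀ k, star (rat v z i k) = rat v z i k) : z i = 0 := by
  have hd := hv.dd_ne i
  have hd1 : dd n K + 1 ≠ 0 := dd_succ_ne
  have h1 := sum_a2 hv hz i
  have h2 := sum_s hv hz i
  have h3 : ∑ k, rat v z i k * star (rat v z i k) = ∑ k, rat v z i k ^ 2 :=
    sum_congr rfl fun k _ => by rw [h k]; ring
  rw [h3, h1] at h2
  exact ip_self hpos ((mul_eq_zero.1 h2.symm).resolve_left (mul_ne_zero hd hd1))

/-- A circle of maximal systems through `v` with velocity `z`. -/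
structure Cir (v z : ι → n → K) : Prop where
  sys : Sys v
  tan : Tan v z
  unit : ∀ k, ip (z k) (z k) = 1
  alt : ∀ i k, (star (rat v z i k) = rat v z i k ∧ ip (z i) (z k) = ip (v i) (v k)) ∨
    (rat v z i k ^ 2 = -1 ∧ star (rat v z i k) = -rat v z i k ∧
      ip (z i) (z k) = -ip (v i) (v k))

theorem Cir.sic_z (h : Cir v z) : Sic z := by
  refine ⟨h.unit, fun i k hik => ?_, h.sys.card⟩
  have h1 := h.sys.ang i k
  rw [if_neg hik, mul_zero, add_zero] at h1
  have h2 : star (ip (z i) (z k)) = ip (z k) (z i) := star_ip _ _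
  have h3 : star (ip (v i) (v k)) = ip (v k) (v i) := star_ip _ _
  rw [← h3] at h1
  rcases h.alt i k with h4 | h4
  · rw [← h2, h4.2]
    exact h1
  · rw [← h2, h4.2.2, star_neg]
    linear_combination h1

/-- the Gram matrix along the circle -/
theorem Cir.gram (h : Cir v z) {c s : K} (hc : star c = c) (hs : star s = s) (i k : ι) :
    ip (c • v i + s • z i) (c • v k + s • z k) = c * c * ip (v i) (v k) +
      c * s * ((rat v z i k - star (rat v z i k)) * ip (v i) (v k)) +
      s * s * ip (z i) (z k) := by
  rw [ip_add, ip_add_left, ip_add_left, ip_smul, ip_smul, ip_smul, ip_smul, ip_smul_left,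
    ip_smul_left, ip_smul_left, ip_smul_left, hc, hs, tr1 h.sys h.tan i k, tr3 h.sys h.tan i k]
  ring

theorem Cir.gram' (h : Cir v z) {c s : K} (hc : star c = c) (hs : star s = s) (i k : ι) :
    ip (c • v i + s • z i) (-s • v k + c • z k) = -(c * s) * ip (v i) (v k) +
      (c * c * rat v z i k + s * s * star (rat v z i k)) * ip (v i) (v k) +
      c * s * ip (z i) (z k) := by
  rw [ip_add, ip_add_left, ip_add_left, ip_smul, ip_smul, ip_smul_left,
    ip_smul_left, ip_smul_left, ip_smul_left, ip_smul, ip_smul, hc, hs,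
    tr1 h.sys h.tan i k, tr3 h.sys h.tan i k]
  ring

theorem Cir.gram'' (h : Cir v z) {c s : K} (hc : star c = c) (hs : star s = s) (i k : ι) :
    ip (-s • v i + c • z i) (-s • v k + c • z k) = s * s * ip (v i) (v k) -
      c * s * ((rat v z i k - star (rat v z i k)) * ip (v i) (v k)) +
      c * c * ip (z i) (z k) := by
  rw [ip_add, ip_add_left, ip_add_left, ip_smul, ip_smul, ip_smul_left,
    ip_smul_left, ip_smul_left, ip_smul_left, ip_smul, ip_smul, star_neg, hc, hs,
    tr1 h.sys h.tan i k, tr3 h.sys h.tan i k]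
  ring

theorem Cir.rot_sic (h : Cir v z) {c s : K} (hc : star c = c) (hs : star s = s)
    (hcs : c * c + s * s = 1) : Sic (fun k => c • v k + s • z k) := by
  refine ⟨fun k => ?_, fun i k hik => ?_, h.sys.card⟩
  · have h0 : rat v z k k = 0 := by
      unfold rat
      rw [h.tan.diag]
      ring
    rw [h.gram hc hs k k, h0, h.unit, h.sys.unit, star_zero]
    linear_combination hcs
  · have h1 := h.sys.ang i k
    rw [if_neg hik, mul_zero, add_zero] at h1
    have h2 : star (ip (c • v i + s • z i) (c • v k + s • z k)) =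
        ip (c • v k + s • z k) (c • v i + s • z i) := star_ip _ _
    have h3 : star (ip (v i) (v k)) = ip (v k) (v i) := star_ip _ _
    rw [← h3] at h1
    rw [← h2, h.gram hc hs i k]
    rcases h.alt i k with h4 | h4
    · rw [h4.2, h4.1, sub_self, zero_mul, mul_zero, add_zero, star_add, star_mul', star_mul',
        star_mul', star_mul', hc, hs]
      linear_combination (dd n K + 1) * ip (v i) (v k) * star (ip (v i) (v k)) *
        (c * c + s * s + 1) * hcs + h1
    · rw [h4.2.2, h4.2.1, star_add, star_add, star_mul', star_mul', star_mul', star_mul',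
        star_mul', star_mul', star_neg, hc, hs, star_sub, star_neg, h4.2.1]
      have h5 := h4.1
      rw [star_mul', hs]
      linear_combination (dd n K + 1) * ip (v i) (v k) * star (ip (v i) (v k)) *
        ((c * c + s * s + 1) * hcs - 4 * c ^ 2 * s ^ 2 * h5) + h1

/-- rotation of a circle -/
theorem Cir.rot [DecidableEq n] (hpos : SicAb.PosStar K) (h : Cir v z) {c s : K}
    (hc : star c = c) (hs : star s = s) (hcs : c * c + s * s = 1) :
    Cir (fun k => c • v k + s • z k) (fun k => -s • v k + c • z k) ∧
      ∀ i k, rat (fun k => c • v k + s • z k) (fun k => -s • v k + c • z k) i k =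
        rat v z i k := by
  have hsic := h.rot_sic hc hs hcs
  have hsys := hsic.sys hpos
  have h0 : ∀ k, rat v z k k = 0 := by
    intro k
    unfold rat
    rw [h.tan.diag]
    ring
  -- the mixed Gram matrix
  have hg' : ∀ i k, ip (c • v i + s • z i) (-s • v k + c • z k) =
      rat v z i k * ip (c • v i + s • z i) (c • v k + s • z k) := by
    intro i k
    rw [h.gram' hc hs i k, h.gram hc hs i k]
    rcases h.alt i k with h4 | h4
    · rw [h4.2, h4.1]
      ring
    · rw [h4.2.2, h4.2.1]
      have h5 := h4.1
      linear_combination -2 * c * s * ip (v i) (v k) * h5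
  have hrat : ∀ i k, rat (fun k => c • v k + s • z k) (fun k => -s • v k + c • z k) i k =
      rat v z i k := by
    intro i k
    have h1 := hsys.ang i k
    have h2 : rat (fun k => c • v k + s • z k) (fun k => -s • v k + c • z k) i k =
        (dd n K + 1) * (ip (c • v i + s • z i) (-s • v k + c • z k) *
          ip (c • v k + s • z k) (c • v i + s • z i)) := rfl
    rw [h2, hg' i k]
    by_cases hik : i = k
    · subst hik
      rw [h0]
      ring
    · rw [if_neg hik, mul_zero, add_zero] at h1
      linear_combination rat v z i k * h1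
  have hzsys := h.sic_z.sys hpos
  have hHor : Hor (fun k => c • v k + s • z k) (fun k => -s • v k + c • z k) := by
    refine ⟨fun k => ?_, fun x y => ?_⟩
    · rw [hg' k k, h0 k, zero_mul]
    · have e : ∀ k, ip x (-s • v k + c • z k) * ip (c • v k + s • z k) y =
          -(c * s) * (ip x (v k) * ip (v k) y) + (c * c) * (ip x (z k) * ip (v k) y) -
          s * s * (ip x (v k) * ip (z k) y) + c * s * (ip x (z k) * ip (z k) y) := by
        intro k
        rw [ip_add, ip_smul, ip_smul, ip_add_left, ip_smul_left, ip_smul_left, hc, hs]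
        ring
      rw [sum_congr rfl fun k _ => e k, sum_add_distrib, sum_sub_distrib, sum_add_distrib,
        ← mul_sum, ← mul_sum, ← mul_sum, ← mul_sum, h.sys.T1, h.tan.hor, three_hor' h.tan,
        hzsys.T1]
      ring
  have hT : Tan (fun k => c • v k + s • z k) (fun k => -s • v k + c • z k) := by
    refine hHor.tan hpos hsys fun i k => ?_
    rw [hrat, hrat, h.tan.anti i k, add_neg_cancel, star_zero, add_zero]
  refine ⟨⟨hsys, hT, fun k => ?_, fun i k => ?_⟩, hrat⟩
  · rw [h.gram'' hc hs k k, h0, h.unit, h.sys.unit, star_zero]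
    linear_combination hcs
  · rw [hrat, h.gram'' hc hs i k, h.gram hc hs i k]
    rcases h.alt i k with h4 | h4
    · left
      refine ⟨h4.1, ?_⟩
      rw [h4.2, h4.1]
      ring
    · right
      refine ⟨h4.1, h4.2.1, ?_⟩
      rw [h4.2.2]
      ring

/-- a square root of a norm -/
theorem exists_sqrt [IsAlgClosed K] (hpos : SicAb.PosStar K) (x : n → K) :
    ∃ s : K, star s = s ∧ s * s = ip x x := by
  obtain ⟨s, hs⟩ := IsAlgClosed.exists_pow_nat_eq (ip x x) (n := 2) two_pos
  have h1 : star s * star s = s * s := by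
    rw [← star_mul', ← sq, hs, star_ip]
  have h2 : (star s - s) * (star s + s) = 0 := by linear_combination h1
  rcases mul_eq_zero.1 h2 with h3 | h3
  · exact ⟨s, sub_eq_zero.1 h3, by rw [← sq, hs]⟩
  · -- the negative case
    have h4 : star s = -s := eq_neg_of_add_eq_zero_left h3
    have h5 := hpos (Option n) univ (fun o => o.elim s x) (by
      rw [Fintype.sum_option]
      simp only [Option.elim]
      rw [h4, neg_mul, ← sq, hs, ip_def, neg_add_cancel]) none (mem_univ _)
    have h6 : s = 0 := h5
    refine ⟨0, star_zero _, ?_⟩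
    rw [← hs, h6]
    ring

/-- The circle of a nonconstant curve. -/
theorem Curve.cir [DecidableEq n] [IsAlgClosed K] (hpos : SicAb.PosStar K) {D : K → K}
    {X : n → n → K} {th : ι → K} (hC : Curve D X th v z) (k₀ : ι) (hz0 : z k₀ ≠ 0) :
    ∃ s : K, star s = s ∧ s ≠ 0 ∧ Cir v (fun k => s⁻¹ • z k) := by
  obtain ⟨s, hs1, hs2⟩ := exists_sqrt hpos (z k₀)
  have hs0 : s ≠ 0 := by
    intro h
    apply hz0
    apply ip_self hpos
    rw [← hs2, h, mul_zero]
  have hsi : star s⁻¹ = s⁻¹ := by rw [star_inv₀, hs1]
  have hT : Tan v (fun k => s⁻¹ • z k) := by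
    have h1 := hC.tan.comb s⁻¹ 0 hC.tan
    have h2 : (fun k => s⁻¹ • z k + (0 : K) • z k) = fun k => s⁻¹ • z k := by
      funext k
      rw [zero_smul, add_zero]
    rwa [h2] at h1
  have hr : ∀ i k, rat v (fun k => s⁻¹ • z k) i k = s⁻¹ * rat v z i k := by
    intro i k
    unfold rat
    rw [ip_smul]
    ring
  have hzz : ∀ i, ip (z i) (z i) = s * s := fun i => by rw [hC.rho_eq hpos i k₀, hs2]
  refine ⟨s, hs1, hs0, hC.sys, hT, fun k => ?_, fun i k => ?_⟩
  · rw [ip_smul, ip_smul_left, hsi, hzz]
    field_simp
  · have h1 := hC.four_zz hpos i k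
    have h2 := hC.h_zero hpos i k
    have h3 := hC.four_alt hpos i k
    rw [hr, ip_smul, ip_smul_left, hsi, star_mul', hsi, h1]
    rw [hzz] at h2 ⊢
    unfold xx at h2 ⊢
    rcases h3 with h3 | h3
    · left
      rw [h3]
      refine ⟨rfl, ?_⟩
      field_simp
      ring
    · by_cases h4 : rat v z i k = 0
      · left
        rw [h4, star_zero]
        refine ⟨rfl, ?_⟩
        field_simp
        ring
      · right
        rw [h3] at h2
        have h5 : (rat v z i k - -rat v z i k) ≠ 0 := by
          intro h6
          apply h4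
          have h7 : (2 : K) * rat v z i k = 0 := by linear_combination h6
          exact (mul_eq_zero.1 h7).resolve_left two_ne_zero
        have h6 := (mul_eq_zero.1 h2).resolve_left h5
        have h7 : rat v z i k ^ 2 = -(s * s) := by
          have h8 : (2 : K) * (rat v z i k ^ 2 + s * s) = 0 := by linear_combination h6
          linear_combination (mul_eq_zero.1 h8).resolve_left two_ne_zero
        refine ⟨?_, by rw [h3]; ring, ?_⟩
        · rw [mul_pow, h7]
          field_simp
        · rw [h3]
          have h8 : s * s - (rat v z i k * -rat v z i k - rat v z i k ^ 2) = -(s * s) := by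
            linear_combination 2 * h7
          rw [h8]
          field_simp

end Pool.Agent.SicRg
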