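import Pool.Agent.Lib.MP_d0f9e0_co.Arith.Orth
import Pool.Agent.Lib.MP_d0f9e0_co.Bridge

/-!
# Maximal ETFs are determined by their triple products

Two maximal ETFs of `ℂ^d` with the same triple products differ by a unitary matrix and phases;
a maximal ETF with algebraic triple products is equivalent to one with algebraic coordinates.
-/

namespace Pool.Agent.SicRg.Cx

open Pool.Agent.Lib.MP_d0f9e0_co Pool.Agent.Lib.MP_d0f9e0_co.Arith Matrix

set_option linter.unusedSimpArgs false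

variable {d : ℕ}

/-- The triple products of a family of vectors. -/
noncomputable def tp (x : Fin (d ^ 2) → Fin d → ℂ) (i j k : Fin (d ^ 2)) : ℂ :=
  ip (x i) (x j) * ip (x j) (x k) * ip (x k) (x i)

theorem ip_star (u w : Fin d → ℂ) : star (ip u w) = ip w u := by
  unfold ip
  rw [star_sum]
  refine Finset.sum_congr rfl fun a _ => ?_
  rw [star_mul', star_star, mul_comm]

theorem ip_ne {x : Fin (d ^ 2) → Fin d → ℂ} (hx : IsMaximalETF d x) (i j : Fin (d ^ 2)) :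
    ip (x i) (x j) ≠ 0 := by
  by_cases hij : i = j
  · subst hij
    rw [hx.1]
    exact one_ne_zero
  · intro h0
    have h1 := hx.2 i j hij
    rw [h0, norm_zero] at h1
    have h2 : 0 < 1 / Real.sqrt ((d : ℝ) + 1) := by positivity
    rw [← h1] at h2
    exact lt_irrefl _ h2

theorem ip_norm {x y : Fin (d ^ 2) → Fin d → ℂ} (hx : IsMaximalETF d x) (hy : IsMaximalETF d y)
    (i j : Fin (d ^ 2)) : ‖ip (x i) (x j)‖ = ‖ip (y i) (y j)‖ := by
  by_cases hij : i = j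
  · subst hij
    rw [hx.1, hy.1]
  · rw [hx.2 i j hij, hy.2 i j hij]

/-- The matrix of the vectors. -/
def mt (x : Fin (d ^ 2) → Fin d → ℂ) : Matrix (Fin d) (Fin (d ^ 2)) ℂ := Matrix.of fun a k => x k a

theorem mt_tight {x : Fin (d ^ 2) → Fin d → ℂ} (hx : IsMaximalETF d x) :
    mt x * (mt x)ᴴ = (d : ℂ) • (1 : Matrix (Fin d) (Fin d) ℂ) := hx.toMaxETF.tight

theorem mt_gram (x : Fin (d ^ 2) → Fin d → ℂ) (j k : Fin (d ^ 2)) :
    ((mt x)ᴴ * mt x) j k = ip (x k) (x j) := by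
  rw [Matrix.mul_apply]
  unfold ip
  refine Finset.sum_congr rfl fun a _ => ?_
  rw [Matrix.conjTranspose_apply]
  simp only [mt, Matrix.of_apply]
  rw [mul_comm]

theorem smul_isMax {x : Fin (d ^ 2) → Fin d → ℂ} (hx : IsMaximalETF d x) (c : Fin (d ^ 2) → ℂ)
    (hc : ∀ k, ‖c k‖ = 1) : IsMaximalETF d (fun k => c k • x k) := by
  have e1 : ∀ i j, ip (c i • x i) (c j • x j) = c i * star (c j) * ip (x i) (x j) := by
    intro i j
    unfold ip
    rw [Finset.mul_sum]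
    refine Finset.sum_congr rfl fun a _ => ?_
    simp only [Pi.smul_apply, smul_eq_mul, star_mul']
    ring
  refine ⟨fun i => ?_, fun i j hij => ?_⟩
  · rw [e1, hx.1, mul_one]
    have h1 : c i * star (c i) = ((‖c i‖ ^ 2 : ℝ) : ℂ) := by
      have := Complex.mul_conj (c i)
      rw [Complex.normSq_eq_norm_sq] at this
      exact this
    rw [h1, hc]
    norm_num
  · rw [e1, norm_mul, norm_mul, norm_star, hc, hc, one_mul, one_mul]
    exact hx.2 i j hij

theorem mulVec_isMax {x : Fin (d ^ 2) → Fin d → ℂ} (hx : IsMaximalETF d x)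
    (U : Matrix (Fin d) (Fin d) ℂ) (hU : Uᴴ * U = 1) :
    (∀ i j, ip (U.mulVec (x i)) (U.mulVec (x j)) = ip (x i) (x j)) ∧
      IsMaximalETF d (fun k => U.mulVec (x k)) := by
  have e1 : ∀ i j, ip (U.mulVec (x i)) (U.mulVec (x j)) = ip (x i) (x j) := by
    intro i j
    have h1 : ∀ u v : Fin d → ℂ, ip u v = star v ⬝ᵥ u := by
      intro u v
      unfold ip dotProduct
      refine Finset.sum_congr rfl fun a _ => ?_
      rw [Pi.star_apply, mul_comm]
    rw [h1, h1, Matrix.star_mulVec, ← Matrix.dotProduct_mulVec, Matrix.mulVec_mulVec, hU,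
      Matrix.one_mulVec]
  refine ⟨e1, fun i => ?_, fun i j hij => ?_⟩
  · rw [e1]
    exact hx.1 i
  · rw [e1]
    exact hx.2 i j hij

/-- Maximal ETFs with the same Gram matrix differ by a unitary matrix. -/
theorem unitary_of_gram {x y : Fin (d ^ 2) → Fin d → ℂ} (hx : IsMaximalETF d x)
    (hy : IsMaximalETF d y) (hd : d ≠ 0) (h : ∀ j k, ip (x j) (x k) = ip (y j) (y k)) :
    ∃ U ∈ Matrix.unitaryGroup (Fin d) ℂ, ∀ k, U.mulVec (x k) = y k := by
  have hd' : (d : ℂ) ≠ 0 := by exact_mod_cast hd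
  have hg : (mt x)ᴴ * mt x = (mt y)ᴴ * mt y := by
    ext j k
    rw [mt_gram, mt_gram, h]
  set U : Matrix (Fin d) (Fin d) ℂ := (d : ℂ)⁻¹ • (mt y * (mt x)ᴴ) with hUd
  have h1 : Uᴴ = (d : ℂ)⁻¹ • (mt x * (mt y)ᴴ) := by
    rw [hUd, Matrix.conjTranspose_smul, Matrix.conjTranspose_mul, Matrix.conjTranspose_conjTranspose]
    congr 1
    rw [star_inv₀, star_natCast]
  have h2 : Uᴴ * U = 1 := by
    rw [h1, hUd, Matrix.smul_mul, Matrix.mul_smul, Matrix.mul_assoc, ← Matrix.mul_assoc (mt y)ᴴ,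
      ← hg, Matrix.mul_assoc (mt x)ᴴ, mt_tight hx, Matrix.mul_smul, Matrix.mul_one,
      Matrix.mul_smul, mt_tight hx, smul_smul, smul_smul, smul_smul]
    have : (d : ℂ)⁻¹ * ((d : ℂ)⁻¹ * ((d : ℂ) * (d : ℂ))) = 1 := by field_simp
    have h5 : (d : ℂ)⁻¹ * (d : ℂ)⁻¹ * (d : ℂ) * (d : ℂ) = 1 := by
      rw [← this]
      ring
    rw [h5, one_smul]
  have h3 : U * mt x = mt y := by
    rw [hUd, Matrix.smul_mul, Matrix.mul_assoc, hg, ← Matrix.mul_assoc, mt_tight hy,
      Matrix.smul_mul, Matrix.one_mul, smul_smul, inv_mul_cancel₀ hd', one_smul]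
  refine ⟨U, Matrix.mem_unitaryGroup_iff'.2 h2, fun k => ?_⟩
  funext a
  have h4 := congrFun (congrFun h3 a) k
  exact h4

/-- Maximal ETFs with the same triple products differ by a unitary matrix and phases. -/
theorem equiv_of_tp {x y : Fin (d ^ 2) → Fin d → ℂ} (hx : IsMaximalETF d x)
    (hy : IsMaximalETF d y) (h : ∀ i j k, tp x i j k = tp y i j k) :
    ∃ U ∈ Matrix.unitaryGroup (Fin d) ℂ, ∀ i, ∃ c : ℂ, ‖c‖ = 1 ∧ y i = c • U.mulVec (x i) := by
  rcases Nat.eq_zero_or_pos d with hd | hd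
  · subst hd
    exact ⟨1, Submonoid.one_mem _, fun i => (Fin.elim0 (i.cast (by norm_num)))⟩
  have o : Fin (d ^ 2) := ⟨0, by positivity⟩
  set c : Fin (d ^ 2) → ℂ := fun k => ip (x o) (x k) / ip (y o) (y k) with hc
  have hcn : ∀ k, ‖c k‖ = 1 := by
    intro k
    rw [hc, norm_div, ip_norm hx hy, div_self]
    exact (norm_ne_zero_iff.2 (ip_ne hy o k))
  have hx' := smul_isMax hx c hcn
  have hg : ∀ j k, ip (c j • x j) (c k • x k) = ip (y j) (y k) := by
    intro j k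
    have e1 : ip (c j • x j) (c k • x k) = c j * star (c k) * ip (x j) (x k) := by
      unfold ip
      rw [Finset.mul_sum]
      refine Finset.sum_congr rfl fun a _ => ?_
      simp only [Pi.smul_apply, smul_eq_mul, star_mul']
      ring
    have e2 := h o j k
    unfold tp at e2
    rw [e1, hc]
    simp only [star_div₀, ip_star]
    have n1 := ip_ne hy o j
    have n2 := ip_ne hy k o
    field_simp
    linear_combination e2
  obtain ⟨U, hU, hUx⟩ := unitary_of_gram hx' hy hd.ne' hg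
  refine ⟨U, hU, fun i => ⟨c i, hcn i, ?_⟩⟩
  rw [← hUx i, Matrix.mulVec_smul]

/-- The field of algebraic numbers. -/
noncomputable def Qa : Subfield ℂ := (algebraicClosure ℚ ℂ).toSubfield

theorem mem_Qa {z : ℂ} : z ∈ Qa ↔ IsAlgebraic ℚ z := mem_algebraicClosure_iff

theorem star_mem_Qa {z : ℂ} (hz : z ∈ Qa) : star z ∈ Qa := by
  rw [mem_Qa] at hz ⊢
  exact hz.algHom ((starRingEnd ℂ).toRatAlgHom)

theorem sqrt_mem_Qa {r : ℝ} (hr : 0 ≤ r) (h : ((r : ℝ) : ℂ) ∈ Qa) :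
    ((Real.sqrt r : ℝ) : ℂ) ∈ Qa := by
  rw [mem_Qa] at h ⊢
  have h1 : ((Real.sqrt r : ℝ) : ℂ) ^ 2 = ((r : ℝ) : ℂ) := by
    rw [← Complex.ofReal_pow, Real.sq_sqrt hr]
  refine IsAlgebraic.of_pow (n := 2) two_pos ?_
  rw [h1]
  exact h

theorem ip_smul_smul' (s t : ℂ) (u w : Fin d → ℂ) : ip (s • u) (t • w) = s * star t * ip u w := by
  unfold ip
  rw [Finset.mul_sum]
  refine Finset.sum_congr rfl fun a _ => ?_
  simp only [Pi.smul_apply, smul_eq_mul, star_mul']
  ring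

theorem mul_star_of_norm {c : ℂ} (hc : ‖c‖ = 1) : c * star c = 1 := by
  have := Complex.mul_conj c
  rw [Complex.normSq_eq_norm_sq, hc, one_pow] at this
  rw [Complex.ofReal_one] at this
  exact this

theorem tp_smul (x : Fin (d ^ 2) → Fin d → ℂ) (c : Fin (d ^ 2) → ℂ) (hc : ∀ k, ‖c k‖ = 1)
    (i j k : Fin (d ^ 2)) : tp (fun k => c k • x k) i j k = tp x i j k := by
  unfold tp
  simp only [ip_smul_smul']
  have h1 := mul_star_of_norm (hc i)
  have h2 := mul_star_of_norm (hc j)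
  have h3 := mul_star_of_norm (hc k)
  calc _ = (c i * star (c i)) * (c j * star (c j)) * (c k * star (c k)) *
        (ip (x i) (x j) * ip (x j) (x k) * ip (x k) (x i)) := by ring
    _ = _ := by rw [h1, h2, h3]; ring

theorem span_top {x : Fin (d ^ 2) → Fin d → ℂ} (hx : IsMaximalETF d x) (hd : d ≠ 0) :
    Submodule.span ℂ (Set.range x) = ⊤ := by
  have hd' : (d : ℂ) ≠ 0 := by exact_mod_cast hd
  rw [eq_top_iff]
  intro u _
  have h1 := mt_tight hx
  have h2 : u = ∑ k, ((d : ℂ)⁻¹ * ip u (x k)) • x k := by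
    funext a
    rw [Finset.sum_apply]
    have h3 : ∀ k, (((d : ℂ)⁻¹ * ip u (x k)) • x k) a =
        ∑ b, (d : ℂ)⁻¹ * (u b * (x k a * star (x k b))) := by
      intro k
      rw [Pi.smul_apply, smul_eq_mul]
      unfold ip
      rw [Finset.mul_sum, Finset.sum_mul]
      refine Finset.sum_congr rfl fun b _ => ?_
      ring
    rw [Finset.sum_congr rfl fun k _ => h3 k, Finset.sum_comm]
    have h4 : ∀ b, ∑ k, (d : ℂ)⁻¹ * (u b * (x k a * star (x k b))) =
        (d : ℂ)⁻¹ * (u b * (if a = b then (d : ℂ) else 0)) := by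
      intro b
      rw [← Finset.mul_sum, ← Finset.mul_sum]
      congr 2
      have h5 := congrFun (congrFun h1 a) b
      rw [Matrix.mul_apply, Matrix.smul_apply, Matrix.one_apply, smul_eq_mul] at h5
      have h6 : ∑ k, x k a * star (x k b) = (d : ℂ) * (if a = b then 1 else 0) := h5
      rw [h6]
      split_ifs <;> simp
    rw [Finset.sum_congr rfl fun b _ => h4 b]
    simp only [mul_ite, mul_zero, Finset.sum_ite_eq, Finset.mem_univ, if_true]
    field_simp
  rw [h2]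
  exact Submodule.sum_mem _ fun k _ =>
    Submodule.smul_mem _ _ (Submodule.subset_span ⟨k, rfl⟩)

/-- A maximal ETF with algebraic triple products is equivalent to one with algebraic coordinates. -/
theorem exists_alg_form {x : Fin (d ^ 2) → Fin d → ℂ} (hx : IsMaximalETF d x)
    (h : ∀ i j k, IsAlgebraic ℚ (tp x i j k)) :
    ∃ y : Fin (d ^ 2) → Fin d → ℂ, IsMaximalETF d y ∧ (∀ i a, IsAlgebraic ℚ (y i a)) ∧
      ∀ i j k, tp y i j k = tp x i j k := by
  rcases Nat.eq_zero_or_pos d with hd | hd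
  · subst hd
    exact ⟨x, hx, fun i => (Fin.elim0 (i.cast (by norm_num))),
      fun i j k => rfl⟩
  have o : Fin (d ^ 2) := ⟨0, by positivity⟩
  obtain ⟨e, he0, he1, he2, he3⟩ := exists_orth x o (span_top hx hd.ne') hx.1
    (fun i => ip_ne hx i o) Qa (fun z hz => star_mem_Qa hz) (fun i j k => mem_Qa.2 (h i j k))
  -- the lengths
  have hr : ∀ a, ∃ s : ℝ, s ≠ 0 ∧ ((s : ℝ) : ℂ) ^ 2 = ip (e a) (e a) ∧ ((s : ℝ) : ℂ) ∈ Qa := by
    intro a
    have h1 : ip (e a) (e a) = ((∑ k, ‖e a k‖ ^ 2 : ℝ) : ℂ) := by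
      unfold ip
      push_cast
      refine Finset.sum_congr rfl fun k _ => ?_
      have := Complex.mul_conj (e a k)
      rw [Complex.normSq_eq_norm_sq] at this
      rw [← Complex.ofReal_pow]
      exact this
    have h2 : 0 ≤ ∑ k, ‖e a k‖ ^ 2 := Finset.sum_nonneg fun k _ => by positivity
    refine ⟨Real.sqrt (∑ k, ‖e a k‖ ^ 2), ?_, ?_, ?_⟩
    · intro h3
      rw [Real.sqrt_eq_zero h2] at h3
      apply he1 a
      rw [h1, h3, Complex.ofReal_zero]
    · rw [← Complex.ofReal_pow, Real.sq_sqrt h2, h1]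
    · apply sqrt_mem_Qa h2
      rw [← h1]
      exact he2 a
  choose s hs0 hs2 hsQ using hr
  have hs0' : ∀ a, ((s a : ℝ) : ℂ) ≠ 0 := fun a => by exact_mod_cast hs0 a
  set U : Matrix (Fin d) (Fin d) ℂ := Matrix.of fun a k => star (e a k) / ((s a : ℝ) : ℂ) with hUd
  have hUU : U * Uᴴ = 1 := by
    ext a b
    rw [Matrix.mul_apply]
    have h1 : ∀ k, U a k * Uᴴ k b = (((s a : ℝ) : ℂ) * ((s b : ℝ) : ℂ))⁻¹ *
        (e b k * star (e a k)) := by
      intro k
      rw [Matrix.conjTranspose_apply, hUd, Matrix.of_apply, Matrix.of_apply, star_div₀, star_star]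
      have h2 : star ((s b : ℝ) : ℂ) = ((s b : ℝ) : ℂ) := Complex.conj_ofReal _
      rw [h2, mul_inv]
      ring
    rw [Finset.sum_congr rfl fun k _ => h1 k, ← Finset.mul_sum]
    change _ * ip (e b) (e a) = _
    by_cases hab : a = b
    · subst hab
      rw [Matrix.one_apply_eq, ← hs2, ← sq, inv_mul_cancel₀ (pow_ne_zero 2 (hs0' a))]
    · rw [Matrix.one_apply_ne hab, he0 b a (Ne.symm hab), mul_zero]
  have hUU' : Uᴴ * U = 1 := mul_eq_one_comm.1 hUU
  obtain ⟨hU1, hU2⟩ := mulVec_isMax hx U hUU'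
  have hUv : ∀ v a, U.mulVec v a = ip v (e a) / ((s a : ℝ) : ℂ) := by
    intro v a
    unfold ip Matrix.mulVec dotProduct
    rw [Finset.sum_div]
    refine Finset.sum_congr rfl fun k _ => ?_
    change star (e a k) / ((s a : ℝ) : ℂ) * v k = v k * star (e a k) / ((s a : ℝ) : ℂ)
    ring
  have hUne : ∀ i, ∃ b, U.mulVec (x i) b ≠ 0 := by
    intro i
    by_contra hcon
    push Not at hcon
    have h1 : ip (U.mulVec (x i)) (U.mulVec (x i)) = 1 := hU2.1 i
    unfold ip at h1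
    rw [Finset.sum_eq_zero (fun k _ => by rw [hcon k, zero_mul])] at h1
    exact zero_ne_one h1
  choose b hb using hUne
  have hprod : ∀ i a, U.mulVec (x i) a * star (U.mulVec (x i) (b i)) ∈ Qa := by
    intro i a
    have h1 : U.mulVec (x i) a * star (U.mulVec (x i) (b i)) =
        (ip (x i) (e a) * ip (e (b i)) (x i)) / (((s a : ℝ) : ℂ) * ((s (b i) : ℝ) : ℂ)) := by
      rw [hUv, hUv, star_div₀, ip_star]
      have h2 : star ((s (b i) : ℝ) : ℂ) = ((s (b i) : ℝ) : ℂ) := Complex.conj_ofReal _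
      rw [h2]
      field_simp
    rw [h1]
    exact Qa.div_mem (he3 _ _ _) (Qa.mul_mem (hsQ _) (hsQ _))
  have hnorm : ∀ i, ((‖U.mulVec (x i) (b i)‖ : ℝ) : ℂ) ∈ Qa := by
    intro i
    have h1 : ‖U.mulVec (x i) (b i)‖ = Real.sqrt (‖U.mulVec (x i) (b i)‖ ^ 2) :=
      (Real.sqrt_sq (norm_nonneg _)).symm
    rw [h1]
    apply sqrt_mem_Qa (by positivity)
    have h2 := Complex.mul_conj (U.mulVec (x i) (b i))
    rw [Complex.normSq_eq_norm_sq] at h2
    rw [← h2]
    exact hprod i (b i)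
  set c : Fin (d ^ 2) → ℂ := fun i =>
    star (U.mulVec (x i) (b i)) / ((‖U.mulVec (x i) (b i)‖ : ℝ) : ℂ) with hcd
  have hcn : ∀ i, ‖c i‖ = 1 := by
    intro i
    rw [hcd]
    simp only [norm_div, norm_star, Complex.norm_real, norm_norm]
    exact div_self (norm_ne_zero_iff.2 (hb i))
  refine ⟨fun i => c i • U.mulVec (x i), smul_isMax hU2 c hcn, fun i a => ?_, fun i j k => ?_⟩
  · rw [← mem_Qa]
    have h1 : (c i • U.mulVec (x i)) a = (U.mulVec (x i) a * star (U.mulVec (x i) (b i))) /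
        ((‖U.mulVec (x i) (b i)‖ : ℝ) : ℂ) := by
      rw [Pi.smul_apply, smul_eq_mul, hcd]
      ring
    change (c i • U.mulVec (x i)) a ∈ Qa
    rw [h1]
    exact Qa.div_mem (hprod i a) (hnorm i)
  · rw [tp_smul (fun i => U.mulVec (x i)) c hcn i j k]
    unfold tp
    simp only [hU1]

/-- The list of representatives. -/
theorem exists_list (hfin : {T : Fin (d ^ 2) → Fin (d ^ 2) → Fin (d ^ 2) → ℂ |
      ∃ x : Fin (d ^ 2) → Fin d → ℂ, IsMaximalETF d x ∧ T = tp x}.Finite)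
    (halg : ∀ x : Fin (d ^ 2) → Fin d → ℂ, IsMaximalETF d x → ∀ i j k,
      IsAlgebraic ℚ (tp x i j k)) :
    ∃ F : Set (Fin (d ^ 2) → Fin d → ℂ), F.Finite ∧
      (∀ x ∈ F, IsMaximalETF d x ∧ ∀ i a, IsAlgebraic ℚ (x i a)) ∧
      ∀ y : Fin (d ^ 2) → Fin d → ℂ, IsMaximalETF d y →
        ∃ x ∈ F, ∃ U ∈ Matrix.unitaryGroup (Fin d) ℂ, ∀ i, ∃ c : ℂ, ‖c‖ = 1 ∧
          y i = c • U.mulVec (x i) := by
  classical
  set S := {T : Fin (d ^ 2) → Fin (d ^ 2) → Fin (d ^ 2) → ℂ |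
      ∃ x : Fin (d ^ 2) → Fin d → ℂ, IsMaximalETF d x ∧ T = tp x} with hS
  have h1 : ∀ T : S, ∃ y : Fin (d ^ 2) → Fin d → ℂ, IsMaximalETF d y ∧
      (∀ i a, IsAlgebraic ℚ (y i a)) ∧ ∀ i j k, tp y i j k = T.1 i j k := by
    rintro ⟨T, x, hx, rfl⟩
    exact exists_alg_form hx (halg x hx)
  choose f hf1 hf2 hf3 using h1
  have hfin' : Finite S := hfin
  refine ⟨Set.range f, Set.finite_range f, ?_, fun y hy => ?_⟩
  · rintro _ ⟨T, rfl⟩
    exact ⟨hf1 T, hf2 T⟩
  · have hyS : tp y ∈ S := ⟨y, hy, rfl⟩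
    refine ⟨f ⟨tp y, hyS⟩, ⟨_, rfl⟩, ?_⟩
    exact equiv_of_tp (hf1 _) hy (fun i j k => hf3 ⟨tp y, hyS⟩ i j k)

end Pool.Agent.SicRg.Cx
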