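import Pool.Agent.Lib.MP_d0f9e0_co.Rg.Count
import Pool.Agent.Lib.MP_d0f9e0_co.Rg.Eqv
import Pool.Agent.Lib.MP_d0f9e0_co.Ab.Finite
import Pool.Agent.Lib.MP_d0f9e0_co.Ci.Der

/-!
# From rigidity to algebraicity and finiteness
-/

namespace Pool.Agent.SicRg

open Finset Polynomial Pool.Agent.SicFin Pool.Agent.SicAb Cx

open Pool.Agent.Lib.MP_d0f9e0_co (IsMaximalETF)

variable {d : ℕ}

/-- The triple products. -/
def tk {K : Type*} [Field K] [StarRing K] (v : Fin (d ^ 2) → Fin d → K) (i j k : Fin (d ^ 2)) : K :=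
  ip (v i) (v j) * ip (v j) (v k) * ip (v k) (v i)

/-- All derivations commuting with the star operation kill the triple products. -/
def RigidD (d : ℕ) : Prop :=
  ∀ (K : Type) [Field K] [CharZero K] [IsAlgClosed K] [StarRing K], PosStar K →
    ∀ (D : Derivation ℚ K K), (∀ z, D (star z) = star (D z)) →
    ∀ v : Fin (d ^ 2) → Fin d → K, Sic v → ∀ i j k, D (tk v i j k) = 0

/-- All triple products are algebraic. -/
def AlgR (d : ℕ) : Prop :=
  ∀ (K : Type) [Field K] [CharZero K] [IsAlgClosed K] [StarRing K], PosStar K →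
    ∀ v : Fin (d ^ 2) → Fin d → K, Sic v → ∀ i j k, IsAlgebraic ℚ (tk v i j k)

theorem dd_fin {K : Type*} [NatCast K] : dd (Fin d) K = (d : K) := by
  unfold dd
  rw [Fintype.card_fin]

/-- The imaginary unit. -/
theorem exists_I' {K : Type} [Field K] [CharZero K] [IsAlgClosed K] [StarRing K]
    (hpos : PosStar K) : ∃ I : K, I * I = -1 ∧ star I = -I := by
  obtain ⟨I, hI⟩ := IsAlgClosed.exists_pow_nat_eq (-1 : K) (n := 2) two_pos
  have hII : I * I = -1 := by rw [← sq, hI]
  have h1 : star I * star I = -1 := by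
    rw [← star_mul', hII, star_neg, star_one]
  have h2 : (star I - I) * (star I + I) = 0 := by linear_combination h1 - hII
  rcases mul_eq_zero.1 h2 with h3 | h3
  · exfalso
    have h4 : star I = I := sub_eq_zero.1 h3
    have h5 := hpos Bool Finset.univ (fun b => if b then 1 else I) (by
      rw [Fintype.sum_bool]
      simp only [if_true, Bool.false_eq_true, if_false, star_one, mul_one]
      rw [h4, hII, add_neg_cancel]) true (Finset.mem_univ _)
    simp only [if_true] at h5
    exact one_ne_zero h5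
  · exact ⟨I, hII, eq_neg_of_add_eq_zero_left h3⟩

theorem algR_of_rigidD (h : RigidD d) : AlgR d := by
  intro K _ _ _ _ hpos v hv i j k
  by_contra hcon
  have ht : Transcendental ℚ (tk v i j k) := hcon
  obtain ⟨I, hI, hsI⟩ := exists_I' hpos
  obtain ⟨D, hD, hDt⟩ := SicCi.exists_star_derivation I hI hsI ht
  exact hDt (h K hpos D hD v hv i j k)

theorem ip_eq (u w : Fin d → ℂ) : ip u w = Lib.MP_d0f9e0_co.ip w u := by
  unfold ip Lib.MP_d0f9e0_co.ip
  refine Finset.sum_congr rfl fun a _ => ?_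
  rw [mul_comm]

/-- Complex maximal ETFs. -/
theorem sic_of_isMax {x : Fin (d ^ 2) → Fin d → ℂ} (hx : IsMaximalETF d x) : Sic x := by
  refine ⟨fun k => ?_, fun i k hik => ?_, by simp⟩
  · rw [ip_eq]
    exact hx.1 k
  · rw [ip_eq, ip_eq, dd_fin, ← ip_star (x i) (x k)]
    have h1 : star (Lib.MP_d0f9e0_co.ip (x i) (x k)) * Lib.MP_d0f9e0_co.ip (x i) (x k) =
        ((‖Lib.MP_d0f9e0_co.ip (x i) (x k)‖ ^ 2 : ℝ) : ℂ) := by
      have := Complex.mul_conj (Lib.MP_d0f9e0_co.ip (x i) (x k))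
      rw [Complex.normSq_eq_norm_sq, mul_comm] at this
      exact this
    have h2 : ‖Lib.MP_d0f9e0_co.ip (x i) (x k)‖ ^ 2 = ((d : ℝ) + 1)⁻¹ := by
      rw [hx.2 i k hik, div_pow, one_pow, Real.sq_sqrt (by positivity), one_div]
    rw [h1, h2]
    push_cast
    have h3 : ((d : ℂ) + 1) ≠ 0 := by exact_mod_cast Nat.succ_ne_zero d
    exact mul_inv_cancel₀ h3

theorem tk_eq_tp (x : Fin (d ^ 2) → Fin d → ℂ) (i j k : Fin (d ^ 2)) :
    tk x i j k = tp x i k j := by
  unfold tk tp
  simp only [ip_eq]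
  ring

theorem germ_ip (u w : ℕ → Fin d → ℂ) :
    ip (fun r => ((fun n => u n r : ℕ → ℂ) : GermField))
      (fun r => ((fun n => w n r : ℕ → ℂ) : GermField)) =
      ((fun n => ip (u n) (w n) : ℕ → ℂ) : GermField) := by
  unfold ip
  have h1 : ∀ r : Fin d, star ((fun n => u n r : ℕ → ℂ) : GermField) *
      ((fun n => w n r : ℕ → ℂ) : GermField) =
      ((fun n => star (u n r) * w n r : ℕ → ℂ) : GermField) := fun r => rfl
  rw [Finset.sum_congr rfl fun r _ => h1 r, germ_sum]

theorem aeval_germ (z : ℕ → ℂ) (g : ℚ[X]) :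
    aeval ((z : ℕ → ℂ) : GermField) g = ((fun n => aeval (z n) g : ℕ → ℂ) : GermField) := by
  induction g using Polynomial.induction_on' with
  | add a b ha hb =>
    rw [map_add, ha, hb]
    simp only [map_add]
    rfl
  | monomial m a =>
    simp only [aeval_monomial]
    have h3 : algebraMap ℚ GermField a = ((fun _ => algebraMap ℚ ℂ a : ℕ → ℂ) : GermField) := by
      have h4 : algebraMap ℚ GermField a = constGerm (algebraMap ℚ ℂ a) := by
        rw [eq_ratCast, eq_ratCast, map_ratCast]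
      rw [h4]
      rfl
    rw [h3]
    rfl

/-- The set of tensors of triple products is finite. -/
theorem tp_finite (hA : AlgR d) : {T : Fin (d ^ 2) → Fin (d ^ 2) → Fin (d ^ 2) → ℂ |
      ∃ x : Fin (d ^ 2) → Fin d → ℂ, IsMaximalETF d x ∧ T = tp x}.Finite := by
  classical
  by_contra hinf
  set S := {T : Fin (d ^ 2) → Fin (d ^ 2) → Fin (d ^ 2) → ℂ |
      ∃ x : Fin (d ^ 2) → Fin d → ℂ, IsMaximalETF d x ∧ T = tp x} with hS
  have hinf' : S.Infinite := hinf
  obtain ⟨P, hP⟩ : ∃ P : ℕ → S, Function.Injective P :=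
    ⟨hinf'.natEmbedding, hinf'.natEmbedding.injective⟩
  choose x hx hPx using fun n => (P n).2
  have hip : ∀ i j, ip (fun r => ((fun n => x n i r : ℕ → ℂ) : GermField))
      (fun r => ((fun n => x n j r : ℕ → ℂ) : GermField)) =
      ((fun n => ip (x n i) (x n j) : ℕ → ℂ) : GermField) := fun i j =>
    germ_ip (fun n => x n i) (fun n => x n j)
  have hsol : Sic (K := GermField) (fun i r => ((fun n => x n i r : ℕ → ℂ) : GermField)) := by
    refine ⟨fun k => ?_, fun i k hik => ?_, by simp⟩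
    · rw [hip]
      have h2 : (fun n => ip (x n k) (x n k)) = fun _ => (1 : ℂ) := by
        funext n
        exact (sic_of_isMax (hx n)).unit k
      rw [h2]
      rfl
    · rw [hip, hip, dd_fin]
      have h2 : (fun n => ((d : ℂ) + 1) * (ip (x n i) (x n k) * ip (x n k) (x n i))) =
          fun _ => (1 : ℂ) := by
        funext n
        have h3 := (sic_of_isMax (hx n)).ang i k hik
        rwa [dd_fin] at h3
      have h3 : ((fun n => ((d : ℂ) + 1) * (ip (x n i) (x n k) * ip (x n k) (x n i)) :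
          ℕ → ℂ) : GermField) = ((fun _ => (1 : ℂ) : ℕ → ℂ) : GermField) := by rw [h2]
      exact h3
  have halg : ∀ i j k, IsAlgebraic ℚ ((fun n => tp (x n) i j k : ℕ → ℂ) : GermField) := by
    intro i j k
    have h1 := hA GermField posStar_germ _ hsol i k j
    have h2 : tk (fun i r => ((fun n => x n i r : ℕ → ℂ) : GermField)) i k j =
        ((fun n => tp (x n) i j k : ℕ → ℂ) : GermField) := by
      unfold tk
      rw [hip, hip, hip]
      have h3 : (fun n => tp (x n) i j k) = fun n => ip (x n i) (x n k) * ip (x n k) (x n j) *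
          ip (x n j) (x n i) := by
        funext n
        rw [← tk_eq_tp]
        rfl
      rw [h3]
      rfl
    rwa [h2] at h1
  choose q hq0 hq using halg
  have hev : ∀ i j k, ∀ᶠ n in (Filter.hyperfilter ℕ : Filter ℕ),
      aeval (tp (x n) i j k) (q i j k) = 0 := by
    intro i j k
    have h1 := hq i j k
    rw [aeval_germ] at h1
    exact Filter.Germ.coe_eq.mp h1
  have hall : ∀ᶠ n in (Filter.hyperfilter ℕ : Filter ℕ), ∀ i j k,
      aeval (tp (x n) i j k) (q i j k) = 0 := by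
    rw [Filter.eventually_all]
    intro i
    rw [Filter.eventually_all]
    intro j
    rw [Filter.eventually_all]
    intro k
    exact hev i j k
  have hfinset : {T : Fin (d ^ 2) → Fin (d ^ 2) → Fin (d ^ 2) → ℂ |
      ∀ i j k, aeval (T i j k) (q i j k) = 0}.Finite := by
    have h0 : ∀ i j k, {w : ℂ | aeval w (q i j k) = 0}.Finite := by
      intro i j k
      refine ((q i j k).rootSet_finite ℂ).subset fun w hw => ?_
      rw [mem_rootSet]
      exact ⟨hq0 i j k, hw⟩
    have h1 : ∀ i j, {g : Fin (d ^ 2) → ℂ | ∀ k, g k ∈ {w : ℂ | aeval w (q i j k) = 0}}.Finite :=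
      fun i j => Set.Finite.pi' fun k => h0 i j k
    have h2 : ∀ i, {g : Fin (d ^ 2) → Fin (d ^ 2) → ℂ | ∀ j, g j ∈
        {g : Fin (d ^ 2) → ℂ | ∀ k, g k ∈ {w : ℂ | aeval w (q i j k) = 0}}}.Finite :=
      fun i => Set.Finite.pi' fun j => h1 i j
    exact Set.Finite.pi' h2
  have hfin : {n : ℕ | ∀ i j k, aeval (tp (x n) i j k) (q i j k) = 0}.Finite := by
    refine (hfinset.preimage
      (f := fun n => (P n : Fin (d ^ 2) → Fin (d ^ 2) → Fin (d ^ 2) → ℂ))
      (fun a _ b _ h => hP (Subtype.ext h))).subset fun n hn => ?_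
    rw [Set.mem_preimage, Set.mem_ofPred_eq, hPx n]
    exact hn
  exact Filter.notMem_hyperfilter_of_finite hfin hall

/-- A finite list of representatives with algebraic coordinates. -/
theorem list_of_rigidD (h : RigidD d) :
    ∃ F : Set (Fin (d ^ 2) → Fin d → ℂ), F.Finite ∧
      (∀ x ∈ F, IsMaximalETF d x ∧ ∀ i a, IsAlgebraic ℚ (x i a)) ∧
      ∀ y : Fin (d ^ 2) → Fin d → ℂ, IsMaximalETF d y →
        ∃ x ∈ F, ∃ U ∈ Matrix.unitaryGroup (Fin d) ℂ, ∀ i, ∃ c : ℂ, ‖c‖ = 1 ∧
          y i = c • U.mulVec (x i) := by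
  have hA := algR_of_rigidD h
  refine exists_list (tp_finite hA) fun x hx i j k => ?_
  rw [← tk_eq_tp]
  exact hA ℂ posStar_complex x (sic_of_isMax hx) i k j

theorem rigidD (h4 : ¬ 4 ∣ d * (d + 1)) : RigidD d := by
  intro K _ _ _ _ hpos D hD v hv i j k
  have hder : SDer (D : K → K) := by
    refine ⟨fun a b => map_add D a b, fun a b => ?_, hD⟩
    rw [Derivation.leibniz, smul_eq_mul, smul_eq_mul]
    ring
  exact hv.triple_const hpos hder (by rwa [Fintype.card_fin]) i j k

/-- The final theorem. -/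
theorem finite_list (h : d % 4 = 1 ∨ d % 4 = 2) :
    ∃ F : Set (Fin (d ^ 2) → Fin d → ℂ), F.Finite ∧
      (∀ x ∈ F, IsMaximalETF d x ∧ ∀ i a, IsAlgebraic ℚ (x i a)) ∧
      ∀ y : Fin (d ^ 2) → Fin d → ℂ, IsMaximalETF d y →
        ∃ x ∈ F, ∃ U ∈ Matrix.unitaryGroup (Fin d) ℂ, ∀ i, ∃ c : ℂ, ‖c‖ = 1 ∧
          y i = c • U.mulVec (x i) := by
  apply list_of_rigidD
  apply rigidD
  intro h4
  have h5 : d * (d + 1) % 4 = 0 := Nat.mod_eq_zero_of_dvd h4
  rw [Nat.mul_mod, Nat.add_mod] at h5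
  rcases h with h | h <;> rw [h] at h5 <;> norm_num at h5

end Pool.Agent.SicRg
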