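import Pool.Agent.Lib.MP_d0f9e0_co.Rg.CirK
import Pool.Agent.Lib.MP_d0f9e0_co.Rg.Final

set_option autoImplicit false

/-!
Algebraicity of points and circles (all dimensions).
-/

namespace Pool.Agent.SicRg

open Finset Polynomial Pool.Agent.SicFin Pool.Agent.SicAb Cx

/-- The statement of (F), file Rot. -/
def HasRot (K : Type) [Field K] [CharZero K] [StarRing K] : Prop :=
  ∀ A : Set K, A.Countable → ∃ c s : K, star c = c ∧ star s = s ∧ c * c + s * s = 1 ∧
    ∃ D : Derivation ℚ K K, (∀ z, D (star z) = star (D z)) ∧ (∀ x ∈ A, D x = 0) ∧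
      D c = -s ∧ D s = c

section gen

variable {K : Type} [Field K] [CharZero K] [StarRing K]
  {n ι : Type} [Fintype n] [Fintype ι] [DecidableEq n] [DecidableEq ι]

omit [DecidableEq n] [DecidableEq ι] in
theorem sder {D : Derivation ℚ K K} (hD : ∀ z, D (star z) = star (D z)) :
    SDer (D : K → K) := by
  refine ⟨fun a b => map_add D a b, fun a b => ?_, hD⟩
  rw [Derivation.leibniz, smul_eq_mul, smul_eq_mul]
  ring

/-- `Cir` in terms of finitely many equations. -/
theorem cir_of_eqs (hpos : PosStar K) {v z : ι → n → K} (hv : Sic v)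
    (hdiag : ∀ k, ip (v k) (z k) = 0) (hhor : ∀ p q, ∑ k, z k p * star (v k q) = 0)
    (hanti : ∀ i k, rat v z k i = -rat v z i k) (hunit : ∀ k, ip (z k) (z k) = 1)
    (halt : ∀ i k, (star (rat v z i k) = rat v z i k ∧ ip (z i) (z k) = ip (v i) (v k)) ∨
      (rat v z i k ^ 2 = -1 ∧ star (rat v z i k) = -rat v z i k ∧
        ip (z i) (z k) = -ip (v i) (v k))) : Cir v z := by
  have hsys := hv.sys hpos
  have hH : Hor v z := by
    refine ⟨hdiag, fun x y => ?_⟩
    have h1 : ∀ k, ip x (z k) * ip (v k) y =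
        ∑ p, ∑ q, star (x p) * (z k p * star (v k q)) * y q := by
      intro k
      rw [ip_def, ip_def, Finset.sum_mul_sum]
      exact Finset.sum_congr rfl fun p _ => Finset.sum_congr rfl fun q _ => by ring
    rw [Finset.sum_congr rfl fun k _ => h1 k, Finset.sum_comm]
    refine Finset.sum_eq_zero fun p _ => ?_
    rw [Finset.sum_comm]
    refine Finset.sum_eq_zero fun q _ => ?_
    rw [← Finset.sum_mul, ← Finset.mul_sum, hhor]
    ring
  refine ⟨hsys, hH.tan hpos hsys fun i k => ?_, hunit, halt⟩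
  rw [hanti i k, add_neg_cancel, star_zero, add_zero]

variable [IsAlgClosed K]

/-- no circle: all triple products are algebraic -/
theorem alg_or_cir (hpos : PosStar K) {v : ι → n → K} (hv : Sic v) :
    (∀ i j k, IsAlgebraic ℚ (t3 v i j k)) ∨ ∃ z, Cir v z := by
  by_contra hcon
  push Not at hcon
  obtain ⟨⟨i, j, k, hijk⟩, hno⟩ := hcon
  have ht : Transcendental ℚ (t3 v i j k) := hijk
  obtain ⟨I, hI, hsI⟩ := exists_I' hpos
  obtain ⟨D, hD, hDt⟩ := SicCi.exists_star_derivation I hI hsI ht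
  obtain ⟨X, th, z, hC⟩ := exists_curve hpos (hv.sys hpos) (sder hD)
  by_cases hz : ∀ k, z k = 0
  · exact hDt (hC.triple hz i j k)
  · push Not at hz
    obtain ⟨k₀, hk₀⟩ := hz
    obtain ⟨s, _, _, hs⟩ := hC.cir hpos k₀ hk₀
    exact hno _ hs

/-- a normalised circle is algebraic -/
theorem Cir.alg [Nonempty ι] (hpos : PosStar K) (hrot : HasRot K) {v z : ι → n → K}
    (h : Cir v z) {i j k : ι} (hS : S3 v z i j k ≠ 0) (ht : IsAlgebraic ℚ (t3 v i j k)) :
    (∀ a b c, IsAlgebraic ℚ (t3 v a b c)) ∧ ∀ a b, IsAlgebraic ℚ (rat v z a b) := by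
  obtain ⟨I, hI, hsI⟩ := exists_I' hpos
  obtain ⟨c, s, hc, hs, hcs, d, hd, hdA, hdc, hds⟩ := hrot
    (Set.range (fun p : ι × n => v p.1 p.2) ∪ Set.range (fun p : ι × n => z p.1 p.2))
    ((Set.finite_range _).union (Set.finite_range _)).countable
  have hkey := fun (D : Derivation ℚ K K) (hD : ∀ z, D (star z) = star (D z)) =>
    h.key hpos hc hs hcs (sder hd) (fun k p => hdA _ (Or.inl ⟨(k, p), rfl⟩))
      (fun k p => hdA _ (Or.inr ⟨(k, p), rfl⟩)) hdc hds (sder hD)
  have hG : ∀ a b, ip (v a) (v b) ≠ 0 := by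
    intro a b hab
    have h1 := h.sys.ang a b
    rw [hab, zero_mul, mul_zero] at h1
    have h2 : (1 : K) + dd n K ≠ 0 := by
      rw [add_comm]
      exact dd_succ_ne
    split_ifs at h1
    · exact h2 (by rw [mul_one] at h1; exact h1.symm)
    · rw [mul_zero, add_zero] at h1
      exact zero_ne_one h1
  refine ⟨fun a b e => ?_, fun a b => ?_⟩
  · by_contra hcon
    have htr : Transcendental ℚ (t3 v a b e) := hcon
    obtain ⟨D, hD, hDt⟩ := SicCi.exists_star_derivation I hI hsI htr
    obtain ⟨_, g, hg⟩ := hkey D hD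
    have h1 := hg i j k
    rw [SicCi.derivation_algebraic D ht] at h1
    have h3 : t3 v i j k ≠ 0 := mul_ne_zero (mul_ne_zero (hG _ _) (hG _ _)) (hG _ _)
    have h4 : g = 0 := by
      rcases mul_eq_zero.1 h1.symm with h5 | h5
      · exact (mul_eq_zero.1 h5).resolve_right hS
      · exact absurd h5 h3
    apply hDt
    rw [hg, h4, zero_mul, zero_mul]
  · by_contra hcon
    have htr : Transcendental ℚ (rat v z a b) := hcon
    obtain ⟨D, hD, hDt⟩ := SicCi.exists_star_derivation I hI hsI htr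
    exact hDt ((hkey D hD).1 a b)

end gen

end Pool.Agent.SicRg
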