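import Pool.Agent.Lib.MP_d0f9e0_co.Rg.CirA

set_option autoImplicit false

/-!
Finiteness for the structure theorem (all dimensions).
-/

namespace Pool.Agent.SicRg

open Finset Polynomial Pool.Agent.SicFin Pool.Agent.SicAb Cx

open Pool.Agent.Lib.MP_d0f9e0_co (IsMaximalETF)

variable {d : ℕ}

/-- The germ of a sequence of vector systems. -/
noncomputable def gv (x : ℕ → Fin (d ^ 2) → Fin d → ℂ) : Fin (d ^ 2) → Fin d → GermField :=
  fun i r => ((fun n => x n i r : ℕ → ℂ) : GermField)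

theorem gv_ip (x y : ℕ → Fin (d ^ 2) → Fin d → ℂ) (i k : Fin (d ^ 2)) :
    ip (gv x i) (gv y k) = ((fun n => ip (x n i) (y n k) : ℕ → ℂ) : GermField) :=
  germ_ip (fun n => x n i) (fun n => y n k)

theorem gv_rat (x y : ℕ → Fin (d ^ 2) → Fin d → ℂ) (i k : Fin (d ^ 2)) :
    rat (gv x) (gv y) i k = ((fun n => rat (x n) (y n) i k : ℕ → ℂ) : GermField) := by
  unfold rat
  rw [gv_ip, gv_ip, dd_fin, dd_fin]
  rfl

theorem gv_surj (Z : Fin (d ^ 2) → Fin d → GermField) :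
    ∃ z : ℕ → Fin (d ^ 2) → Fin d → ℂ, Z = gv z := by
  have h : ∀ i r, ∃ f : ℕ → ℂ, ((f : ℕ → ℂ) : GermField) = Z i r := by
    intro i r
    exact Filter.Germ.inductionOn (Z i r) (p := fun g => ∃ f : ℕ → ℂ, ((f : ℕ → ℂ) : GermField) = g)
      fun f => ⟨f, rfl⟩
  choose f hf using h
  refine ⟨fun n i r => f i r n, ?_⟩
  funext i r
  exact (hf i r).symm

theorem gv_sic {x : ℕ → Fin (d ^ 2) → Fin d → ℂ} (hx : ∀ n, Sic (x n)) : Sic (gv x) := by
  refine ⟨fun k => ?_, fun i k hik => ?_, by simp⟩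
  · rw [gv_ip]
    have h2 : (fun n => ip (x n k) (x n k)) = fun _ => (1 : ℂ) := by
      funext n
      exact (hx n).unit k
    rw [h2]
    rfl
  · rw [gv_ip, gv_ip, dd_fin]
    have h2 : (fun n => ((d : ℂ) + 1) * (ip (x n i) (x n k) * ip (x n k) (x n i))) =
        fun _ => (1 : ℂ) := by
      funext n
      have h3 := (hx n).ang i k hik
      rwa [dd_fin] at h3
    have h3 : ((fun n => ((d : ℂ) + 1) * (ip (x n i) (x n k) * ip (x n k) (x n i)) :
        ℕ → ℂ) : GermField) = ((fun _ => (1 : ℂ) : ℕ → ℂ) : GermField) := by rw [h2]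
    exact h3

/-- equality of germs -/
theorem germ_eq {f g : ℕ → ℂ} (h : ((f : ℕ → ℂ) : GermField) = ((g : ℕ → ℂ) : GermField)) :
    ∀ᶠ n in (Filter.hyperfilter ℕ : Filter ℕ), f n = g n := Filter.Germ.coe_eq.mp h

theorem germ_hor (x z : ℕ → Fin (d ^ 2) → Fin d → ℂ) (p q : Fin d) :
    ∑ k, gv z k p * star (gv x k q) =
      ((fun n => ∑ k, z n k p * star (x n k q) : ℕ → ℂ) : GermField) := by
  have h1 : ∀ k : Fin (d ^ 2), gv z k p * star (gv x k q) =
      ((fun n => z n k p * star (x n k q) : ℕ → ℂ) : GermField) := fun k => rfl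
  rw [Finset.sum_congr rfl fun k _ => h1 k, germ_sum]

/-- A circle of germs gives circles for almost all indices. -/
theorem cir_of_germ {x z : ℕ → Fin (d ^ 2) → Fin d → ℂ} (hx : ∀ n, Sic (x n))
    (h : Cir (gv x) (gv z)) :
    ∀ᶠ n in (Filter.hyperfilter ℕ : Filter ℕ), Cir (x n) (z n) := by
  have e1 : ∀ᶠ n in (Filter.hyperfilter ℕ : Filter ℕ), ∀ k, ip (x n k) (z n k) = 0 := by
    rw [Filter.eventually_all]
    intro k
    have h1 := h.tan.diag k
    rw [gv_ip] at h1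
    exact germ_eq (g := fun _ => 0) h1
  have e2 : ∀ᶠ n in (Filter.hyperfilter ℕ : Filter ℕ), ∀ p q,
      ∑ k, z n k p * star (x n k q) = 0 := by
    rw [Filter.eventually_all]
    intro p
    rw [Filter.eventually_all]
    intro q
    have h1 := h.tan.hor (Pi.single p 1) (Pi.single q 1)
    have h3 : ∀ (w : Fin d → GermField) (p : Fin d), ip (Pi.single p 1) w = w p := by
      intro w p
      rw [ip_def, sum_eq_single p]
      · simp
      · intro b _ hb
        simp [Pi.single_eq_of_ne hb]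
      · intro h; exact absurd (mem_univ p) h
    have h4 : ∀ (w : Fin d → GermField) (p : Fin d), ip w (Pi.single p 1) = star (w p) := by
      intro w p
      rw [← star_ip, h3]
    have h5 : ∑ k, gv z k p * star (gv x k q) = 0 := by
      rw [← h1]
      exact Finset.sum_congr rfl fun k _ => by rw [h3, h4]
    rw [germ_hor] at h5
    exact germ_eq (g := fun _ => 0) h5
  have e3 : ∀ᶠ n in (Filter.hyperfilter ℕ : Filter ℕ), ∀ i k,
      rat (x n) (z n) k i = -rat (x n) (z n) i k := by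
    rw [Filter.eventually_all]
    intro i
    rw [Filter.eventually_all]
    intro k
    have h1 := h.tan.anti i k
    rw [gv_rat, gv_rat] at h1
    exact germ_eq (g := fun n => -rat (x n) (z n) i k) h1
  have e4 : ∀ᶠ n in (Filter.hyperfilter ℕ : Filter ℕ), ∀ k, ip (z n k) (z n k) = 1 := by
    rw [Filter.eventually_all]
    intro k
    have h1 := h.unit k
    rw [gv_ip] at h1
    exact germ_eq (g := fun _ => 1) h1
  have e5 : ∀ᶠ n in (Filter.hyperfilter ℕ : Filter ℕ), ∀ i k,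
      (star (rat (x n) (z n) i k) = rat (x n) (z n) i k ∧
        ip (z n i) (z n k) = ip (x n i) (x n k)) ∨
      (rat (x n) (z n) i k ^ 2 = -1 ∧ star (rat (x n) (z n) i k) = -rat (x n) (z n) i k ∧
        ip (z n i) (z n k) = -ip (x n i) (x n k)) := by
    rw [Filter.eventually_all]
    intro i
    rw [Filter.eventually_all]
    intro k
    have h1 := h.alt i k
    rw [gv_rat, gv_ip, gv_ip] at h1
    rcases h1 with ⟨h2, h3⟩ | ⟨h2, h3, h4⟩
    · have h2' := germ_eq (f := fun n => star (rat (x n) (z n) i k)) h2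
      have h3' := germ_eq h3
      filter_upwards [h2', h3'] with n a1 a2
      exact Or.inl ⟨a1, a2⟩
    · have h2' := germ_eq (f := fun n => rat (x n) (z n) i k ^ 2) (g := fun _ => -1) h2
      have h3' := germ_eq (f := fun n => star (rat (x n) (z n) i k))
        (g := fun n => -rat (x n) (z n) i k) h3
      have h4' := germ_eq (g := fun n => -ip (x n i) (x n k)) h4
      filter_upwards [h2', h3', h4'] with n a1 a2 a3
      exact Or.inr ⟨a1, a2, a3⟩
  filter_upwards [e1, e2, e3, e4, e5] with n a1 a2 a3 a4 a5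
  exact cir_of_eqs posStar_complex (hx n) a1 a2 a3 a4 a5

/-- Circles for all indices give a circle of germs. -/
theorem germ_of_cir {x z : ℕ → Fin (d ^ 2) → Fin d → ℂ} (hx : ∀ n, Sic (x n))
    (h : ∀ n, Cir (x n) (z n)) : Cir (gv x) (gv z) := by
  refine cir_of_eqs posStar_germ (gv_sic hx) (fun k => ?_) (fun p q => ?_) (fun i k => ?_)
    (fun k => ?_) (fun i k => ?_)
  · rw [gv_ip]
    have h1 : (fun n => ip (x n k) (z n k)) = fun _ => (0 : ℂ) :=
      funext fun n => (h n).tan.diag k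
    rw [h1]
    rfl
  · rw [germ_hor]
    have h1 : (fun n => ∑ k, z n k p * star (x n k q)) = fun _ => (0 : ℂ) := by
      funext n
      have h1 := (h n).tan.hor (Pi.single p 1) (Pi.single q 1)
      have h3 : ∀ (w : Fin d → ℂ) (p : Fin d), ip (Pi.single p 1) w = w p := by
        intro w p
        rw [ip_def, sum_eq_single p]
        · simp
        · intro b _ hb
          simp [Pi.single_eq_of_ne hb]
        · intro h; exact absurd (mem_univ p) h
      have h4 : ∀ (w : Fin d → ℂ) (p : Fin d), ip w (Pi.single p 1) = star (w p) := by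
        intro w p
        rw [← star_ip, h3]
      rw [← h1]
      exact Finset.sum_congr rfl fun k _ => by rw [h3, h4]
    rw [h1]
    rfl
  · rw [gv_rat, gv_rat]
    have h1 : (fun n => rat (x n) (z n) k i) = fun n => -rat (x n) (z n) i k :=
      funext fun n => (h n).tan.anti i k
    rw [h1]
    rfl
  · rw [gv_ip]
    have h1 : (fun n => ip (z n k) (z n k)) = fun _ => (1 : ℂ) :=
      funext fun n => (h n).unit k
    rw [h1]
    rfl
  · rw [gv_rat, gv_ip, gv_ip]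
    have h1 : ∀ᶠ n in (Filter.hyperfilter ℕ : Filter ℕ),
        (star (rat (x n) (z n) i k) = rat (x n) (z n) i k ∧
          ip (z n i) (z n k) = ip (x n i) (x n k)) ∨
        (rat (x n) (z n) i k ^ 2 = -1 ∧ star (rat (x n) (z n) i k) = -rat (x n) (z n) i k ∧
          ip (z n i) (z n k) = -ip (x n i) (x n k)) :=
      Filter.Eventually.of_forall fun n => (h n).alt i k
    rcases Ultrafilter.eventually_or.1 h1 with h2 | h2
    · left
      constructor
      · exact Filter.Germ.coe_eq.mpr (h2.mono fun n hn => hn.1)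
      · exact Filter.Germ.coe_eq.mpr (h2.mono fun n hn => hn.2)
    · right
      refine ⟨?_, ?_, ?_⟩
      · exact Filter.Germ.coe_eq.mpr (h2.mono fun n hn => hn.1)
      · exact Filter.Germ.coe_eq.mpr (h2.mono fun n hn => hn.2.1)
      · exact Filter.Germ.coe_eq.mpr (h2.mono fun n hn => hn.2.2)

theorem gv_t3 (x : ℕ → Fin (d ^ 2) → Fin d → ℂ) (i j k : Fin (d ^ 2)) :
    t3 (gv x) i j k = ((fun n => t3 (x n) i j k : ℕ → ℂ) : GermField) := by
  unfold t3
  rw [gv_ip, gv_ip, gv_ip]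
  rfl

theorem gv_S3 (x z : ℕ → Fin (d ^ 2) → Fin d → ℂ) (i j k : Fin (d ^ 2)) :
    S3 (gv x) (gv z) i j k = ((fun n => S3 (x n) (z n) i j k : ℕ → ℂ) : GermField) := by
  unfold S3
  rw [gv_rat, gv_rat, gv_rat]
  rfl

theorem t3_eq_tp (x : Fin (d ^ 2) → Fin d → ℂ) (i j k : Fin (d ^ 2)) :
    t3 x i j k = tp x i k j := tk_eq_tp x i j k

/-- sets of tensors with algebraic equations are finite -/
theorem fin_roots {q : Fin (d ^ 2) → Fin (d ^ 2) → Fin (d ^ 2) → ℚ[X]}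
    (hq0 : ∀ i j k, q i j k ≠ 0) :
    {T : Fin (d ^ 2) → Fin (d ^ 2) → Fin (d ^ 2) → ℂ |
      ∀ i j k, aeval (T i j k) (q i j k) = 0}.Finite := by
  have h0 : ∀ i j k, {w : ℂ | aeval w (q i j k) = 0}.Finite := by
    intro i j k
    refine ((q i j k).rootSet_finite ℂ).subset fun w hw => ?_
    rw [mem_rootSet]
    exact ⟨hq0 i j k, hw⟩
  have h1 : ∀ i j, {g : Fin (d ^ 2) → ℂ | ∀ k, g k ∈ {w : ℂ | aeval w (q i j k) = 0}}.Finite :=
    fun i j => Set.Finite.pi' fun k => h0 i j k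
  have h2 : ∀ i, {g : Fin (d ^ 2) → Fin (d ^ 2) → ℂ | ∀ j, g j ∈
      {g : Fin (d ^ 2) → ℂ | ∀ k, g k ∈ {w : ℂ | aeval w (q i j k) = 0}}}.Finite :=
    fun i => Set.Finite.pi' fun j => h1 i j
  exact Set.Finite.pi' h2

theorem fin_roots' {q : Fin (d ^ 2) → Fin (d ^ 2) → ℚ[X]} (hq0 : ∀ i j, q i j ≠ 0) :
    {T : Fin (d ^ 2) → Fin (d ^ 2) → ℂ | ∀ i j, aeval (T i j) (q i j) = 0}.Finite := by
  have h0 : ∀ i j, {w : ℂ | aeval w (q i j) = 0}.Finite := by
    intro i j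
    refine ((q i j).rootSet_finite ℂ).subset fun w hw => ?_
    rw [mem_rootSet]
    exact ⟨hq0 i j, hw⟩
  have h1 : ∀ i, {g : Fin (d ^ 2) → ℂ | ∀ j, g j ∈ {w : ℂ | aeval w (q i j) = 0}}.Finite :=
    fun i => Set.Finite.pi' fun j => h0 i j
  exact Set.Finite.pi' h1

/-- algebraic germs have values in a fixed finite set -/
theorem germ_alg_tp {x : ℕ → Fin (d ^ 2) → Fin d → ℂ}
    (h : ∀ i j k, IsAlgebraic ℚ (t3 (gv x) i j k)) :
    ∃ q : Fin (d ^ 2) → Fin (d ^ 2) → Fin (d ^ 2) → ℚ[X], (∀ i j k, q i j k ≠ 0) ∧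
      ∀ᶠ n in (Filter.hyperfilter ℕ : Filter ℕ), ∀ i j k,
        aeval (tp (x n) i j k) (q i j k) = 0 := by
  have halg : ∀ i j k, IsAlgebraic ℚ ((fun n => tp (x n) i j k : ℕ → ℂ) : GermField) := by
    intro i j k
    have h1 := h i k j
    rw [gv_t3] at h1
    have h2 : (fun n => t3 (x n) i k j) = fun n => tp (x n) i j k :=
      funext fun n => t3_eq_tp _ _ _ _
    rwa [h2] at h1
  choose q hq0 hq using halg
  refine ⟨q, hq0, ?_⟩
  rw [Filter.eventually_all]
  intro i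
  rw [Filter.eventually_all]
  intro j
  rw [Filter.eventually_all]
  intro k
  have h1 := hq i j k
  rw [aeval_germ] at h1
  exact germ_eq (g := fun _ => 0) h1

/-- (G0) -/
theorem fin_zero : {T : Fin (d ^ 2) → Fin (d ^ 2) → Fin (d ^ 2) → ℂ |
      ∃ x : Fin (d ^ 2) → Fin d → ℂ, IsMaximalETF d x ∧ (¬ ∃ z, Cir x z) ∧ T = tp x}.Finite := by
  classical
  by_contra hinf
  obtain ⟨S, hS⟩ : ∃ S, S = {T : Fin (d ^ 2) → Fin (d ^ 2) → Fin (d ^ 2) → ℂ |
      ∃ x : Fin (d ^ 2) → Fin d → ℂ, IsMaximalETF d x ∧ (¬ ∃ z, Cir x z) ∧ T = tp x} := ⟨_, rfl⟩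
  rw [← hS] at hinf
  have hinf' : S.Infinite := hinf
  obtain ⟨P, hP⟩ : ∃ P : ℕ → S, Function.Injective P :=
    ⟨hinf'.natEmbedding, hinf'.natEmbedding.injective⟩
  have hmem0 : ∀ T ∈ S, ∃ x : Fin (d ^ 2) → Fin d → ℂ, IsMaximalETF d x ∧ (¬ ∃ z, Cir x z) ∧
      T = tp x := by
    intro T hT
    rw [hS] at hT
    exact hT
  have hmem : ∀ n, ∃ x : Fin (d ^ 2) → Fin d → ℂ, IsMaximalETF d x ∧ (¬ ∃ z, Cir x z) ∧
      (P n : Fin (d ^ 2) → Fin (d ^ 2) → Fin (d ^ 2) → ℂ) = tp x := fun n => hmem0 _ (P n).2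
  choose x hx hno hPx using hmem
  have hsic : ∀ n, Sic (x n) := fun n => sic_of_isMax (hx n)
  rcases alg_or_cir posStar_germ (gv_sic hsic) with halg | ⟨Z, hZ⟩
  · obtain ⟨q, hq0, hall⟩ := germ_alg_tp halg
    have hfin : {n : ℕ | ∀ i j k, aeval (tp (x n) i j k) (q i j k) = 0}.Finite := by
      refine ((fin_roots hq0).preimage
        (f := fun n => (P n : Fin (d ^ 2) → Fin (d ^ 2) → Fin (d ^ 2) → ℂ))
        (fun a _ b _ h => hP (Subtype.ext h))).subset fun n hn => ?_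
      rw [Set.mem_preimage, Set.mem_ofPred_eq, hPx n]
      exact hn
    exact Filter.notMem_hyperfilter_of_finite hfin hall
  · obtain ⟨z, rfl⟩ := gv_surj Z
    obtain ⟨n, hn⟩ := (cir_of_germ hsic hZ).exists
    exact hno n ⟨z n, hn⟩

/-- (G1) -/
theorem fin_one (hrot : HasRot GermField) (i j k : Fin (d ^ 2)) {r : ℂ}
    (hr : IsAlgebraic ℚ r) :
    {P : (Fin (d ^ 2) → Fin (d ^ 2) → Fin (d ^ 2) → ℂ) × (Fin (d ^ 2) → Fin (d ^ 2) → ℂ) |
      ∃ x z : Fin (d ^ 2) → Fin d → ℂ, IsMaximalETF d x ∧ Cir x z ∧ S3 x z i j k ≠ 0 ∧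
        t3 x i j k = r ∧ P = (tp x, rat x z)}.Finite := by
  classical
  have : Nonempty (Fin (d ^ 2)) := ⟨i⟩
  by_contra hinf
  obtain ⟨S, hS⟩ : ∃ S, S = {P : (Fin (d ^ 2) → Fin (d ^ 2) → Fin (d ^ 2) → ℂ) ×
      (Fin (d ^ 2) → Fin (d ^ 2) → ℂ) |
      ∃ x z : Fin (d ^ 2) → Fin d → ℂ, IsMaximalETF d x ∧ Cir x z ∧ S3 x z i j k ≠ 0 ∧
        t3 x i j k = r ∧ P = (tp x, rat x z)} := ⟨_, rfl⟩
  rw [← hS] at hinf
  have hinf' : S.Infinite := hinf
  obtain ⟨P, hP⟩ : ∃ P : ℕ → S, Function.Injective P :=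
    ⟨hinf'.natEmbedding, hinf'.natEmbedding.injective⟩
  have hmem0 : ∀ T ∈ S, ∃ x z : Fin (d ^ 2) → Fin d → ℂ, IsMaximalETF d x ∧ Cir x z ∧
      S3 x z i j k ≠ 0 ∧ t3 x i j k = r ∧ T = (tp x, rat x z) := by
    intro T hT
    rw [hS] at hT
    exact hT
  have hmem : ∀ n, ∃ x z : Fin (d ^ 2) → Fin d → ℂ, IsMaximalETF d x ∧ Cir x z ∧
      S3 x z i j k ≠ 0 ∧ t3 x i j k = r ∧
      (P n : (Fin (d ^ 2) → Fin (d ^ 2) → Fin (d ^ 2) → ℂ) ×
      (Fin (d ^ 2) → Fin (d ^ 2) → ℂ)) = (tp x, rat x z) := fun n => hmem0 _ (P n).2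
  choose x z hx hc hS3 ht3 hPx using hmem
  have hsic : ∀ n, Sic (x n) := fun n => sic_of_isMax (hx n)
  have hcir := germ_of_cir hsic hc
  have hS3' : S3 (gv x) (gv z) i j k ≠ 0 := by
    rw [gv_S3]
    intro h
    obtain ⟨n, hn⟩ := (germ_eq (g := fun _ => 0) h).exists
    exact hS3 n hn
  have ht3' : IsAlgebraic ℚ (t3 (gv x) i j k) := by
    rw [gv_t3]
    have h1 : (fun n => t3 (x n) i j k) = fun _ => r := funext fun n => ht3 n
    rw [h1]
    obtain ⟨q, hq0, hq⟩ := hr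
    refine ⟨q, hq0, ?_⟩
    rw [aeval_germ]
    have h2 : (fun n : ℕ => aeval ((fun _ : ℕ => r) n) q) = fun _ => (0 : ℂ) := funext fun n => hq
    rw [h2]
    rfl
  obtain ⟨ha, hb⟩ := hcir.alg posStar_germ hrot hS3' ht3'
  obtain ⟨q, hq0, hall⟩ := germ_alg_tp ha
  have hb' : ∀ a b, IsAlgebraic ℚ ((fun n => rat (x n) (z n) a b : ℕ → ℂ) : GermField) := by
    intro a b
    rw [← gv_rat]
    exact hb a b
  choose q' hq0' hq' using hb'
  have hall' : ∀ᶠ n in (Filter.hyperfilter ℕ : Filter ℕ), ∀ a b,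
      aeval (rat (x n) (z n) a b) (q' a b) = 0 := by
    rw [Filter.eventually_all]
    intro a
    rw [Filter.eventually_all]
    intro b
    have h1 := hq' a b
    rw [aeval_germ] at h1
    exact germ_eq (g := fun _ => 0) h1
  have hfin : {n : ℕ | (∀ i j k, aeval (tp (x n) i j k) (q i j k) = 0) ∧
      ∀ a b, aeval (rat (x n) (z n) a b) (q' a b) = 0}.Finite := by
    refine (((fin_roots hq0).prod (fin_roots' hq0')).preimage
      (f := fun n => (P n : (Fin (d ^ 2) → Fin (d ^ 2) → Fin (d ^ 2) → ℂ) ×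
        (Fin (d ^ 2) → Fin (d ^ 2) → ℂ)))
      (fun a _ b _ h => hP (Subtype.ext h))).subset fun n hn => ?_
    rw [Set.mem_preimage, hPx n]
    exact ⟨hn.1, hn.2⟩
  exact Filter.notMem_hyperfilter_of_finite hfin (hall.and hall')

end Pool.Agent.SicRg
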