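import Pool.Agent.Lib.MP_d0f9e0_co.Rg.CirG

set_option autoImplicit false

/-!
Lists of representatives with algebraic coordinates for the structure theorem.
-/

namespace Pool.Agent.SicRg

open Finset Cx

open Pool.Agent.Lib.MP_d0f9e0_co (IsMaximalETF)

open Pool.Agent.SicAb (posStar_complex)

variable {d : ℕ}

theorem adj_left (U : Matrix (Fin d) (Fin d) ℂ) (x y : Fin d → ℂ) :
    ip x (U.mulVec y) = ip (U.conjTranspose.mulVec x) y := by
  have h1 : ip x (U.mulVec y) = ∑ p, ∑ q, star (x p) * (U p q * y q) := by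
    rw [ip_def]
    refine sum_congr rfl fun p _ => ?_
    rw [Matrix.mulVec, dotProduct, mul_sum]
  have h2 : ip (U.conjTranspose.mulVec x) y = ∑ q, ∑ p, star (x p) * (U p q * y q) := by
    rw [ip_def]
    refine sum_congr rfl fun q _ => ?_
    rw [Matrix.mulVec, dotProduct, star_sum, sum_mul]
    refine sum_congr rfl fun p _ => ?_
    rw [Matrix.conjTranspose_apply, star_mul', star_star]
    ring
  rw [h1, h2, sum_comm]

theorem adj_right (U : Matrix (Fin d) (Fin d) ℂ) (x y : Fin d → ℂ) :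
    ip (U.mulVec y) x = ip y (U.conjTranspose.mulVec x) := by
  rw [← star_ip x (U.mulVec y), adj_left, star_ip]

theorem mv_left (U : Matrix (Fin d) (Fin d) ℂ) (a : ℂ) (x y : Fin d → ℂ) :
    ip x (a • U.mulVec y) = a * ip (U.conjTranspose.mulVec x) y := by
  rw [ip_smul, adj_left]

theorem mv_right (U : Matrix (Fin d) (Fin d) ℂ) (a : ℂ) (x y : Fin d → ℂ) :
    ip (a • U.mulVec y) x = star a * ip y (U.conjTranspose.mulVec x) := by
  rw [ip_smul_left, adj_right]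

theorem ip_unitary {U : Matrix (Fin d) (Fin d) ℂ} (hU : U ∈ Matrix.unitaryGroup (Fin d) ℂ)
    (x y : Fin d → ℂ) : ip (U.mulVec x) (U.mulVec y) = ip x y := by
  rw [adj_right, Matrix.mulVec_mulVec]
  have h1 : U.conjTranspose * U = 1 := Matrix.mem_unitaryGroup_iff'.1 hU
  rw [h1, Matrix.one_mulVec]

theorem star_mul_of_norm {c : ℂ} (hc : ‖c‖ = 1) : star c * c = 1 := by
  rw [mul_comm]
  exact mul_star_of_norm hc

theorem ip_move {U : Matrix (Fin d) (Fin d) ℂ} (hU : U ∈ Matrix.unitaryGroup (Fin d) ℂ)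
    (a b : ℂ) (x y : Fin d → ℂ) :
    ip (a • U.mulVec x) (b • U.mulVec y) = star a * b * ip x y := by
  rw [ip_smul, ip_smul_left, ip_unitary hU]
  ring

theorem sic_move {x : Fin (d ^ 2) → Fin d → ℂ} (h : Sic x) {U : Matrix (Fin d) (Fin d) ℂ}
    (hU : U ∈ Matrix.unitaryGroup (Fin d) ℂ) {c : Fin (d ^ 2) → ℂ} (hc : ∀ k, ‖c k‖ = 1) :
    Sic (fun k => c k • U.mulVec (x k)) := by
  refine ⟨fun k => ?_, fun i k hik => ?_, h.card⟩
  · rw [ip_move hU, star_mul_of_norm (hc k), one_mul, h.unit]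
  · rw [ip_move hU, ip_move hU]
    have h1 := star_mul_of_norm (hc i)
    have h2 := star_mul_of_norm (hc k)
    have h3 := h.ang i k hik
    linear_combination (dd (Fin d) ℂ + 1) * (ip (x i) (x k) * ip (x k) (x i)) *
      (star (c k) * c k * h1 + h2) + h3

theorem rat_move {x u : Fin (d ^ 2) → Fin d → ℂ} {U : Matrix (Fin d) (Fin d) ℂ}
    (hU : U ∈ Matrix.unitaryGroup (Fin d) ℂ) {c : Fin (d ^ 2) → ℂ} (hc : ∀ k, ‖c k‖ = 1)
    (i k : Fin (d ^ 2)) : rat (fun k => c k • U.mulVec (x k)) (fun k => c k • U.mulVec (u k)) i k =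
      rat x u i k := by
  unfold rat
  rw [ip_move hU, ip_move hU]
  have h1 := star_mul_of_norm (hc i)
  have h2 := star_mul_of_norm (hc k)
  linear_combination (dd (Fin d) ℂ + 1) * (ip (x i) (u k) * ip (x k) (x i)) *
      (star (c k) * c k * h1 + h2)

theorem tp_move {x : Fin (d ^ 2) → Fin d → ℂ} {U : Matrix (Fin d) (Fin d) ℂ}
    (hU : U ∈ Matrix.unitaryGroup (Fin d) ℂ) {c : Fin (d ^ 2) → ℂ} (hc : ∀ k, ‖c k‖ = 1)
    (i j k : Fin (d ^ 2)) : tp (fun k => c k • U.mulVec (x k)) i j k = tp x i j k := by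
  unfold tp
  rw [← ip_eq, ← ip_eq, ← ip_eq, ← ip_eq, ← ip_eq, ← ip_eq, ip_move hU, ip_move hU, ip_move hU]
  have h1 := star_mul_of_norm (hc i)
  have h2 := star_mul_of_norm (hc j)
  have h3 := star_mul_of_norm (hc k)
  calc _ = (star (c i) * c i) * (star (c j) * c j) * (star (c k) * c k) *
        (ip (x j) (x i) * ip (x k) (x j) * ip (x i) (x k)) := by ring
    _ = _ := by rw [h1, h2, h3]; ring

theorem tan_move {x z : Fin (d ^ 2) → Fin d → ℂ} (h : Tan x z) {U : Matrix (Fin d) (Fin d) ℂ}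
    (hU : U ∈ Matrix.unitaryGroup (Fin d) ℂ) {c : Fin (d ^ 2) → ℂ} (hc : ∀ k, ‖c k‖ = 1) :
    Tan (fun k => c k • U.mulVec (x k)) (fun k => c k • U.mulVec (z k)) := by
  refine ⟨⟨fun k => ?_, fun a b => ?_⟩, fun i k => ?_, fun a a' b b' => ?_⟩
  · rw [ip_move hU, h.diag, mul_zero]
  · have h1 := h.hor (U.conjTranspose.mulVec a) (U.conjTranspose.mulVec b)
    rw [← h1]
    refine sum_congr rfl fun k _ => ?_
    rw [mv_left, mv_right]
    linear_combination (ip (U.conjTranspose.mulVec a) (z k) *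
      ip (x k) (U.conjTranspose.mulVec b)) * star_mul_of_norm (hc k)
  · rw [rat_move hU hc, rat_move hU hc, h.anti i k]
  · have h1 := h.bb (U.conjTranspose.mulVec a) (U.conjTranspose.mulVec a')
      (U.conjTranspose.mulVec b) (U.conjTranspose.mulVec b')
    rw [← h1]
    refine sum_congr rfl fun k _ => ?_
    rw [mv_left, mv_left, mv_left, mv_left, mv_right, mv_right]
    linear_combination ((ip (U.conjTranspose.mulVec a) (x k) *
      ip (U.conjTranspose.mulVec a') (z k) + ip (U.conjTranspose.mulVec a) (z k) *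
      ip (U.conjTranspose.mulVec a') (x k)) * (ip (x k) (U.conjTranspose.mulVec b) *
      ip (x k) (U.conjTranspose.mulVec b'))) * (star (c k) * c k + 1) * star_mul_of_norm (hc k)

/-- `Cir` and its invariants do not change under a unitary matrix and phases. -/
theorem Cir.move {x z : Fin (d ^ 2) → Fin d → ℂ} (h : Cir x z) {U : Matrix (Fin d) (Fin d) ℂ}
    (hU : U ∈ Matrix.unitaryGroup (Fin d) ℂ) {c : Fin (d ^ 2) → ℂ} (hc : ∀ k, ‖c k‖ = 1) :
    Cir (fun k => c k • U.mulVec (x k)) (fun k => c k • U.mulVec (z k)) ∧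
      (∀ i k, rat (fun k => c k • U.mulVec (x k)) (fun k => c k • U.mulVec (z k)) i k =
        rat x z i k) ∧
      ∀ i j k, tp (fun k => c k • U.mulVec (x k)) i j k = tp x i j k := by
  refine ⟨⟨?_, tan_move h.tan hU hc, fun k => ?_, fun i k => ?_⟩, rat_move hU hc, tp_move hU hc⟩
  · refine (sic_move ⟨h.sys.unit, fun i k hik => ?_, h.sys.card⟩ hU hc).sys posStar_complex
    have h1 := h.sys.ang i k
    rw [if_neg hik, mul_zero, add_zero] at h1
    exact h1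
  · rw [ip_move hU, star_mul_of_norm (hc k), one_mul, h.unit]
  · rw [rat_move hU hc, ip_move hU, ip_move hU]
    rcases h.alt i k with h1 | h1
    · left
      exact ⟨h1.1, by rw [h1.2]⟩
    · right
      refine ⟨h1.1, h1.2.1, ?_⟩
      rw [h1.2.2]
      ring

/-- A vector orthogonal to the whole system vanishes. -/
theorem eq_zero_of_orth {x : Fin (d ^ 2) → Fin d → ℂ} (h : Sys x) {u : Fin d → ℂ}
    (hu : ∀ i, ip (x i) u = 0) : u = 0 := by
  rcases Nat.eq_zero_or_pos d with hd | hd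
  · subst hd
    funext a
    exact a.elim0
  apply ip_self posStar_complex
  have h1 := h.T1 u u
  rw [sum_eq_zero fun k _ => by rw [hu k, mul_zero], dd_fin] at h1
  have h2 : (d : ℂ) ≠ 0 := by exact_mod_cast hd.ne'
  exact (mul_eq_zero.1 h1.symm).resolve_left h2

theorem Cir.unique_of_rat {x z z' : Fin (d ^ 2) → Fin d → ℂ} (h : Cir x z) (h' : Cir x z')
    (hr : ∀ i k, rat x z i k = rat x z' i k) (k : Fin (d ^ 2)) : z k = z' k := by
  rw [← sub_eq_zero]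
  apply eq_zero_of_orth h.sys
  intro i
  rw [ip_sub, tr1 h.sys h.tan i k, tr1 h.sys h'.tan i k, hr, sub_self]

/-- Two circles with the same invariants are equivalent. -/
theorem Cir.equiv {x z x' z' : Fin (d ^ 2) → Fin d → ℂ} (hx : IsMaximalETF d x)
    (hx' : IsMaximalETF d x') (h : Cir x z) (h' : Cir x' z')
    (ht : ∀ i j k, tp x i j k = tp x' i j k) (hr : ∀ i k, rat x z i k = rat x' z' i k) :
    ∃ U ∈ Matrix.unitaryGroup (Fin d) ℂ, ∀ i, ∃ c : ℂ, ‖c‖ = 1 ∧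
      x' i = c • U.mulVec (x i) ∧ z' i = c • U.mulVec (z i) := by
  obtain ⟨U, hU, hc⟩ := equiv_of_tp hx hx' ht
  choose c hc1 hc2 using hc
  obtain ⟨h1, h2, _⟩ := h.move hU hc1
  have h3 : (fun k => c k • U.mulVec (x k)) = x' := funext fun k => (hc2 k).symm
  rw [h3] at h1 h2
  refine ⟨U, hU, fun i => ⟨c i, hc1 i, hc2 i, ?_⟩⟩
  exact h'.unique_of_rat h1 (fun i k => by rw [h2, hr]) i

/-- A circle with algebraic invariants has a form with algebraic coordinates. -/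
theorem Cir.alg_form {x z : Fin (d ^ 2) → Fin d → ℂ} (hx : IsMaximalETF d x) (h : Cir x z)
    (ht : ∀ i j k, IsAlgebraic ℚ (tp x i j k)) (hr : ∀ i k, IsAlgebraic ℚ (rat x z i k)) :
    ∃ x' z' : Fin (d ^ 2) → Fin d → ℂ, IsMaximalETF d x' ∧ Cir x' z' ∧
      (∀ i a, IsAlgebraic ℚ (x' i a) ∧ IsAlgebraic ℚ (z' i a)) ∧
      (∀ i j k, tp x' i j k = tp x i j k) ∧ ∀ i k, rat x' z' i k = rat x z i k := by
  obtain ⟨x', hx', hxa, hxt⟩ := exists_alg_form hx ht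
  obtain ⟨U, hU, hc⟩ := equiv_of_tp hx hx' (fun i j k => (hxt i j k).symm)
  choose c hc1 hc2 using hc
  obtain ⟨h1, h2, _⟩ := h.move hU hc1
  have h3 : (fun k => c k • U.mulVec (x k)) = x' := funext fun k => (hc2 k).symm
  rw [h3] at h1 h2
  refine ⟨x', _, hx', h1, fun i a => ⟨hxa i a, ?_⟩, hxt, h2⟩
  have hd : d ≠ 0 := by
    rintro rfl
    exact a.elim0
  have hd' : (d : ℂ) ≠ 0 := by exact_mod_cast hd
  have h4 := h1.sys.T1 (Pi.single a 1) (c i • U.mulVec (z i))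
  have h5 : ∀ y : Fin d → ℂ, ip (Pi.single a 1) y = y a := by
    intro y
    rw [ip_def, sum_eq_single a]
    · simp
    · intro b _ hb
      simp [Pi.single_eq_of_ne hb]
    · intro h; exact absurd (mem_univ a) h
  rw [dd_fin] at h4
  simp only [h5] at h4
  have h6 : (c i • U.mulVec (z i)) a = (d : ℂ)⁻¹ * ∑ k, x' k a *
      (rat x z k i * ip (x' k) (x' i)) := by
    have h7 : ∀ k, ip (x' k) (c i • U.mulVec (z i)) = rat x z k i * ip (x' k) (x' i) := by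
      intro k
      rw [← h2]
      exact tr1 h1.sys h1.tan k i
    have h8 : ∑ k, x' k a * (rat x z k i * ip (x' k) (x' i)) =
        ∑ k, x' k a * ip (x' k) (c i • U.mulVec (z i)) :=
      Finset.sum_congr rfl fun k _ => by rw [h7 k]
    rw [h8, h4]
    field_simp
  change IsAlgebraic ℚ ((c i • U.mulVec (z i)) a)
  rw [h6]
  have hq : ∀ u : ℂ, IsAlgebraic ℚ u → u ∈ Qa := fun u hu => mem_Qa.2 hu
  apply mem_Qa.1
  refine Qa.mul_mem (Qa.inv_mem (natCast_mem Qa d)) (Qa.sum_mem fun k _ => ?_)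
  refine Qa.mul_mem (hq _ (hxa k a)) (Qa.mul_mem (hq _ (hr k i)) ?_)
  rw [ip_def]
  exact Qa.sum_mem fun p _ => Qa.mul_mem (star_mem_Qa (hq _ (hxa k p))) (hq _ (hxa i p))

/-- The list of the points. -/
theorem list_zero (P : (Fin (d ^ 2) → Fin d → ℂ) → Prop)
    (hfin : {T : Fin (d ^ 2) → Fin (d ^ 2) → Fin (d ^ 2) → ℂ |
      ∃ x : Fin (d ^ 2) → Fin d → ℂ, IsMaximalETF d x ∧ P x ∧ T = tp x}.Finite)
    (halg : ∀ x : Fin (d ^ 2) → Fin d → ℂ, IsMaximalETF d x → P x → ∀ i j k,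
      IsAlgebraic ℚ (tp x i j k)) :
    ∃ F : Set (Fin (d ^ 2) → Fin d → ℂ), F.Finite ∧
      (∀ x ∈ F, IsMaximalETF d x ∧ ∀ i a, IsAlgebraic ℚ (x i a)) ∧
      ∀ y : Fin (d ^ 2) → Fin d → ℂ, IsMaximalETF d y → P y →
        ∃ x ∈ F, ∃ U ∈ Matrix.unitaryGroup (Fin d) ℂ, ∀ i, ∃ c : ℂ, ‖c‖ = 1 ∧
          y i = c • U.mulVec (x i) := by
  classical
  set S := {T : Fin (d ^ 2) → Fin (d ^ 2) → Fin (d ^ 2) → ℂ |
      ∃ x : Fin (d ^ 2) → Fin d → ℂ, IsMaximalETF d x ∧ P x ∧ T = tp x} with hS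
  have h1 : ∀ T : S, ∃ y : Fin (d ^ 2) → Fin d → ℂ, IsMaximalETF d y ∧
      (∀ i a, IsAlgebraic ℚ (y i a)) ∧ ∀ i j k, tp y i j k = T.1 i j k := by
    rintro ⟨T, x, hx, hPx, rfl⟩
    exact exists_alg_form hx (halg x hx hPx)
  choose f hf1 hf2 hf3 using h1
  have hfin' : Finite S := hfin
  refine ⟨Set.range f, Set.finite_range f, ?_, fun y hy hPy => ?_⟩
  · rintro _ ⟨T, rfl⟩
    exact ⟨hf1 T, hf2 T⟩
  · have hyS : tp y ∈ S := ⟨y, hy, hPy, rfl⟩
    refine ⟨f ⟨tp y, hyS⟩, ⟨_, rfl⟩, ?_⟩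
    exact equiv_of_tp (hf1 _) hy (fun i j k => hf3 ⟨tp y, hyS⟩ i j k)

/-- The list of the circles. -/
theorem list_one (P : (Fin (d ^ 2) → Fin d → ℂ) → (Fin (d ^ 2) → Fin d → ℂ) → Prop)
    (hP : ∀ x z, P x z → IsMaximalETF d x ∧ Cir x z)
    (hfin : {T : (Fin (d ^ 2) → Fin (d ^ 2) → Fin (d ^ 2) → ℂ) ×
        (Fin (d ^ 2) → Fin (d ^ 2) → ℂ) | ∃ x z, P x z ∧ T = (tp x, rat x z)}.Finite)
    (halg : ∀ x z, P x z → (∀ i j k, IsAlgebraic ℚ (tp x i j k)) ∧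
      ∀ i k, IsAlgebraic ℚ (rat x z i k)) :
    ∃ F : Set ((Fin (d ^ 2) → Fin d → ℂ) × (Fin (d ^ 2) → Fin d → ℂ)), F.Finite ∧
      (∀ p ∈ F, IsMaximalETF d p.1 ∧ Cir p.1 p.2 ∧
        ∀ i a, IsAlgebraic ℚ (p.1 i a) ∧ IsAlgebraic ℚ (p.2 i a)) ∧
      ∀ y w, P y w → ∃ p ∈ F, ∃ U ∈ Matrix.unitaryGroup (Fin d) ℂ, ∀ i, ∃ c : ℂ, ‖c‖ = 1 ∧
        y i = c • U.mulVec (p.1 i) ∧ w i = c • U.mulVec (p.2 i) := by
  classical
  set S := {T : (Fin (d ^ 2) → Fin (d ^ 2) → Fin (d ^ 2) → ℂ) ×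
        (Fin (d ^ 2) → Fin (d ^ 2) → ℂ) | ∃ x z, P x z ∧ T = (tp x, rat x z)} with hS
  have h1 : ∀ T : S, ∃ p : (Fin (d ^ 2) → Fin d → ℂ) × (Fin (d ^ 2) → Fin d → ℂ),
      IsMaximalETF d p.1 ∧ Cir p.1 p.2 ∧
      (∀ i a, IsAlgebraic ℚ (p.1 i a) ∧ IsAlgebraic ℚ (p.2 i a)) ∧
      (∀ i j k, tp p.1 i j k = T.1.1 i j k) ∧ ∀ i k, rat p.1 p.2 i k = T.1.2 i k := by
    rintro ⟨T, x, z, hPx, rfl⟩
    obtain ⟨hx, hC⟩ := hP x z hPx
    obtain ⟨ht, hr⟩ := halg x z hPx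
    obtain ⟨x', z', e1, e2, e3, e4, e5⟩ := hC.alg_form hx ht hr
    exact ⟨(x', z'), e1, e2, e3, e4, e5⟩
  choose f hf1 hf2 hf3 hf4 hf5 using h1
  have hfin' : Finite S := hfin
  refine ⟨Set.range f, Set.finite_range f, ?_, fun y w hyw => ?_⟩
  · rintro _ ⟨T, rfl⟩
    exact ⟨hf1 T, hf2 T, hf3 T⟩
  · obtain ⟨hy, hC⟩ := hP y w hyw
    have hyS : (tp y, rat y w) ∈ S := ⟨y, w, hyw, rfl⟩
    refine ⟨f ⟨(tp y, rat y w), hyS⟩, ⟨_, rfl⟩, ?_⟩
    exact (hf2 _).equiv (hf1 _) hy hC (fun i j k => hf4 ⟨(tp y, rat y w), hyS⟩ i j k)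
      (fun i k => hf5 ⟨(tp y, rat y w), hyS⟩ i k)

end Pool.Agent.SicRg
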