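import Pool.Agent.Lib.MP_d0f9e0_co.Rg.Par

set_option autoImplicit false

namespace Pool.Agent.SicRg

open Finset

/-!
Rigidity in the dimensions `7` and `11` modulo `16` (dnote 4712 (a)).
-/

section arith

variable {K : Type*} [Field K] [CharZero K]

omit [CharZero K] in
theorem sx_sq_sum {α : Type*} (S : Finset α) (b : α → K)
    (hb : ∀ k ∈ S, IsIntegral ℤ (b k)) :
    ∃ y : K, IsIntegral ℤ y ∧ (∑ k ∈ S, b k) ^ 2 = ∑ k ∈ S, b k ^ 2 + 2 * y := by
  classical
  induction S using Finset.induction_on with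
  | empty => exact ⟨0, isIntegral_zero, by simp⟩
  | insert a s ha ih =>
    obtain ⟨y, hy, h⟩ := ih fun k hk => hb k (mem_insert_of_mem hk)
    refine ⟨y + b a * ∑ k ∈ s, b k, hy.add ((hb a (mem_insert_self a s)).mul
      (IsIntegral.sum _ fun k hk => hb k (mem_insert_of_mem hk))), ?_⟩
    rw [sum_insert ha, sum_insert ha]
    linear_combination h

theorem sx_even {m : ℤ} {y : K} (hy : IsIntegral ℤ y) (h : (m : K) = 2 * y) : Even m := by
  have h1 : y = algebraMap ℚ K ((m : ℚ) / 2) := by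
    rw [map_div₀, map_intCast, map_ofNat, h]
    field_simp
  rw [h1, isIntegral_algebraMap_iff (algebraMap ℚ K).injective] at hy
  obtain ⟨k, hk⟩ := IsIntegrallyClosed.isIntegral_iff.1 hy
  refine ⟨k, ?_⟩
  have h2 : (k : ℚ) = (m : ℚ) / 2 := by simpa using hk
  have h3 : (m : ℚ) = k + k := by rw [h2]; ring
  exact_mod_cast h3

/-- a sum of algebraic integers with odd squares that vanishes has an even number of terms -/
theorem sx_card {α : Type*} (S : Finset α) (b : α → K) (m : α → ℤ)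
    (hb : ∀ k ∈ S, b k ^ 2 = (m k : K)) (hm : ∀ k ∈ S, Odd (m k)) (h0 : ∑ k ∈ S, b k = 0) :
    Even (S.card : ℤ) := by
  classical
  obtain ⟨y, hy, h⟩ := sx_sq_sum S b fun k hk =>
    IsIntegral.of_pow (n := 2) (by norm_num) (by rw [hb k hk]; exact isIntegral_intCast _)
  rw [h0, sum_congr rfl hb] at h
  have h1 : Even (∑ k ∈ S, m k) := by
    refine sx_even (K := K) (y := -y) hy.neg ?_
    push_cast
    linear_combination -h
  have h2 : Even (∑ k ∈ S, (m k - 1)) := by
    refine Finset.even_sum _ fun k hk => ?_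
    exact Odd.sub_odd (hm k hk) odd_one
  have h3 : (S.card : ℤ) = ∑ k ∈ S, m k - ∑ k ∈ S, (m k - 1) := by
    rw [← sum_sub_distrib]
    simp
  rw [h3]
  exact h1.sub h2

theorem sx_symm {ι : Type*} [Fintype ι] (f : ι → ι → ℤ) (hs : ∀ i k, f i k = f k i)
    (h0 : ∀ i, f i i = 0) : Even (∑ i, ∑ k, f i k) := by
  classical
  rw [← ZMod.intCast_eq_zero_iff_even]
  push_cast
  rw [← Finset.sum_product', Finset.univ_product_univ]
  refine Finset.sum_involution (fun p _ => p.swap) ?_ ?_ ?_ ?_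
  · intro p _
    rw [Prod.fst_swap, Prod.snd_swap, hs p.2 p.1]
    exact CharTwo.add_self_eq_zero _
  · intro p _ hp heq
    apply hp
    have h1 : p.1 = p.2 := by
      have := congrArg Prod.fst heq
      simpa using this.symm
    rw [h1, h0]
    simp
  · intro p _
    exact mem_univ _
  · intro p _
    simp

end arith

variable {K : Type*} [Field K] [StarRing K] {ι : Type} [Fintype ι] [CharZero K] [DecidableEq ι]
variable {d : ℕ} {r c : K} {q : ι → ι → ℤ} {al : ι → ι → K}

omit [CharZero K] in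
theorem Par.sq (h : Par d r c q al) (i k : ι) : q k i ^ 2 = q i k ^ 2 := by
  rw [h.anti i k]; ring

theorem Par.al_diag (h : Par d r c q al) (i : ι) : al i i = 0 := by
  have h1 := h.alanti i i
  have h2 : (2 : K) * al i i = 0 := by linear_combination h1
  exact (mul_eq_zero.1 h2).resolve_left two_ne_zero

omit [CharZero K] in
theorem Par.q_diag (h : Par d r c q al) (i : ι) : q i i = 0 := by
  have h1 := h.anti i i
  omega

/-- `al Q = 0` -/
theorem Par.al_Q (h : Par d r c q al) (hd : (d : K) ≠ 0) (i j : ι) :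
    ∑ k, al i k * (q j k : K) ^ 2 = 0 := by
  have h1 := h.al_s i j
  have h2 : ∑ k, al i k * ((∑ l, q j l * q k l : ℤ) : K) = 0 := by
    push_cast
    have h3 : ∑ k, al i k * ∑ l, (q j l : K) * (q k l : K) =
        ∑ l, (q j l : K) * ∑ k, al i k * (q k l : K) := by
      simp only [mul_sum]
      rw [sum_comm]
      exact sum_congr rfl fun l _ => sum_congr rfl fun k _ => by ring
    rw [h3]
    exact sum_eq_zero fun l _ => by rw [h.al_q, mul_zero]
  have h4 : (d : K) * ∑ k, al i k * (al j k ^ 2 + r * (q j k : K) ^ 2) =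
      2 * r * ∑ k, al i k * ((∑ l, q j l * q k l : ℤ) : K) - d * r * ∑ k, al i k -
      (d : K) ^ 2 * r * al i j + 4 * d * r * ∑ k, al i k * (q j k : K) ^ 2 := by
    have h5 : (d : K) ^ 2 * r * al i j = ∑ k, (d : K) ^ 2 * r * (al i k *
        (if j = k then 1 else 0)) := by
      rw [sum_eq_single j]
      · rw [if_pos rfl]; ring
      · intro b _ hb; rw [if_neg (Ne.symm hb)]; ring
      · intro hi; exact absurd (mem_univ j) hi
    rw [h5, mul_sum, mul_sum, mul_sum, mul_sum, ← sum_sub_distrib, ← sum_sub_distrib,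
      ← sum_add_distrib]
    refine sum_congr rfl fun k _ => ?_
    have h6 := h.gram j k
    linear_combination -al i k * h6
  rw [h1, h2, h.alrow] at h4
  have h7 : (4 * d * r) * ∑ k, al i k * (q j k : K) ^ 2 = 0 := by linear_combination -h4
  refine (mul_eq_zero.1 h7).resolve_left ?_
  exact mul_ne_zero (mul_ne_zero (by norm_num) hd) h.r0

omit [CharZero K] in
theorem Par.qsq (h : Par d r c q al) {i k : ι} (hk : q i k ≠ 0) : q i k ^ 2 = 1 := by
  rcases h.val i k with h1 | h1 | h1
  · exact absurd h1 hk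
  · rw [h1]; norm_num
  · rw [h1]; norm_num

/-- the numbers `t` -/
def tt (q : ι → ι → ℤ) (i k : ι) : ℤ := ∑ j, q i j * q k j

omit [DecidableEq ι] in
theorem tt_symm (i k : ι) : tt q i k = tt q k i := by
  unfold tt
  exact sum_congr rfl fun j _ => mul_comm _ _

omit [CharZero K] in
theorem Par.tt_off (h : Par d r c q al) {i k : ι} (hik : i ≠ k) (hq : q i k = 0) :
    (d : K) * al i k ^ 2 = r * (2 * (tt q i k : K) - d) := by
  have h1 := h.gram i k
  rw [if_neg hik, hq] at h1
  unfold tt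
  push_cast at h1 ⊢
  linear_combination -h1

theorem Par.tt_on (h : Par d r c q al) {i k : ι} (hq : q i k ≠ 0) : tt q i k = -d := by
  have h1 := h.gram i k
  have hik : i ≠ k := by
    rintro rfl
    exact hq (h.q_diag i)
  have h2 : ((q i k : ℤ) : K) ^ 2 = 1 := by
    have := h.qsq hq
    exact_mod_cast this
  rw [if_neg hik, h.alq i k hq, h2] at h1
  have h3 : (2 * r) * (((∑ j, q i j * q k j : ℤ) : K) + d) = 0 := by
    linear_combination h1
  have h4 := (mul_eq_zero.1 h3).resolve_left (mul_ne_zero two_ne_zero h.r0)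
  have h5 : ((tt q i k + d : ℤ) : K) = 0 := by
    unfold tt
    push_cast at h4 ⊢
    exact h4
  have h6 : tt q i k + (d : ℤ) = 0 := by exact_mod_cast h5
  linarith

/-- `t` is even where `q = 0`, off the diagonal, for `d = 3` modulo `4`. -/
theorem Par.tt_even (h : Par d r c q al) (hd : d % 4 = 3) {i j : ι} (hq : q i j = 0) :
    Even (tt q i j) := by
  have hdK : (d : K) ≠ 0 := by
    have : d ≠ 0 := by omega
    exact_mod_cast this
  have hc0 : c ≠ 0 := by
    intro hc
    have := h.cc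
    rw [hc] at this
    exact h.r0 (by linear_combination this)
  set S := univ.filter (fun k => k ≠ i ∧ q i k = 0 ∧ q j k ≠ 0) with hS
  have hcard : Even (S.card : ℤ) := by
    refine sx_card S (fun k => (d : K) * al i k / c) (fun k => (d : ℤ) ^ 2 - 2 * d * tt q i k)
      ?_ ?_ ?_
    · intro k hk
      have hk' := (mem_filter.1 hk).2
      have h1 := h.tt_off (Ne.symm hk'.1) hk'.2.1
      have h2 : ((d : K) * al i k / c) ^ 2 * c ^ 2 = (d : K) ^ 2 * al i k ^ 2 := by
        field_simp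
      rw [h.cc] at h2
      have h3 : (-r) * (((d : K) * al i k / c) ^ 2 - (((d : ℤ) ^ 2 - 2 * d * tt q i k : ℤ) : K)) =
          0 := by
        push_cast
        linear_combination h2 + (d : K) * h1
      have h4 := (mul_eq_zero.1 h3).resolve_left (neg_ne_zero.2 h.r0)
      linear_combination h4
    · intro k _
      have h1 : Odd (d : ℤ) := by
        refine ⟨(d / 2 : ℕ), ?_⟩
        have : d = 2 * (d / 2) + 1 := by omega
        exact_mod_cast this
      have h2 : Even (2 * (d : ℤ) * tt q i k) := ⟨(d : ℤ) * tt q i k, by ring⟩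
      exact (h1.pow).sub_even h2
    · have h1 := h.al_Q hdK i j
      have h2 : ∑ k ∈ S, (d : K) * al i k / c = d / c * ∑ k, al i k * (q j k : K) ^ 2 := by
        rw [mul_sum, hS, sum_filter]
        refine sum_congr rfl fun k _ => ?_
        by_cases h3 : k ≠ i ∧ q i k = 0 ∧ q j k ≠ 0
        · rw [if_pos h3]
          have h4 : ((q j k : ℤ) : K) ^ 2 = 1 := by
            have := h.qsq h3.2.2
            exact_mod_cast this
          rw [h4]; ring
        · rw [if_neg h3]
          by_cases h5 : k = i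
          · rw [h5, h.al_diag]; ring
          · by_cases h6 : q i k = 0
            · have h7 : q j k = 0 := by
                by_contra h8
                exact h3 ⟨h5, h6, h8⟩
              rw [h7]; push_cast; ring
            · rw [h.alq i k h6]; ring
      rw [h2, h1, mul_zero]
  have hdeg : Even (∑ k, q j k ^ 2) := by
    have h1 := h.deg j
    obtain ⟨a, ha⟩ : ∃ a, d = 4 * a + 3 := ⟨d / 4, by omega⟩
    refine ⟨(4 * a + 3) * (a + 1), ?_⟩
    rw [ha] at h1
    push_cast at h1
    linarith [h1]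
  have hT : Even (∑ k, q i k ^ 2 * q j k ^ 2) := by
    have h1 : ∑ k, q i k ^ 2 * q j k ^ 2 = ∑ k, q j k ^ 2 - (S.card : ℤ) := by
      rw [card_eq_sum_ones, hS, sum_filter]
      push_cast
      rw [← sum_sub_distrib]
      refine sum_congr rfl fun k _ => ?_
      by_cases h3 : k ≠ i ∧ q i k = 0 ∧ q j k ≠ 0
      · rw [if_pos h3, h.qsq h3.2.2, h3.2.1]; norm_num
      · rw [if_neg h3]
        by_cases h6 : q i k = 0
        · have h7 : q j k = 0 := by
            by_cases h5 : k = i
            · rw [h5, h.anti i j, hq]; rfl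
            · by_contra h8
              exact h3 ⟨h5, h6, h8⟩
          rw [h7]; norm_num
        · rw [h.qsq h6]; ring
    rw [h1]
    exact hdeg.sub hcard
  have h1 : Even (∑ k, (q i k * q j k - q i k ^ 2 * q j k ^ 2)) := by
    refine Finset.even_sum _ fun k _ => ?_
    rcases h.val i k with h1 | h1 | h1 <;> rcases h.val j k with h2 | h2 | h2 <;>
      rw [h1, h2] <;> decide
  rw [sum_sub_distrib] at h1
  have h2 := h1.add hT
  rw [sub_add_cancel] at h2
  exact h2

omit [CharZero K] in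
theorem Par.tt_row (h : Par d r c q al) (i : ι) : ∑ k, tt q i k = 0 := by
  unfold tt
  rw [sum_comm]
  refine sum_eq_zero fun j _ => ?_
  rw [← mul_sum]
  have h1 : ∑ k, q k j = -∑ k, q j k := by
    rw [← sum_neg_distrib]
    exact sum_congr rfl fun k _ => h.anti j k
  rw [h1, h.row]
  ring

omit [DecidableEq ι] in
theorem tt_diag (i : ι) : tt q i i = ∑ k, q i k ^ 2 := by
  unfold tt
  exact sum_congr rfl fun k _ => by ring

/-- the sum of `t ^ 2 - 2 t` over a row -/
theorem Par.row_sum (h : Par d r c q al) (i : ι) :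
    4 * ∑ k ∈ univ.filter (fun k => i ≠ k ∧ q i k = 0), (tt q i k ^ 2 - 2 * tt q i k) =
      (d : ℤ) * (d + 1) * (3 * (d : ℤ) ^ 2 - 5 * d + 4) := by
  set S := univ.filter (fun k => i ≠ k ∧ q i k = 0) with hS
  have hdeg := h.deg i
  obtain ⟨m, hm⟩ : ∃ m : ℤ, ∑ k, q i k ^ 2 = m := ⟨_, rfl⟩
  rw [hm] at hdeg
  -- splitting
  have hsplit : ∀ f : ι → ℤ, ∑ k, f k = ∑ k ∈ S, f k + f i + ∑ k, q i k ^ 2 * f k := by
    intro f
    have h1 : f i = ∑ k, if i = k then f k else 0 := by
      rw [sum_ite_eq]; simp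
    rw [h1, hS, sum_filter, ← sum_add_distrib, ← sum_add_distrib]
    refine sum_congr rfl fun k _ => ?_
    by_cases hik : i = k
    · rw [if_neg (by simp [hik]), if_pos hik, ← hik, h.q_diag]; ring
    · by_cases hq : q i k = 0
      · rw [if_pos ⟨hik, hq⟩, if_neg hik, hq]; ring
      · rw [if_neg (by simp [hq]), if_neg hik, h.qsq hq]; ring
  have hqt : ∑ k, q i k ^ 2 * tt q i k = -(d * m) := by
    rw [← hm, mul_sum, ← sum_neg_distrib]
    refine sum_congr rfl fun k _ => ?_
    by_cases hq : q i k = 0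
    · rw [hq]; ring
    · rw [h.tt_on hq]; ring
  have h1 : ∑ k ∈ S, tt q i k = (d - 1) * m := by
    have h2 := hsplit (tt q i)
    rw [h.tt_row, hqt, tt_diag, hm] at h2
    linear_combination -h2
  have hcard : (S.card : ℤ) = (d : ℤ) ^ 2 - 1 - m := by
    have h2 := hsplit (fun _ => 1)
    simp only [sum_const, card_univ, nsmul_eq_mul, mul_one, h.card, hm] at h2
    push_cast at h2
    linear_combination -h2
  have h3 : ∑ k ∈ S, (2 * tt q i k - d) ^ 2 = 3 * (d : ℤ) ^ 2 * m := by
    have h4 := h.four i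
    have h5 : ∑ k, (al i k ^ 2 + r * (q i k : K) ^ 2) ^ 2 = ∑ k ∈ S, al i k ^ 4 +
        r ^ 2 * (m : K) := by
      have h6 : (m : K) = ∑ k, (q i k : K) ^ 2 := by rw [← hm]; push_cast; rfl
      rw [h6, hS, sum_filter, mul_sum, ← sum_add_distrib]
      refine sum_congr rfl fun k _ => ?_
      by_cases hik : i = k
      · rw [if_neg (by simp [hik]), ← hik, h.q_diag, h.al_diag]; push_cast; ring
      · by_cases hq : q i k = 0
        · rw [if_pos ⟨hik, hq⟩, hq]; push_cast; ring
        · have h7 : ((q i k : ℤ) : K) ^ 2 = 1 := by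
            have := h.qsq hq
            exact_mod_cast this
          rw [if_neg (by simp [hq]), h.alq i k hq, h7]; ring
    rw [h5] at h4
    have h6 : (d : K) ^ 2 * ∑ k ∈ S, al i k ^ 4 = r ^ 2 *
        ((∑ k ∈ S, (2 * tt q i k - d) ^ 2 : ℤ) : K) := by
      push_cast
      rw [mul_sum, mul_sum]
      refine sum_congr rfl fun k hk => ?_
      have hk' := (mem_filter.1 hk).2
      have h7 := h.tt_off hk'.1 hk'.2
      have h8 : (d : K) ^ 2 * al i k ^ 4 = (d * al i k ^ 2) ^ 2 := by ring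
      rw [h8, h7]; ring
    have h7 : 2 * (m : K) = d * (d + 1) := by exact_mod_cast hdeg
    have h8 : r ^ 2 * (((∑ k ∈ S, (2 * tt q i k - d) ^ 2 : ℤ) : K) - 3 * (d : K) ^ 2 * m) = 0 := by
      linear_combination -h6 + (d : K) ^ 2 * h4 - 2 * r ^ 2 * (d : K) ^ 2 * h7
    have h9 := (mul_eq_zero.1 h8).resolve_left (pow_ne_zero 2 h.r0)
    have h10 : ((∑ k ∈ S, (2 * tt q i k - d) ^ 2 : ℤ) : K) = ((3 * (d : ℤ) ^ 2 * m : ℤ) : K) := by
      push_cast
      push_cast at h9
      linear_combination h9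
    exact_mod_cast h10
  have h4 : ∑ k ∈ S, (2 * tt q i k - d) ^ 2 = 4 * ∑ k ∈ S, (tt q i k ^ 2 - 2 * tt q i k) +
      (8 - 4 * d) * ∑ k ∈ S, tt q i k + d ^ 2 * (S.card : ℤ) := by
    rw [card_eq_sum_ones]
    push_cast
    rw [mul_sum, mul_sum, mul_sum, ← sum_add_distrib, ← sum_add_distrib]
    exact sum_congr rfl fun k _ => by ring
  rw [h3, h1, hcard] at h4
  linear_combination -h4 + (4 * (d : ℤ) ^ 2 - 6 * d + 4) * hdeg

theorem Par.not_sixteen [Nonempty ι] (h : Par d r c q al) (hd : d % 16 = 7 ∨ d % 16 = 11) :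
    False := by
  have hd4 : d % 4 = 3 := by omega
  -- the symmetric function
  set f : ι → ι → ℤ := fun i k => if i ≠ k ∧ q i k = 0 then (tt q i k ^ 2 - 2 * tt q i k) / 8
    else 0 with hf
  have h8 : ∀ i k, i ≠ k ∧ q i k = 0 → 8 * ((tt q i k ^ 2 - 2 * tt q i k) / 8) =
      tt q i k ^ 2 - 2 * tt q i k := by
    intro i k hik
    apply Int.mul_ediv_cancel'
    obtain ⟨s, hs⟩ := h.tt_even hd4 hik.2
    have h1 : tt q i k ^ 2 - 2 * tt q i k = 4 * (s * (s - 1)) := by rw [hs]; ring
    obtain ⟨u, hu⟩ : Even (s * (s - 1)) := by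
      have := Int.even_mul_succ_self (s - 1)
      rwa [sub_add_cancel, mul_comm] at this
    rw [h1, hu]
    exact ⟨u, by ring⟩
  have hev : Even (∑ i, ∑ k, f i k) := by
    refine sx_symm f ?_ ?_
    · intro i k
      simp only [hf]
      have h1 : (i ≠ k ∧ q i k = 0) ↔ (k ≠ i ∧ q k i = 0) := by
        rw [h.anti i k, neg_eq_zero]
        exact and_congr_left fun _ => ne_comm
      by_cases h2 : i ≠ k ∧ q i k = 0
      · rw [if_pos h2, if_pos (h1.1 h2), tt_symm i k]
      · rw [if_neg h2, if_neg fun h3 => h2 (h1.2 h3)]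
    · intro i
      simp only [hf]
      rw [if_neg (by simp)]
  have h1 : 4 * (8 * ∑ i, ∑ k, f i k) = (d : ℤ) ^ 2 *
      ((d : ℤ) * (d + 1) * (3 * (d : ℤ) ^ 2 - 5 * d + 4)) := by
    have h2 : ∀ i, 4 * (8 * ∑ k, f i k) = (d : ℤ) * (d + 1) * (3 * (d : ℤ) ^ 2 - 5 * d + 4) := by
      intro i
      rw [← h.row_sum i, sum_filter, mul_sum]
      congr 1
      refine sum_congr rfl fun k _ => ?_
      simp only [hf]
      by_cases h3 : i ≠ k ∧ q i k = 0
      · rw [if_pos h3, if_pos h3, h8 i k h3]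
      · rw [if_neg h3, if_neg h3, mul_zero]
    rw [mul_sum, mul_sum, sum_congr rfl fun i _ => h2 i, sum_const, card_univ, h.card,
      nsmul_eq_mul]
    push_cast
    ring
  obtain ⟨e, he⟩ := hev
  rw [he] at h1
  have h2 : (64 : ℤ) ∣ (d : ℤ) ^ 2 * ((d : ℤ) * (d + 1) * (3 * (d : ℤ) ^ 2 - 5 * d + 4)) :=
    ⟨e, by rw [← h1]; ring⟩
  have h3 : (d : ℤ) % 64 = 7 ∨ (d : ℤ) % 64 = 23 ∨ (d : ℤ) % 64 = 39 ∨ (d : ℤ) % 64 = 55 ∨
      (d : ℤ) % 64 = 11 ∨ (d : ℤ) % 64 = 27 ∨ (d : ℤ) % 64 = 43 ∨ (d : ℤ) % 64 = 59 := by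
    omega
  have h4 := Int.emod_eq_zero_of_dvd h2
  rcases h3 with h3 | h3 | h3 | h3 | h3 | h3 | h3 | h3 <;>
  · simp [pow_succ, Int.mul_emod, Int.add_emod, Int.sub_emod, h3] at h4

variable {n : Type} [Fintype n] [DecidableEq n] {v z : ι → n → K}

omit [DecidableEq n] in
/-- Rigidity for `d = 7` and `d = 11` modulo `16`. -/
theorem Curve.sixteen (hpos : SicAb.PosStar K) {D : K → K} {X : n → n → K} {th : ι → K}
    (hC : Curve D X th v z) (hd : Fintype.card n % 16 = 7 ∨ Fintype.card n % 16 = 11) (k : ι) :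
    z k = 0 := by
  by_contra hz0
  obtain ⟨r, c, q, al, h, _⟩ := hC.par hpos k hz0
  have : Nonempty ι := ⟨k⟩
  exact h.not_sixteen hd

end Pool.Agent.SicRg
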