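import Pool.Agent.Lib.MP_d0f9e0_co.Rg.Final
import Pool.Agent.Lib.MP_d0f9e0_co.Rg.Sixteen

set_option autoImplicit false

namespace Pool.Agent.SicRg

open Finset Pool.Agent.SicAb Pool.Agent.Lib.MP_d0f9e0_co

variable {d : ℕ}

/-- All curves are constant. -/
def ZeroD (d : ℕ) : Prop :=
  ∀ (K : Type) [Field K] [CharZero K] [StarRing K], PosStar K →
    ∀ (D : K → K) (X : Fin d → Fin d → K) (th : Fin (d ^ 2) → K)
      (v z : Fin (d ^ 2) → Fin d → K), Curve D X th v z → ∀ k, z k = 0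

theorem rigidD_of_zero (h : ZeroD d) : RigidD d := by
  intro K _ _ _ _ hpos D hD v hv i j k
  have hder : SDer (D : K → K) := by
    refine ⟨fun a b => map_add D a b, fun a b => ?_, hD⟩
    rw [Derivation.leibniz, smul_eq_mul, smul_eq_mul]
    ring
  obtain ⟨X, th, z, hC⟩ := exists_curve hpos (hv.sys hpos) hder
  exact hC.triple (fun k => h K hpos _ X th v z hC k) i j k

theorem zeroD_count (h4 : ¬ 4 ∣ d * (d + 1)) : ZeroD d := by
  intro K _ _ _ hpos D X th v z hC k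
  exact hC.count hpos (by rwa [Fintype.card_fin]) k

theorem zeroD_sixteen (h : d % 16 = 7 ∨ d % 16 = 11) : ZeroD d := by
  intro K _ _ _ hpos D X th v z hC k
  exact hC.sixteen hpos (by rwa [Fintype.card_fin]) k

theorem zeroD_mod (h : d % 4 = 1 ∨ d % 4 = 2 ∨ d % 16 = 7 ∨ d % 16 = 11) : ZeroD d := by
  rcases h with h | h | h | h
  · apply zeroD_count
    intro h4
    have h5 : d * (d + 1) % 4 = 0 := Nat.mod_eq_zero_of_dvd h4
    rw [Nat.mul_mod, Nat.add_mod] at h5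
    rw [h] at h5
    norm_num at h5
  · apply zeroD_count
    intro h4
    have h5 : d * (d + 1) % 4 = 0 := Nat.mod_eq_zero_of_dvd h4
    rw [Nat.mul_mod, Nat.add_mod] at h5
    rw [h] at h5
    norm_num at h5
  · exact zeroD_sixteen (Or.inl h)
  · exact zeroD_sixteen (Or.inr h)

/-- The finite list from the vanishing of all variations. -/
theorem finite_list_of_zero (h : ZeroD d) :
    ∃ F : Set (Fin (d ^ 2) → Fin d → ℂ), F.Finite ∧
      (∀ x ∈ F, IsMaximalETF d x ∧ ∀ i a, IsAlgebraic ℚ (x i a)) ∧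
      ∀ y : Fin (d ^ 2) → Fin d → ℂ, IsMaximalETF d y →
        ∃ x ∈ F, ∃ U ∈ Matrix.unitaryGroup (Fin d) ℂ, ∀ i, ∃ c : ℂ, ‖c‖ = 1 ∧
          y i = c • U.mulVec (x i) :=
  list_of_rigidD (rigidD_of_zero h)

/-- `d = 1, 2` modulo `4` and `d = 7, 11` modulo `16`. -/
theorem finite_list16 (h : d % 4 = 1 ∨ d % 4 = 2 ∨ d % 16 = 7 ∨ d % 16 = 11) :
    ∃ F : Set (Fin (d ^ 2) → Fin d → ℂ), F.Finite ∧
      (∀ x ∈ F, IsMaximalETF d x ∧ ∀ i a, IsAlgebraic ℚ (x i a)) ∧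
      ∀ y : Fin (d ^ 2) → Fin d → ℂ, IsMaximalETF d y →
        ∃ x ∈ F, ∃ U ∈ Matrix.unitaryGroup (Fin d) ℂ, ∀ i, ∃ c : ℂ, ‖c‖ = 1 ∧
          y i = c • U.mulVec (x i) :=
  finite_list_of_zero (zeroD_mod h)

end Pool.Agent.SicRg
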