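import Pool.Agent.Lib.MP_d0f9e0_co.Rg.Final

/-!
# Generic rotations

For a countable set `A` of elements of an algebraically closed field `K` with a positive star
operation and uncountably many self-adjoint elements, there are self-adjoint `c`, `s` with
`c ^ 2 + s ^ 2 = 1` and a star derivation `D` killing `A` with `D c = - s`, `D s = c`.
-/

set_option autoImplicit false

namespace Pool.Agent.SicRg

open Polynomial Pool.Agent.SicAb Pool.Agent.SicFin
open scoped IntermediateField.algebraAdjoinAdjoin

/-- A transcendental element over `k` stays transcendental over a subfield `k0` containing `k`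
such that everything is algebraic over `k0(t)`. -/
theorem exists_closed_subfield_rel {k K : Type*} [Field k] [Field K] [Algebra k K] {t : K}
    (ht : Transcendental k t) :
    ∃ k0 : Subfield K, (∀ a : k, algebraMap k K a ∈ k0) ∧ Transcendental k0 t ∧
      ∀ z : K, IsAlgebraic (IntermediateField.adjoin k0 ({t} : Set K)) z := by
  classical
  have hind : AlgebraicIndepOn k id ({t} : Set K) := by
    have h1 : AlgebraicIndependent k (fun i : ({t} : Set K) => (i : K)) := by
      rw [algebraicIndependent_singleton_iff (⟨t, rfl⟩ : ({t} : Set K))]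
      exact ht
    exact h1
  obtain ⟨s, hts, hs⟩ := exists_isTranscendenceBasis_superset hind
  have hts' : t ∈ s := hts (Set.mem_singleton t)
  set J : Set K := s \ {t} with hJ
  set E := IntermediateField.adjoin k J with hE
  set k1 : IntermediateField E K := algebraicClosure E K with hk1
  set k0 : Subfield K := k1.toSubfield with hk0
  have hmem : ∀ z : K, z ∈ k0 ↔ IsAlgebraic E z := by
    intro z
    change z ∈ k1 ↔ _
    rw [hk1, mem_algebraicClosure_iff]
  have hkk : ∀ a : k, algebraMap k K a ∈ k0 := by
    intro a
    have h6 : algebraMap k K a ∈ E := E.algebraMap_mem a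
    exact (hmem _).mpr (isAlgebraic_algebraMap (⟨_, h6⟩ : E))
  refine ⟨k0, hkk, ?_, ?_⟩
  · intro halg
    have h1 : IsAlgebraic k1 t := halg
    have h2 : IsAlgebraic E t := h1.restrictScalars E
    have h3 : IsAlgebraic (Algebra.adjoin k J) t :=
      IntermediateField.isAlgebraic_adjoin_iff.mp h2
    have h4 := hs.1.transcendental_adjoin (s := {i : s | (i : K) ≠ t}) (i := ⟨t, hts'⟩)
      (fun h => h rfl)
    have h5 : (fun i : s => (i : K)) '' {i : s | (i : K) ≠ t} = J := by
      ext z
      constructor
      · rintro ⟨i, hi, rfl⟩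
        exact ⟨i.2, hi⟩
      · rintro ⟨hz, hz2⟩
        exact ⟨⟨z, hz⟩, hz2, rfl⟩
    have h6 : Transcendental (Algebra.adjoin k J) t := by
      rw [← h5]
      exact h4
    exact h6 h3
  · intro z
    have halg := hs.isAlgebraic_field
    have h1 : IsAlgebraic (IntermediateField.adjoin k (Set.range (fun i : s => (i : K)))) z :=
      halg.isAlgebraic z
    have h2 : IsAlgebraic (IntermediateField.adjoin k
        (Set.range (fun i : s => (i : K)))).toSubfield z := h1
    have hgen : ∀ i : s, (i : K) ∈ (IntermediateField.adjoin k0 ({t} : Set K)).toSubfield := by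
      intro i
      by_cases hi : (i : K) = t
      · have h7 : t ∈ IntermediateField.adjoin k0 ({t} : Set K) :=
          IntermediateField.subset_adjoin k0 ({t} : Set K) (Set.mem_singleton t)
        rw [hi]
        exact h7
      · have h6 : (i : K) ∈ E := IntermediateField.subset_adjoin k J ⟨i.2, hi⟩
        have h5 : (i : K) ∈ k0 := (hmem _).mpr (isAlgebraic_algebraMap (⟨i, h6⟩ : E))
        exact (IntermediateField.adjoin k0 ({t} : Set K)).algebraMap_mem ⟨i, h5⟩
    have h3 : (IntermediateField.adjoin k (Set.range (fun i : s => (i : K)))).toSubfield ≤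
        (IntermediateField.adjoin k0 ({t} : Set K)).toSubfield := by
      intro w hw
      have hw' : w ∈ IntermediateField.adjoin k (Set.range (fun i : s => (i : K))) := hw
      induction hw' using IntermediateField.adjoin_induction with
      | mem x hx =>
        obtain ⟨i, rfl⟩ := hx
        exact hgen i
      | algebraMap x =>
        exact (IntermediateField.adjoin k0 ({t} : Set K)).algebraMap_mem ⟨_, hkk x⟩
      | add x y hx hy ihx ihy => exact add_mem (ihx hx) (ihy hy)
      | inv x hx ihx => exact inv_mem (ihx hx)
      | mul x y hx hy ihx ihy => exact mul_mem (ihx hx) (ihy hy)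
    exact isAlgebraic_mono h3 h2

/-- The derivative with respect to an element which is transcendental over `k`. -/
theorem exists_derivation_rel {k K : Type*} [Field k] [Field K] [CharZero K] [Algebra k K] {t : K}
    (ht : Transcendental k t) :
    ∃ D : Derivation ℚ K K, D t = 1 ∧ ∀ a : k, D (algebraMap k K a) = 0 := by
  obtain ⟨k0, hk0, hk0t, halg⟩ := exists_closed_subfield_rel ht
  let A := Algebra.adjoin k0 ({t} : Set K)
  let F := IntermediateField.adjoin k0 ({t} : Set K)
  have hcF : CharZero F := (algebraMap F K).charZero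
  have hFK : Algebra.IsAlgebraic F K := ⟨halg⟩
  have hsep : Algebra.IsSeparable F K := inferInstance
  have e1 : Algebra.FormallyEtale A F :=
    Algebra.FormallyEtale.of_isLocalization (nonZeroDivisors A)
  have e2 : Algebra.FormallyEtale F K := Algebra.FormallyEtale.of_isSeparable F K
  have e3 : Algebra.FormallyEtale A K := Algebra.FormallyEtale.comp A F K
  obtain ⟨d, hd⟩ := SicCi.exists_poly_derivation hk0t
  obtain ⟨D, hD⟩ := SicCi.extend_derivation (R := k0) (A := A) (K := K) d
  refine ⟨D.restrictScalars ℚ, ?_, ?_⟩
  · have h1 := hD (gen (k := k0) t)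
    rw [hd] at h1
    exact h1
  · intro a
    have h1 := D.map_algebraMap (⟨algebraMap k K a, hk0 a⟩ : k0)
    exact h1

/-- The set of elements algebraic over a countable set is countable. -/
theorem countable_alg {K : Type*} [Field K] [CharZero K] {A : Set K} (hA : A.Countable) :
    {z : K | IsAlgebraic (IntermediateField.adjoin ℚ A) z}.Countable := by
  have h1 : Countable (IntermediateField.adjoin ℚ A) := by
    rw [← Cardinal.mk_le_aleph0_iff]
    have h2 := IntermediateField.lift_cardinalMk_adjoin_le ℚ A
    have h3 : Cardinal.mk A ≤ Cardinal.aleph0 := Cardinal.mk_le_aleph0_iff.mpr hA.to_subtype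
    rw [Cardinal.lift_id'.{0}] at h2
    refine h2.trans ?_
    simpa using h3
  exact Algebraic.countable (IntermediateField.adjoin ℚ A) K

/-- Generic rotations. -/
theorem exists_rot {K : Type*} [Field K] [CharZero K] [StarRing K] (hpos : PosStar K)
    (hunc : ¬ {x : K | star x = x}.Countable) {A : Set K} (hA : A.Countable) :
    ∃ c s : K, star c = c ∧ star s = s ∧ c * c + s * s = 1 ∧
      ∃ D : Derivation ℚ K K, (∀ z, D (star z) = star (D z)) ∧ (∀ x ∈ A, D x = 0) ∧
        D c = -s ∧ D s = c := by
  classical
  set B : Set K := A ∪ star '' A with hB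
  have hBc : B.Countable := hA.union (hA.image _)
  obtain ⟨x, hx, hxt⟩ : ∃ x : K, star x = x ∧
      ¬ IsAlgebraic (IntermediateField.adjoin ℚ B) x := by
    by_contra hcon
    push Not at hcon
    exact hunc ((countable_alg hBc).mono fun x hx => hcon x hx)
  obtain ⟨D0, hD0, hD0k⟩ := exists_derivation_rel
    (k := IntermediateField.adjoin ℚ B) (t := x) hxt
  obtain ⟨D1, hD1⟩ := SicCi.exists_conj_derivation D0
  have hB0 : ∀ b ∈ B, D0 b = 0 := fun b hb =>
    hD0k ⟨b, IntermediateField.subset_adjoin ℚ B hb⟩
  have h1x : (1 : K) + x * x ≠ 0 := by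
    intro h0
    have h1 := hpos Bool Finset.univ (fun b => if b then 1 else x) (by
      rw [Fintype.sum_bool]
      simp only [if_true, Bool.false_eq_true, if_false, star_one, mul_one]
      rw [hx]
      exact h0) true (Finset.mem_univ _)
    simp at h1
  have hstar : ∀ z, star (D0 z + D1 z) = D0 (star z) + D1 (star z) := by
    intro z
    rw [hD1, hD1, star_add, star_star, star_star, add_comm]
  have hs1x : star ((1 : K) + x * x) = 1 + x * x := by
    rw [star_add, star_one, star_mul', hx]
  obtain ⟨E, hE⟩ : ∃ E : Derivation ℚ K K, ∀ z, E z = D0 z + D1 z := ⟨D0 + D1, fun z => rfl⟩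
  have hEx : E x = 2 := by rw [hE, hD1, hx, hD0, star_one, one_add_one_eq_two]
  have hEs : ∀ z, star (E z) = E (star z) := fun z => by rw [hE, hE, hstar]
  have hE1 : E (1 - x * x) = -4 * x := by
    rw [map_sub, E.map_one_eq_zero, E.leibniz, hEx, smul_eq_mul]
    ring
  have hE2 : E (1 + x * x) = 4 * x := by
    rw [map_add, E.map_one_eq_zero, E.leibniz, hEx, smul_eq_mul]
    ring
  have hE3 : E (2 * x) = 4 := by
    have h2 : (2 : K) * x = x + x := by ring
    rw [h2, map_add, hEx]
    norm_num
  refine ⟨(1 - x * x) / (1 + x * x), 2 * x / (1 + x * x), ?_, ?_, ?_,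
    ((1 + x * x) / 4) • E, ?_, ?_, ?_, ?_⟩
  · rw [star_div₀, hs1x, star_sub, star_one, star_mul', hx]
  · rw [star_div₀, hs1x, star_mul', hx, star_ofNat]
  · rw [div_mul_div_comm, div_mul_div_comm, ← add_div, div_eq_one_iff_eq (mul_ne_zero h1x h1x)]
    ring
  · intro z
    change (1 + x * x) / 4 * E (star z) = star ((1 + x * x) / 4 * E z)
    rw [star_mul', star_div₀, hs1x, hEs, star_ofNat]
  · intro a ha
    change (1 + x * x) / 4 * E a = 0
    rw [hE, hD1, hB0 a (Or.inl ha), hB0 (star a) (Or.inr ⟨a, ha, rfl⟩), star_zero, add_zero,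
      mul_zero]
  · change (1 + x * x) / 4 * E ((1 - x * x) / (1 + x * x)) = _
    rw [E.leibniz_div, hE1, hE2]
    simp only [smul_eq_mul]
    field_simp
    ring
  · change (1 + x * x) / 4 * E (2 * x / (1 + x * x)) = _
    rw [E.leibniz_div, hE3, hE2]
    simp only [smul_eq_mul]
    field_simp
    ring

/-- The complex field has uncountably many self-adjoint elements. -/
theorem unc_complex : ¬ {x : ℂ | star x = x}.Countable := by
  intro h
  have h1 : (Set.range (fun r : ℝ => (r : ℂ))).Countable :=
    h.mono (by rintro _ ⟨r, rfl⟩; exact Complex.conj_ofReal r)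
  have h2 : (Set.univ : Set ℝ).Countable := by
    have h3 := h1.preimage_of_injOn (f := fun r : ℝ => (r : ℂ))
      (Complex.ofReal_injective.injOn)
    refine h3.mono fun r _ => ?_
    exact Set.mem_range_self r
  exact Cardinal.not_countable_real h2

/-- The field of germs has uncountably many self-adjoint elements. -/
theorem unc_germ : ¬ {x : GermField | star x = x}.Countable := by
  intro h
  apply unc_complex
  have h3 := h.preimage_of_injOn (f := constGerm) constGerm.injective.injOn
  refine h3.mono fun x hx => ?_
  change star (constGerm x) = constGerm x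
  have h4 : star (constGerm x) = constGerm (star x) := rfl
  have h5 : star x = x := hx
  rw [h4, h5]

end Pool.Agent.SicRg
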