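import Pool.Agent.Lib.MP_d0f9e0_co.Rg.CirH
import Pool.Agent.Lib.MP_d0f9e0_co.Rg.Rot
import Pool.Agent.Lib.MP_d0f9e0_co.Rg.Final16

set_option autoImplicit false

/-!
The structure theorem for all dimensions: normal form of a circle and the final assembly.
-/

namespace Pool.Agent.SicRg

open Finset Pool.Agent.SicFin Pool.Agent.SicAb Cx

open Pool.Agent.Lib.MP_d0f9e0_co (IsMaximalETF)

variable {d : ℕ}

theorem hasRot_complex : HasRot ℂ := fun _ hA => exists_rot posStar_complex unc_complex hA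

theorem hasRot_germ : HasRot GermField := fun _ hA => exists_rot posStar_germ unc_germ hA

/-- A circle comes from a curve. -/
theorem Cir.exists_curve {K : Type} [Field K] [CharZero K] [StarRing K]
    {n ι : Type} [Fintype n] [Fintype ι] [DecidableEq n] [DecidableEq ι] [Nonempty ι]
    (hpos : PosStar K) (hrot : HasRot K) {v z : ι → n → K} (h : Cir v z) :
    ∃ (D : K → K) (X : n → n → K) (th : ι → K) (v' z' : ι → n → K), Curve D X th v' z' ∧
      ∀ k, z' k ≠ 0 := by
  obtain ⟨c, s, hc, hs, hcs, d, hd, hdA, hdc, hds⟩ := hrot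
    (Set.range (fun p : ι × n => v p.1 p.2) ∪ Set.range (fun p : ι × n => z p.1 p.2))
    ((Set.finite_range _).union (Set.finite_range _)).countable
  have hdv : ∀ k p, d (v k p) = 0 := fun k p => hdA _ (Or.inl ⟨(k, p), rfl⟩)
  have hdz : ∀ k p, d (z k p) = 0 := fun k p => hdA _ (Or.inr ⟨(k, p), rfl⟩)
  obtain ⟨hC', hrat'⟩ := h.rot hpos hc hs hcs
  have hd' := sder hd
  refine ⟨d, fun _ _ => 0, fun _ => 0, _, _, ⟨hd', ⟨fun p q => by rw [star_zero, neg_zero],
    fun k => by rw [star_zero, neg_zero]⟩, hC'.sys, ?_, hC'.tan⟩, fun k h0 => ?_⟩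
  · funext k p
    simp only [nab, zero_mul, sum_const_zero, sub_zero]
    simp only [Pi.add_apply, Pi.smul_apply, smul_eq_mul]
    rw [hd'.add, hd'.mul, hd'.mul, hdv, hdz, hdc, hds]
    ring
  · have h1 := hC'.unit k
    rw [h0, ip_zero] at h1
    exact zero_ne_one h1

theorem no_cir_of_zeroD (hZ : ZeroD d) {x z : Fin (d ^ 2) → Fin d → ℂ} (h : Cir x z)
    (i : Fin (d ^ 2)) : False := by
  have : Nonempty (Fin (d ^ 2)) := ⟨i⟩
  obtain ⟨D, X, th, v', z', hC, hne⟩ := h.exists_curve posStar_complex hasRot_complex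
  exact hne i (hZ ℂ posStar_complex D X th v' z' hC i)

/-- The integers of a circle. -/
noncomputable def qq (x z : Fin (d ^ 2) → Fin d → ℂ) (i k : Fin (d ^ 2)) : ℤ :=
  if rat x z i k = Complex.I then 1 else if rat x z i k = -Complex.I then -1 else 0

theorem qq_cases (x z : Fin (d ^ 2) → Fin d → ℂ) (i k : Fin (d ^ 2)) :
    qq x z i k = 0 ∨ qq x z i k = 1 ∨ qq x z i k = -1 := by
  unfold qq
  split_ifs
  · right; left; rfl
  · right; right; rfl
  · left; rfl

/-- the three cases of a pair -/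
theorem Cir.cases {x z : Fin (d ^ 2) → Fin d → ℂ} (h : Cir x z) (i k : Fin (d ^ 2)) :
    (qq x z i k = 0 ∧ star (rat x z i k) = rat x z i k ∧ ip (z i) (z k) = ip (x i) (x k)) ∨
    (qq x z i k = 1 ∧ rat x z i k = Complex.I ∧ ip (z i) (z k) = -ip (x i) (x k)) ∨
    (qq x z i k = -1 ∧ rat x z i k = -Complex.I ∧ ip (z i) (z k) = -ip (x i) (x k)) := by
  have hI : star Complex.I = -Complex.I := Complex.conj_I
  have hI2 : Complex.I * Complex.I = -1 := Complex.I_mul_I
  have hI0 : Complex.I ≠ 0 := Complex.I_ne_zero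
  have hII : -Complex.I ≠ Complex.I := by
    intro h1
    have h2 : (2 : ℂ) * Complex.I = 0 := by linear_combination -h1
    exact hI0 ((mul_eq_zero.1 h2).resolve_left two_ne_zero)
  rcases h.alt i k with h1 | h1
  · left
    refine ⟨?_, h1.1, h1.2⟩
    unfold qq
    rw [if_neg, if_neg]
    · intro h2
      rw [h2, star_neg, hI, neg_neg] at h1
      exact hII h1.1.symm
    · intro h2
      rw [h2, hI] at h1
      exact hII h1.1
  · right
    have h2 : (rat x z i k - Complex.I) * (rat x z i k + Complex.I) = 0 := by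
      linear_combination h1.1 - hI2
    rcases mul_eq_zero.1 h2 with h3 | h3
    · left
      have h4 := sub_eq_zero.1 h3
      refine ⟨?_, h4, h1.2.2⟩
      unfold qq
      rw [if_pos h4]
    · right
      have h4 := eq_neg_of_add_eq_zero_left h3
      refine ⟨?_, h4, h1.2.2⟩
      unfold qq
      rw [h4, if_neg hII, if_pos rfl]

/-- imaginary part -/
theorem Cir.sub_star {x z : Fin (d ^ 2) → Fin d → ℂ} (h : Cir x z) (i k : Fin (d ^ 2)) :
    rat x z i k - star (rat x z i k) = 2 * Complex.I * (qq x z i k : ℂ) := by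
  have hI : star Complex.I = -Complex.I := Complex.conj_I
  rcases h.cases i k with h1 | h1 | h1
  · rw [h1.1, h1.2.1]
    simp
  · rw [h1.1, h1.2.1, hI]
    push_cast
    ring
  · rw [h1.1, h1.2.1, star_neg, hI]
    push_cast
    ring

theorem Cir.xx_eq {x z : Fin (d ^ 2) → Fin d → ℂ} (h : Cir x z) (i k : Fin (d ^ 2)) :
    rat x z i k * star (rat x z i k) - rat x z i k ^ 2 = 2 * ((qq x z i k : ℂ)) ^ 2 := by
  have hI : star Complex.I = -Complex.I := Complex.conj_I
  have hI2 : Complex.I * Complex.I = -1 := Complex.I_mul_I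
  rcases h.cases i k with h1 | h1 | h1
  · rw [h1.1, h1.2.1]
    push_cast
    ring
  · rw [h1.1, h1.2.1, hI]
    push_cast
    linear_combination (-2) * hI2
  · rw [h1.1, h1.2.1, star_neg, hI]
    push_cast
    linear_combination (-2) * hI2

/-- the Gram matrix on the circle -/
theorem Cir.gram_exp {x z : Fin (d ^ 2) → Fin d → ℂ} (h : Cir x z) (t : ℝ)
    (i k : Fin (d ^ 2)) :
    ip (((Real.cos t : ℝ) : ℂ) • x i + ((Real.sin t : ℝ) : ℂ) • z i)
      (((Real.cos t : ℝ) : ℂ) • x k + ((Real.sin t : ℝ) : ℂ) • z k) =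
      Complex.exp (2 * t * (qq x z i k : ℂ) * Complex.I) * ip (x i) (x k) := by
  have hc : star ((Real.cos t : ℝ) : ℂ) = ((Real.cos t : ℝ) : ℂ) := Complex.conj_ofReal _
  have hs : star ((Real.sin t : ℝ) : ℂ) = ((Real.sin t : ℝ) : ℂ) := Complex.conj_ofReal _
  have hcs : ((Real.cos t : ℝ) : ℂ) * ((Real.cos t : ℝ) : ℂ) +
      ((Real.sin t : ℝ) : ℂ) * ((Real.sin t : ℝ) : ℂ) = 1 := by
    rw [← Complex.ofReal_mul, ← Complex.ofReal_mul, ← Complex.ofReal_add]
    have : Real.cos t * Real.cos t + Real.sin t * Real.sin t = 1 := by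
      nlinarith [Real.sin_sq_add_cos_sq t]
    rw [this, Complex.ofReal_one]
  have hI2 : Complex.I * Complex.I = -1 := Complex.I_mul_I
  rw [h.gram hc hs i k, h.sub_star i k]
  rcases h.cases i k with h1 | h1 | h1
  · rw [h1.1, h1.2.2]
    have h2 : Complex.exp (2 * t * ((0 : ℤ) : ℂ) * Complex.I) = 1 := by
      rw [Int.cast_zero, mul_zero, zero_mul, Complex.exp_zero]
    rw [h2]
    push_cast
    push_cast at hcs
    linear_combination ip (x i) (x k) * hcs
  · rw [h1.1, h1.2.2]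
    have h2 : Complex.exp (2 * t * ((1 : ℤ) : ℂ) * Complex.I) =
        (((Real.cos t : ℝ) : ℂ) + ((Real.sin t : ℝ) : ℂ) * Complex.I) ^ 2 := by
      rw [Complex.ofReal_cos, Complex.ofReal_sin, ← Complex.exp_mul_I, ← Complex.exp_nat_mul]
      congr 1
      push_cast
      ring
    rw [h2]
    push_cast
    push_cast at hcs
    linear_combination (-(Complex.sin t * Complex.sin t * ip (x i) (x k))) * hI2
  · rw [h1.1, h1.2.2]
    have h2 : Complex.exp (2 * t * ((-1 : ℤ) : ℂ) * Complex.I) =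
        (((Real.cos t : ℝ) : ℂ) - ((Real.sin t : ℝ) : ℂ) * Complex.I) ^ 2 := by
      have h3 : ((Real.cos t : ℝ) : ℂ) - ((Real.sin t : ℝ) : ℂ) * Complex.I =
          Complex.exp ((-t : ℂ) * Complex.I) := by
        rw [Complex.exp_mul_I, Complex.cos_neg, Complex.sin_neg, Complex.ofReal_cos,
          Complex.ofReal_sin]
        ring
      rw [h3, ← Complex.exp_nat_mul]
      congr 1
      push_cast
      ring
    rw [h2]
    push_cast
    push_cast at hcs
    linear_combination (-(Complex.sin t * Complex.sin t * ip (x i) (x k))) * hI2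

theorem Cir.sum_q {x z : Fin (d ^ 2) → Fin d → ℂ} (h : Cir x z) (i : Fin (d ^ 2)) :
    ∑ k, qq x z i k = 0 ∧ 2 * ∑ k, qq x z i k ^ 2 = (d : ℤ) * (d + 1) := by
  have h1 := sum_a h.sys h.tan i
  have h2 := sum_a2 h.sys h.tan i
  have h3 := sum_s h.sys h.tan i
  constructor
  · have h4 : ∑ k, (rat x z i k - star (rat x z i k)) = 0 := by
      rw [sum_sub_distrib, ← star_sum, h1, star_zero, sub_zero]
    rw [sum_congr rfl fun k _ => h.sub_star i k, ← mul_sum] at h4
    have h5 : (∑ k, (qq x z i k : ℂ)) = 0 :=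
      (mul_eq_zero.1 h4).resolve_left (mul_ne_zero two_ne_zero Complex.I_ne_zero)
    exact_mod_cast h5
  · have h4 : ∑ k, (rat x z i k * star (rat x z i k) - rat x z i k ^ 2) =
        (d : ℂ) * ((d : ℂ) + 1) := by
      rw [sum_sub_distrib, h3, h2, h.unit i, dd_fin]
      ring
    rw [sum_congr rfl fun k _ => h.xx_eq i k, ← mul_sum] at h4
    exact_mod_cast h4

theorem Cir.card_q {x z : Fin (d ^ 2) → Fin d → ℂ} (h : Cir x z) (i : Fin (d ^ 2)) :
    4 * (univ.filter fun k => qq x z i k = 1).card = d * (d + 1) ∧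
      4 * (univ.filter fun k => qq x z i k = -1).card = d * (d + 1) := by
  obtain ⟨h1, h2⟩ := h.sum_q i
  have e1 : ∀ k, (2 : ℤ) * (if qq x z i k = 1 then 1 else 0) =
      qq x z i k ^ 2 + qq x z i k := by
    intro k
    rcases qq_cases x z i k with h | h | h <;> rw [h] <;> norm_num
  have e2 : ∀ k, (2 : ℤ) * (if qq x z i k = -1 then 1 else 0) =
      qq x z i k ^ 2 - qq x z i k := by
    intro k
    rcases qq_cases x z i k with h | h | h <;> rw [h] <;> norm_num
  have f1 : (2 : ℤ) * ((univ.filter fun k => qq x z i k = 1).card : ℤ) =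
      ∑ k, qq x z i k ^ 2 := by
    rw [card_filter]
    push_cast
    rw [mul_sum, sum_congr rfl fun k _ => e1 k, sum_add_distrib, h1, add_zero]
  have f2 : (2 : ℤ) * ((univ.filter fun k => qq x z i k = -1).card : ℤ) =
      ∑ k, qq x z i k ^ 2 := by
    rw [card_filter]
    push_cast
    rw [mul_sum, sum_congr rfl fun k _ => e2 k, sum_sub_distrib, h1, sub_zero]
  constructor
  · have : ((4 * (univ.filter fun k => qq x z i k = 1).card : ℕ) : ℤ) =
        ((d * (d + 1) : ℕ) : ℤ) := by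
      push_cast
      linear_combination 2 * f1 + h2
    exact_mod_cast this
  · have : ((4 * (univ.filter fun k => qq x z i k = -1).card : ℕ) : ℤ) =
        ((d * (d + 1) : ℕ) : ℤ) := by
      push_cast
      linear_combination 2 * f2 + h2
    exact_mod_cast this

/-- the normal value of a triple product -/
noncomputable def rr (d : ℕ) : ℝ := (1 / Real.sqrt ((d : ℝ) + 1)) ^ 3

theorem rr_alg : IsAlgebraic ℚ ((rr d : ℝ) : ℂ) := by
  have h1 : IsAlgebraic ℚ ((Real.sqrt ((d : ℝ) + 1) : ℝ) : ℂ) := by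
    rw [← mem_Qa]
    apply sqrt_mem_Qa (by positivity)
    rw [mem_Qa]
    have h2 : (((d : ℝ) + 1 : ℝ) : ℂ) = ((d + 1 : ℕ) : ℂ) := by push_cast; ring
    rw [h2]
    exact isAlgebraic_natCast _
  unfold rr
  push_cast
  rw [one_div]
  exact (h1.inv).pow 3

/-- the rotation to the normal form -/
theorem Cir.normal {x z : Fin (d ^ 2) → Fin d → ℂ} (hx : IsMaximalETF d x) (h : Cir x z)
    {i j k : Fin (d ^ 2)} (hS : S3 x z i j k ≠ 0) :
    ∃ t : ℝ, t3 (fun k => ((Real.cos t : ℝ) : ℂ) • x k + ((Real.sin t : ℝ) : ℂ) • z k) i j k =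
      ((rr d : ℝ) : ℂ) := by
  -- distinct indices
  have h0 : ∀ a, rat x z a a = 0 := by
    intro a
    unfold rat
    rw [h.tan.diag]
    ring
  have hij : i ≠ j := by
    rintro rfl
    apply hS
    unfold S3
    rw [h0, h.tan.anti i k, star_neg, star_zero]
    ring
  have hjk : j ≠ k := by
    rintro rfl
    apply hS
    unfold S3
    rw [h0, h.tan.anti i j, star_neg, star_zero]
    ring
  have hki : k ≠ i := by
    rintro rfl
    apply hS
    unfold S3
    rw [h0, h.tan.anti k j, star_neg, star_zero]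
    ring
  have hn : ‖t3 x i j k‖ = rr d := by
    unfold t3 rr
    rw [norm_mul, norm_mul, ip_eq, ip_eq, ip_eq, hx.2 _ _ hij.symm, hx.2 _ _ hjk.symm,
      hx.2 _ _ hki.symm]
    ring
  obtain ⟨Q, hQ⟩ : ∃ Q : ℤ, Q = qq x z i j + qq x z j k + qq x z k i := ⟨_, rfl⟩
  have hQ0 : (Q : ℝ) ≠ 0 := by
    intro h1
    apply hS
    have h2 : Q = 0 := by exact_mod_cast h1
    have h3 : ((qq x z i j : ℂ) + (qq x z j k : ℂ) + (qq x z k i : ℂ)) = 0 := by
      have : ((qq x z i j + qq x z j k + qq x z k i : ℤ) : ℂ) = 0 := by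
        rw [← hQ, h2, Int.cast_zero]
      push_cast at this
      exact this
    unfold S3
    linear_combination -(h.sub_star i j) - (h.sub_star j k) - (h.sub_star k i) -
      2 * Complex.I * h3
  refine ⟨-(Complex.arg (t3 x i j k)) / (2 * Q), ?_⟩
  obtain ⟨t, ht⟩ : ∃ t, t = -(Complex.arg (t3 x i j k)) / (2 * Q) := ⟨_, rfl⟩
  rw [← ht]
  have h1 : t3 (fun k => ((Real.cos t : ℝ) : ℂ) • x k + ((Real.sin t : ℝ) : ℂ) • z k) i j k =
      Complex.exp ((2 * t * Q : ℝ) * Complex.I) * t3 x i j k := by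
    unfold t3
    rw [h.gram_exp t i j, h.gram_exp t j k, h.gram_exp t k i]
    have h2 : Complex.exp ((2 * t * Q : ℝ) * Complex.I) =
        Complex.exp (2 * t * (qq x z i j : ℂ) * Complex.I) *
        Complex.exp (2 * t * (qq x z j k : ℂ) * Complex.I) *
        Complex.exp (2 * t * (qq x z k i : ℂ) * Complex.I) := by
      rw [← Complex.exp_add, ← Complex.exp_add, hQ]
      congr 1
      push_cast
      ring
    rw [h2]
    ring
  have h3 : 2 * t * Q = -(Complex.arg (t3 x i j k)) := by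
    rw [ht]
    field_simp
  rw [h1, h3]
  have h4 := Complex.norm_mul_exp_arg_mul_I (t3 x i j k)
  rw [hn] at h4
  rw [← h4]
  rw [mul_comm, mul_assoc, ← Complex.exp_add, h4]
  push_cast
  rw [neg_mul, add_neg_cancel, Complex.exp_zero, mul_one]

/-- A circle of maximal ETFs, in the notation of the problem. -/
def IsCircle (d : ℕ) (x z : Fin (d ^ 2) → Fin d → ℂ) : Prop :=
  ∃ q : Fin (d ^ 2) → Fin (d ^ 2) → ℤ, (∀ i k, q i k = 0 ∨ q i k = 1 ∨ q i k = -1) ∧
    (∀ i, 4 * (univ.filter fun k => q i k = 1).card = d * (d + 1) ∧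
      4 * (univ.filter fun k => q i k = -1).card = d * (d + 1)) ∧
    ∀ (t : ℝ) (i k : Fin (d ^ 2)),
      Lib.MP_d0f9e0_co.ip
        (((Real.cos t : ℝ) : ℂ) • x i + ((Real.sin t : ℝ) : ℂ) • z i)
        (((Real.cos t : ℝ) : ℂ) • x k + ((Real.sin t : ℝ) : ℂ) • z k) =
      Complex.exp (2 * t * (q i k : ℂ) * Complex.I) * Lib.MP_d0f9e0_co.ip (x i) (x k)

theorem Cir.isCircle {x z : Fin (d ^ 2) → Fin d → ℂ} (h : Cir x z) : IsCircle d x z := by
  have hanti : ∀ i k, qq x z k i = -qq x z i k := by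
    intro i k
    have h1 := h.sub_star i k
    have h2 := h.sub_star k i
    rw [h.tan.anti i k, star_neg] at h2
    have h3 : 2 * Complex.I * ((qq x z k i : ℂ) + (qq x z i k : ℂ)) = 0 := by
      linear_combination -h1 - h2
    have h4 := (mul_eq_zero.1 h3).resolve_left (mul_ne_zero two_ne_zero Complex.I_ne_zero)
    have h5 : qq x z k i + qq x z i k = 0 := by exact_mod_cast h4
    omega
  refine ⟨fun i k => qq x z k i, fun i k => qq_cases x z k i, fun i => ?_, fun t i k => ?_⟩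
  · obtain ⟨h1, h2⟩ := h.card_q i
    have e1 : (univ.filter fun k => qq x z k i = 1) = univ.filter fun k => qq x z i k = -1 := by
      ext k
      simp only [mem_filter, mem_univ, true_and]
      rw [hanti i k]
      omega
    have e2 : (univ.filter fun k => qq x z k i = -1) = univ.filter fun k => qq x z i k = 1 := by
      ext k
      simp only [mem_filter, mem_univ, true_and]
      rw [hanti i k]
      omega
    rw [e1, e2]
    exact ⟨h2, h1⟩
  · rw [← ip_eq, ← ip_eq]
    exact h.gram_exp t k i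

theorem cos_sin_one (t : ℝ) : ((Real.cos t : ℝ) : ℂ) * ((Real.cos t : ℝ) : ℂ) +
    ((Real.sin t : ℝ) : ℂ) * ((Real.sin t : ℝ) : ℂ) = 1 := by
  rw [← Complex.ofReal_mul, ← Complex.ofReal_mul, ← Complex.ofReal_add]
  have : Real.cos t * Real.cos t + Real.sin t * Real.sin t = 1 := by
    nlinarith [Real.sin_sq_add_cos_sq t]
  rw [this, Complex.ofReal_one]

theorem Cir.isMax {x z : Fin (d ^ 2) → Fin d → ℂ} (hx : IsMaximalETF d x) (h : Cir x z)
    (t : ℝ) : IsMaximalETF d
      (fun k => ((Real.cos t : ℝ) : ℂ) • x k + ((Real.sin t : ℝ) : ℂ) • z k) := by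
  have hc : star ((Real.cos t : ℝ) : ℂ) = ((Real.cos t : ℝ) : ℂ) := Complex.conj_ofReal _
  have hs : star ((Real.sin t : ℝ) : ℂ) = ((Real.sin t : ℝ) : ℂ) := Complex.conj_ofReal _
  obtain ⟨hC', -⟩ := h.rot posStar_complex hc hs (cos_sin_one t)
  refine ⟨fun i => ?_, fun i j hij => ?_⟩
  · rw [← ip_eq]
    exact hC'.sys.unit i
  · rw [← ip_eq, h.gram_exp t j i, norm_mul, ip_eq, hx.2 i j hij]
    have h1 : Complex.exp (2 * t * (qq x z j i : ℂ) * Complex.I) =
        Complex.exp (((2 * t * (qq x z j i : ℝ) : ℝ) : ℂ) * Complex.I) := by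
      congr 1
      push_cast
      ring
    rw [h1, Complex.norm_exp_ofReal_mul_I, one_mul]

/-- THE STRUCTURE THEOREM, every dimension. -/
theorem structure_all (d : ℕ) :
    ∃ F : Set ((Fin (d ^ 2) → Fin d → ℂ) × (Fin (d ^ 2) → Fin d → ℂ)), F.Finite ∧
      (∀ p ∈ F, IsMaximalETF d p.1 ∧ (∀ i a, IsAlgebraic ℚ (p.1 i a) ∧ IsAlgebraic ℚ (p.2 i a)) ∧
        (p.2 = 0 ∨ IsCircle d p.1 p.2)) ∧
      (ZeroD d → ∀ p ∈ F, p.2 = 0) ∧
      ∀ y : Fin (d ^ 2) → Fin d → ℂ, IsMaximalETF d y →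
        ∃ p ∈ F, ∃ t : ℝ, (p.2 = 0 → t = 0) ∧ ∃ U ∈ Matrix.unitaryGroup (Fin d) ℂ, ∀ i,
          ∃ c : ℂ, ‖c‖ = 1 ∧
          y i = c • U.mulVec (((Real.cos t : ℝ) : ℂ) • p.1 i + ((Real.sin t : ℝ) : ℂ) • p.2 i) := by
  classical
  rcases Nat.eq_zero_or_pos d with hd | hd
  · subst hd
    have he : ∀ i : Fin (0 ^ 2), False := fun i => Fin.elim0 (i.cast (by norm_num))
    refine ⟨{(0, 0)}, Set.finite_singleton _, ?_, ?_, ?_⟩
    · rintro p rfl
      exact ⟨⟨fun i => (he i).elim, fun i => (he i).elim⟩, fun i => (he i).elim, Or.inl rfl⟩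
    · rintro _ p rfl
      rfl
    · intro y hy
      exact ⟨(0, 0), rfl, 0, fun _ => rfl, 1, Submonoid.one_mem _, fun i => (he i).elim⟩
  have hne : Nonempty (Fin (d ^ 2)) := ⟨⟨0, by positivity⟩⟩
  -- the points
  obtain ⟨F0, hF0, hF0m, hF0e⟩ := list_zero (d := d) (fun x => ¬ ∃ z, Cir x z) (by
    refine (fin_zero (d := d)).subset ?_
    rintro T ⟨x, hx, hx2, rfl⟩
    exact ⟨x, hx, hx2, rfl⟩) (by
    intro x hx hno i j k
    rcases alg_or_cir posStar_complex (sic_of_isMax hx) with h | h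
    · have h1 := h i k j
      have h2 : t3 x i k j = tp x i j k := tk_eq_tp x i k j
      rwa [h2] at h1
    · exact absurd h hno)
  -- the circles
  have hlist := fun i j k : Fin (d ^ 2) => list_one (d := d)
    (fun x z => IsMaximalETF d x ∧ Cir x z ∧ S3 x z i j k ≠ 0 ∧ t3 x i j k = ((rr d : ℝ) : ℂ))
    (fun x z h => ⟨h.1, h.2.1⟩) (by
      refine (fin_one hasRot_germ i j k (rr_alg (d := d))).subset ?_
      rintro T ⟨x, z, ⟨h1, h2, h3, h4⟩, rfl⟩
      exact ⟨x, z, h1, h2, h3, h4, rfl⟩) (by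
      rintro x z ⟨h1, h2, h3, h4⟩
      have : Nonempty (Fin (d ^ 2)) := ⟨i⟩
      have h5 := h2.alg posStar_complex hasRot_complex h3 (by rw [h4]; exact rr_alg)
      refine ⟨fun a b c => ?_, h5.2⟩
      have h6 := h5.1 a c b
      have h7 : t3 x a c b = tp x a b c := tk_eq_tp x a c b
      rwa [h7] at h6)
  choose G hG hGm hGe using hlist
  refine ⟨(fun x => (x, 0)) '' F0 ∪ ⋃ i, ⋃ j, ⋃ k, G i j k, ?_, ?_, ?_, ?_⟩
  · exact (hF0.image _).union (Set.finite_iUnion fun i => Set.finite_iUnion fun j =>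
      Set.finite_iUnion fun k => hG i j k)
  · rintro p (⟨x, hx, rfl⟩ | hp)
    · exact ⟨(hF0m x hx).1, fun i a => ⟨(hF0m x hx).2 i a, isAlgebraic_zero⟩, Or.inl rfl⟩
    · simp only [Set.mem_iUnion] at hp
      obtain ⟨i, j, k, hp⟩ := hp
      obtain ⟨h1, h2, h3⟩ := hGm i j k p hp
      exact ⟨h1, h3, Or.inr h2.isCircle⟩
  · rintro hZ p (⟨x, hx, rfl⟩ | hp)
    · rfl
    · simp only [Set.mem_iUnion] at hp
      obtain ⟨i, j, k, hp⟩ := hp
      exact (no_cir_of_zeroD hZ (hGm i j k p hp).2.1 i).elim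
  · intro y hy
    by_cases hno : ∃ z, Cir y z
    · obtain ⟨w, hw⟩ := hno
      obtain ⟨i, j, k, hS⟩ := hw.exists_S3 posStar_complex
      obtain ⟨t, ht⟩ := hw.normal hy hS
      have hc : star ((Real.cos t : ℝ) : ℂ) = ((Real.cos t : ℝ) : ℂ) := Complex.conj_ofReal _
      have hs : star ((Real.sin t : ℝ) : ℂ) = ((Real.sin t : ℝ) : ℂ) := Complex.conj_ofReal _
      have hcs := cos_sin_one t
      obtain ⟨hC', hrat'⟩ := hw.rot posStar_complex hc hs hcs
      have hmax := hw.isMax hy t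
      have hS' : S3 (fun k => ((Real.cos t : ℝ) : ℂ) • y k + ((Real.sin t : ℝ) : ℂ) • w k)
          (fun k => -((Real.sin t : ℝ) : ℂ) • y k + ((Real.cos t : ℝ) : ℂ) • w k) i j k ≠ 0 := by
        unfold S3
        rw [hrat', hrat', hrat']
        exact hS
      obtain ⟨p, hp, U, hU, he⟩ := hGe i j k _ _ ⟨hmax, hC', hS', ht⟩
      refine ⟨p, Or.inr ?_, -t, fun h0 => ?_, U, hU, fun l => ?_⟩
      · simp only [Set.mem_iUnion]
        exact ⟨i, j, k, hp⟩
      · exfalso
        have h1 := (hGm i j k p hp).2.1.unit i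
        rw [h0, Pi.zero_apply, ip_zero] at h1
        exact zero_ne_one h1
      · obtain ⟨c, hc1, hc2, hc3⟩ := he l
        refine ⟨c, hc1, ?_⟩
        have h1 : y l = ((Real.cos t : ℝ) : ℂ) • (((Real.cos t : ℝ) : ℂ) • y l +
            ((Real.sin t : ℝ) : ℂ) • w l) - ((Real.sin t : ℝ) : ℂ) •
            (-((Real.sin t : ℝ) : ℂ) • y l + ((Real.cos t : ℝ) : ℂ) • w l) := by
          funext a
          simp only [Pi.sub_apply, Pi.add_apply, Pi.smul_apply, smul_eq_mul]
          linear_combination -(y l a) * hcs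
        rw [h1, hc2, hc3, Real.cos_neg, Real.sin_neg, Matrix.mulVec_add, Matrix.mulVec_smul,
          Matrix.mulVec_smul]
        funext a
        simp only [Pi.sub_apply, Pi.add_apply, Pi.smul_apply, smul_eq_mul]
        push_cast
        ring
    · obtain ⟨x, hx, U, hU, he⟩ := hF0e y hy hno
      refine ⟨(x, 0), Or.inl ⟨x, hx, rfl⟩, 0, fun _ => rfl, U, hU, fun i => ?_⟩
      obtain ⟨c, hc, hyi⟩ := he i
      refine ⟨c, hc, ?_⟩
      rw [hyi, Real.cos_zero, Real.sin_zero]
      simp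

end Pool.Agent.SicRg
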