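import Pool.Agent.Lib.MP_d0f9e0_co.Rg.Cir

set_option autoImplicit false

namespace Pool.Agent.SicRg

open Finset

variable {K : Type*} [Field K] [StarRing K] {n ι : Type} [Fintype n] [Fintype ι]

/-!
The key lemma on circles.
-/

/-- the triple product -/
def t3 (v : ι → n → K) (i j k : ι) : K := ip (v i) (v j) * ip (v j) (v k) * ip (v k) (v i)

/-- the speed of the triple product -/
def S3 (v z : ι → n → K) (i j k : ι) : K :=
  (star (rat v z i j) - rat v z i j) + (star (rat v z j k) - rat v z j k) +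
    (star (rat v z k i) - rat v z k i)

variable [CharZero K] [DecidableEq ι] {v z w : ι → n → K}

/-- some triple product moves -/
theorem Cir.exists_S3 [Nonempty ι] (hpos : SicAb.PosStar K) (h : Cir v z) :
    ∃ i j k, S3 v z i j k ≠ 0 := by
  by_contra hcon
  push Not at hcon
  obtain ⟨i⟩ := ‹Nonempty ι›
  have hN : (Fintype.card ι : K) ≠ 0 := by
    have : 0 < Fintype.card ι := Fintype.card_pos_iff.mpr ⟨i⟩
    exact_mod_cast this.ne'
  have hreal : ∀ j, star (rat v z i j) = rat v z i j := by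
    intro j
    have h1 : ∑ k, S3 v z i j k = 0 := sum_eq_zero fun k _ => hcon i j k
    unfold S3 at h1
    have h2 : ∑ k, rat v z j k = 0 := sum_a h.sys h.tan j
    have h3 : ∑ k, rat v z k i = 0 := by
      rw [← neg_eq_zero, ← sum_neg_distrib, ← sum_a h.sys h.tan i]
      exact sum_congr rfl fun k _ => by rw [h.tan.anti i k, neg_neg]
    have h4 : ∑ k, star (rat v z j k) = 0 := by rw [← star_sum, h2, star_zero]
    have h5 : ∑ k, star (rat v z k i) = 0 := by rw [← star_sum, h3, star_zero]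
    simp only [sum_add_distrib, sum_sub_distrib, h2, h3, h4, h5, sum_const, card_univ,
      nsmul_eq_mul, sub_zero, add_zero] at h1
    rw [← mul_sub] at h1
    exact sub_eq_zero.1 ((mul_eq_zero.1 h1).resolve_left hN)
  have h6 := Tan.eq_zero_of_real hpos h.sys h.tan i hreal
  have h7 := h.unit i
  rw [h6, ip_zero] at h7
  exact zero_ne_one h7

/-- (B): two curves through `v` have proportional velocities. -/
theorem Curve.unique [DecidableEq n] (hpos : SicAb.PosStar K) {D D₁ : K → K}
    {X X₁ : n → n → K} {th th₁ : ι → K} {z₁ : ι → n → K} (hC : Curve D X th v z)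
    (hC₁ : Curve D₁ X₁ th₁ v z₁) (k₀ : ι) (h0 : z₁ k₀ ≠ 0) :
    ∃ f : K, star f = f ∧ ∀ k, z k = f • z₁ k := by
  -- a pair with imaginary ratio
  obtain ⟨l, hl⟩ : ∃ l, star (rat v z₁ k₀ l) ≠ rat v z₁ k₀ l := by
    by_contra hcon
    push Not at hcon
    exact h0 (Tan.eq_zero_of_real hpos hC₁.sys hC₁.tan k₀ hcon)
  obtain ⟨a₁, ha₁⟩ : ∃ a₁, rat v z₁ k₀ l = a₁ := ⟨_, rfl⟩
  obtain ⟨a, ha⟩ : ∃ a, rat v z k₀ l = a := ⟨_, rfl⟩
  have hs1 : star a₁ = -a₁ := by
    have h1 := hC₁.four_alt hpos k₀ l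
    rw [ha₁] at h1 hl
    exact h1.resolve_left hl
  have ha10 : a₁ ≠ 0 := by
    intro h
    apply hl
    rw [ha₁, h, star_zero]
  -- the rate of a curve with nonreal ratio
  have key : ∀ {D' : K → K} {X' : n → n → K} {th' : ι → K} {z' : ι → n → K},
      Curve D' X' th' v z' → star (rat v z' k₀ l) ≠ rat v z' k₀ l →
      star (rat v z' k₀ l) = -rat v z' k₀ l ∧
        ip (z' k₀) (z' k₀) = -rat v z' k₀ l ^ 2 := by
    intro D' X' th' z' hC' hne
    have h1 := (hC'.four_alt hpos k₀ l).resolve_left hne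
    have h2 := hC'.h_zero hpos k₀ l
    unfold xx at h2
    have h3 : rat v z' k₀ l - star (rat v z' k₀ l) ≠ 0 := sub_ne_zero.2 (Ne.symm hne)
    have h4 := (mul_eq_zero.1 h2).resolve_left h3
    rw [h1] at h4
    refine ⟨h1, ?_⟩
    have h5 : (2 : K) * (ip (z' k₀) (z' k₀) + rat v z' k₀ l ^ 2) = 0 := by
      linear_combination h4
    linear_combination (mul_eq_zero.1 h5).resolve_left two_ne_zero
  obtain ⟨f, hf⟩ : ∃ f, f = (a - star a) / (2 * a₁) := ⟨_, rfl⟩
  have hfs : star f = f := by
    rw [hf, star_div₀, star_sub, star_star, star_mul', hs1, star_ofNat]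
    field_simp
    ring
  refine ⟨f, hfs, ?_⟩
  have hfa : f * (2 * a₁) = a - star a := by
    rw [hf]
    field_simp
  have hnf : star (-f) = -f := by rw [star_neg, hfs]
  -- the difference
  have hC' := hC.comb (star_one K) hnf hC₁
  have hrat' : rat v (fun k => (1 : K) • z k + (-f) • z₁ k) k₀ l = a - f * a₁ := by
    rw [rat_comb, ha, ha₁]
    ring
  have hplus := hC'.comb (star_one K) (star_one K) hC₁
  have hminus := hC'.comb (star_one K) (by rw [star_neg, star_one] : star (-1 : K) = -1) hC₁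
  have hr1 : rat v (fun k => (1 : K) • ((1 : K) • z k + (-f) • z₁ k) + (1 : K) • z₁ k) k₀ l =
      a - f * a₁ + a₁ := by
    have h1 := rat_comb (v := v) (z := fun k => (1 : K) • z k + (-f) • z₁ k) (z' := z₁) 1 1 k₀ l
    rw [h1, hrat', ha₁]
    ring
  have hr2 : rat v (fun k => (1 : K) • ((1 : K) • z k + (-f) • z₁ k) + (-1 : K) • z₁ k) k₀ l =
      a - f * a₁ - a₁ := by
    have h1 := rat_comb (v := v) (z := fun k => (1 : K) • z k + (-f) • z₁ k) (z' := z₁) 1 (-1)
      k₀ l
    rw [h1, hrat', ha₁]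
    ring
  have h2a : (2 : K) * a₁ ≠ 0 := mul_ne_zero two_ne_zero ha10
  have k1 := key hplus (by
    rw [hr1, star_add, star_sub, star_mul', hfs, hs1]
    intro h
    apply h2a
    linear_combination -h + hfa)
  have k2 := key hminus (by
    rw [hr2, star_sub, star_sub, star_mul', hfs, hs1]
    intro h
    apply h2a
    linear_combination h - hfa)
  have k3 := key hC₁ (by rw [ha₁, hs1]; intro h; apply h2a; linear_combination -h)
  rw [hr1] at k1
  rw [hr2] at k2
  rw [ha₁] at k3
  have hb : a - f * a₁ = 0 := by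
    have h1 := k1.1
    have h2 := k2.1
    rw [star_add, star_sub, star_mul', hfs, hs1] at h1
    have h3 : (2 : K) * (a - f * a₁) = 0 := by
      linear_combination h1 - hfa
    exact (mul_eq_zero.1 h3).resolve_left two_ne_zero
  rw [hb] at k1 k2
  have hz0 : (1 : K) • z k₀ + (-f) • z₁ k₀ = 0 := by
    apply ip_self hpos
    have h1 := k1.2
    have h2 := k2.2
    have h3 := k3.2
    simp only [one_smul] at h1 h2 ⊢
    have h4 : ip (z k₀ + -f • z₁ k₀ + z₁ k₀) (z k₀ + -f • z₁ k₀ + z₁ k₀) =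
        ip (z k₀ + -f • z₁ k₀) (z k₀ + -f • z₁ k₀) +
        (ip (z k₀ + -f • z₁ k₀) (z₁ k₀) + ip (z₁ k₀) (z k₀ + -f • z₁ k₀)) +
        ip (z₁ k₀) (z₁ k₀) := by
      rw [ip_add _ (z k₀ + -f • z₁ k₀) (z₁ k₀), ip_add_left (z k₀ + -f • z₁ k₀) (z₁ k₀),
        ip_add_left (z k₀ + -f • z₁ k₀) (z₁ k₀)]
      ring
    have h5 : ip (z k₀ + -f • z₁ k₀ + (-1 : K) • z₁ k₀) (z k₀ + -f • z₁ k₀ + (-1 : K) • z₁ k₀) =
        ip (z k₀ + -f • z₁ k₀) (z k₀ + -f • z₁ k₀) -
        (ip (z k₀ + -f • z₁ k₀) (z₁ k₀) + ip (z₁ k₀) (z k₀ + -f • z₁ k₀)) +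
        ip (z₁ k₀) (z₁ k₀) := by
      rw [ip_add _ (z k₀ + -f • z₁ k₀) ((-1 : K) • z₁ k₀),
        ip_add_left (z k₀ + -f • z₁ k₀) ((-1 : K) • z₁ k₀),
        ip_add_left (z k₀ + -f • z₁ k₀) ((-1 : K) • z₁ k₀), ip_smul, ip_smul, ip_smul_left,
        ip_smul_left, star_neg, star_one]
      ring
    rw [h4] at h1
    rw [h5] at h2
    have h6 : (2 : K) * ip (z k₀ + -f • z₁ k₀) (z k₀ + -f • z₁ k₀) = 0 := by
      linear_combination h1 + h2 - 2 * h3
    exact (mul_eq_zero.1 h6).resolve_left two_ne_zero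
  intro k
  have h1 : (1 : K) • z k + (-f) • z₁ k = 0 := by
    apply ip_self hpos
    have h2 := hC'.rho_eq hpos k k₀
    rw [h2, hz0, ip_zero]
  rw [one_smul, neg_smul] at h1
  exact add_neg_eq_zero.1 h1

/-- (C): a derivation which does not move `v` does not move a circle through `v`. -/
theorem Curve.nab_cir [DecidableEq n] (hpos : SicAb.PosStar K) {D : K → K}
    {X : n → n → K} {th : ι → K} (hC : Curve D X th v z) (hz : ∀ k, z k = 0) (h : Cir v w) :
    nab D X th w = 0 ∧ ∀ i k, D (rat v w i k) = 0 := by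
  have hz' : z = 0 := funext hz
  subst hz'
  have hr0 : ∀ i k, rat v (0 : ι → n → K) i k = 0 := by
    intro i k
    unfold rat
    rw [Pi.zero_apply, ip_zero]
    ring
  have hR : ∀ i k, rat v (nab D X th w) i k = D (rat v w i k) := by
    intro i k
    have h1 := hC.D_RR v w i k
    rw [hr0, star_zero, hC.dv] at h1
    rw [rat_eq, rat_eq, h1]
    have h2 : RR v (0 : ι → n → K) w i k = 0 := by
      unfold RR
      rw [Pi.zero_apply, ip_zero_left]
      ring
    rw [h2]
    ring
  have hreal : ∀ i k, star (D (rat v w i k)) = D (rat v w i k) := by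
    intro i k
    rw [← hC.der.star]
    rcases h.alt i k with h1 | h1
    · rw [h1.1]
    · have h2 : D (rat v w i k) = 0 := by
        have h3 := congrArg D h1.1
        rw [sq, hC.der.mul, hC.der.neg, hC.der.one, neg_zero] at h3
        have h4 : (2 * rat v w i k) * D (rat v w i k) = 0 := by linear_combination h3
        have h5 : (2 : K) * rat v w i k ≠ 0 := by
          apply mul_ne_zero two_ne_zero
          intro h6
          have h7 := h1.1
          rw [h6] at h7
          have h8 : (1 : K) = 0 := by linear_combination h7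
          exact one_ne_zero h8
        exact (mul_eq_zero.1 h4).resolve_left h5
      rw [h1.2.1, hC.der.neg, h2, neg_zero]
  have hHor : Hor v (nab D X th w) := by
    refine ⟨fun k => ?_, fun x y => ?_⟩
    · have h1 := D_ip hC.der hC.skew v w k k
      rw [h.tan.diag k, hC.der.zero, hC.dv, Pi.zero_apply, ip_zero_left] at h1
      linear_combination -h1
    · have h1 := congrArg D (h.tan.hor x y)
      rw [hC.der.zero, hC.der.sum] at h1
      obtain ⟨x', hx'⟩ : ∃ x' : n → K, ∀ k, nab D X th (fun _ => x) k = x' - th k • x :=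
        ⟨fun p => D (x p) - ∑ q, X p q * x q, fun k => by
          funext p; simp only [nab, Pi.sub_apply, Pi.smul_apply, smul_eq_mul]⟩
      obtain ⟨y', hy'⟩ : ∃ y' : n → K, ∀ k, nab D X th (fun _ => y) k = y' - th k • y :=
        ⟨fun p => D (y p) - ∑ q, X p q * y q, fun k => by
          funext p; simp only [nab, Pi.sub_apply, Pi.smul_apply, smul_eq_mul]⟩
      have h2 : ∀ k, D (ip x (w k) * ip (v k) y) =
          ip x' (w k) * ip (v k) y + ip x (w k) * ip (v k) y' +
            ip x (nab D X th w k) * ip (v k) y := by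
        intro k
        have e1 := D_ip hC.der hC.skew (fun _ => x) w k k
        have e2 := D_ip hC.der hC.skew v (fun _ => y) k k
        rw [hx' k, ip_sub_left, ip_smul_left, hC.skew.th] at e1
        rw [hy' k, ip_sub, ip_smul, hC.dv, Pi.zero_apply, ip_zero_left] at e2
        rw [hC.der.mul, e1, e2]
        ring
      rw [sum_congr rfl fun k _ => h2 k, sum_add_distrib, sum_add_distrib,
        h.tan.hor x' y, h.tan.hor x y'] at h1
      linear_combination h1
  have hT : Tan v (nab D X th w) := by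
    refine hHor.tan hpos hC.sys fun i k => ?_
    rw [hR, hR, h.tan.anti i k, hC.der.neg, add_neg_cancel, star_zero, add_zero]
  have hzero : nab D X th w = 0 := by
    funext i
    exact Tan.eq_zero_of_real hpos hC.sys hT i fun k => by rw [hR, hreal]
  refine ⟨hzero, fun i k => ?_⟩
  rw [← hR, hzero, hr0]

/-- (D), KEY.  Circle data move only by rotation. -/
theorem Cir.key [DecidableEq n] [Nonempty ι] (hpos : SicAb.PosStar K) (h : Cir v z) {c s : K}
    (hc : star c = c) (hs : star s = s) (hcs : c * c + s * s = 1) {d : K → K} (hd : SDer d)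
    (hdv : ∀ k p, d (v k p) = 0) (hdz : ∀ k p, d (z k p) = 0) (hdc : d c = -s) (hds : d s = c)
    {D : K → K} (hD : SDer D) :
    (∀ i k, D (rat v z i k) = 0) ∧ ∃ g : K, ∀ i j k, D (t3 v i j k) = g * S3 v z i j k *
      t3 v i j k := by
  obtain ⟨hC', hrat'⟩ := h.rot hpos hc hs hcs
  obtain ⟨v', hv'⟩ : ∃ v' : ι → n → K, v' = fun k => c • v k + s • z k := ⟨_, rfl⟩
  obtain ⟨z', hz'⟩ : ∃ z' : ι → n → K, z' = fun k => -s • v k + c • z k := ⟨_, rfl⟩
  rw [← hv', ← hz'] at hC' hrat'
  have hd0 : ∀ x y : n → K, (∀ p, d (x p) = 0) → (∀ p, d (y p) = 0) → d (ip x y) = 0 := by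
    intro x y hx hy
    rw [ip_def, hd.sum]
    exact sum_eq_zero fun p _ => by rw [hd.mul, hd.star, hx, hy, star_zero]; ring
  -- the curve of `d`
  have hcd : Curve d (fun _ _ => 0) (fun _ => 0) v' z' := by
    refine ⟨hd, ⟨fun p q => by rw [star_zero, neg_zero], fun k => by rw [star_zero, neg_zero]⟩,
      hC'.sys, ?_, hC'.tan⟩
    funext k p
    simp only [nab, zero_mul, sum_const_zero, sub_zero]
    rw [hv', hz']
    simp only [Pi.add_apply, Pi.smul_apply, smul_eq_mul]
    rw [hd.add, hd.mul, hd.mul, hdv, hdz, hdc, hds]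
    ring
  obtain ⟨X, th, w, hCD⟩ := exists_curve hpos hC'.sys hD
  obtain ⟨k₀⟩ := ‹Nonempty ι›
  have hz0 : z' k₀ ≠ 0 := by
    intro h0
    have h1 := hC'.unit k₀
    rw [h0, ip_zero] at h1
    exact zero_ne_one h1
  obtain ⟨f, hf, hw⟩ := hCD.unique hpos hcd k₀ hz0
  have hnf : star (-f) = -f := by rw [star_neg, hf]
  -- the derivation `D - f d`
  have hCE := hCD.comb (star_one K) hnf hcd
  obtain ⟨E, hE⟩ : ∃ E : K → K, E = fun a => 1 * D a + -f * d a := ⟨_, rfl⟩
  obtain ⟨Y, hY⟩ : ∃ Y : n → n → K, Y = fun p q => 1 * X p q + -f * 0 := ⟨_, rfl⟩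
  obtain ⟨ph, hph⟩ : ∃ ph : ι → K, ph = fun k => 1 * th k + -f * 0 := ⟨_, rfl⟩
  rw [← hE, ← hY, ← hph] at hCE
  have hw0 : ∀ k, (fun k => (1 : K) • w k + (-f) • z' k) k = 0 := by
    intro k
    simp only
    rw [one_smul, hw, neg_smul, add_neg_cancel]
  obtain ⟨hnz, hEa⟩ := hCE.nab_cir hpos hw0 hC'
  have hEder := hCE.der
  have hDE : ∀ a, D a = E a + f * d a := by
    intro a
    rw [hE]
    ring
  have hnv : nab E Y ph v' = 0 := by
    rw [hCE.dv]
    funext k
    exact hw0 k
  refine ⟨fun i k => ?_, ?_⟩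
  · rw [hDE, ← hrat', hEa, hrat']
    have h1 : d (rat v z i k) = 0 := by
      unfold rat
      rw [hd.mul, hd.mul, hd.dd, hd0 _ _ (hdv i) (hdz k), hd0 _ _ (hdv k) (hdv i)]
      ring
    rw [h1]
    ring
  · -- back to `v`
    obtain ⟨g, hg⟩ : ∃ g, g = E s * c - E c * s := ⟨_, rfl⟩
    have hcs' : c * E c + s * E s = 0 := by
      have h1 := congrArg E hcs
      rw [hEder.add, hEder.mul, hEder.mul, hEder.one] at h1
      have h2 : (2 : K) * (c * E c + s * E s) = 0 := by linear_combination h1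
      exact (mul_eq_zero.1 h2).resolve_left two_ne_zero
    have hEc : E c = -(g * s) := by
      rw [hg]
      linear_combination c * hcs' - E c * hcs
    have hEs : E s = g * c := by
      rw [hg]
      linear_combination s * hcs' - E s * hcs
    have hgs : star g = g := by
      rw [hg, star_sub, star_mul', star_mul', ← hEder.star, ← hEder.star, hc, hs]
    have hvv : v = fun k => c • v' k + (-s) • z' k := by
      funext k p
      rw [hv', hz']
      simp only [Pi.add_apply, Pi.smul_apply, smul_eq_mul]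
      linear_combination -(v k p) * hcs
    have hzz : ∀ k, z k = s • v' k + c • z' k := by
      intro k
      funext p
      rw [hv', hz']
      simp only [Pi.add_apply, Pi.smul_apply, smul_eq_mul]
      linear_combination -(z k p) * hcs
    have hnab : nab E Y ph v = fun k => (-g) • z k + (0 : K) • z k := by
      have e1 := nab_add (X := Y) (th := ph) hEder (fun k => c • v' k) (fun k => (-s) • z' k)
      have e2 := nab_smul (X := Y) (th := ph) hEder c v'
      have e3 := nab_smul (X := Y) (th := ph) hEder (-s) z'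
      rw [← hvv] at e1
      rw [e1, e2, e3, hnz, hnv, hEder.neg, hEc, hEs]
      funext k
      rw [hzz k]
      funext p
      simp only [Pi.add_apply, Pi.smul_apply, Pi.zero_apply, smul_eq_mul]
      ring
    have hT : Tan v (fun k => (-g) • z k + (0 : K) • z k) := h.tan.comb (-g) 0 h.tan
    have hCv : Curve E Y ph v (fun k => (-g) • z k + (0 : K) • z k) :=
      ⟨hEder, hCE.skew, h.sys, hnab, hT⟩
    have hG : ∀ i k, D (ip (v k) (v i)) = (g * (rat v z i k - star (rat v z i k)) +
        (ph i - ph k)) * ip (v k) (v i) := by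
      intro i k
      rw [hDE, hd0 _ _ (hdv k) (hdv i), hCv.D_G i k, rat_comb, star_add, star_mul', star_mul',
        star_neg, hgs, star_zero]
      ring
    refine ⟨g, fun i j k => ?_⟩
    unfold t3 S3
    rw [hD.mul, hD.mul, hG j i, hG k j, hG i k, h.tan.anti i j, h.tan.anti j k, h.tan.anti k i]
    rw [star_neg, star_neg, star_neg]
    ring

end Pool.Agent.SicRg
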