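import Pool.Agent.Lib.MP_d0f9e0_co.Rg.Circ

set_option autoImplicit false

namespace Pool.Agent.SicRg

open Finset

variable {K : Type*} [Field K] [StarRing K] {n ι : Type} [Fintype n] [Fintype ι]

/-!
File DFour.  In dimension four there is no circle of maximal systems: the projection of rank
`d (d - 3) / 4 = 1` would have a constant diagonal and some entry zero.
-/

variable [CharZero K] [DecidableEq n] [DecidableEq ι]

omit [CharZero K] [DecidableEq n] [DecidableEq ι] in
/-- a multiple of a projection of rank one with constant diagonal has no entry zero -/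
private theorem df_rank_one (hpos : SicAb.PosStar K) (R : ι → ι → K) (rho kap : K)
    (hs : ∀ i k, star (R i k) = R k i) (hd : ∀ i, R i i = rho) (hrs : star rho = rho)
    (hm : ∀ i l, ∑ k, R i k * R k l = kap * R i l) (hk : kap = (Fintype.card ι : K) * rho)
    (i k : ι) : R i k * R k i = rho ^ 2 ∨ rho = 0 := by
  have h0 : ∑ k, ∑ m, star (rho * R m i - R k i * R m k) * (rho * R m i - R k i * R m k) = 0 := by
    have h1 : ∀ k, ∑ m, star (rho * R m i - R k i * R m k) * (rho * R m i - R k i * R m k) =
        kap * rho * (rho ^ 2 - R i k * R k i) := by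
      intro k
      have e1 : ∀ m, star (rho * R m i - R k i * R m k) * (rho * R m i - R k i * R m k) =
          rho ^ 2 * (R i m * R m i) - rho * R k i * (R i m * R m k) -
            rho * R i k * (R k m * R m i) + R i k * R k i * (R k m * R m k) := by
        intro m
        rw [star_sub, star_mul', star_mul', hs, hs, hs, hrs]
        ring
      rw [sum_congr rfl fun m _ => e1 m, sum_add_distrib, sum_sub_distrib, sum_sub_distrib,
        ← mul_sum, ← mul_sum, ← mul_sum, ← mul_sum, hm, hm, hm, hm, hd, hd]
      ring
    rw [sum_congr rfl fun k _ => h1 k, ← mul_sum, sum_sub_distrib, hm, hd, sum_const, card_univ,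
      nsmul_eq_mul, hk]
    ring
  have h2 := pos2 hpos h0 k i
  rw [hd] at h2
  by_cases hr : rho = 0
  · exact Or.inr hr
  · left
    linear_combination -h2

/-- In dimension four the variations vanish. -/
theorem Curve.count4 (hpos : SicAb.PosStar K) {v z : ι → n → K} {D : K → K} {X : n → n → K}
    {th : ι → K} (hC : Curve D X th v z) (h : Fintype.card n = 4) (k : ι) : z k = 0 := by
  by_contra hz
  obtain ⟨c, -, hci⟩ := hC.circ hpos k hz
  obtain ⟨y, hy⟩ : ∃ y : ι → n → K, y = fun k => c • z k := ⟨_, rfl⟩
  rw [← hy] at hci
  have hdd : dd n K = 4 := by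
    unfold dd
    rw [h]
    norm_num
  have hcard : (Fintype.card ι : K) = 16 := by
    rw [hC.sys.card, h]
    norm_num
  have hmul := hci.cP_mul
  simp only [hdd] at hmul
  obtain ⟨l, hl⟩ := hci.ne k
  have hkl : k ≠ l := by
    rintro rfl
    rw [hci.sv.unit, hci.sy.unit] at hl
    exact two_ne_zero (α := K) (by linear_combination hl)
  have hP : cP v y k l = 0 := by
    unfold cP
    rw [(hci.neg hl).1, (hci.neg hl).2]
    ring
  have h64 : star (64 / 5 : K) = 64 / 5 := by
    rw [star_div₀, star_ofNat, star_ofNat]
  have h1 := df_rank_one hpos (fun i k => 64 / 5 * (if i = k then 1 else 0) - cP v y i k)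
    (4 / 5) (64 / 5) (fun i k => by
      rw [star_sub, star_mul', h64, cP_star]
      by_cases hik : i = k
      · rw [if_pos hik, if_pos hik.symm, star_one]
      · rw [if_neg hik, if_neg (Ne.symm hik), star_zero]) (fun i => by
      rw [if_pos rfl, hci.cP_diag]
      norm_num) (by rw [star_div₀, star_ofNat, star_ofNat]) (fun i l => by
      have e1 : ∀ k, (64 / 5 * (if i = k then 1 else 0) - cP v y i k) *
          (64 / 5 * (if k = l then 1 else 0) - cP v y k l) =
          (if i = k then 64 / 5 * (64 / 5 * (if k = l then 1 else 0) - cP v y k l) else 0) -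
          (if k = l then 64 / 5 * cP v y i k else 0) + cP v y i k * cP v y k l := by
        intro k
        split_ifs <;> ring
      rw [sum_congr rfl fun k _ => e1 k, sum_add_distrib, sum_sub_distrib, sum_ite_eq,
        sum_ite_eq', if_pos (mem_univ _), if_pos (mem_univ _)]
      linear_combination (1 / 5) * hmul i l) (by rw [hcard]; norm_num) k l
  rcases h1 with h1 | h1
  · rw [if_neg hkl, hP, mul_zero, sub_zero, zero_mul] at h1
    norm_num at h1
  · norm_num at h1

end Pool.Agent.SicRg
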