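import Pool.Agent.Lib.MP_d0f9e0_co.Rg.SfE

set_option autoImplicit false

namespace Pool.Agent.SicRg

open Finset

/-!
If `d = 3 mod 4` and there is a curve of maximal systems which is not constant, then
`m (m - 1) = 0 mod 16` for `m = (d + 1) / 4`, i.e. `d = 3` or `63 mod 64`.
-/

theorem two_dvd_double_sum {ι : Type*} [DecidableEq ι] (s : Finset ι) (g : ι → ι → ℤ)
    (hs : ∀ i k, g k i = g i k) (h0 : ∀ i, g i i = 0) : (2 : ℤ) ∣ ∑ i ∈ s, ∑ k ∈ s, g i k := by
  induction s using Finset.induction_on with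
  | empty => simp
  | insert a s ha ih =>
    have h1 : ∑ i ∈ insert a s, ∑ k ∈ insert a s, g i k =
        2 * ∑ k ∈ s, g a k + ∑ i ∈ s, ∑ k ∈ s, g i k := by
      rw [sum_insert ha, sum_insert ha, h0 a]
      have h2 : ∑ i ∈ s, ∑ k ∈ insert a s, g i k =
          ∑ i ∈ s, g a i + ∑ i ∈ s, ∑ k ∈ s, g i k := by
        rw [← sum_add_distrib]
        refine sum_congr rfl fun i _ => ?_
        rw [sum_insert ha, hs a i]
      rw [h2]
      ring
    rw [h1]
    exact dvd_add (dvd_mul_right 2 _) ih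

variable {K ι : Type*} [Field K] [CharZero K] [Fintype ι] [DecidableEq ι]
  {d m : ℕ} {q : ι → ι → ℤ} {b : ι → ι → K}

namespace SfSys

theorem t_diag_m (h : SfSys d q b) (hm : d + 1 = 4 * m) (i : ι) : sfT q i i = 2 * d * m := by
  have h1 := h.t_diag i
  have hm' : (d : ℤ) + 1 = 4 * m := by exact_mod_cast hm
  have h2 : 2 * sfT q i i = 2 * (2 * d * m) := by
    rw [h1]
    linear_combination (d : ℤ) * hm'
  linarith

/-- `t = 2 m mod 4` off the edges -/
theorem t_mod (h : SfSys d q b) (hm : d + 1 = 4 * m) {i k : ι} (hik : i ≠ k) (hq : q i k = 0) :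
    (4 : ℤ) ∣ sfT q i k - 2 * m := by
  have hm' : (d : ℤ) + 1 = 4 * m := by exact_mod_cast hm
  obtain ⟨⟨c, hc, hc2⟩, h8⟩ := h.cong hm i k
  rw [h.cc i k, h.t_diag_m hm i, h.t_diag_m hm k, if_neg hik, hq] at h8
  rw [h.t_diag_m hm k, hq] at hc
  rw [hq] at hc2
  unfold sfW sfC at h8
  rw [if_neg hik, hq] at h8
  obtain ⟨s, hs⟩ := hc2
  obtain ⟨r, hr⟩ := h8
  have h1 : c = 2 * s := by linarith
  refine ⟨m * (2 * m - 1) - s - 2 * r, ?_⟩
  have h2 : sfT q i k = sfB2 q i k - 8 * r := by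
    have h3 : (d : ℤ) ^ 2 + d - 4 * d * m = 0 := by linear_combination (d : ℤ) * hm'
    linear_combination h3 - hr
  have h3 : sfB2 q i k = 2 * d * m - 4 * s := by
    rw [h1] at hc
    linarith
  rw [h2, h3]
  have h4 : (d : ℤ) = 4 * m - 1 := by linarith
  rw [h4]
  ring

theorem sum_C (h : SfSys d q b) (hm : d + 1 = 4 * m) (i : ι) :
    ∑ k, sfC q i k = d ^ 2 - 1 - 2 * d * m := by
  unfold sfC
  rw [sum_sub_distrib, sum_sub_distrib, sum_ite_eq, if_pos (mem_univ i), t_diag',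
    h.t_diag_m hm i, sum_const, card_univ, h.card]
  simp

theorem sum_Ct (h : SfSys d q b) (hm : d + 1 = 4 * m) (i : ι) :
    ∑ k, sfC q i k * sfT q i k = 2 * d * m * (d - 1) := by
  have h1 : ∀ k, sfC q i k * sfT q i k = sfT q i k - (if i = k then sfT q i k else 0) +
      d * q i k ^ 2 := by
    intro k
    unfold sfC
    by_cases hq : q i k = 0
    · rw [hq]
      split_ifs <;> ring
    · have hik : i ≠ k := fun e => hq (by rw [e]; exact h.q0 k)
      rw [if_neg hik, if_neg hik, h.t_edge hq]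
      ring
  rw [sum_congr rfl fun k _ => h1 k, sum_add_distrib, sum_sub_distrib, h.t_sum i, sum_ite_eq,
    if_pos (mem_univ i), ← mul_sum, t_diag', h.t_diag_m hm i]
  ring

theorem sum_Ct2 (h : SfSys d q b) (hm : d + 1 = 4 * m) (i : ι) :
    ∑ k, sfC q i k * sfT q i k ^ 2 = 2 * d ^ 3 * m - 4 * d ^ 2 * m ^ 2 -
      d ^ 2 * (d ^ 2 - 1 - 2 * d * m) + 2 * d * (2 * d * m * (d - 1)) := by
  have hm' : (d : ℤ) + 1 = 4 * m := by exact_mod_cast hm
  have hwi : sfW d q i i = 2 * d * m := by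
    unfold sfW
    rw [h.t_diag_m hm i, if_pos rfl, h.q0 i]
    linear_combination (d : ℤ) * hm'
  have h1 : ∀ k, sfC q i k * sfT q i k ^ 2 = sfW d q i k * sfW d q k i -
      (if i = k then sfW d q i k * sfW d q k i else 0) - d ^ 2 * sfC q i k +
      2 * d * (sfC q i k * sfT q i k) := by
    intro k
    rw [h.w_symm i k]
    rcases h.c_cases i k with ⟨hc, hik, hq⟩ | ⟨hc, hik | hq⟩
    · rw [hc, if_neg hik]
      unfold sfW
      rw [if_neg hik, hq]
      ring
    · rw [hc, if_pos hik]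
      ring
    · have hik : i ≠ k := fun e => hq (by rw [e]; exact h.q0 k)
      rw [hc, if_neg hik, h.w_edge hq]
      ring
  rw [sum_congr rfl fun k _ => h1 k, sum_add_distrib, sum_sub_distrib, sum_sub_distrib, h.ww i i,
    sum_ite_eq, if_pos (mem_univ i), ← mul_sum, ← mul_sum, h.sum_C hm i, h.sum_Ct hm i, hwi]
  ring

/-- the count -/
theorem sixteen (h : SfSys d q b) (hm : d + 1 = 4 * m) : (16 : ℤ) ∣ m * (m - 1) := by
  classical
  have hm' : (d : ℤ) + 1 = 4 * m := by exact_mod_cast hm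
  have hd4 : (d : ℤ) = 4 * m - 1 := by linarith
  have hy : ∀ i k, ∃ y : ℤ, 16 * (y ^ 2 - y) =
      sfC q i k * (sfT q i k ^ 2 - 4 * (m + 1) * sfT q i k + 4 * m * (m + 2)) := by
    intro i k
    rcases h.c_cases i k with ⟨hc, hik, hq⟩ | ⟨hc, _⟩
    · obtain ⟨y, hy⟩ := h.t_mod hm hik hq
      refine ⟨y, ?_⟩
      have h1 : sfT q i k = 2 * m + 4 * y := by linarith
      rw [hc, h1]
      ring
    · exact ⟨0, by rw [hc]; ring⟩
  choose y hy using hy
  obtain ⟨g, hg⟩ : ∃ g : ι → ι → ℤ, ∀ i k, y i k ^ 2 - y i k = 2 * g i k := by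
    have h1 : ∀ i k, ∃ g : ℤ, y i k ^ 2 - y i k = 2 * g := by
      intro i k
      have h2 : y i k ^ 2 - y i k = y i k * (y i k - 1) := by ring
      obtain ⟨g, hg⟩ := (Int.even_mul_pred_self (y i k)).two_dvd
      exact ⟨g, by rw [h2, hg]⟩
    choose g hg using h1
    exact ⟨g, hg⟩
  have hgs : ∀ i k, 32 * g i k =
      sfC q i k * (sfT q i k ^ 2 - 4 * (m + 1) * sfT q i k + 4 * m * (m + 2)) := by
    intro i k
    rw [← hy i k, hg i k]
    ring
  have hcs : ∀ i k, sfC q k i = sfC q i k := by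
    intro i k
    unfold sfC
    rw [h.q2_symm i k]
    simp only [eq_comm]
  have hsym : ∀ i k, g k i = g i k := by
    intro i k
    have h1 := hgs i k
    have h2 := hgs k i
    rw [hcs i k, t_symm' q i k] at h2
    linarith
  have hdiag : ∀ i, g i i = 0 := by
    intro i
    have h1 := hgs i i
    have h2 : sfC q i i = 0 := by
      unfold sfC
      rw [if_pos rfl, h.q0 i]
      ring
    rw [h2, zero_mul] at h1
    linarith
  obtain ⟨G, hG⟩ := two_dvd_double_sum univ g hsym hdiag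
  have hrow : ∀ i, 32 * ∑ k, g i k = 4 * m * (m - 1) * (24 * m ^ 2 - 14 * m + 5) := by
    intro i
    rw [mul_sum, sum_congr rfl fun k _ => hgs i k]
    have h1 : ∑ k, sfC q i k * (sfT q i k ^ 2 - 4 * (m + 1) * sfT q i k + 4 * m * (m + 2)) =
        ∑ k, sfC q i k * sfT q i k ^ 2 - 4 * (m + 1) * ∑ k, sfC q i k * sfT q i k +
        4 * m * (m + 2) * ∑ k, sfC q i k := by
      simp only [mul_sum, ← sum_sub_distrib, ← sum_add_distrib]
      exact sum_congr rfl fun k _ => by ring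
    rw [h1, h.sum_C hm i, h.sum_Ct hm i, h.sum_Ct2 hm i, hd4]
    ring
  have htot : 32 * (2 * G) = (d : ℤ) ^ 2 * (4 * m * (m - 1) * (24 * m ^ 2 - 14 * m + 5)) := by
    rw [← hG, mul_sum, sum_congr rfl fun i _ => hrow i, sum_const, card_univ, h.card]
    simp
  have h16 : (16 : ℤ) ∣ (m * (m - 1)) * ((d : ℤ) ^ 2 * (24 * m ^ 2 - 14 * m + 5)) := by
    refine ⟨G, ?_⟩
    have h4 : (4 : ℤ) * (m * (m - 1) * ((d : ℤ) ^ 2 * (24 * m ^ 2 - 14 * m + 5))) =
        4 * (16 * G) := by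
      linear_combination -htot
    linarith
  have hcop : IsCoprime (16 : ℤ) ((d : ℤ) ^ 2 * (24 * m ^ 2 - 14 * m + 5)) := by
    have e2 : (16 : ℤ) = 2 ^ 4 := by norm_num
    rw [e2]
    apply IsCoprime.pow_left
    refine IsCoprime.mul_right ?_ ?_
    · apply IsCoprime.pow_right
      exact ⟨2 * m, -1, by rw [hd4]; ring⟩
    · exact ⟨-(12 * m ^ 2 - 7 * m + 2), 1, by ring⟩
  exact hcop.dvd_of_dvd_mul_right h16

end SfSys

section curve

variable {K : Type*} [Field K] [StarRing K] {n ι : Type} [Fintype n] [Fintype ι]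
  [CharZero K] [DecidableEq n] [DecidableEq ι] {v z : ι → n → K}

/-- No curve which is not constant when `d = 3 mod 4`, except for `d = 3, 63 mod 64`. -/
theorem Curve.count64 (hpos : SicAb.PosStar K) {D : K → K} {X : n → n → K} {th : ι → K}
    (hC : Curve D X th v z) (h3 : Fintype.card n % 4 = 3) (h64 : Fintype.card n % 64 ≠ 3)
    (h63 : Fintype.card n % 64 ≠ 63) (k : ι) : z k = 0 := by
  by_contra hzk
  have hr0 : ip (z k) (z k) ≠ 0 := fun h => hzk (ip_self hpos h)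
  obtain ⟨q, b, h⟩ := hC.sfSys hpos k hr0
  obtain ⟨m, hm⟩ : ∃ m, Fintype.card n + 1 = 4 * m := ⟨(Fintype.card n + 1) / 4, by omega⟩
  have h16 := h.sixteen hm
  have hz : ∀ x : ZMod 16, x * (x - 1) = 0 → x = 0 ∨ x = 1 := by decide
  have h1 : ((((m : ℤ) * (m - 1) : ℤ)) : ZMod 16) = 0 := by
    rw [ZMod.intCast_zmod_eq_zero_iff_dvd]
    exact_mod_cast h16
  push_cast at h1
  have hm16 : m % 16 = 0 ∨ m % 16 = 1 := by
    rcases hz _ h1 with h2 | h2
    · left
      have h3 : ((m : ℕ) : ZMod 16) = ((0 : ℕ) : ZMod 16) := by rw [h2]; simp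
      exact (ZMod.natCast_eq_natCast_iff' _ _ _).1 h3
    · right
      have h3 : ((m : ℕ) : ZMod 16) = ((1 : ℕ) : ZMod 16) := by rw [h2]; simp
      exact (ZMod.natCast_eq_natCast_iff' _ _ _).1 h3
  omega

end curve

end Pool.Agent.SicRg
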