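import Pool.Agent.Lib.MP_d0f9e0_co.Rg.CirI
import Pool.Agent.Lib.MP_d0f9e0_co.Rg.SixtyFour
import Pool.Agent.Lib.MP_d0f9e0_co.Rg.DFour

set_option autoImplicit false

/-!
The dimensions without circles.
-/

namespace Pool.Agent.SicRg

open Finset Pool.Agent.SicAb

variable {d : ℕ}

theorem zeroD_good (h : d % 4 = 1 ∨ d % 4 = 2 ∨ (d % 4 = 3 ∧ d % 64 ≠ 3 ∧ d % 64 ≠ 63) ∨
    d = 4) : ZeroD d := by
  rcases h with h | h | h | h
  · exact zeroD_mod (Or.inl h)
  · exact zeroD_mod (Or.inr (Or.inl h))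
  · intro K _ _ _ hpos D X th v z hC k
    exact hC.count64 hpos (by rw [Fintype.card_fin]; exact h.1)
      (by rw [Fintype.card_fin]; exact h.2.1) (by rw [Fintype.card_fin]; exact h.2.2) k
  · intro K _ _ _ hpos D X th v z hC k
    exact hC.count4 hpos (by rw [Fintype.card_fin]; exact h) k

end Pool.Agent.SicRg
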