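import Pool.Agent.Lib.MP_d0f9e0_co.Rg.Defs

/-!
# Design identities from the Gram data

A tensor which is a sum of rank one tensors and has the right norm is the expected one.
-/

set_option autoImplicit false
set_option linter.unusedSectionVars false

namespace Pool.Agent.SicRg

open Finset Pool.Agent.SicAb

variable {K : Type*} [Field K] [StarRing K]

section gen

variable {ι α : Type} [Fintype ι] [Fintype α]

theorem four_sum (a b c d : α → K) : (∑ p, a p) * (∑ q, b q) * ((∑ r, c r) * ∑ s, d s) =
    ∑ p, ∑ q, ∑ r, ∑ s, a p * b q * (c r * d s) := by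
  rw [Finset.sum_mul_sum, Finset.sum_mul_sum, Finset.sum_mul]
  refine Finset.sum_congr rfl fun p _ => ?_
  rw [Finset.sum_mul]
  refine Finset.sum_congr rfl fun q _ => ?_
  rw [Finset.mul_sum]
  refine Finset.sum_congr rfl fun r _ => ?_
  rw [Finset.mul_sum]

/-- A sum of rank one kernels with the right norm is a given kernel. -/
theorem kernel_eq (hpos : PosStar K) (w : ι → α → K) (E : α → α → K)
    (hE : ∀ P Q, star (E P Q) = E Q P) (a b e : K) (ha : star a = a) (hb : star b = b)
    (hw : ∀ k P, ∑ Q, E P Q * w k Q = e * w k P)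
    (h0 : a ^ 2 * ∑ k, ∑ l, ip (w k) (w l) * ip (w l) (w k) -
      2 * a * b * e * ∑ k, ip (w k) (w k) + b ^ 2 * ∑ P, ∑ Q, E P Q * E Q P = 0) (P Q : α) :
    a * ∑ k, w k P * star (w k Q) = b * E P Q := by
  obtain ⟨S, hS⟩ : ∃ S : α → α → K, ∀ P Q, S P Q = a * ∑ k, w k P * star (w k Q) - b * E P Q :=
    ⟨_, fun _ _ => rfl⟩
  have hstar : ∀ P Q, star (S P Q) = S Q P := by
    intro P Q
    rw [hS, hS, star_sub, star_mul, star_mul, ha, hb, hE, star_sum]
    have e1 : ∑ k, star (w k P * star (w k Q)) = ∑ k, w k Q * star (w k P) :=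
      Finset.sum_congr rfl fun k _ => by rw [star_mul, star_star]
    rw [e1]
    ring
  have hsum : ∑ P, ∑ Q, star (S P Q) * S P Q = 0 := by
    have e1 : ∀ P Q, star (S P Q) * S P Q =
        a ^ 2 * ((∑ k, w k Q * star (w k P)) * ∑ l, w l P * star (w l Q)) -
        a * b * (∑ k, star (w k P) * (E P Q * w k Q)) -
        a * b * (∑ l, star (w l Q) * (E Q P * w l P)) + b ^ 2 * (E P Q * E Q P) := by
      intro P Q
      rw [hstar, hS, hS]
      have f1 : ∑ k, star (w k P) * (E P Q * w k Q) = E P Q * ∑ k, w k Q * star (w k P) := by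
        rw [Finset.mul_sum]
        exact Finset.sum_congr rfl fun k _ => by ring
      have f2 : ∑ l, star (w l Q) * (E Q P * w l P) = E Q P * ∑ l, w l P * star (w l Q) := by
        rw [Finset.mul_sum]
        exact Finset.sum_congr rfl fun k _ => by ring
      rw [f1, f2]
      ring
    rw [Finset.sum_congr rfl fun P _ => Finset.sum_congr rfl fun Q _ => e1 P Q]
    simp only [Finset.sum_add_distrib, Finset.sum_sub_distrib, ← Finset.mul_sum]
    have t1 : ∑ P, ∑ Q, (∑ k, w k Q * star (w k P)) * ∑ l, w l P * star (w l Q) =
        ∑ k, ∑ l, ip (w k) (w l) * ip (w l) (w k) := by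
      have g1 : ∀ P Q, (∑ k, w k Q * star (w k P)) * ∑ l, w l P * star (w l Q) =
          ∑ k, ∑ l, (star (w k P) * w l P) * (star (w l Q) * w k Q) := by
        intro P Q
        rw [Finset.sum_mul_sum]
        exact Finset.sum_congr rfl fun k _ => Finset.sum_congr rfl fun l _ => by ring
      rw [Finset.sum_congr rfl fun P _ => Finset.sum_congr rfl fun Q _ => g1 P Q]
      have g2 : ∀ k l, ip (w k) (w l) * ip (w l) (w k) =
          ∑ P, ∑ Q, (star (w k P) * w l P) * (star (w l Q) * w k Q) := by
        intro k l
        simp only [ip_def]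
        rw [Finset.sum_mul_sum]
      rw [Finset.sum_congr rfl fun k _ => Finset.sum_congr rfl fun l _ => g2 k l]
      rw [Finset.sum_congr rfl fun P _ => Finset.sum_comm]
      rw [Finset.sum_comm]
      refine Finset.sum_congr rfl fun k _ => ?_
      rw [Finset.sum_congr rfl fun P _ => Finset.sum_comm]
      rw [Finset.sum_comm]
    have t2 : ∑ P, ∑ Q, ∑ k, star (w k P) * (E P Q * w k Q) = e * ∑ k, ip (w k) (w k) := by
      rw [Finset.sum_congr rfl fun P _ => Finset.sum_comm, Finset.sum_comm, Finset.mul_sum]
      refine Finset.sum_congr rfl fun k _ => ?_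
      simp only [ip_def]
      rw [Finset.mul_sum]
      refine Finset.sum_congr rfl fun P _ => ?_
      rw [← Finset.mul_sum, hw]
      ring
    have t3 : ∑ P, ∑ Q, ∑ l, star (w l Q) * (E Q P * w l P) = e * ∑ k, ip (w k) (w k) := by
      rw [Finset.sum_comm]
      exact t2
    rw [t1, t2, t3]
    linear_combination h0
  have hz : S P Q = 0 := by
    have h1 : ∑ x ∈ (Finset.univ : Finset (α × α)), star (S x.1 x.2) * S x.1 x.2 = 0 := by
      rw [Fintype.sum_prod_type]
      exact hsum
    exact hpos (α × α) Finset.univ (fun x => S x.1 x.2) h1 (P, Q) (Finset.mem_univ _)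
  rw [hS] at hz
  exact sub_eq_zero.1 hz

end gen

theorem natCast_ne (hpos : PosStar K) {m : ℕ} (hm : m ≠ 0) : (m : K) ≠ 0 := by
  intro h0
  have h1 := hpos ℕ (Finset.range m) (fun _ => 1) (by simp [h0])
  exact one_ne_zero (h1 0 (Finset.mem_range.mpr (Nat.pos_of_ne_zero hm)))

theorem succ_ne (hpos : PosStar K) (m : ℕ) : (m : K) + 1 ≠ 0 := by
  have := natCast_ne hpos (Nat.succ_ne_zero m)
  exact_mod_cast this

section

variable {ι n : Type} [Fintype ι] [Fintype n] [DecidableEq ι] [DecidableEq n]

namespace Sic

variable {v : ι → n → K} (h : Sic v)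

include h

theorem angle' (i k : ι) : ((Fintype.card n : K) + 1) * (ip (v i) (v k) * ip (v k) (v i)) =
    1 + (Fintype.card n : K) * if i = k then 1 else 0 := by
  by_cases hik : i = k
  · subst hik
    rw [h.unit, if_pos rfl]
    ring
  · rw [h.ang i k hik, if_neg hik]
    ring

theorem sum_angle (g : ι → K) (i : ι) :
    ((Fintype.card n : K) + 1) * ∑ k, (ip (v i) (v k) * ip (v k) (v i)) * g k =
      ∑ k, g k + (Fintype.card n : K) * g i := by
  rw [Finset.mul_sum]
  have e1 : ∀ k, ((Fintype.card n : K) + 1) * ((ip (v i) (v k) * ip (v k) (v i)) * g k) =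
      g k + (Fintype.card n : K) * if i = k then g k else 0 := by
    intro k
    rw [← mul_assoc, h.angle']
    split_ifs <;> ring
  rw [Finset.sum_congr rfl fun k _ => e1 k, Finset.sum_add_distrib, ← Finset.mul_sum]
  rw [Finset.sum_ite_eq Finset.univ i, if_pos (Finset.mem_univ i)]

theorem kernel_one (hpos : PosStar K) (p q : n) :
    ∑ k, v k p * star (v k q) = (Fintype.card n : K) * if p = q then 1 else 0 := by
  have hd1 : ((Fintype.card n : K) + 1) ≠ 0 := succ_ne hpos _
  have h1 := kernel_eq hpos v (fun p q => if p = q then (1 : K) else 0)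
    (fun p q => by
      by_cases hpq : p = q
      · rw [if_pos hpq, if_pos hpq.symm, star_one]
      · rw [if_neg hpq, if_neg (Ne.symm hpq), star_zero])
    1 (Fintype.card n : K) 1 (star_one K) (star_natCast _) (fun k P => by
      rw [one_mul]
      simp) ?_ p q
  · rw [one_mul] at h1
    exact h1
  · have e1 : ∑ k, ∑ l, ip (v k) (v l) * ip (v l) (v k) =
        ((Fintype.card n : K) ^ 2) ^ 2 * ((Fintype.card n : K) + 1)⁻¹ +
        (Fintype.card n : K) ^ 2 * (Fintype.card n : K) * ((Fintype.card n : K) + 1)⁻¹ := by
      have g1 : ∀ k, ∑ l, ip (v k) (v l) * ip (v l) (v k) =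
          ((Fintype.card n : K) + 1)⁻¹ * ((Fintype.card n : K) ^ 2 + (Fintype.card n : K)) := by
        intro k
        have g2 := h.sum_angle (fun _ => 1) k
        simp only [mul_one] at g2
        rw [Finset.sum_const, Finset.card_univ, nsmul_eq_mul, mul_one, h.card] at g2
        push_cast at g2
        rw [← g2]
        field_simp
      rw [Finset.sum_congr rfl fun k _ => g1 k, Finset.sum_const, Finset.card_univ, h.card,
        nsmul_eq_mul]
      push_cast
      ring
    have e2 : ∑ k, ip (v k) (v k) = (Fintype.card n : K) ^ 2 := by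
      rw [Finset.sum_congr rfl fun k _ => h.unit k, Finset.sum_const, Finset.card_univ, h.card,
        nsmul_eq_mul, mul_one]
      push_cast
      rfl
    have e3 : ∑ P : n, ∑ Q : n, ((if P = Q then (1 : K) else 0) * if Q = P then 1 else 0) =
        Fintype.card n := by
      simp
    rw [e1, e2, e3]
    field_simp
    ring

theorem T1 (hpos : PosStar K) (x y : n → K) :
    ∑ k, ip x (v k) * ip (v k) y = (Fintype.card n : K) * ip x y := by
  have e1 : ∀ k, ip x (v k) * ip (v k) y =
      ∑ p, ∑ q, (star (x p) * y q) * (v k p * star (v k q)) := by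
    intro k
    simp only [ip_def]
    rw [Finset.sum_mul_sum]
    exact Finset.sum_congr rfl fun p _ => Finset.sum_congr rfl fun q _ => by ring
  rw [Finset.sum_congr rfl fun k _ => e1 k, Finset.sum_comm]
  have e2 : ∀ p, ∑ k, ∑ q, (star (x p) * y q) * (v k p * star (v k q)) =
      (Fintype.card n : K) * (star (x p) * y p) := by
    intro p
    rw [Finset.sum_comm]
    have e3 : ∀ q, ∑ k, (star (x p) * y q) * (v k p * star (v k q)) =
        (star (x p) * y q) * ((Fintype.card n : K) * if p = q then 1 else 0) := by
      intro q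
      rw [← Finset.mul_sum, h.kernel_one hpos]
    rw [Finset.sum_congr rfl fun q _ => e3 q, Finset.sum_eq_single p]
    · rw [if_pos rfl]
      ring
    · intro q _ hq
      rw [if_neg (Ne.symm hq)]
      ring
    · intro hp
      exact absurd (Finset.mem_univ p) hp
  rw [Finset.sum_congr rfl fun p _ => e2 p, ← Finset.mul_sum]
  rfl

theorem kernel_two (hpos : PosStar K) (p q r s : n) :
    ((Fintype.card n : K) + 1) * ∑ k, v k p * v k q * star (v k r * v k s) =
      (Fintype.card n : K) * ((if p = r then 1 else 0) * (if q = s then 1 else 0) +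
        (if p = s then 1 else 0) * if q = r then 1 else 0) := by
  classical
  have hd1 : ((Fintype.card n : K) + 1) ≠ 0 := succ_ne hpos _
  have hstar : star ((Fintype.card n : K) + 1) = (Fintype.card n : K) + 1 := by
    rw [star_add, star_natCast, star_one]
  obtain ⟨E, hE⟩ : ∃ E : n × n → n × n → K, ∀ P Q, E P Q =
      (if P = Q then 1 else 0) + if P = Q.swap then 1 else 0 := ⟨_, fun _ _ => rfl⟩
  have hEs : ∀ P Q, star (E P Q) = E Q P := by
    intro P Q
    rw [hE, hE, star_add]
    have f1 : ∀ c : Prop, ∀ [Decidable c], star (if c then (1 : K) else 0) =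
        if c then 1 else 0 := by
      intro c _
      split_ifs
      · exact star_one K
      · exact star_zero K
    rw [f1, f1]
    congr 1
    · simp only [eq_comm]
    · have : P = Q.swap ↔ Q = P.swap := by
        constructor
        · rintro rfl
          rw [Prod.swap_swap]
        · rintro rfl
          rw [Prod.swap_swap]
      simp only [this]
  have hEsum : ∀ (P : n × n) (g : n × n → K), ∑ Q, E P Q * g Q = g P + g P.swap := by
    intro P g
    have f1 : ∀ Q, E P Q * g Q = (if P = Q then g Q else 0) + if P.swap = Q then g Q else 0 := by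
      intro Q
      rw [hE]
      have : P = Q.swap ↔ P.swap = Q := by
        constructor
        · rintro rfl
          rw [Prod.swap_swap]
        · rintro rfl
          rw [Prod.swap_swap]
      simp only [this]
      split_ifs <;> ring
    rw [Finset.sum_congr rfl fun Q _ => f1 Q, Finset.sum_add_distrib,
      Finset.sum_ite_eq Finset.univ P, Finset.sum_ite_eq Finset.univ P.swap,
      if_pos (Finset.mem_univ _), if_pos (Finset.mem_univ _)]
  have hip : ∀ k l, ip (fun P : n × n => v k P.1 * v k P.2) (fun P : n × n => v l P.1 * v l P.2) =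
      ip (v k) (v l) * ip (v k) (v l) := by
    intro k l
    simp only [ip_def]
    rw [Finset.sum_mul_sum, Fintype.sum_prod_type]
    refine Finset.sum_congr rfl fun p _ => Finset.sum_congr rfl fun q _ => ?_
    rw [star_mul]
    ring
  have h1 := kernel_eq hpos (fun k (P : n × n) => v k P.1 * v k P.2) E hEs
    ((Fintype.card n : K) + 1) (Fintype.card n : K) 2 hstar (star_natCast _)
    (fun k P => by
      rw [hEsum]
      simp only [Prod.fst_swap, Prod.snd_swap]
      ring) ?_ (p, q) (r, s)
  · refine h1.trans ?_
    rw [hE]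
    simp only [Prod.mk.injEq, Prod.swap_prod_mk, ite_and]
    congr 1
    split_ifs <;> simp
  · have e1 : ∑ k, ∑ l, ip (fun P : n × n => v k P.1 * v k P.2) (fun P : n × n => v l P.1 * v l P.2) *
        ip (fun P : n × n => v l P.1 * v l P.2) (fun P : n × n => v k P.1 * v k P.2) =
        (Fintype.card n : K) ^ 2 * (((Fintype.card n : K) + 1)⁻¹ ^ 2 *
          ((Fintype.card n : K) ^ 2 + (Fintype.card n : K) * ((Fintype.card n : K) + 2))) := by
      have g0 : ∀ k l, ip (fun P : n × n => v k P.1 * v k P.2)
          (fun P : n × n => v l P.1 * v l P.2) *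
          ip (fun P : n × n => v l P.1 * v l P.2) (fun P : n × n => v k P.1 * v k P.2) =
          ((Fintype.card n : K) + 1)⁻¹ ^ 2 * (1 + ((Fintype.card n : K) *
            ((Fintype.card n : K) + 2)) * if k = l then 1 else 0) := by
        intro k l
        rw [hip, hip]
        have g1 := h.angle' k l
        have g2 : ip (v k) (v l) * ip (v l) (v k) = ((Fintype.card n : K) + 1)⁻¹ *
            (1 + (Fintype.card n : K) * if k = l then 1 else 0) := by
          rw [← g1]
          field_simp
        have g3 : ip (v k) (v l) * ip (v k) (v l) * (ip (v l) (v k) * ip (v l) (v k)) =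
            (ip (v k) (v l) * ip (v l) (v k)) ^ 2 := by ring
        rw [g3, g2]
        split_ifs <;> ring
      have g1 : ∀ k, ∑ l, ip (fun P : n × n => v k P.1 * v k P.2)
          (fun P : n × n => v l P.1 * v l P.2) *
          ip (fun P : n × n => v l P.1 * v l P.2) (fun P : n × n => v k P.1 * v k P.2) =
          ((Fintype.card n : K) + 1)⁻¹ ^ 2 *
          ((Fintype.card n : K) ^ 2 + (Fintype.card n : K) * ((Fintype.card n : K) + 2)) := by
        intro k
        rw [Finset.sum_congr rfl fun l _ => g0 k l, ← Finset.mul_sum, Finset.sum_add_distrib,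
          Finset.sum_const, Finset.card_univ, h.card, nsmul_eq_mul, ← Finset.mul_sum,
          Finset.sum_ite_eq Finset.univ k, if_pos (Finset.mem_univ _)]
        push_cast
        ring
      rw [Finset.sum_congr rfl fun k _ => g1 k, Finset.sum_const, Finset.card_univ, h.card,
        nsmul_eq_mul]
      push_cast
      ring
    have e2 : ∑ k, ip (fun P : n × n => v k P.1 * v k P.2) (fun P : n × n => v k P.1 * v k P.2) =
        (Fintype.card n : K) ^ 2 := by
      have g1 : ∀ k, ip (fun P : n × n => v k P.1 * v k P.2)
          (fun P : n × n => v k P.1 * v k P.2) = 1 := by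
        intro k
        rw [hip, h.unit, one_mul]
      rw [Finset.sum_congr rfl fun k _ => g1 k, Finset.sum_const, Finset.card_univ, h.card,
        nsmul_eq_mul, mul_one]
      push_cast
      rfl
    have e3 : ∑ P, ∑ Q, E P Q * E Q P = 2 * (Fintype.card n : K) ^ 2 + 2 * Fintype.card n := by
      have g1 : ∀ P, ∑ Q, E P Q * E Q P = 2 * (1 + if P.1 = P.2 then 1 else 0) := by
        intro P
        rw [hEsum P fun Q => E Q P, hE, hE]
        have f1 : (P = P.swap) ↔ P.1 = P.2 := by
          constructor
          · intro hP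
            have := congrArg Prod.fst hP
            exact this
          · intro hP
            ext
            · exact hP
            · exact hP.symm
        have f2 : (P.swap = P) ↔ P.1 = P.2 := by rw [eq_comm, f1]
        rw [if_pos rfl, if_pos rfl]
        simp only [f1, f2]
        ring
      rw [Finset.sum_congr rfl fun P _ => g1 P, ← Finset.mul_sum, Finset.sum_add_distrib,
        Finset.sum_const, Finset.card_univ, Fintype.card_prod, nsmul_eq_mul,
        Fintype.sum_prod_type]
      have f3 : ∑ x : n, ∑ y : n, (if x = y then (1 : K) else 0) = Fintype.card n := by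
        simp
      rw [f3]
      push_cast
      ring
    rw [e1, e2, e3]
    field_simp
    ring

theorem T2 (hpos : PosStar K) (x x' y y' : n → K) :
    ((Fintype.card n : K) + 1) *
      ∑ k, ip x (v k) * ip x' (v k) * (ip (v k) y * ip (v k) y') =
      (Fintype.card n : K) * (ip x y * ip x' y' + ip x y' * ip x' y) := by
  have e1 : ∀ k, ip x (v k) * ip x' (v k) * (ip (v k) y * ip (v k) y') =
      ∑ p, ∑ q, ∑ r, ∑ s, (star (x p) * star (x' q) * (y r * y' s)) *
        (v k p * v k q * star (v k r * v k s)) := by
    intro k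
    simp only [ip_def]
    rw [four_sum]
    refine Finset.sum_congr rfl fun p _ => Finset.sum_congr rfl fun q _ =>
      Finset.sum_congr rfl fun r _ => Finset.sum_congr rfl fun s _ => ?_
    rw [star_mul]
    ring
  have e2 : ∀ p q r s, ((Fintype.card n : K) + 1) *
      ∑ k, (star (x p) * star (x' q) * (y r * y' s)) * (v k p * v k q * star (v k r * v k s)) =
      (if q = s then 1 else 0) * ((Fintype.card n : K) * (star (x p) * star (x' q) * (y r * y' s)) *
        (if p = r then 1 else 0)) +
      (if p = s then 1 else 0) * ((Fintype.card n : K) * (star (x p) * star (x' q) * (y r * y' s)) *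
        (if q = r then 1 else 0)) := by
    intro p q r s
    rw [← Finset.mul_sum]
    linear_combination (star (x p) * star (x' q) * (y r * y' s)) * h.kernel_two hpos p q r s
  have e3 : ∑ k, ∑ p, ∑ q, ∑ r, ∑ s, (star (x p) * star (x' q) * (y r * y' s)) *
      (v k p * v k q * star (v k r * v k s)) =
      ∑ p, ∑ q, ∑ r, ∑ s, ∑ k, (star (x p) * star (x' q) * (y r * y' s)) *
      (v k p * v k q * star (v k r * v k s)) := by
    rw [Finset.sum_comm]
    refine Finset.sum_congr rfl fun p _ => ?_
    rw [Finset.sum_comm]
    refine Finset.sum_congr rfl fun q _ => ?_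
    rw [Finset.sum_comm]
    refine Finset.sum_congr rfl fun r _ => ?_
    rw [Finset.sum_comm]
  rw [Finset.sum_congr rfl fun k _ => e1 k, e3]
  simp only [Finset.mul_sum (Finset.univ : Finset n)]
  rw [Finset.sum_congr rfl fun p _ => Finset.sum_congr rfl fun q _ =>
    Finset.sum_congr rfl fun r _ => Finset.sum_congr rfl fun s _ => e2 p q r s]
  have hdel : ∀ (p : n) (g : n → K), ∑ s, (if p = s then 1 else 0) * g s = g p := by
    intro p g
    simp
  have e4 : ∀ p q r, ∑ s, ((if q = s then 1 else 0) * ((Fintype.card n : K) *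
        (star (x p) * star (x' q) * (y r * y' s)) * (if p = r then 1 else 0)) +
      (if p = s then 1 else 0) * ((Fintype.card n : K) * (star (x p) * star (x' q) * (y r * y' s)) *
        (if q = r then 1 else 0))) =
      (if p = r then 1 else 0) * ((Fintype.card n : K) * (star (x p) * star (x' q) * (y r * y' q))) +
      (if q = r then 1 else 0) * ((Fintype.card n : K) * (star (x p) * star (x' q) * (y r * y' p))) := by
    intro p q r
    rw [Finset.sum_add_distrib, hdel, hdel]
    ring
  rw [Finset.sum_congr rfl fun p _ => Finset.sum_congr rfl fun q _ =>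
    Finset.sum_congr rfl fun r _ => e4 p q r]
  have e5 : ∀ p q, ∑ r, ((if p = r then 1 else 0) * ((Fintype.card n : K) *
        (star (x p) * star (x' q) * (y r * y' q))) +
      (if q = r then 1 else 0) * ((Fintype.card n : K) *
        (star (x p) * star (x' q) * (y r * y' p)))) =
      (Fintype.card n : K) * ((star (x p) * y p) * (star (x' q) * y' q) +
        (star (x p) * y' p) * (star (x' q) * y q)) := by
    intro p q
    rw [Finset.sum_add_distrib, hdel, hdel]
    ring
  rw [Finset.sum_congr rfl fun p _ => Finset.sum_congr rfl fun q _ => e5 p q]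
  simp only [ip_def]
  rw [Finset.sum_mul_sum, Finset.sum_mul_sum, ← Finset.sum_add_distrib, Finset.mul_sum]
  refine Finset.sum_congr rfl fun p _ => ?_
  rw [← Finset.sum_add_distrib, Finset.mul_sum]

end Sic

end

variable {n ι : Type} [Fintype n] [Fintype ι]

theorem Sic.sys [CharZero K] [DecidableEq n] [DecidableEq ι] (hpos : SicAb.PosStar K)
    {v : ι → n → K} (h : Sic v) : Sys v where
  unit := h.unit
  ang := h.angle'
  card := h.card
  T1 := h.T1 hpos
  T2 := h.T2 hpos

end Pool.Agent.SicRg
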