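import Pool.Agent.Lib.MP_d0f9e0_co.Rg.Four
import Pool.Agent.Lib.MP_d0f9e0_co.Rg.T2

set_option autoImplicit false
set_option linter.unusedSimpArgs false

namespace Pool.Agent.SicRg

open Finset

variable {K : Type*} [Field K] [StarRing K] {n ι : Type} [Fintype n] [Fintype ι]

/-!
File Circ.  If `z ≠ 0` for a curve, then `v` and a multiple `y` of `z` span a circle of maximal
systems (every `d`).
-/

/-- Two maximal systems `v`, `y` which span a circle of maximal systems. -/
structure Circ [DecidableEq ι] (v y : ι → n → K) : Prop where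
  sv : Sys v
  sy : Sys y
  tv : Tan v y
  ty : Tan y v
  alt : ∀ i k, (star (rat v y i k) = -rat v y i k ∧ ip (y i) (y k) = ip (v i) (v k)) ∨
    (rat v y i k ^ 2 = 1 ∧ star (rat v y i k) = rat v y i k ∧
      ip (y i) (y k) = -ip (v i) (v k))
  ne : ∀ i, ∃ k, ip (y i) (y k) = -ip (v i) (v k)
  two : ∀ x x' w w' : n → K,
    ∑ k, (ip x (v k) * ip x' (y k) + ip x (y k) * ip x' (v k)) *
      (ip (v k) w * ip (y k) w' + ip (y k) w * ip (v k) w') =
    2 * ∑ k, (ip x (v k) * ip x' (v k)) * (ip (v k) w * ip (v k) w') +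
    2 * ∑ k, (ip x (y k) * ip x' (y k)) * (ip (v k) w * ip (v k) w')

section

variable [CharZero K] [DecidableEq n] [DecidableEq ι] {v z : ι → n → K}

private theorem ci_val (hpos : SicAb.PosStar K) {D : K → K} {X : n → n → K} {th : ι → K}
    (hC : Curve D X th v z) (k l : ι) :
    (xx v z k l = 0 ∧ star (rat v z k l) = rat v z k l) ∨
    (xx v z k l = 2 * ip (z k) (z k) ∧ rat v z k l ^ 2 = -ip (z k) (z k) ∧
      star (rat v z k l) = -rat v z k l) := by
  have h0 := hC.h_zero hpos k l
  have hx : xx v z k l = rat v z k l * star (rat v z k l) - rat v z k l ^ 2 := rfl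
  rcases hC.four_alt hpos k l with h | h
  · left
    rw [hx, h]
    exact ⟨by ring, rfl⟩
  · rw [h] at h0 hx
    rcases mul_eq_zero.1 h0 with h3 | h3
    · left
      have h5 : rat v z k l = 0 := by
        have : (2 : K) * rat v z k l = 0 := by linear_combination h3
        exact (mul_eq_zero.1 this).resolve_left two_ne_zero
      rw [hx, h5]
      exact ⟨by ring, star_zero _⟩
    · right
      have : (2 : K) * (rat v z k l ^ 2 + ip (z k) (z k)) = 0 := by linear_combination hx + h3
      exact ⟨by linear_combination -h3,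
        by linear_combination (mul_eq_zero.1 this).resolve_left two_ne_zero, h⟩

omit [DecidableEq n] in
private theorem ci_ex {D : K → K} {X : n → n → K} {th : ι → K}
    (hC : Curve D X th v z) (i : ι) (hi : ip (z i) (z i) ≠ 0) :
    ∃ k, xx v z i k ≠ 0 := by
  by_contra hcon
  push Not at hcon
  have h1 : ∑ k, xx v z i k = dd n K * (dd n K + 1) * ip (z i) (z i) := by
    rw [← sum_s hC.sys hC.tan i, ← sub_zero (∑ k, rat v z i k * star (rat v z i k)),
      ← sum_a2 hC.sys hC.tan i, ← sum_sub_distrib]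
    rfl
  rw [sum_eq_zero fun k _ => hcon k] at h1
  exact mul_ne_zero (mul_ne_zero (hC.sys.dd_ne i) dd_succ_ne) hi h1.symm

omit [DecidableEq n] in
private theorem ci_G (hv : Sys v) (i k : ι) : ip (v i) (v k) ≠ 0 := by
  intro h
  have h1 := hv.ang i k
  rw [h] at h1
  by_cases hik : i = k
  · rw [if_pos hik] at h1
    exact dd_succ_ne (n := n) (K := K) (by linear_combination -h1)
  · rw [if_neg hik] at h1
    exact one_ne_zero (α := K) (by linear_combination -h1)

omit [Fintype ι] [CharZero K] [DecidableEq n] [DecidableEq ι] in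
private theorem ci_rat (c : K) (i k : ι) :
    rat v (fun k => c • z k) i k = c * rat v z i k := by
  unfold rat
  rw [ip_smul]
  ring

omit [CharZero K] [DecidableEq n] [DecidableEq ι] in
private theorem ci_tan (c : K) (hz : Tan v z) : Tan v (fun k => c • z k) := by
  refine ⟨⟨fun k => ?_, fun x y => ?_⟩, fun i k => ?_, fun x x' w w' => ?_⟩
  · rw [ip_smul, hz.diag, mul_zero]
  · rw [← mul_zero c, ← hz.hor x y, mul_sum]
    exact sum_congr rfl fun k _ => by rw [ip_smul]; ring
  · rw [ci_rat, ci_rat, hz.anti]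
    ring
  · rw [← mul_zero c, ← hz.bb x x' w w', mul_sum]
    exact sum_congr rfl fun k _ => by rw [ip_smul, ip_smul]; ring

/-- The circle of a nontrivial curve. -/
theorem Curve.circ (hpos : SicAb.PosStar K) {D : K → K} {X : n → n → K} {th : ι → K}
    (hC : Curve D X th v z) (k0 : ι) (h0 : z k0 ≠ 0) :
    ∃ c : K, c ≠ 0 ∧ Circ v (fun k => c • z k) := by
  obtain ⟨r, hr⟩ : ∃ r, ∀ i, ip (z i) (z i) = r :=
    ⟨ip (z k0) (z k0), fun i => hC.rho_eq hpos i k0⟩
  have hr0 : r ≠ 0 := fun h => h0 (ip_self hpos (by rw [hr, h]))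
  obtain ⟨l0, hl0⟩ := ci_ex hC k0 (by rw [hr]; exact hr0)
  have hval := fun i k => ci_val hpos hC i k
  simp only [hr] at hval
  obtain ⟨om, hom⟩ : ∃ om, rat v z k0 l0 = om := ⟨_, rfl⟩
  obtain ⟨hx0, h2, h3⟩ := (hval k0 l0).resolve_left fun h => hl0 h.1
  rw [hom] at h2 h3
  have hom0 : om ≠ 0 := by
    rintro rfl
    exact hr0 (by linear_combination h2)
  obtain ⟨c, hc⟩ : ∃ c, c = om⁻¹ := ⟨_, rfl⟩
  have hc0 : c ≠ 0 := by rw [hc]; exact inv_ne_zero hom0
  have hcs : star c = -c := by rw [hc, star_inv₀, h3, inv_neg]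
  have hcr : c ^ 2 * r = -1 := by
    have h4 : r = -om ^ 2 := by linear_combination h2
    rw [hc, h4]
    field_simp
  have hzz := fun i k => hC.four_zz hpos i k
  simp only [hr] at hzz
  have hyy : ∀ i k, ip (c • z i) (c • z k) = -c ^ 2 * ip (z i) (z k) := by
    intro i k
    rw [ip_smul, ip_smul_left, hcs]
    ring
  have halt : ∀ i k, (star (rat v (fun k => c • z k) i k) = -rat v (fun k => c • z k) i k ∧
      ip (c • z i) (c • z k) = ip (v i) (v k)) ∨
    (rat v (fun k => c • z k) i k ^ 2 = 1 ∧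
      star (rat v (fun k => c • z k) i k) = rat v (fun k => c • z k) i k ∧
      ip (c • z i) (c • z k) = -ip (v i) (v k)) := by
    intro i k
    rw [ci_rat, hyy, hzz]
    rcases hval i k with ⟨e1, e2⟩ | ⟨e1, e2, e3⟩
    · left
      rw [star_mul', hcs, e2, e1]
      exact ⟨by ring, by linear_combination -(ip (v i) (v k)) * hcr⟩
    · right
      rw [star_mul', hcs, e3, e1]
      exact ⟨by linear_combination c ^ 2 * e2 - hcr, by ring,
        by linear_combination (ip (v i) (v k)) * hcr⟩
  have htv : Tan v (fun k => c • z k) := ci_tan c hC.tan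
  have hsic : Sic (fun k => c • z k) := by
    refine ⟨fun k => ?_, fun i k hik => ?_, hC.sys.card⟩
    · rw [hyy, hr]
      linear_combination -hcr
    · have h4 := hC.sys.ang i k
      rw [if_neg hik, mul_zero, add_zero] at h4
      have e1 : ip (c • z i) (c • z k) ^ 2 = ip (v i) (v k) ^ 2 := by
        rcases halt i k with ⟨-, h⟩ | ⟨-, -, h⟩ <;> rw [h]
        ring
      have e2 : ip (c • z i) (c • z k) = ip (v i) (v k) ∧
          ip (c • z k) (c • z i) = ip (v k) (v i) ∨
          ip (c • z i) (c • z k) = -ip (v i) (v k) ∧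
          ip (c • z k) (c • z i) = -ip (v k) (v i) := by
        rcases halt i k with ⟨-, h⟩ | ⟨-, -, h⟩
        · left
          refine ⟨h, ?_⟩
          rw [← star_ip, h, star_ip]
        · right
          refine ⟨h, ?_⟩
          rw [← star_ip, h, star_neg, star_ip]
      rcases e2 with ⟨e3, e4⟩ | ⟨e3, e4⟩
      · rw [e3, e4]
        exact h4
      · rw [e3, e4]
        linear_combination h4
  have hsy := hsic.sys hpos
  refine ⟨c, hc0, hC.sys, hsy, htv, ?_, halt, ?_, ?_⟩
  · -- Lemma R for `y`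
    refine Hor.tan hpos hsy ⟨fun k => ?_, fun x w => ?_⟩ fun i k => ?_
    · rw [← star_ip, htv.diag, star_zero]
    · have h5 := congrArg star (htv.hor w x)
      rw [star_zero, star_sum] at h5
      rw [← h5]
      exact sum_congr rfl fun k _ => by rw [star_mul', star_ip, star_ip, mul_comm]
    · have key : rat (fun k => c • z k) v i k + rat (fun k => c • z k) v k i = 0 := by
        have e1 : ip (c • z i) (v k) = -star (rat v (fun k => c • z k) i k) * ip (v i) (v k) :=
          tr3 hC.sys htv i k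
        have e2 : ip (c • z k) (v i) = star (rat v (fun k => c • z k) i k) * ip (v k) (v i) :=
          tr4 hC.sys htv i k
        unfold rat at e1 e2 ⊢
        rw [e1, e2]
        rcases halt i k with ⟨-, h⟩ | ⟨-, -, h⟩
        · have h' : ip (c • z k) (c • z i) = ip (v k) (v i) := by
            rw [← star_ip, h, star_ip]
          rw [h, h']
          ring
        · have h' : ip (c • z k) (c • z i) = -ip (v k) (v i) := by
            rw [← star_ip, h, star_neg, star_ip]
          rw [h, h']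
          ring
      rw [key, star_zero, add_zero]
  · intro i
    obtain ⟨k, hk⟩ := ci_ex hC i (by rw [hr]; exact hr0)
    refine ⟨k, ?_⟩
    obtain ⟨e1, -, -⟩ := (hval i k).resolve_left fun h => hk h.1
    rw [hyy, hzz, e1]
    linear_combination (ip (v i) (v k)) * hcr
  · intro x x' w w'
    have h5 := hC.four_bb k0 x x' w w'
    have h6 := (hC.four_tan hpos k0).bb x x' w w'
    simp only [hr, ip_add, ip_smul] at h6
    have h7 : ∑ k, (2 * (ip x (z k) * ip x' (z k)) * (ip (v k) w * ip (v k) w') +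
        (ip x (v k) * ip x' (z k) + ip x (z k) * ip x' (v k)) *
        (ip (z k) w * ip (v k) w' + ip (v k) w * ip (z k) w') -
        2 * r * ((ip x (v k) * ip x' (v k)) * (ip (v k) w * ip (v k) w'))) = 0 := by
      have h9 := sub_eq_zero.2 (h5.trans h6.symm)
      rw [← sum_sub_distrib] at h9
      rw [← h9]
      exact sum_congr rfl fun k _ => by ring
    rw [sum_sub_distrib, sum_add_distrib] at h7
    have e1 : ∑ k, 2 * (ip x (z k) * ip x' (z k)) * (ip (v k) w * ip (v k) w') =
        2 * ∑ k, (ip x (z k) * ip x' (z k)) * (ip (v k) w * ip (v k) w') := by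
      rw [mul_sum]
      exact sum_congr rfl fun k _ => by ring
    rw [e1, ← mul_sum] at h7
    have e2 : ∑ k, (ip x (v k) * ip x' (c • z k) + ip x (c • z k) * ip x' (v k)) *
        (ip (v k) w * ip (c • z k) w' + ip (c • z k) w * ip (v k) w') =
        -c ^ 2 * ∑ k, (ip x (v k) * ip x' (z k) + ip x (z k) * ip x' (v k)) *
        (ip (z k) w * ip (v k) w' + ip (v k) w * ip (z k) w') := by
      rw [mul_sum]
      refine sum_congr rfl fun k _ => ?_
      rw [ip_smul, ip_smul, ip_smul_left, ip_smul_left, hcs]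
      ring
    have e3 : ∑ k, (ip x (c • z k) * ip x' (c • z k)) * (ip (v k) w * ip (v k) w') =
        c ^ 2 * ∑ k, (ip x (z k) * ip x' (z k)) * (ip (v k) w * ip (v k) w') := by
      rw [mul_sum]
      refine sum_congr rfl fun k _ => ?_
      rw [ip_smul, ip_smul]
      ring
    rw [e2, e3]
    linear_combination (-c ^ 2) * h7 - 2 * (∑ k, (ip x (v k) * ip x' (v k)) *
      (ip (v k) w * ip (v k) w')) * hcr

end

section circ

variable [CharZero K] [DecidableEq n] [DecidableEq ι] {v y : ι → n → K}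

/-- `∑ V V^*` -/
def tT (v : ι → n → K) (x x' w w' : n → K) : K :=
  ∑ k, (ip x (v k) * ip x' (v k)) * (ip (v k) w * ip (v k) w')

/-- `∑ Y V^*` -/
def tU (v y : ι → n → K) (x x' w w' : n → K) : K :=
  ∑ k, (ip x (y k) * ip x' (y k)) * (ip (v k) w * ip (v k) w')

omit [CharZero K] [DecidableEq n] in
theorem Circ.tT_eq (h : Circ v y) (x x' w w' : n → K) :
    (dd n K + 1) * tT v x x' w w' = dd n K * (ip x w * ip x' w' + ip x w' * ip x' w) :=
  h.sv.T2 x x' w w'

omit [CharZero K] [DecidableEq n] [DecidableEq ι] in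
private theorem ci_star (a b c e : ι → n → K) (x x' w w' : n → K) :
    star (∑ k, (ip w (a k) * ip w' (b k)) * (ip (c k) x * ip (e k) x')) =
      ∑ k, (ip x (c k) * ip x' (e k)) * (ip (a k) w * ip (b k) w') := by
  rw [star_sum]
  refine sum_congr rfl fun k _ => ?_
  rw [star_mul', star_mul', star_mul', star_ip, star_ip, star_ip, star_ip]
  ring

omit [DecidableEq n] in
/-- the adjoint of `∑ Y V^*` -/
theorem Circ.tU_eq (h : Circ v y) (x x' w w' : n → K) :
    ∑ k, (ip x (v k) * ip x' (v k)) * (ip (y k) w * ip (y k) w') = tU v y x x' w w' := by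
  have h1 := h.two x x' w w'
  have h2 := congrArg star (h.two w w' x x')
  have h3 : star (∑ k, (ip w (v k) * ip w' (y k) + ip w (y k) * ip w' (v k)) *
      (ip (v k) x * ip (y k) x' + ip (y k) x * ip (v k) x')) =
      ∑ k, (ip x (v k) * ip x' (y k) + ip x (y k) * ip x' (v k)) *
      (ip (v k) w * ip (y k) w' + ip (y k) w * ip (v k) w') := by
    rw [star_sum]
    refine sum_congr rfl fun k _ => ?_
    rw [star_mul', star_add, star_add, star_mul', star_mul', star_mul', star_mul', star_ip,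
      star_ip, star_ip, star_ip, star_ip, star_ip, star_ip, star_ip]
    ring
  rw [h3, star_add, star_mul', star_mul', ci_star, ci_star] at h2
  have h4 : star (2 : K) = 2 := star_ofNat 2
  rw [h4] at h2
  have h5 : (2 : K) * (∑ k, (ip x (v k) * ip x' (v k)) * (ip (y k) w * ip (y k) w') -
      tU v y x x' w w') = 0 := by
    unfold tU
    linear_combination h1 - h2
  exact sub_eq_zero.1 ((mul_eq_zero.1 h5).resolve_left two_ne_zero)

omit [DecidableEq n] in
/-- all sums of products of two of the forms `V`, `Y`, `W` -/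
theorem Circ.comb (h : Circ v y) (a b c a' b' c' : K) (x x' w w' : n → K) :
    ∑ k, (a * (ip x (v k) * ip x' (v k)) + b * (ip x (y k) * ip x' (y k)) +
      c * (ip x (v k) * ip x' (y k) + ip x (y k) * ip x' (v k))) *
      (a' * (ip (v k) w * ip (v k) w') + b' * (ip (y k) w * ip (y k) w') +
      c' * (ip (v k) w * ip (y k) w' + ip (y k) w * ip (v k) w')) =
    (a * a' + b * b' + 2 * c * c') * tT v x x' w w' +
      (a * b' + b * a' + 2 * c * c') * tU v y x x' w w' := by
  have hd1 : dd n K + 1 ≠ 0 := dd_succ_ne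
  have e1 : ∑ k, (ip x (v k) * ip x' (v k)) * (ip (v k) w * ip (v k) w') = tT v x x' w w' := rfl
  have e2 : ∑ k, (ip x (y k) * ip x' (y k)) * (ip (y k) w * ip (y k) w') = tT v x x' w w' := by
    apply mul_left_cancel₀ hd1
    rw [h.sy.T2, h.tT_eq]
  have e3 : ∑ k, (ip x (y k) * ip x' (y k)) * (ip (v k) w * ip (v k) w') =
      tU v y x x' w w' := rfl
  have e4 := h.tU_eq x x' w w'
  have e5 := h.tv.bb x x' w w'
  have e6 := h.ty.bb x x' w w'
  have e7 : ∑ k, (ip x (v k) * ip x' (v k)) * (ip (v k) w * ip (y k) w' +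
      ip (y k) w * ip (v k) w') = 0 := by
    have h1 := congrArg star (h.tv.bb w w' x x')
    rw [star_zero, star_sum] at h1
    rw [← h1]
    refine sum_congr rfl fun k _ => ?_
    rw [star_mul', star_add, star_mul', star_mul', star_mul', star_ip, star_ip, star_ip,
      star_ip, star_ip, star_ip]
    ring
  have e8 : ∑ k, (ip x (y k) * ip x' (y k)) * (ip (v k) w * ip (y k) w' +
      ip (y k) w * ip (v k) w') = 0 := by
    have h1 := congrArg star (h.ty.bb w w' x x')
    rw [star_zero, star_sum] at h1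
    rw [← h1]
    refine sum_congr rfl fun k _ => ?_
    rw [star_mul', star_add, star_mul', star_mul', star_mul', star_ip, star_ip, star_ip,
      star_ip, star_ip, star_ip]
    ring
  have e9 := h.two x x' w w'
  have h0 : ∀ k, (a * (ip x (v k) * ip x' (v k)) + b * (ip x (y k) * ip x' (y k)) +
      c * (ip x (v k) * ip x' (y k) + ip x (y k) * ip x' (v k))) *
      (a' * (ip (v k) w * ip (v k) w') + b' * (ip (y k) w * ip (y k) w') +
      c' * (ip (v k) w * ip (y k) w' + ip (y k) w * ip (v k) w')) =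
      a * a' * ((ip x (v k) * ip x' (v k)) * (ip (v k) w * ip (v k) w')) +
      b * b' * ((ip x (y k) * ip x' (y k)) * (ip (y k) w * ip (y k) w')) +
      b * a' * ((ip x (y k) * ip x' (y k)) * (ip (v k) w * ip (v k) w')) +
      a * b' * ((ip x (v k) * ip x' (v k)) * (ip (y k) w * ip (y k) w')) +
      c * a' * ((ip x (v k) * ip x' (y k) + ip x (y k) * ip x' (v k)) *
        (ip (v k) w * ip (v k) w')) +
      c * b' * ((ip x (y k) * ip x' (v k) + ip x (v k) * ip x' (y k)) *
        (ip (y k) w * ip (y k) w')) +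
      a * c' * ((ip x (v k) * ip x' (v k)) * (ip (v k) w * ip (y k) w' +
        ip (y k) w * ip (v k) w')) +
      b * c' * ((ip x (y k) * ip x' (y k)) * (ip (v k) w * ip (y k) w' +
        ip (y k) w * ip (v k) w')) +
      c * c' * ((ip x (v k) * ip x' (y k) + ip x (y k) * ip x' (v k)) *
        (ip (v k) w * ip (y k) w' + ip (y k) w * ip (v k) w')) := fun k => by ring
  rw [sum_congr rfl fun k _ => h0 k, sum_add_distrib, sum_add_distrib, sum_add_distrib,
    sum_add_distrib, sum_add_distrib, sum_add_distrib, sum_add_distrib, sum_add_distrib,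
    ← mul_sum, ← mul_sum, ← mul_sum, ← mul_sum, ← mul_sum, ← mul_sum, ← mul_sum, ← mul_sum,
    ← mul_sum, e1, e2, e3, e4, e5, e6, e7, e8, e9, e1, e3]
  ring

/-- `e = v + y` -/
def ce (v y : ι → n → K) (k : ι) : n → K := v k + y k

/-- `g = v - y` -/
def cg (v y : ι → n → K) (k : ι) : n → K := v k - y k

omit [DecidableEq n] in
theorem Circ.EE (h : Circ v y) (x x' w w' : n → K) :
    ∑ k, (ip x (ce v y k) * ip x' (ce v y k)) *
      (ip (ce v y k) w * ip (ce v y k) w') = 4 * tT v x x' w w' + 4 * tU v y x x' w w' := by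
  have h1 := h.comb (1) (1) (1) (1) (1) (1) x x' w w'
  have h2 : ∑ k, (ip x (ce v y k) * ip x' (ce v y k)) *
      (ip (ce v y k) w * ip (ce v y k) w') = _ := (sum_congr rfl fun k _ => by
    simp only [ce, cg, ip_add, ip_sub, ip_add_left, ip_sub_left]
    ring).trans h1
  rw [h2]
  ring

omit [DecidableEq n] in
theorem Circ.EG (h : Circ v y) (x x' w w' : n → K) :
    ∑ k, (ip x (ce v y k) * ip x' (ce v y k)) *
      (ip (cg v y k) w * ip (cg v y k) w') = 0 := by
  have h1 := h.comb (1) (1) (1) (1) (1) (-1) x x' w w'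
  have h2 : ∑ k, (ip x (ce v y k) * ip x' (ce v y k)) *
      (ip (cg v y k) w * ip (cg v y k) w') = _ := (sum_congr rfl fun k _ => by
    simp only [ce, cg, ip_add, ip_sub, ip_add_left, ip_sub_left]
    ring).trans h1
  rw [h2]
  ring

omit [DecidableEq n] in
theorem Circ.EM (h : Circ v y) (x x' w w' : n → K) :
    ∑ k, (ip x (ce v y k) * ip x' (ce v y k)) *
      (ip (ce v y k) w * ip (cg v y k) w' + ip (cg v y k) w * ip (ce v y k) w') = 0 := by
  have h1 := h.comb (1) (1) (1) (2) (-2) (0) x x' w w'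
  have h2 : ∑ k, (ip x (ce v y k) * ip x' (ce v y k)) *
      (ip (ce v y k) w * ip (cg v y k) w' + ip (cg v y k) w * ip (ce v y k) w') = _ := (sum_congr rfl fun k _ => by
    simp only [ce, cg, ip_add, ip_sub, ip_add_left, ip_sub_left]
    ring).trans h1
  rw [h2]
  ring

omit [DecidableEq n] in
theorem Circ.GE (h : Circ v y) (x x' w w' : n → K) :
    ∑ k, (ip x (cg v y k) * ip x' (cg v y k)) *
      (ip (ce v y k) w * ip (ce v y k) w') = 0 := by
  have h1 := h.comb (1) (1) (-1) (1) (1) (1) x x' w w'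
  have h2 : ∑ k, (ip x (cg v y k) * ip x' (cg v y k)) *
      (ip (ce v y k) w * ip (ce v y k) w') = _ := (sum_congr rfl fun k _ => by
    simp only [ce, cg, ip_add, ip_sub, ip_add_left, ip_sub_left]
    ring).trans h1
  rw [h2]
  ring

omit [DecidableEq n] in
theorem Circ.GG (h : Circ v y) (x x' w w' : n → K) :
    ∑ k, (ip x (cg v y k) * ip x' (cg v y k)) *
      (ip (cg v y k) w * ip (cg v y k) w') = 4 * tT v x x' w w' + 4 * tU v y x x' w w' := by
  have h1 := h.comb (1) (1) (-1) (1) (1) (-1) x x' w w'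
  have h2 : ∑ k, (ip x (cg v y k) * ip x' (cg v y k)) *
      (ip (cg v y k) w * ip (cg v y k) w') = _ := (sum_congr rfl fun k _ => by
    simp only [ce, cg, ip_add, ip_sub, ip_add_left, ip_sub_left]
    ring).trans h1
  rw [h2]
  ring

omit [DecidableEq n] in
theorem Circ.GM (h : Circ v y) (x x' w w' : n → K) :
    ∑ k, (ip x (cg v y k) * ip x' (cg v y k)) *
      (ip (ce v y k) w * ip (cg v y k) w' + ip (cg v y k) w * ip (ce v y k) w') = 0 := by
  have h1 := h.comb (1) (1) (-1) (2) (-2) (0) x x' w w'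
  have h2 : ∑ k, (ip x (cg v y k) * ip x' (cg v y k)) *
      (ip (ce v y k) w * ip (cg v y k) w' + ip (cg v y k) w * ip (ce v y k) w') = _ := (sum_congr rfl fun k _ => by
    simp only [ce, cg, ip_add, ip_sub, ip_add_left, ip_sub_left]
    ring).trans h1
  rw [h2]
  ring

omit [DecidableEq n] in
theorem Circ.ME (h : Circ v y) (x x' w w' : n → K) :
    ∑ k, (ip x (ce v y k) * ip x' (cg v y k) + ip x (cg v y k) * ip x' (ce v y k)) *
      (ip (ce v y k) w * ip (ce v y k) w') = 0 := by
  have h1 := h.comb (2) (-2) (0) (1) (1) (1) x x' w w'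
  have h2 : ∑ k, (ip x (ce v y k) * ip x' (cg v y k) + ip x (cg v y k) * ip x' (ce v y k)) *
      (ip (ce v y k) w * ip (ce v y k) w') = _ := (sum_congr rfl fun k _ => by
    simp only [ce, cg, ip_add, ip_sub, ip_add_left, ip_sub_left]
    ring).trans h1
  rw [h2]
  ring

omit [DecidableEq n] in
theorem Circ.MG (h : Circ v y) (x x' w w' : n → K) :
    ∑ k, (ip x (ce v y k) * ip x' (cg v y k) + ip x (cg v y k) * ip x' (ce v y k)) *
      (ip (cg v y k) w * ip (cg v y k) w') = 0 := by
  have h1 := h.comb (2) (-2) (0) (1) (1) (-1) x x' w w'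
  have h2 : ∑ k, (ip x (ce v y k) * ip x' (cg v y k) + ip x (cg v y k) * ip x' (ce v y k)) *
      (ip (cg v y k) w * ip (cg v y k) w') = _ := (sum_congr rfl fun k _ => by
    simp only [ce, cg, ip_add, ip_sub, ip_add_left, ip_sub_left]
    ring).trans h1
  rw [h2]
  ring

omit [DecidableEq n] in
theorem Circ.MM (h : Circ v y) (x x' w w' : n → K) :
    ∑ k, (ip x (ce v y k) * ip x' (cg v y k) + ip x (cg v y k) * ip x' (ce v y k)) *
      (ip (ce v y k) w * ip (cg v y k) w' + ip (cg v y k) w * ip (ce v y k) w') = 8 * tT v x x' w w' - 8 * tU v y x x' w w' := by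
  have h1 := h.comb (2) (-2) (0) (2) (-2) (0) x x' w w'
  have h2 : ∑ k, (ip x (ce v y k) * ip x' (cg v y k) + ip x (cg v y k) * ip x' (ce v y k)) *
      (ip (ce v y k) w * ip (cg v y k) w' + ip (cg v y k) w * ip (ce v y k) w') = _ := (sum_congr rfl fun k _ => by
    simp only [ce, cg, ip_add, ip_sub, ip_add_left, ip_sub_left]
    ring).trans h1
  rw [h2]
  ring

omit [DecidableEq n] in
/-- the entries of the Gram matrices -/
theorem Circ.gram (h : Circ v y) (i k : ι) :
    (ip (ce v y i) (cg v y k) = 0 ∧ ip (cg v y i) (ce v y k) = 0) ∨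
    (ip (ce v y i) (ce v y k) = 0 ∧ ip (cg v y i) (cg v y k) = 0 ∧
      ip (ce v y i) (cg v y k) * ip (cg v y i) (ce v y k) = 0) := by
  have h1 := tr1 h.sv h.tv i k
  have h3 := tr3 h.sv h.tv i k
  simp only [ce, cg, ip_add, ip_sub, ip_add_left, ip_sub_left]
  rw [h1, h3]
  rcases h.alt i k with ⟨e1, e2⟩ | ⟨e1, e2, e3⟩
  · left
    rw [e1, e2]
    exact ⟨by ring, by ring⟩
  · right
    rw [e2, e3]
    exact ⟨by ring, by ring, by linear_combination (-4) * (ip (v i) (v k)) ^ 2 * e1⟩

omit [DecidableEq n] in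
/-- the entries where the Gram matrices of `e` and `g` vanish -/
theorem Circ.neg (h : Circ v y) {i k : ι} (hk : ip (y i) (y k) = -ip (v i) (v k)) :
    ip (ce v y i) (ce v y k) = 0 ∧ ip (cg v y i) (cg v y k) = 0 := by
  have h1 := tr1 h.sv h.tv i k
  have h3 := tr3 h.sv h.tv i k
  simp only [ce, cg, ip_add, ip_sub, ip_add_left, ip_sub_left]
  rw [h1, h3, hk]
  rcases h.alt i k with ⟨-, e2⟩ | ⟨-, e2, -⟩
  · exfalso
    rw [e2] at hk
    have h4 : (2 : K) * ip (v i) (v k) = 0 := by linear_combination hk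
    exact ci_G h.sv i k ((mul_eq_zero.1 h4).resolve_left two_ne_zero)
  · rw [e2]
    exact ⟨by ring, by ring⟩

/-- the sum of the Gram matrices of the tensors `e e`, `g g` and `e g` -/
def cP (v y : ι → n → K) (i k : ι) : K :=
  ip (ce v y i) (ce v y k) ^ 2 + ip (cg v y i) (cg v y k) ^ 2 +
    ip (ce v y i) (ce v y k) * ip (cg v y i) (cg v y k)

omit [Fintype ι] [CharZero K] [DecidableEq n] [DecidableEq ι] in
theorem cP_star (i k : ι) : star (cP v y i k) = cP v y k i := by
  unfold cP
  rw [star_add, star_add, star_pow, star_pow, star_mul', star_ip, star_ip]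

omit [CharZero K] [DecidableEq n] in
theorem Circ.cP_diag (h : Circ v y) (i : ι) : cP v y i i = 12 := by
  have h1 : ip (v i) (y i) = 0 := h.tv.diag i
  have h2 : ip (y i) (v i) = 0 := h.ty.diag i
  have h3 := h.sv.unit i
  have h4 := h.sy.unit i
  unfold cP
  simp only [ce, cg, ip_add, ip_sub, ip_add_left, ip_sub_left]
  rw [h1, h2, h3, h4]
  norm_num

omit [DecidableEq n] in
/-- `cP` is `16 d / (d + 1)` times a projection -/
theorem Circ.cP_mul (h : Circ v y) (i l : ι) :
    (dd n K + 1) * ∑ k, cP v y i k * cP v y k l = 16 * dd n K * cP v y i l := by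
  have hd1 : dd n K + 1 ≠ 0 := dd_succ_ne
  obtain ⟨e, he⟩ : ∃ e : ι → n → K, ∀ k, ce v y k = e k := ⟨_, fun _ => rfl⟩
  obtain ⟨g, hg⟩ : ∃ g : ι → n → K, ∀ k, cg v y k = g k := ⟨_, fun _ => rfl⟩
  have hgr := h.gram
  have hEE := h.EE
  have hEG := h.EG
  have hEM := h.EM
  have hGE := h.GE
  have hGG := h.GG
  have hGM := h.GM
  have hME := h.ME
  have hMG := h.MG
  have hMM := h.MM
  unfold cP
  simp only [he, hg] at hgr hEE hEG hEM hGE hGG hGM hME hMG hMM ⊢
  have z1 : ∀ i k, ip (e i) (e k) * ip (e i) (g k) = 0 := by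
    intro i k
    rcases hgr i k with ⟨a1, a2⟩ | ⟨a1, a2, a3⟩
    · rw [a1, mul_zero]
    · rw [a1, zero_mul]
  have z2 : ∀ i k, ip (g i) (e k) * ip (g i) (g k) = 0 := by
    intro i k
    rcases hgr i k with ⟨a1, a2⟩ | ⟨a1, a2, a3⟩
    · rw [a2, zero_mul]
    · rw [a2, mul_zero]
  have z3 : ∀ i k, ip (e i) (e k) * ip (g i) (e k) = 0 := by
    intro i k
    rcases hgr i k with ⟨a1, a2⟩ | ⟨a1, a2, a3⟩
    · rw [a2, mul_zero]
    · rw [a1, zero_mul]
  have z4 : ∀ i k, ip (e i) (g k) * ip (g i) (e k) = 0 := by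
    intro i k
    rcases hgr i k with ⟨a1, a2⟩ | ⟨a1, a2, a3⟩
    · rw [a2, mul_zero]
    · exact a3
  have hT := h.tT_eq
  -- the three squares
  have s1 : (dd n K + 1) * ∑ k, (ip (e i) (e k) * ip (e i) (e k)) *
      (ip (e k) (e l) * ip (e k) (e l)) = 16 * dd n K * ip (e i) (e l) ^ 2 := by
    have m1 := hMM (e i) (e i) (e l) (e l)
    rw [sum_eq_zero fun k _ => by rw [z1 i k, mul_comm (ip (e i) (g k)), z1 i k, add_zero,
      zero_mul]] at m1
    have m2 := hT (e i) (e i) (e l) (e l)
    rw [hEE]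
    linear_combination ((dd n K + 1) / 2) * m1 + 8 * m2
  have s2 : (dd n K + 1) * ∑ k, (ip (g i) (g k) * ip (g i) (g k)) *
      (ip (g k) (g l) * ip (g k) (g l)) = 16 * dd n K * ip (g i) (g l) ^ 2 := by
    have m1 := hMM (g i) (g i) (g l) (g l)
    rw [sum_eq_zero fun k _ => by rw [z2 i k, mul_comm (ip (g i) (g k)), z2 i k, add_zero,
      zero_mul]] at m1
    have m2 := hT (g i) (g i) (g l) (g l)
    rw [hGG]
    linear_combination ((dd n K + 1) / 2) * m1 + 8 * m2
  have s3 : (dd n K + 1) * ∑ k, (ip (e i) (e k) * ip (g i) (g k) + ip (e i) (g k) *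
      ip (g i) (e k)) * (ip (e k) (e l) * ip (g k) (g l) + ip (g k) (e l) * ip (e k) (g l)) =
      16 * dd n K * (ip (e i) (e l) * ip (g i) (g l)) := by
    have m1 := hEE (e i) (g i) (e l) (g l)
    rw [sum_eq_zero fun k _ => by rw [z3 i k, zero_mul]] at m1
    have m2 := hT (e i) (g i) (e l) (g l)
    have m3 := z4 i l
    rw [hMM]
    linear_combination (2 * (dd n K + 1)) * m1 + 16 * m2 + 16 * dd n K * m3
  -- the six mixed sums
  have c1 := hEG (e i) (e i) (g l) (g l)
  have c2 := hEM (e i) (e i) (e l) (g l)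
  have c3 := hGE (g i) (g i) (e l) (e l)
  have c4 := hGM (g i) (g i) (e l) (g l)
  have c5 := hME (e i) (g i) (e l) (e l)
  have c6 := hMG (e i) (g i) (g l) (g l)
  have key : ∀ k, (ip (e i) (e k) ^ 2 + ip (g i) (g k) ^ 2 + ip (e i) (e k) * ip (g i) (g k)) *
      (ip (e k) (e l) ^ 2 + ip (g k) (g l) ^ 2 + ip (e k) (e l) * ip (g k) (g l)) =
      (ip (e i) (e k) * ip (e i) (e k)) * (ip (e k) (e l) * ip (e k) (e l)) +
      (ip (g i) (g k) * ip (g i) (g k)) * (ip (g k) (g l) * ip (g k) (g l)) +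
      (ip (e i) (e k) * ip (g i) (g k) + ip (e i) (g k) * ip (g i) (e k)) *
        (ip (e k) (e l) * ip (g k) (g l) + ip (g k) (e l) * ip (e k) (g l)) +
      (ip (e i) (e k) * ip (e i) (e k)) * (ip (g k) (g l) * ip (g k) (g l)) +
      (ip (e i) (e k) * ip (e i) (e k)) *
        (ip (e k) (e l) * ip (g k) (g l) + ip (g k) (e l) * ip (e k) (g l)) +
      (ip (g i) (g k) * ip (g i) (g k)) * (ip (e k) (e l) * ip (e k) (e l)) +
      (ip (g i) (g k) * ip (g i) (g k)) *
        (ip (e k) (e l) * ip (g k) (g l) + ip (g k) (e l) * ip (e k) (g l)) +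
      (ip (e i) (e k) * ip (g i) (g k) + ip (e i) (g k) * ip (g i) (e k)) *
        (ip (e k) (e l) * ip (e k) (e l)) +
      (ip (e i) (e k) * ip (g i) (g k) + ip (e i) (g k) * ip (g i) (e k)) *
        (ip (g k) (g l) * ip (g k) (g l)) := by
    intro k
    have m1 := z4 i k
    have m2 := z4 k l
    rw [m1, mul_comm (ip (g k) (e l)), m2]
    ring
  rw [sum_congr rfl fun k _ => key k]
  rw [sum_add_distrib, sum_add_distrib, sum_add_distrib, sum_add_distrib, sum_add_distrib,
    sum_add_distrib, sum_add_distrib, sum_add_distrib]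
  linear_combination s1 + s2 + s3 + (dd n K + 1) * (c1 + c2 + c3 + c4 + c5 + c6)

end circ

end Pool.Agent.SicRg
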