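import Pool.Agent.Lib.MP_d0f9e0_co.Rg.Four
import Pool.Agent.Lib.MP_d0f9e0_co.Rg.T2

set_option autoImplicit false

namespace Pool.Agent.SicRg

open Finset

variable {K : Type*} [Field K] [StarRing K] {n ι : Type} [Fintype n] [Fintype ι]

/-!
File Count.  (7) of dnote 4498.
-/

variable [CharZero K] [DecidableEq n] [DecidableEq ι] {v z : ι → n → K}

theorem Curve.count (hpos : SicAb.PosStar K) {D : K → K} {X : n → n → K} {th : ι → K}
    (hC : Curve D X th v z) (h4 : ¬ 4 ∣ Fintype.card n * (Fintype.card n + 1)) (k : ι) :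
    z k = 0 := by
  classical
  by_contra hzk
  apply h4
  have hr0 : ip (z k) (z k) ≠ 0 := fun h => hzk (ip_self hpos h)
  have h0 := hC.h_zero hpos k
  have halt := hC.four_alt hpos k
  have hs1 := sum_s hC.sys hC.tan k
  have hs2 := sum_a2 hC.sys hC.tan k
  have hs3 := sum_a hC.sys hC.tan k
  have hxdef : ∀ l, xx v z k l = rat v z k l * star (rat v z k l) - rat v z k l ^ 2 :=
    fun _ => rfl
  obtain ⟨r, hr⟩ : ∃ r, ip (z k) (z k) = r := ⟨_, rfl⟩
  obtain ⟨x, hx⟩ : ∃ x : ι → K, ∀ l, xx v z k l = x l := ⟨_, fun _ => rfl⟩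
  obtain ⟨a, ha⟩ : ∃ a : ι → K, ∀ l, rat v z k l = a l := ⟨_, fun _ => rfl⟩
  simp only [hr, hx, ha] at h0 halt hs1 hs2 hs3 hxdef hr0
  -- the two values
  have hv : ∀ l, (x l = 0 ∧ a l - star (a l) = 0) ∨ (x l = 2 * r ∧ a l ^ 2 = -r ∧
      a l - star (a l) = 2 * a l) := by
    intro l
    rcases halt l with h | h
    · left
      rw [hxdef, h]
      constructor <;> ring
    · have h1 := h0 l
      have h2 := hxdef l
      rw [h] at h1 h2 ⊢
      rcases mul_eq_zero.1 h1 with h3 | h3
      · left
        have h5 : a l = 0 := by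
          have : (2 : K) * a l = 0 := by linear_combination h3
          exact (mul_eq_zero.1 this).resolve_left two_ne_zero
        rw [h5] at h2 ⊢
        constructor
        · rw [h2]; ring
        · ring
      · right
        refine ⟨by linear_combination -h3, ?_, by ring⟩
        have : (2 : K) * (a l ^ 2 + r) = 0 := by linear_combination h2 + h3
        linear_combination (mul_eq_zero.1 this).resolve_left two_ne_zero
  -- the set where `x` is not zero
  have hcase : ∀ l, x l ≠ 0 → (x l = 2 * r ∧ a l ^ 2 = -r ∧ a l - star (a l) = 2 * a l) :=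
    fun l hl => (hv l).resolve_left fun h => hl h.1
  set S := univ.filter (fun l => x l ≠ 0) with hS
  have hsum1 : ∑ l, x l = (S.card : K) * (2 * r) := by
    rw [← sum_filter_add_sum_filter_not univ (fun l => x l ≠ 0) x, ← hS,
      sum_congr rfl fun l hl => (hcase l (mem_filter.1 hl).2).1,
      sum_eq_zero (s := univ.filter fun l => ¬ x l ≠ 0) fun l hl => by
        simpa using (mem_filter.1 hl).2,
      sum_const, nsmul_eq_mul, add_zero]
  have hsum2 : ∑ l, x l = dd n K * (dd n K + 1) * r := by
    rw [← hs1, ← sub_zero (∑ k, a k * star (a k)), ← hs2, ← sum_sub_distrib]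
    exact sum_congr rfl fun l _ => hxdef l
  have hcard : Fintype.card n * (Fintype.card n + 1) = 2 * S.card := by
    have h1 : dd n K * (dd n K + 1) = 2 * (S.card : K) := by
      apply mul_right_cancel₀ hr0
      rw [← hsum2, hsum1]
      ring
    unfold dd at h1
    exact_mod_cast h1
  -- the signs
  have hsum3 : ∑ l ∈ S, a l = 0 := by
    have h1 : ∑ l, (a l - star (a l)) = 0 := by
      rw [sum_sub_distrib, ← star_sum, hs3, star_zero, sub_zero]
    rw [← sum_filter_add_sum_filter_not univ (fun l => x l ≠ 0), ← hS,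
      sum_congr rfl fun l hl => (hcase l (mem_filter.1 hl).2).2.2,
      sum_eq_zero (s := univ.filter fun l => ¬ x l ≠ 0) fun l hl => by
        rcases hv l with h | h
        · exact h.2
        · exfalso
          have h5 : x l = 0 := by simpa using (mem_filter.1 hl).2
          rw [h5] at h
          exact hr0 ((mul_eq_zero.1 h.1.symm).resolve_left two_ne_zero),
      add_zero, ← mul_sum] at h1
    exact (mul_eq_zero.1 h1).resolve_left two_ne_zero
  rcases S.eq_empty_or_nonempty with hemp | ⟨l0, hl0⟩
  · rw [hcard, hemp]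
    simp
  · have ha0 := (hcase l0 (mem_filter.1 hl0).2).2.1
    have ha00 : a l0 ≠ 0 := by
      intro h
      rw [h] at ha0
      apply hr0
      linear_combination ha0
    have hpm : ∀ l ∈ S, a l ≠ a l0 → a l = -a l0 := by
      intro l hl hne
      have h1 := (hcase l (mem_filter.1 hl).2).2.1
      have h2 : a l ^ 2 = a l0 ^ 2 := by rw [h1, ha0]
      exact (sq_eq_sq_iff_eq_or_eq_neg.1 h2).resolve_left hne
    have h5 : ((S.filter (fun l => a l = a l0)).card : K) * a l0 +
        ((S.filter (fun l => ¬ a l = a l0)).card : K) * (-a l0) = 0 := by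
      rw [← hsum3, ← sum_filter_add_sum_filter_not S (fun l => a l = a l0) a,
        sum_congr rfl fun l hl => (mem_filter.1 hl).2,
        sum_congr (s₁ := S.filter fun l => ¬ a l = a l0) rfl fun l hl =>
          hpm l (mem_filter.1 hl).1 (mem_filter.1 hl).2,
        sum_const, sum_const, nsmul_eq_mul, nsmul_eq_mul]
    have h6 : (S.filter (fun l => a l = a l0)).card = (S.filter (fun l => ¬ a l = a l0)).card := by
      have h7 : (((S.filter (fun l => a l = a l0)).card : K) -
        ((S.filter (fun l => ¬ a l = a l0)).card : K)) * a l0 = 0 := by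
        linear_combination h5
      have h8 := (mul_eq_zero.1 h7).resolve_right ha00
      have h9 : ((S.filter (fun l => a l = a l0)).card : K) =
        ((S.filter (fun l => ¬ a l = a l0)).card : K) := by linear_combination h8
      exact_mod_cast h9
    have h7 := card_filter_add_card_filter_not (s := S) (fun l => a l = a l0)
    refine ⟨(S.filter (fun l => a l = a l0)).card, ?_⟩
    rw [hcard, ← h7, ← h6]
    ring

/-- The triple products of a maximal system are constants of every derivation. -/
theorem Sic.triple_const (hpos : SicAb.PosStar K) (hv : Sic v) {D : K → K} (hD : SDer D)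
    (h4 : ¬ 4 ∣ Fintype.card n * (Fintype.card n + 1)) (i j k : ι) :
    D (ip (v i) (v j) * ip (v j) (v k) * ip (v k) (v i)) = 0 := by
  obtain ⟨X, th, z, hC⟩ := exists_curve hpos (hv.sys hpos) hD
  exact hC.triple (fun k => hC.count hpos h4 k) i j k

end Pool.Agent.SicRg
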