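import Pool.Agent.Lib.MP_d0f9e0_co.Ab.Sys

/-!
# Rigidity of maximal equiangular systems: definitions

`K` is a field with a positive definite star operation, `v k` (`k : ι`) are vectors of `n → K`,
`dd = card n`.  A derivation `D` of `K` commuting with the star operation plays the role of the
derivative along a curve of maximal equiangular systems.
-/

set_option autoImplicit false

namespace Pool.Agent.SicRg

open Finset

variable {K : Type*} [Field K] [StarRing K] {n ι : Type} [Fintype n] [Fintype ι]

/-- The Hermitian product. -/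
def ip (x y : n → K) : K := ∑ j, star (x j) * y j

theorem ip_def (x y : n → K) : ip x y = ∑ j, star (x j) * y j := rfl

theorem ip_add (x y z : n → K) : ip x (y + z) = ip x y + ip x z := by
  simp only [ip_def, Pi.add_apply, mul_add, sum_add_distrib]

theorem ip_add_left (x y z : n → K) : ip (x + y) z = ip x z + ip y z := by
  simp only [ip_def, Pi.add_apply, star_add, add_mul, sum_add_distrib]

theorem ip_smul (c : K) (x y : n → K) : ip x (c • y) = c * ip x y := by
  simp only [ip_def, Pi.smul_apply, smul_eq_mul, mul_sum]
  exact sum_congr rfl fun j _ => by ring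

theorem ip_smul_left (c : K) (x y : n → K) : ip (c • x) y = star c * ip x y := by
  simp only [ip_def, Pi.smul_apply, smul_eq_mul, mul_sum, star_mul']
  exact sum_congr rfl fun j _ => by ring

theorem ip_sub (x y z : n → K) : ip x (y - z) = ip x y - ip x z := by
  simp only [ip_def, Pi.sub_apply, mul_sub, sum_sub_distrib]

theorem ip_sub_left (x y z : n → K) : ip (x - y) z = ip x z - ip y z := by
  simp only [ip_def, Pi.sub_apply, star_sub, sub_mul, sum_sub_distrib]

theorem ip_neg (x y : n → K) : ip x (-y) = -ip x y := by
  simp only [ip_def, Pi.neg_apply, mul_neg, sum_neg_distrib]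

theorem ip_neg_left (x y : n → K) : ip (-x) y = -ip x y := by
  simp only [ip_def, Pi.neg_apply, star_neg, neg_mul, sum_neg_distrib]

@[simp] theorem ip_zero (x : n → K) : ip x 0 = 0 := by simp [ip_def]

@[simp] theorem ip_zero_left (x : n → K) : ip 0 x = 0 := by simp [ip_def]

theorem ip_sum {α : Type*} (s : Finset α) (x : n → K) (f : α → n → K) :
    ip x (∑ i ∈ s, f i) = ∑ i ∈ s, ip x (f i) := by
  simp only [ip_def, Finset.sum_apply, mul_sum]
  exact sum_comm

theorem ip_sum_left {α : Type*} (s : Finset α) (x : n → K) (f : α → n → K) :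
    ip (∑ i ∈ s, f i) x = ∑ i ∈ s, ip (f i) x := by
  simp only [ip_def, Finset.sum_apply, star_sum, sum_mul]
  exact sum_comm

theorem star_ip (x y : n → K) : star (ip x y) = ip y x := by
  simp only [ip_def, star_sum, star_mul', star_star]
  exact sum_congr rfl fun j _ => mul_comm _ _

/-- nondegeneracy, with the standard basis -/
theorem ip_ext [DecidableEq n] {x y : n → K} (h : ∀ z, ip z x = ip z y) : x = y := by
  funext j
  have h1 := h (Pi.single j 1)
  have h2 : ∀ x : n → K, ip (Pi.single j 1) x = x j := by
    intro x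
    rw [ip_def, sum_eq_single j]
    · simp
    · intro b _ hb
      simp [Pi.single_eq_of_ne hb]
    · intro h; exact absurd (mem_univ j) h
  rwa [h2, h2] at h1

/-- positive definiteness -/
theorem ip_self (hpos : SicAb.PosStar K) {x : n → K} (h : ip x x = 0) : x = 0 := by
  funext j
  exact hpos n univ x h j (mem_univ j)

/-- The dimension as an element of `K`. -/
abbrev dd (n K : Type*) [Fintype n] [NatCast K] : K := (Fintype.card n : K)

section sys

variable (v z u w y : ι → n → K)

/-- A maximal equiangular system. -/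
structure Sic (v : ι → n → K) : Prop where
  unit : ∀ k, ip (v k) (v k) = 1
  ang : ∀ i k, i ≠ k → (dd n K + 1) * (ip (v i) (v k) * ip (v k) (v i)) = 1
  card : Fintype.card ι = Fintype.card n ^ 2

/-- A maximal equiangular system with its design identities. -/
structure Sys [DecidableEq ι] (v : ι → n → K) : Prop where
  unit : ∀ k, ip (v k) (v k) = 1
  ang : ∀ i k, (dd n K + 1) * (ip (v i) (v k) * ip (v k) (v i)) =
    1 + dd n K * (if i = k then 1 else 0)
  card : Fintype.card ι = Fintype.card n ^ 2
  T1 : ∀ x y, ∑ k, ip x (v k) * ip (v k) y = dd n K * ip x y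
  T2 : ∀ x x' y y', (dd n K + 1) * ∑ k, (ip x (v k) * ip x' (v k)) * (ip (v k) y * ip (v k) y') =
    dd n K * (ip x y * ip x' y' + ip x y' * ip x' y)

/-- The ratio `<v i, u k> / <v i, v k>`. -/
def rat (i k : ι) : K := (dd n K + 1) * (ip (v i) (u k) * ip (v k) (v i))

/-- The identity `B_u`. -/
def BB : Prop := ∀ x x' y y' : n → K,
  ∑ k, (ip x (v k) * ip x' (u k) + ip x (u k) * ip x' (v k)) * (ip (v k) y * ip (v k) y') = 0

/-- Normalised variations. -/
structure Hor : Prop where
  diag : ∀ k, ip (v k) (u k) = 0
  hor : ∀ x y : n → K, ∑ k, ip x (u k) * ip (v k) y = 0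

/-- Tangent vectors. -/
structure Tan : Prop extends Hor v u where
  anti : ∀ i k, rat v u k i = -rat v u i k
  bb : BB v u

/-- `<z i, z k> / <v i, v k>` (with the weight `d + 1` on the diagonal) -/
def mm (i k : ι) : K := (dd n K + 1) * (ip (z i) (z k) * ip (v k) (v i))

/-- The operator `∑ u j (z j)^*` applied to `y`. -/
def opr (i : ι) : n → K := ∑ j, ip (z j) (y i) • u j

theorem ip_opr (x : n → K) (i : ι) :
    ip x (opr z u y i) = ∑ j, ip x (u j) * ip (z j) (y i) := by
  rw [opr, ip_sum]
  exact sum_congr rfl fun j _ => by rw [ip_smul, mul_comm]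

theorem opr_ip (x : n → K) (i : ι) :
    ip (opr z u y i) x = ∑ j, ip (y i) (z j) * ip (u j) x := by
  rw [opr, ip_sum_left]
  exact sum_congr rfl fun j _ => by rw [ip_smul_left, star_ip]

end sys

theorem dd_succ_ne [CharZero K] : dd n K + 1 ≠ 0 := by
  unfold dd
  exact_mod_cast Nat.succ_ne_zero (Fintype.card n)

theorem Sys.dd_ne [CharZero K] [DecidableEq ι] {v : ι → n → K} (hv : Sys v) (i : ι) :
    dd n K ≠ 0 := by
  unfold dd
  have h1 : 0 < Fintype.card ι := Fintype.card_pos_iff.mpr ⟨i⟩
  rw [hv.card] at h1
  have h2 : Fintype.card n ≠ 0 := by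
    intro h
    rw [h] at h1
    simp at h1
  exact_mod_cast h2

section sys2

variable (v z w : ι → n → K)

/-- `<v i, S v k> / <v i, v k>`, `S = ∑ z j (z j)^*` (weight `d + 1` on the diagonal) -/
def et (i k : ι) : K := (dd n K + 1) * (ip (v i) (opr z z v k) * ip (v k) (v i))

/-- `|a|^2 - a^2` -/
def xx (i k : ι) : K := rat v z i k * star (rat v z i k) - rat v z i k ^ 2

/-- Second order data: `w` is the covariant derivative of `z`, `ad` that of the ratios. -/
structure Sec (ad : ι → ι → K) : Prop where
  diag : ∀ k, ip (v k) (w k) = -ip (z k) (z k)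
  hor : ∀ x y : n → K, ∑ k, ip x (w k) * ip (v k) y = -∑ k, ip x (z k) * ip (z k) y
  rat : ∀ i k, rat v w i k = ad i k - mm v z i k + rat v z i k ^ 2 -
    rat v z i k * star (rat v z i k)
  anti : ∀ i k, ad k i = -ad i k

end sys2

section der

/-- A derivation commuting with the star operation. -/
structure SDer (D : K → K) : Prop where
  add : ∀ a b, D (a + b) = D a + D b
  mul : ∀ a b, D (a * b) = D a * b + a * D b
  star : ∀ a, D (star a) = star (D a)

variable {D : K → K}

theorem SDer.zero (h : SDer D) : D 0 = 0 := by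
  have := h.add 0 0
  rw [add_zero] at this
  linear_combination -this

theorem SDer.neg (h : SDer D) (a : K) : D (-a) = -D a := by
  have := h.add a (-a)
  rw [add_neg_cancel, h.zero] at this
  linear_combination -this

theorem SDer.sub (h : SDer D) (a b : K) : D (a - b) = D a - D b := by
  rw [sub_eq_add_neg, h.add, h.neg, sub_eq_add_neg]

theorem SDer.sum (h : SDer D) {α : Type*} (s : Finset α) (f : α → K) :
    D (∑ i ∈ s, f i) = ∑ i ∈ s, D (f i) := by
  classical
  induction s using Finset.induction_on with
  | empty => simpa using h.zero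
  | insert a s ha ih => rw [sum_insert ha, sum_insert ha, h.add, ih]

theorem SDer.one (h : SDer D) : D 1 = 0 := by
  have := h.mul 1 1
  rw [mul_one, one_mul] at this
  simp only [mul_one] at this
  linear_combination -this

theorem SDer.natCast (h : SDer D) (m : ℕ) : D (m : K) = 0 := by
  induction m with
  | zero => simpa using h.zero
  | succ m ih => rw [Nat.cast_succ, h.add, ih, h.one, add_zero]

/-- The covariant derivative. -/
def nab (D : K → K) (X : n → n → K) (th : ι → K) (y : ι → n → K) : ι → n → K :=
  fun k p => D (y k p) - ∑ q, X p q * y k q - th k * y k p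

/-- The gauge data: `X` is skew Hermitian, `th k` is imaginary. -/
structure Skew (X : n → n → K) (th : ι → K) : Prop where
  X : ∀ p q, star (X p q) = -X q p
  th : ∀ k, star (th k) = -th k

omit [Fintype ι] in
/-- The product rule. -/
theorem D_ip (hD : SDer D) {X : n → n → K} {th : ι → K} (hX : Skew X th)
    (x y : ι → n → K) (i k : ι) :
    D (ip (x i) (y k)) = ip (nab D X th x i) (y k) + ip (x i) (nab D X th y k) +
      (th k - th i) * ip (x i) (y k) := by
  have h1 : D (ip (x i) (y k)) = ∑ p, (star (D (x i p)) * y k p + star (x i p) * D (y k p)) := by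
    rw [ip_def, hD.sum]
    exact sum_congr rfl fun p _ => by rw [hD.mul, hD.star]
  have h2 : ip (nab D X th x i) (y k) = ∑ p, star (D (x i p)) * y k p +
      ∑ p, ∑ q, X q p * star (x i q) * y k p + th i * ip (x i) (y k) := by
    rw [ip_def, ip_def, mul_sum, ← sum_add_distrib, ← sum_add_distrib]
    refine sum_congr rfl fun p _ => ?_
    simp only [nab, star_sub, star_sum, star_mul', hX.X, hX.th, sub_mul, sum_mul]
    have h3 : ∑ q, -X q p * star (x i q) * y k p = - ∑ q, X q p * star (x i q) * y k p := by
      rw [← sum_neg_distrib]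
      exact sum_congr rfl fun q _ => by ring
    rw [h3]
    ring
  have h4 : ip (x i) (nab D X th y k) = ∑ p, star (x i p) * D (y k p) -
      ∑ p, ∑ q, X p q * star (x i p) * y k q - th k * ip (x i) (y k) := by
    rw [ip_def, ip_def, mul_sum, ← sum_sub_distrib, ← sum_sub_distrib]
    refine sum_congr rfl fun p _ => ?_
    simp only [nab, mul_sub, mul_sum]
    have h3 : ∑ q, star (x i p) * (X p q * y k q) = ∑ q, X p q * star (x i p) * y k q :=
      sum_congr rfl fun q _ => by ring
    rw [h3]
    ring
  have h5 : ∑ p, ∑ q, X q p * star (x i q) * y k p = ∑ p, ∑ q, X p q * star (x i p) * y k q :=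
    sum_comm
  rw [h1, h2, h4, h5, sum_add_distrib]
  ring

variable {X : n → n → K} {th : ι → K}

omit [Fintype ι] in
theorem nab_add (hD : SDer D) (x y : ι → n → K) :
    nab D X th (fun k => x k + y k) = fun k => nab D X th x k + nab D X th y k := by
  funext k p
  simp only [nab, Pi.add_apply, hD.add, mul_add, sum_add_distrib]
  ring

omit [Fintype ι] in
theorem nab_smul (hD : SDer D) (c : K) (x : ι → n → K) :
    nab D X th (fun k => c • x k) = fun k => D c • x k + c • nab D X th x k := by
  funext k p
  simp only [nab, Pi.smul_apply, Pi.add_apply, smul_eq_mul, hD.mul]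
  have h : ∑ q, X p q * (c * x k q) = c * ∑ q, X p q * x k q := by
    rw [mul_sum]
    exact sum_congr rfl fun q _ => by ring
  rw [h]
  ring

theorem nab_opr (hD : SDer D) (hX : Skew X th) (z u y : ι → n → K) (i : ι) :
    nab D X th (opr z u y) i = opr (nab D X th z) u y i + opr z (nab D X th u) y i +
      opr z u (nab D X th y) i := by
  funext p
  have h1 : D (opr z u y i p) = ∑ j, (D (ip (z j) (y i)) * u j p + ip (z j) (y i) * D (u j p)) := by
    simp only [opr, Finset.sum_apply, Pi.smul_apply, smul_eq_mul]
    rw [hD.sum]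
    exact sum_congr rfl fun j _ => hD.mul _ _
  have h2 : ∑ q, X p q * opr z u y i q = ∑ j, ip (z j) (y i) * ∑ q, X p q * u j q := by
    simp only [opr, Finset.sum_apply, Pi.smul_apply, smul_eq_mul, mul_sum]
    rw [sum_comm]
    exact sum_congr rfl fun j _ => sum_congr rfl fun q _ => by ring
  have h3 : nab D X th (opr z u y) i p = D (opr z u y i p) - ∑ q, X p q * opr z u y i q -
      th i * opr z u y i p := rfl
  rw [h3, h1, h2]
  simp only [opr, Finset.sum_apply, Pi.smul_apply, Pi.add_apply, smul_eq_mul, mul_sum,
    ← sum_add_distrib, ← sum_sub_distrib]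
  refine sum_congr rfl fun j _ => ?_
  rw [D_ip hD hX z y j i]
  simp only [nab]
  rw [mul_sub, mul_sub, mul_sum]
  ring

/-- A curve of maximal equiangular systems: `z` is the covariant derivative of `v`. -/
structure Curve [DecidableEq ι] (D : K → K) (X : n → n → K) (th : ι → K) (v z : ι → n → K) :
    Prop where
  der : SDer D
  skew : Skew X th
  sys : Sys v
  dv : nab D X th v = z
  tan : Tan v z

end der

end Pool.Agent.SicRg
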