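import Pool.Agent.Lib.MP_d0f9e0_co.Rg.Final

/-!
# The moduli space of maximal ETFs is at most one-dimensional

For every `d`, any two triple products satisfy a polynomial relation with rational coefficients,
valid for all maximal ETFs of `ℂ^d`.
-/

set_option autoImplicit false
set_option linter.unusedSectionVars false

namespace Pool.Agent.SicRg

open Finset

section lin

variable {K : Type*} [Field K] [StarRing K] {n ι : Type} [Fintype n] [Fintype ι]
variable {v z1 z2 : ι → n → K}

theorem rat_comb (s t : K) (i k : ι) :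
    rat v (fun k => s • z1 k + t • z2 k) i k = s * rat v z1 i k + t * rat v z2 i k := by
  unfold rat
  rw [ip_add, ip_smul, ip_smul]
  ring

theorem Tan.comb (h1 : Tan v z1) (h2 : Tan v z2) (s t : K) :
    Tan v (fun k => s • z1 k + t • z2 k) where
  diag k := by rw [ip_add, ip_smul, ip_smul, h1.diag, h2.diag, mul_zero, mul_zero, add_zero]
  hor x y := by
    have e : ∀ k, ip x (s • z1 k + t • z2 k) * ip (v k) y =
        s * (ip x (z1 k) * ip (v k) y) + t * (ip x (z2 k) * ip (v k) y) := by
      intro k
      rw [ip_add, ip_smul, ip_smul]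
      ring
    rw [sum_congr rfl fun k _ => e k, sum_add_distrib, ← mul_sum, ← mul_sum, h1.hor, h2.hor,
      mul_zero, mul_zero, add_zero]
  anti i k := by
    rw [rat_comb, rat_comb, h1.anti, h2.anti]
    ring
  bb x x' y y' := by
    have e : ∀ k, (ip x (v k) * ip x' (s • z1 k + t • z2 k) +
        ip x (s • z1 k + t • z2 k) * ip x' (v k)) * (ip (v k) y * ip (v k) y') =
        s * ((ip x (v k) * ip x' (z1 k) + ip x (z1 k) * ip x' (v k)) *
          (ip (v k) y * ip (v k) y')) +
        t * ((ip x (v k) * ip x' (z2 k) + ip x (z2 k) * ip x' (v k)) *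
          (ip (v k) y * ip (v k) y')) := by
      intro k
      rw [ip_add, ip_smul, ip_smul, ip_add, ip_smul, ip_smul]
      ring
    rw [sum_congr rfl fun k _ => e k, sum_add_distrib, ← mul_sum, ← mul_sum, h1.bb, h2.bb,
      mul_zero, mul_zero, add_zero]

variable [DecidableEq ι] {D1 D2 : K → K} {X1 X2 : n → n → K} {th1 th2 : ι → K}

/-- Combinations of curves with self-adjoint coefficients. -/
theorem Curve.comb (h1 : Curve D1 X1 th1 v z1) (h2 : Curve D2 X2 th2 v z2) {s t : K}
    (hs : star s = s) (ht : star t = t) :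
    Curve (fun a => s * D1 a + t * D2 a) (fun p q => s * X1 p q + t * X2 p q)
      (fun k => s * th1 k + t * th2 k) v (fun k => s • z1 k + t • z2 k) where
  der :=
    { add := fun a b => by
        rw [h1.der.add, h2.der.add]
        ring
      mul := fun a b => by
        rw [h1.der.mul, h2.der.mul]
        ring
      star := fun a => by
        rw [h1.der.star, h2.der.star, star_add, star_mul', star_mul', hs, ht] }
  skew :=
    { X := fun p q => by
        rw [star_add, star_mul', star_mul', hs, ht, h1.skew.X, h2.skew.X]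
        ring
      th := fun k => by
        rw [star_add, star_mul', star_mul', hs, ht, h1.skew.th, h2.skew.th]
        ring }
  sys := h1.sys
  dv := by
    funext k p
    have e1 := congrFun (congrFun h1.dv k) p
    have e2 := congrFun (congrFun h2.dv k) p
    unfold nab at e1 e2
    have e3 : ∑ q, (s * X1 p q + t * X2 p q) * v k q =
        s * ∑ q, X1 p q * v k q + t * ∑ q, X2 p q * v k q := by
      rw [mul_sum, mul_sum, ← sum_add_distrib]
      exact sum_congr rfl fun q _ => by ring
    unfold nab
    rw [e3]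
    simp only [Pi.add_apply, Pi.smul_apply, smul_eq_mul]
    linear_combination s * e1 + t * e2
  tan := h1.tan.comb h2.tan s t

end lin

section dim

variable {K : Type*} [Field K] [StarRing K] {n ι : Type} [Fintype n] [Fintype ι]
variable [CharZero K] [DecidableEq n] [DecidableEq ι] {v z z1 z2 : ι → n → K}

/-- The imaginary parts `b` of the ratios satisfy `b (b ^ 2 + 4 ρ) = 0`. -/
theorem Curve.cubic (hpos : SicAb.PosStar K) {D : K → K} {X : n → n → K} {th : ι → K}
    (hC : Curve D X th v z) (i k : ι) :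
    (rat v z i k - star (rat v z i k)) *
      ((rat v z i k - star (rat v z i k)) ^ 2 + 4 * ip (z i) (z i)) = 0 := by
  have h0 := hC.h_zero hpos i k
  unfold xx at h0
  rcases hC.four_alt hpos i k with h | h
  · rw [h]
    ring
  · rw [h] at h0 ⊢
    linear_combination 2 * h0

theorem Curve.exists_ne (hpos : SicAb.PosStar K) {D : K → K} {X : n → n → K} {th : ι → K}
    (hC : Curve D X th v z) (i : ι) (hzi : z i ≠ 0) :
    ∃ k, rat v z i k - star (rat v z i k) ≠ 0 := by
  by_contra hcon
  push Not at hcon
  have hr0 : ip (z i) (z i) ≠ 0 := fun h => hzi (ip_self hpos h)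
  have hs1 := sum_s hC.sys hC.tan i
  have hs2 := sum_a2 hC.sys hC.tan i
  have h1 : ∑ k, rat v z i k * star (rat v z i k) = ∑ k, rat v z i k ^ 2 :=
    sum_congr rfl fun k _ => by
      rw [← sub_eq_zero.1 (hcon k)]
      ring
  rw [h1, hs2] at hs1
  have h2 := hC.sys.dd_ne i
  have h3 : dd n K + 1 ≠ 0 := dd_succ_ne
  exact mul_ne_zero (mul_ne_zero h2 h3) hr0 hs1.symm

/-- Two tangent directions are proportional. -/
theorem Curve.dim (hpos : SicAb.PosStar K) {D1 D2 : K → K} {X1 X2 : n → n → K} {th1 th2 : ι → K}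
    (h1 : Curve D1 X1 th1 v z1) (h2 : Curve D2 X2 th2 v z2) :
    ∃ s t : K, star s = s ∧ star t = t ∧ (s ≠ 0 ∨ t ≠ 0) ∧ ∀ k, s • z1 k + t • z2 k = 0 := by
  by_cases hz : ∀ k, z1 k = 0
  · refine ⟨1, 0, star_one K, star_zero K, Or.inl one_ne_zero, fun k => ?_⟩
    rw [hz k, smul_zero, zero_smul, add_zero]
  push Not at hz
  obtain ⟨i, hi⟩ := hz
  obtain ⟨k, hk⟩ := h1.exists_ne hpos i hi
  obtain ⟨b1, hb1⟩ : ∃ b, rat v z1 i k - star (rat v z1 i k) = b := ⟨_, rfl⟩
  obtain ⟨b2, hb2⟩ : ∃ b, rat v z2 i k - star (rat v z2 i k) = b := ⟨_, rfl⟩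
  have hsb1 : star b1 = -b1 := by
    rw [← hb1, star_sub, star_star]
    ring
  have hsb2 : star b2 = -b2 := by
    rw [← hb2, star_sub, star_star]
    ring
  rw [hb1] at hk
  have hs : star (b1 * b2) = b1 * b2 := by
    rw [star_mul', hsb1, hsb2]
    ring
  have ht : star (-(b1 * b1)) = -(b1 * b1) := by
    rw [star_neg, star_mul', hsb1]
    ring
  refine ⟨b1 * b2, -(b1 * b1), hs, ht, Or.inr (neg_ne_zero.2 (mul_ne_zero hk hk)), ?_⟩
  have hm : ∀ m : ℕ, star (b1 * b2 + (m : K)) = b1 * b2 + (m : K) := by
    intro m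
    rw [star_add, hs, star_natCast]
  -- the imaginary parts
  have hb : ∀ m : ℕ, rat v (fun k => (b1 * b2 + (m : K)) • z1 k + (-(b1 * b1)) • z2 k) i k -
      star (rat v (fun k => (b1 * b2 + (m : K)) • z1 k + (-(b1 * b1)) • z2 k) i k) =
      (m : K) * b1 := by
    intro m
    rw [rat_comb, star_add, star_mul', star_mul', hm, ht]
    linear_combination (b1 * b2 + (m : K)) * hb1 - (b1 * b1) * hb2
  -- the lengths
  obtain ⟨y, hy⟩ : ∃ y, (b1 * b2) • z1 i + (-(b1 * b1)) • z2 i = y := ⟨_, rfl⟩
  obtain ⟨r, hr⟩ : ∃ r, ip y y = r := ⟨_, rfl⟩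
  obtain ⟨r1, hr1⟩ : ∃ r, ip (z1 i) (z1 i) = r := ⟨_, rfl⟩
  obtain ⟨be, hbe⟩ : ∃ r, ip y (z1 i) + ip (z1 i) y = r := ⟨_, rfl⟩
  have hlen : ∀ m : ℕ, ip ((b1 * b2 + (m : K)) • z1 i + (-(b1 * b1)) • z2 i)
      ((b1 * b2 + (m : K)) • z1 i + (-(b1 * b1)) • z2 i) =
      r + (m : K) * be + (m : K) ^ 2 * r1 := by
    intro m
    have e1 : (b1 * b2 + (m : K)) • z1 i + (-(b1 * b1)) • z2 i = y + (m : K) • z1 i := by
      rw [add_smul, ← hy]
      abel
    rw [e1, ip_add, ip_add_left, ip_add_left, ip_smul, ip_smul, ip_smul_left, ip_smul_left,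
      star_natCast, hr, hr1, ← hbe]
    ring
  have c1 := h1.cubic hpos i k
  rw [hb1, hr1] at c1
  have c1' := (mul_eq_zero.1 c1).resolve_left hk
  have cm : ∀ m : ℕ, m ≠ 0 → r + (m : K) * be = 0 := by
    intro m hm0
    have c2 := (h1.comb h2 (hm m) ht).cubic hpos i k
    rw [hb m] at c2
    have c3 := (mul_eq_zero.1 c2).resolve_left (mul_ne_zero (Nat.cast_ne_zero.2 hm0) hk)
    rw [hlen m] at c3
    have c4 : (4 : K) * (r + (m : K) * be) = 0 := by
      linear_combination c3 - (m : K) ^ 2 * c1'
    exact (mul_eq_zero.1 c4).resolve_left (by norm_num)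
  have d1 := cm 1 one_ne_zero
  have d2 := cm 2 two_ne_zero
  push_cast at d1 d2
  have hr0 : r = 0 := by linear_combination 2 * d1 - d2
  have hC := h1.comb h2 hs ht
  intro l
  apply ip_self hpos
  have e1 := hC.rho_eq hpos l i
  rw [e1, hy, hr]
  exact hr0

/-- The derivatives of two triple products along two star derivations are proportional. -/
theorem Sic.det_zero (hpos : SicAb.PosStar K) (hv : Sic v) {D1 D2 : K → K} (hD1 : SDer D1)
    (hD2 : SDer D2) (i j k i' j' k' : ι) :
    D1 (ip (v i) (v j) * ip (v j) (v k) * ip (v k) (v i)) *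
      D2 (ip (v i') (v j') * ip (v j') (v k') * ip (v k') (v i')) =
    D1 (ip (v i') (v j') * ip (v j') (v k') * ip (v k') (v i')) *
      D2 (ip (v i) (v j) * ip (v j) (v k) * ip (v k) (v i)) := by
  obtain ⟨X1, th1, z1, h1⟩ := exists_curve hpos (hv.sys hpos) hD1
  obtain ⟨X2, th2, z2, h2⟩ := exists_curve hpos (hv.sys hpos) hD2
  obtain ⟨s, t, hs, ht, hst, hz⟩ := h1.dim hpos h2
  have hC := h1.comb h2 hs ht
  have e1 := hC.triple hz i j k
  have e2 := hC.triple hz i' j' k'
  rcases hst with h | h
  · apply mul_left_cancel₀ h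
    linear_combination D2 (ip (v i') (v j') * ip (v j') (v k') * ip (v k') (v i')) * e1 -
      D2 (ip (v i) (v j) * ip (v j) (v k) * ip (v k) (v i)) * e2
  · apply mul_left_cancel₀ h
    linear_combination D1 (ip (v i) (v j) * ip (v j) (v k) * ip (v k) (v i)) * e2 -
      D1 (ip (v i') (v j') * ip (v j') (v k') * ip (v k') (v i')) * e1

end dim

section tr

open Polynomial Pool.Agent.SicAb Pool.Agent.SicFin
open scoped IntermediateField.algebraAdjoinAdjoin

/-- Variant of exists_closed_subfield: the other elements of a given algebraically independent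
set are constants. -/
theorem exists_closed_subfield_of {K : Type*} [Field K] [CharZero K] [IsAlgClosed K] {T : Set K}
    {t : K} (htT : t ∈ T) (hind : AlgebraicIndepOn ℚ id T) :
    ∃ k0 : Subfield K, (∀ z ∈ T, z ≠ t → z ∈ k0) ∧ Transcendental k0 t ∧
      ∀ z : K, IsAlgebraic (IntermediateField.adjoin k0 ({t} : Set K)) z := by
  classical
  obtain ⟨s, hts, hs⟩ := exists_isTranscendenceBasis_superset hind
  have ht : t ∈ s := hts htT
  set J : Set K := s \ {t} with hJ
  set E := IntermediateField.adjoin ℚ J with hE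
  set k1 : IntermediateField E K := algebraicClosure E K with hk1
  set k0 : Subfield K := k1.toSubfield with hk0
  have hmem : ∀ z : K, z ∈ k0 ↔ IsAlgebraic E z := by
    intro z
    change z ∈ k1 ↔ _
    rw [hk1, mem_algebraicClosure_iff]
  refine ⟨k0, ?_, ?_, ?_⟩
  · intro z hz hzt
    have h6 : z ∈ E := IntermediateField.subset_adjoin ℚ J ⟨hts hz, hzt⟩
    exact (hmem _).mpr (isAlgebraic_algebraMap (⟨z, h6⟩ : E))
  · intro halg
    have h1 : IsAlgebraic k1 t := halg
    have h2 : IsAlgebraic E t := h1.restrictScalars E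
    have h3 : IsAlgebraic (Algebra.adjoin ℚ J) t :=
      IntermediateField.isAlgebraic_adjoin_iff.mp h2
    have h4 := hs.1.transcendental_adjoin (s := {i : s | (i : K) ≠ t}) (i := ⟨t, ht⟩)
      (fun h => h rfl)
    have h5 : (fun i : s => (i : K)) '' {i : s | (i : K) ≠ t} = J := by
      ext z
      constructor
      · rintro ⟨i, hi, rfl⟩
        exact ⟨i.2, hi⟩
      · rintro ⟨hz, hz2⟩
        exact ⟨⟨z, hz⟩, hz2, rfl⟩
    have h6 : Transcendental (Algebra.adjoin ℚ J) t := by
      rw [← h5]
      exact h4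
    exact h6 h3
  · intro z
    have halg := hs.isAlgebraic_field
    have h1 : IsAlgebraic (IntermediateField.adjoin ℚ (Set.range (fun i : s => (i : K)))) z :=
      halg.isAlgebraic z
    have h2 : IsAlgebraic (IntermediateField.adjoin ℚ
        (Set.range (fun i : s => (i : K)))).toSubfield z := h1
    have hgen : ∀ i : s, (i : K) ∈ (IntermediateField.adjoin k0 ({t} : Set K)).toSubfield := by
      intro i
      by_cases hi : (i : K) = t
      · have h7 : t ∈ IntermediateField.adjoin k0 ({t} : Set K) :=
          IntermediateField.subset_adjoin k0 ({t} : Set K) (Set.mem_singleton t)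
        rw [hi]
        exact h7
      · have h6 : (i : K) ∈ E := IntermediateField.subset_adjoin ℚ J ⟨i.2, hi⟩
        have h5 : (i : K) ∈ k0 := (hmem _).mpr (isAlgebraic_algebraMap (⟨i, h6⟩ : E))
        exact (IntermediateField.adjoin k0 ({t} : Set K)).algebraMap_mem ⟨i, h5⟩
    have h3 : (IntermediateField.adjoin ℚ (Set.range (fun i : s => (i : K)))).toSubfield ≤
        (IntermediateField.adjoin k0 ({t} : Set K)).toSubfield := by
      intro w hw
      have hw' : w ∈ IntermediateField.adjoin ℚ (Set.range (fun i : s => (i : K))) := hw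
      induction hw' using IntermediateField.adjoin_induction with
      | mem x hx =>
        obtain ⟨i, rfl⟩ := hx
        exact hgen i
      | algebraMap x =>
        rw [eq_ratCast]
        exact SubfieldClass.ratCast_mem _ x
      | add x y hx hy ihx ihy => exact add_mem (ihx hx) (ihy hy)
      | inv x hx ihx => exact inv_mem (ihx hx)
      | mul x y hx hy ihx ihy => exact mul_mem (ihx hx) (ihy hy)
    exact isAlgebraic_mono h3 h2

/-- The derivative with respect to one element of an algebraically independent set. -/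
theorem exists_derivation_of {K : Type*} [Field K] [CharZero K] [IsAlgClosed K] {T : Set K}
    {t : K} (htT : t ∈ T) (hind : AlgebraicIndepOn ℚ id T) :
    ∃ D : Derivation ℚ K K, D t = 1 ∧ ∀ z ∈ T, z ≠ t → D z = 0 := by
  obtain ⟨k0, hk0, hk0t, halg⟩ := exists_closed_subfield_of htT hind
  let A := Algebra.adjoin k0 ({t} : Set K)
  let F := IntermediateField.adjoin k0 ({t} : Set K)
  have hcF : CharZero F := (algebraMap F K).charZero
  have hFK : Algebra.IsAlgebraic F K := ⟨halg⟩
  have hsep : Algebra.IsSeparable F K := inferInstance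
  have e1 : Algebra.FormallyEtale A F :=
    Algebra.FormallyEtale.of_isLocalization (nonZeroDivisors A)
  have e2 : Algebra.FormallyEtale F K := Algebra.FormallyEtale.of_isSeparable F K
  have e3 : Algebra.FormallyEtale A K := Algebra.FormallyEtale.comp A F K
  obtain ⟨d, hd⟩ := SicCi.exists_poly_derivation hk0t
  obtain ⟨D, hD⟩ := SicCi.extend_derivation (R := k0) (A := A) (K := K) d
  refine ⟨D.restrictScalars ℚ, ?_, ?_⟩
  · have h1 := hD (gen (k := k0) t)
    rw [hd] at h1
    exact h1
  · intro z hz hzt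
    have h1 := D.map_algebraMap (⟨z, hk0 z hz hzt⟩ : k0)
    exact h1

theorem sder_re {K : Type*} [Field K] [CharZero K] [StarRing K] (D : Derivation ℚ K K) :
    SDer (fun a => D a + star (D (star a))) where
  add a b := by
    rw [map_add, star_add, map_add, star_add]
    ring
  mul a b := by
    rw [star_mul', Derivation.leibniz, Derivation.leibniz]
    simp only [smul_eq_mul, star_add, star_mul', star_star]
    ring
  star a := by
    rw [star_star, star_add, star_star]
    ring

theorem sder_im {K : Type*} [Field K] [CharZero K] [StarRing K] (D : Derivation ℚ K K) {I : K}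
    (hI : star I = -I) : SDer (fun a => I * (D a - star (D (star a)))) where
  add a b := by
    rw [map_add, star_add, map_add, star_add]
    ring
  mul a b := by
    rw [star_mul', Derivation.leibniz, Derivation.leibniz]
    simp only [smul_eq_mul, star_add, star_mul', star_star]
    ring
  star a := by
    rw [star_star, star_mul', star_sub, star_star, hI]
    ring

variable {d : ℕ}

/-- The derivatives of two triple products along two derivations are proportional. -/
theorem det_zero {K : Type} [Field K] [CharZero K] [IsAlgClosed K] [StarRing K]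
    (hpos : PosStar K) {v : Fin (d ^ 2) → Fin d → K} (hv : Sic v) (D E : Derivation ℚ K K)
    (i j k i' j' k' : Fin (d ^ 2)) :
    D (tk v i j k) * E (tk v i' j' k') = D (tk v i' j' k') * E (tk v i j k) := by
  obtain ⟨I, hI, hsI⟩ := exists_I' hpos
  have h11 := hv.det_zero hpos (sder_re D) (sder_re E) i j k i' j' k'
  have h12 := hv.det_zero hpos (sder_re D) (sder_im E hsI) i j k i' j' k'
  have h21 := hv.det_zero hpos (sder_im D hsI) (sder_re E) i j k i' j' k'
  have h22 := hv.det_zero hpos (sder_im D hsI) (sder_im E hsI) i j k i' j' k'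
  have e1 : ip (v i) (v j) * ip (v j) (v k) * ip (v k) (v i) = tk v i j k := rfl
  have e2 : ip (v i') (v j') * ip (v j') (v k') * ip (v k') (v i') = tk v i' j' k' := rfl
  rw [e1, e2] at h11 h12 h21 h22
  have h4 : (4 : K) * (D (tk v i j k) * E (tk v i' j' k')) =
      4 * (D (tk v i' j' k') * E (tk v i j k)) := by
    generalize tk v i j k = T at *
    generalize tk v i' j' k' = T' at *
    generalize star (D (star T)) = a1 at *
    generalize star (D (star T')) = a2 at *
    generalize star (E (star T)) = a3 at *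
    generalize star (E (star T')) = a4 at *
    linear_combination h11 - I * h12 - I * h21 + (I * I) * h22 +
      (((D T + a1) * (E T' - a4) - (D T' + a2) * (E T - a3))
        + ((D T - a1) * (E T' + a4) - (D T' - a2) * (E T + a3))
        - (I * I - 1) * ((D T - a1) * (E T' - a4) - (D T' - a2) * (E T - a3))) * hI
  exact mul_left_cancel₀ (by norm_num : (4 : K) ≠ 0) h4

/-- Two triple products are algebraically dependent. -/
theorem not_indep {K : Type} [Field K] [CharZero K] [IsAlgClosed K] [StarRing K]
    (hpos : PosStar K) {v : Fin (d ^ 2) → Fin d → K} (hv : Sic v)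
    (i j k i' j' k' : Fin (d ^ 2)) :
    ¬ AlgebraicIndependent ℚ ![tk v i j k, tk v i' j' k'] := by
  intro h
  have hind : AlgebraicIndepOn ℚ id (Set.range ![tk v i j k, tk v i' j' k']) := h.coe_range
  have hne : tk v i' j' k' ≠ tk v i j k := by
    intro h1
    have h2 := h.injective (a₁ := 1) (a₂ := 0) h1
    exact one_ne_zero h2
  have m0 : tk v i j k ∈ Set.range ![tk v i j k, tk v i' j' k'] := ⟨0, rfl⟩
  have m1 : tk v i' j' k' ∈ Set.range ![tk v i j k, tk v i' j' k'] := ⟨1, rfl⟩
  obtain ⟨D, hD1, hD2⟩ := exists_derivation_of m0 hind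
  obtain ⟨E, hE1, hE2⟩ := exists_derivation_of m1 hind
  have h1 := det_zero hpos hv D E i j k i' j' k'
  rw [hD1, hE1, hD2 _ m1 hne, zero_mul, mul_one] at h1
  exact one_ne_zero h1

theorem aeval_germ2 (z w : ℕ → ℂ) (g : MvPolynomial (Fin 2) ℚ) :
    MvPolynomial.aeval ![((z : ℕ → ℂ) : GermField), ((w : ℕ → ℂ) : GermField)] g =
      ((fun n => MvPolynomial.aeval ![z n, w n] g : ℕ → ℂ) : GermField) := by
  induction g using MvPolynomial.induction_on with
  | C a =>
    simp only [MvPolynomial.aeval_C]
    have h4 : algebraMap ℚ GermField a = constGerm (algebraMap ℚ ℂ a) := by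
      rw [eq_ratCast, eq_ratCast, map_ratCast]
    rw [h4]
    rfl
  | add p q hp hq =>
    rw [map_add, hp, hq]
    simp only [map_add]
    rfl
  | mul_X p i hp =>
    rw [map_mul, hp, MvPolynomial.aeval_X]
    simp only [map_mul, MvPolynomial.aeval_X]
    fin_cases i
    · rfl
    · rfl

open Cx in
/-- For every `d` the moduli space of maximal ETFs is at most one-dimensional: two triple
products satisfy a polynomial relation. -/
theorem exists_relation (d : ℕ) (i j k i' j' k' : Fin (d ^ 2)) :
    ∃ P : MvPolynomial (Fin 2) ℚ, P ≠ 0 ∧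
      ∀ x : Fin (d ^ 2) → Fin d → ℂ, Lib.MP_d0f9e0_co.IsMaximalETF d x →
        MvPolynomial.aeval ![tp x i j k, tp x i' j' k'] P = 0 := by
  classical
  by_contra hcon
  push Not at hcon
  -- an enumeration of the nonzero polynomials
  have hc0 : Countable (MvPolynomial (Fin 2) ℚ) := AddMonoidAlgebra.coeffEquiv.injective.countable
  have hc : Countable {P : MvPolynomial (Fin 2) ℚ // P ≠ 0} := inferInstance
  have hne : Nonempty {P : MvPolynomial (Fin 2) ℚ // P ≠ 0} := ⟨⟨1, one_ne_zero⟩⟩
  obtain ⟨e, he⟩ := exists_surjective_nat {P : MvPolynomial (Fin 2) ℚ // P ≠ 0}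
  have hQ : ∀ n : ℕ, (∏ m ∈ range (n + 1), (e m).1) ≠ 0 := fun n =>
    Finset.prod_ne_zero_iff.2 fun m _ => (e m).2
  choose x hx hxe using fun n => hcon _ (hQ n)
  have hxm : ∀ m n, m ≤ n →
      MvPolynomial.aeval ![tp (x n) i j k, tp (x n) i' j' k'] (e m).1 ≠ 0 := by
    intro m n hmn h0
    apply hxe n
    rw [map_prod]
    exact Finset.prod_eq_zero (mem_range.2 (Nat.lt_succ_of_le hmn)) h0
  have hip : ∀ i j, ip (fun r => ((fun n => x n i r : ℕ → ℂ) : GermField))
      (fun r => ((fun n => x n j r : ℕ → ℂ) : GermField)) =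
      ((fun n => ip (x n i) (x n j) : ℕ → ℂ) : GermField) := fun i j =>
    germ_ip (fun n => x n i) (fun n => x n j)
  have hsol : Sic (K := GermField) (fun i r => ((fun n => x n i r : ℕ → ℂ) : GermField)) := by
    refine ⟨fun k => ?_, fun i k hik => ?_, by simp⟩
    · rw [hip]
      have h2 : (fun n => ip (x n k) (x n k)) = fun _ => (1 : ℂ) := by
        funext n
        exact (sic_of_isMax (hx n)).unit k
      rw [h2]
      rfl
    · rw [hip, hip, dd_fin]
      have h2 : (fun n => ((d : ℂ) + 1) * (ip (x n i) (x n k) * ip (x n k) (x n i))) =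
          fun _ => (1 : ℂ) := by
        funext n
        have h3 := (sic_of_isMax (hx n)).ang i k hik
        rwa [dd_fin] at h3
      have h3 : ((fun n => ((d : ℂ) + 1) * (ip (x n i) (x n k) * ip (x n k) (x n i)) :
          ℕ → ℂ) : GermField) = ((fun _ => (1 : ℂ) : ℕ → ℂ) : GermField) := by rw [h2]
      exact h3
  have htk : ∀ i j k, tk (fun i r => ((fun n => x n i r : ℕ → ℂ) : GermField)) i k j =
      ((fun n => tp (x n) i j k : ℕ → ℂ) : GermField) := by
    intro i j k
    unfold tk
    rw [hip, hip, hip]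
    have h3 : (fun n => tp (x n) i j k) = fun n => ip (x n i) (x n k) * ip (x n k) (x n j) *
        ip (x n j) (x n i) := by
      funext n
      rw [← tk_eq_tp]
      rfl
    rw [h3]
    rfl
  apply not_indep posStar_germ hsol i k j i' k' j'
  rw [htk, htk, algebraicIndependent_iff]
  intro p hp
  by_contra hp0
  obtain ⟨m, hm⟩ := he ⟨p, hp0⟩
  have hm' : (e m).1 = p := by rw [hm]
  rw [aeval_germ2] at hp
  have h1 : ∀ᶠ n in (Filter.hyperfilter ℕ : Filter ℕ),
      MvPolynomial.aeval ![tp (x n) i j k, tp (x n) i' j' k'] p = 0 := Filter.Germ.coe_eq.mp hp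
  have h2 : {n : ℕ | MvPolynomial.aeval ![tp (x n) i j k, tp (x n) i' j' k'] p = 0}.Finite := by
    refine (Set.finite_lt_nat m).subset fun n hn => ?_
    by_contra hmn
    rw [Set.mem_ofPred_eq, not_lt] at hmn
    apply hxm m n hmn
    rw [hm']
    exact hn
  exact Filter.notMem_hyperfilter_of_finite h2 h1

end tr

end Pool.Agent.SicRg
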