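import Pool.Agent.Lib.MP_d0f9e0_co.Rg.Rig

set_option autoImplicit false

namespace Pool.Agent.SicRg

open Finset

variable {K : Type*} [Field K] [StarRing K] {n ι : Type} [Fintype n] [Fintype ι]

/-!
General ratios and their derivatives along a curve, translations, positivity for double sums.
-/

/-- `<x i, y k> / <v i, v k>` (weight `d + 1` on the diagonal). -/
def RR (v x y : ι → n → K) (i k : ι) : K := (dd n K + 1) * (ip (x i) (y k) * ip (v k) (v i))

variable {v z : ι → n → K}

omit [Fintype ι] in
theorem rat_eq (u : ι → n → K) (i k : ι) : rat v u i k = RR v v u i k := rfl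

omit [Fintype ι] in
theorem mm_eq (i k : ι) : mm v z i k = RR v z z i k := rfl

theorem et_eq (i k : ι) : et v z i k = RR v v (opr z z v) i k := rfl

omit [Fintype ι] in
theorem star_dd : star (dd n K + 1) = dd n K + 1 := by
  unfold dd
  rw [star_add, star_natCast, star_one]

omit [Fintype ι] in
theorem RR_star (x y : ι → n → K) (i k : ι) : star (RR v x y i k) = RR v y x k i := by
  unfold RR
  rw [star_mul', star_mul', star_ip, star_ip, star_dd]

omit [Fintype ι] in
theorem RR_add (x y y' : ι → n → K) (i k : ι) :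
    RR v x (fun k => y k + y' k) i k = RR v x y i k + RR v x y' i k := by
  unfold RR
  rw [ip_add]
  ring

omit [Fintype ι] in
theorem RR_sub (x y y' : ι → n → K) (i k : ι) :
    RR v x (fun k => y k - y' k) i k = RR v x y i k - RR v x y' i k := by
  unfold RR
  rw [ip_sub]
  ring

omit [Fintype ι] in
theorem RR_smul (x y : ι → n → K) (c : K) (i k : ι) :
    RR v x (fun k => c • y k) i k = c * RR v x y i k := by
  unfold RR
  rw [ip_smul]
  ring

theorem opr_comm (x y : ι → n → K) (i k : ι) :
    ip (x i) (opr z z y k) = ip (opr z z x i) (y k) := by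
  rw [ip_opr, opr_ip]

theorem SDer.dd {D : K → K} (h : SDer D) : D (dd n K + 1) = 0 := by
  unfold SicRg.dd
  rw [h.add, h.natCast, h.one, add_zero]

section tr

variable [CharZero K] [DecidableEq ι]

/-- `<v i, u k> = c i k G i k` -/
theorem tr1 (hv : Sys v) {u : ι → n → K} (hu : Tan v u) (i k : ι) :
    ip (v i) (u k) = rat v u i k * ip (v i) (v k) := ip_rat hv hu.toHor i k

/-- `<v k, u i> = - c i k G k i` -/
theorem tr2 (hv : Sys v) {u : ι → n → K} (hu : Tan v u) (i k : ι) :
    ip (v k) (u i) = -rat v u i k * ip (v k) (v i) := by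
  rw [ip_rat hv hu.toHor k i, hu.anti i k]

/-- `<u i, v k> = - conj (c i k) G i k` -/
theorem tr3 (hv : Sys v) {u : ι → n → K} (hu : Tan v u) (i k : ι) :
    ip (u i) (v k) = -star (rat v u i k) * ip (v i) (v k) := by
  rw [← star_ip, tr2 hv hu i k, star_mul', star_neg, star_ip]

/-- `<u k, v i> = conj (c i k) G k i` -/
theorem tr4 (hv : Sys v) {u : ι → n → K} (hu : Tan v u) (i k : ι) :
    ip (u k) (v i) = star (rat v u i k) * ip (v k) (v i) := by
  rw [← star_ip, tr1 hv hu i k, star_mul', star_ip]

omit [CharZero K] [DecidableEq ι] in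
theorem pos2 (hpos : SicAb.PosStar K) {f : ι → ι → K}
    (h : ∑ i, ∑ k, star (f i k) * f i k = 0) (i k : ι) : f i k = 0 := by
  have h1 : ∑ p ∈ (univ : Finset (ι × ι)), star (f p.1 p.2) * f p.1 p.2 = 0 := by
    rw [← h, ← Finset.univ_product_univ, Finset.sum_product]
  exact hpos (ι × ι) univ (fun p => f p.1 p.2) h1 (i, k) (mem_univ _)

variable {D : K → K} {X : n → n → K} {th : ι → K}

theorem Curve.D_G (hC : Curve D X th v z) (i k : ι) :
    D (ip (v k) (v i)) = (star (rat v z i k) - rat v z i k + (th i - th k)) *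
      ip (v k) (v i) := by
  rw [D_ip hC.der hC.skew v v k i, hC.dv, tr4 hC.sys hC.tan i k, tr2 hC.sys hC.tan i k]
  ring

/-- the derivative of a ratio -/
theorem Curve.D_RR (hC : Curve D X th v z) (x y : ι → n → K) (i k : ι) :
    D (RR v x y i k) = RR v (nab D X th x) y i k + RR v x (nab D X th y) i k +
      (star (rat v z i k) - rat v z i k) * RR v x y i k := by
  unfold RR
  rw [hC.der.mul, hC.der.dd, hC.der.mul, hC.D_G i k, D_ip hC.der hC.skew x y i k]
  ring

theorem Curve.D_star (hC : Curve D X th v z) (a : K) : D (star a) = star (D a) := hC.der.star a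

end tr

end Pool.Agent.SicRg
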