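import Pool.Agent.Lib.MP_d0f9e0_co.Rg.Scal
import Pool.Agent.Lib.MP_d0f9e0_co.Rg.RR

set_option autoImplicit false

namespace Pool.Agent.SicRg

open Finset

variable {K : Type*} [Field K] [StarRing K] {n ι : Type} [Fintype n] [Fintype ι]

/-!
File Four.  (6) of dnote 4498.
-/

/-- The covariant derivative of the identity `B`. -/
theorem Curve.four_bb [DecidableEq ι] {v z : ι → n → K} {D : K → K} {X : n → n → K} {th : ι → K}
    (hC : Curve D X th v z) (i : ι) (x x' y y' : n → K) :
    ∑ k, ((2 * (ip x (z k) * ip x' (z k)) + (ip x (v k) * ip x' (nab D X th z k) +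
      ip x (nab D X th z k) * ip x' (v k))) * (ip (v k) y * ip (v k) y') +
      (ip x (v k) * ip x' (z k) + ip x (z k) * ip x' (v k)) *
      (ip (z k) y * ip (v k) y' + ip (v k) y * ip (z k) y')) = 0 := by
  have hD := hC.der
  have hX := hC.skew
  have h0 := congrArg D (hC.tan.bb x x' y y')
  rw [hD.zero, hD.sum] at h0
  have b1 := hC.tan.bb (nab D X th (fun _ : ι => x) i) x' y y'
  have b2 := hC.tan.bb x (nab D X th (fun _ : ι => x') i) y y'
  have b3 := hC.tan.bb x x' (nab D X th (fun _ : ι => y) i) y'
  have b4 := hC.tan.bb x x' y (nab D X th (fun _ : ι => y') i)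
  have h1 : ∀ k, D ((ip x (v k) * ip x' (z k) + ip x (z k) * ip x' (v k)) *
      (ip (v k) y * ip (v k) y')) =
      ((2 * (ip x (z k) * ip x' (z k)) + (ip x (v k) * ip x' (nab D X th z k) +
      ip x (nab D X th z k) * ip x' (v k))) * (ip (v k) y * ip (v k) y') +
      (ip x (v k) * ip x' (z k) + ip x (z k) * ip x' (v k)) *
      (ip (z k) y * ip (v k) y' + ip (v k) y * ip (z k) y')) +
      (ip (nab D X th (fun _ : ι => x) i) (v k) * ip x' (z k) +
        ip (nab D X th (fun _ : ι => x) i) (z k) * ip x' (v k)) * (ip (v k) y * ip (v k) y') +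
      (ip x (v k) * ip (nab D X th (fun _ : ι => x') i) (z k) +
        ip x (z k) * ip (nab D X th (fun _ : ι => x') i) (v k)) * (ip (v k) y * ip (v k) y') +
      (ip x (v k) * ip x' (z k) + ip x (z k) * ip x' (v k)) *
        (ip (v k) (nab D X th (fun _ : ι => y) i) * ip (v k) y') +
      (ip x (v k) * ip x' (z k) + ip x (z k) * ip x' (v k)) *
        (ip (v k) y * ip (v k) (nab D X th (fun _ : ι => y') i)) := by
    intro k
    have e1 := D_ip hD hX (fun _ : ι => x) v i k
    have e2 := D_ip hD hX (fun _ : ι => x) z i k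
    have e3 := D_ip hD hX (fun _ : ι => x') v i k
    have e4 := D_ip hD hX (fun _ : ι => x') z i k
    have e5 := D_ip hD hX v (fun _ : ι => y) k i
    have e6 := D_ip hD hX v (fun _ : ι => y') k i
    rw [hC.dv] at e1 e3 e5 e6
    rw [hD.mul, hD.add, hD.mul, hD.mul, hD.mul, e1, e2, e3, e4, e5, e6]
    ring
  rw [sum_congr rfl fun k _ => h1 k, sum_add_distrib, sum_add_distrib, sum_add_distrib,
    sum_add_distrib, b1, b2, b3, b4] at h0
  linear_combination h0

section

variable [CharZero K] [DecidableEq n] [DecidableEq ι] {v z : ι → n → K}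

/-- `m = rho (1 + d delta) - x` -/
theorem Curve.four_m (hpos : SicAb.PosStar K) {D : K → K} {X : n → n → K} {th : ι → K}
    (hC : Curve D X th v z) (i k : ι) :
    mm v z i k = ip (z i) (z i) * (1 + dd n K * (if i = k then 1 else 0)) - xx v z i k := by
  have h1 := m_formula hpos hC.sys hC.tan hC.sec i k
  have h2 : et v z k i = dd n K * (ip (z i) (z i) * (1 + dd n K * (if i = k then 1 else 0))) := by
    unfold et
    rw [hC.opr_eq hpos, ip_smul]
    have h3 := hC.sys.ang i k
    linear_combination dd n K * ip (z i) (z i) * h3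
  have h4 : dd n K ≠ 0 := hC.sys.dd_ne i
  rw [h2] at h1
  apply mul_left_cancel₀ h4
  rw [h1]
  ring

/-- `<z i, z k> = (rho - x) G` -/
theorem Curve.four_zz (hpos : SicAb.PosStar K) {D : K → K} {X : n → n → K} {th : ι → K}
    (hC : Curve D X th v z) (i k : ι) :
    ip (z i) (z k) = (ip (z i) (z i) - xx v z i k) * ip (v i) (v k) := by
  by_cases hik : i = k
  · subst hik
    have h1 : rat v z i i = 0 := by
      unfold rat
      rw [hC.tan.diag]
      ring
    unfold xx
    rw [h1, hC.sys.unit]
    ring
  · have h1 := hC.four_m hpos i k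
    have h2 := hC.sys.ang i k
    rw [if_neg hik, mul_zero, add_zero] at h1 h2
    unfold mm at h1
    linear_combination (ip (v i) (v k)) * h1 - (ip (z i) (z k)) * h2

/-- `u = w + rho v` is a tangent vector. -/
theorem Curve.four_tan (hpos : SicAb.PosStar K) {D : K → K} {X : n → n → K} {th : ι → K}
    (hC : Curve D X th v z) (i : ι) :
    Tan v (fun k => nab D X th z k + ip (z i) (z i) • v k) := by
  have h1 := tan_u hpos hC.sys hC.tan hC.sec
  have h4 : dd n K ≠ 0 := hC.sys.dd_ne i
  have h2 : (fun k => nab D X th z k + (dd n K)⁻¹ • opr z z v k) =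
      fun k => nab D X th z k + ip (z i) (z i) • v k := by
    funext k
    rw [hC.opr_eq hpos, smul_smul, inv_mul_cancel_left₀ h4, hC.rho_eq hpos i k]
  rw [h2] at h1
  exact h1

/-- case distinction: the ratios are real or imaginary -/
theorem Curve.four_alt (hpos : SicAb.PosStar K) {D : K → K} {X : n → n → K} {th : ι → K}
    (hC : Curve D X th v z) (i k : ι) :
    star (rat v z i k) = rat v z i k ∨ star (rat v z i k) = -rat v z i k := by
  have h1 := sq_real hpos hC.sys hC.tan hC.sec i k
  exact sq_eq_sq_iff_eq_or_eq_neg.1 h1.symm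

/-- `2 conj(a)^2 x = - x^2` and `conj(a) x = - a x` -/
theorem Curve.four_x (hpos : SicAb.PosStar K) {D : K → K} {X : n → n → K} {th : ι → K}
    (hC : Curve D X th v z) (i k : ι) :
    2 * star (rat v z i k) ^ 2 * xx v z i k = -xx v z i k ^ 2 ∧
      star (rat v z i k) * xx v z i k = -(rat v z i k * xx v z i k) := by
  unfold xx
  rcases hC.four_alt hpos i k with h | h
  · rw [h]
    constructor <;> ring
  · rw [h]
    constructor <;> ring

omit [DecidableEq n] in
/-- `(x o G) V^* = d rho V^*` -/
theorem Curve.four_xG {D : K → K} {X : n → n → K} {th : ι → K}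
    (hC : Curve D X th v z) (i : ι) (y : n → K) :
    ∑ k, xx v z i k * ip (v i) (v k) * ip (v k) y = dd n K * ip (z i) (z i) * ip (v i) y := by
  have h1 := sG hC.sys hC.tan i y
  have h2 := a2G hC.sys hC.tan i y
  rw [← h1, ← sub_zero (∑ k, rat v z i k * star (rat v z i k) * ip (v i) (v k) * ip (v k) y),
    ← h2, ← sum_sub_distrib]
  refine sum_congr rfl fun k _ => ?_
  unfold xx
  ring

/-- `sum a G <z k, y> = d rho <v i, y>` -/
theorem Curve.four_az (hpos : SicAb.PosStar K) {D : K → K} {X : n → n → K} {th : ι → K}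
    (hC : Curve D X th v z) (i : ι) (y : n → K) :
    ∑ k, rat v z i k * ip (v i) (v k) * ip (z k) y = dd n K * ip (z i) (z i) * ip (v i) y := by
  have h1 := hC.opr_eq hpos i (fun _ => y)
  have h2 := ip_opr z z (fun _ => y) (v i) i
  rw [h1, ip_smul] at h2
  rw [h2]
  refine sum_congr rfl fun k _ => ?_
  rw [tr1 hC.sys hC.tan i k]

omit [DecidableEq n] in
/-- `sum conj(a) G <z k, y> = 0` -/
theorem Curve.four_sz {D : K → K} {X : n → n → K} {th : ι → K}
    (hC : Curve D X th v z) (i : ι) (y : n → K) :
    ∑ k, star (rat v z i k) * ip (v i) (v k) * ip (z k) y = 0 := by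
  have h1 := congrArg star (hC.tan.hor y (z i))
  rw [star_zero, star_sum] at h1
  rw [← neg_zero, ← h1, ← sum_neg_distrib]
  refine sum_congr rfl fun k _ => ?_
  rw [star_mul', star_ip, star_ip, tr3 hC.sys hC.tan i k]
  ring

/-- `sum a x G <z k, y> = (1/2) sum x^2 G <v k, y>` -/
theorem Curve.four_key (hpos : SicAb.PosStar K) {D : K → K} {X : n → n → K} {th : ι → K}
    (hC : Curve D X th v z) (i : ι) (y : n → K) :
    2 * ∑ k, rat v z i k * xx v z i k * ip (v i) (v k) * ip (z k) y =
      ∑ k, xx v z i k ^ 2 * ip (v i) (v k) * ip (v k) y := by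
  have hv := hC.sys
  have hz := hC.tan
  have h1 := hC.four_bb i (z i) (z i) (v i) y
  have h2 := (hC.four_tan hpos i).bb (z i) (z i) (v i) y
  have h3 := hv.T1 (v i) y
  have h4 := hC.four_xG i y
  have h5 := a2G' hv hz i y
  have h6 := hC.four_sz i y
  have hterm : ∀ k, (dd n K + 1) * (((2 * (ip (z i) (z k) * ip (z i) (z k)) +
      (ip (z i) (v k) * ip (z i) (nab D X th z k) +
      ip (z i) (nab D X th z k) * ip (z i) (v k))) * (ip (v k) (v i) * ip (v k) y) +
      (ip (z i) (v k) * ip (z i) (z k) + ip (z i) (z k) * ip (z i) (v k)) *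
      (ip (z k) (v i) * ip (v k) y + ip (v k) (v i) * ip (z k) y)) -
      (ip (z i) (v k) * ip (z i) (nab D X th z k + ip (z i) (z i) • v k) +
      ip (z i) (nab D X th z k + ip (z i) (z i) • v k) * ip (z i) (v k)) *
      (ip (v k) (v i) * ip (v k) y)) =
      2 * ip (z i) (z i) ^ 2 * (ip (v i) (v k) * ip (v k) y) -
      4 * ip (z i) (z i) * (xx v z i k * ip (v i) (v k) * ip (v k) y) +
      xx v z i k ^ 2 * ip (v i) (v k) * ip (v k) y -
      4 * ip (z i) (z i) * (star (rat v z i k) ^ 2 * ip (v i) (v k) * ip (v k) y) -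
      2 * ip (z i) (z i) * (star (rat v z i k) * ip (v i) (v k) * ip (z k) y) -
      2 * (rat v z i k * xx v z i k * ip (v i) (v k) * ip (z k) y) +
      (if i = k then 2 * dd n K * ip (z i) (z i) ^ 2 * ip (v i) y else 0) := by
    intro k
    obtain ⟨x1, x2⟩ := hC.four_x hpos i k
    have a1 := hv.ang i k
    rw [ip_add, ip_smul, hC.four_zz hpos i k, tr3 hv hz i k, tr4 hv hz i k]
    by_cases hik : i = k
    · subst hik
      have h0 : rat v z i i = 0 := by
        unfold rat
        rw [hz.diag]
        ring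
      have h00 : xx v z i i = 0 := by
        unfold xx
        rw [h0]
        ring
      rw [if_pos rfl, h0, h00, star_zero, hv.unit]
      ring
    · rw [if_neg hik, mul_zero, add_zero] at a1
      rw [if_neg hik, add_zero]
      set rho := ip (z i) (z i)
      set a := rat v z i k
      set s := star a
      set x := xx v z i k
      set G := ip (v i) (v k)
      set Gs := ip (v k) (v i)
      set g := ip (v k) y
      set q := ip (z k) y
      linear_combination (2 * ((rho - x) ^ 2 - rho * s ^ 2 - s ^ 2 * (rho - x)) * G * g -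
        2 * s * (rho - x) * G * q) * a1 + G * g * x1 + 2 * G * q * x2
  have h7 : (dd n K + 1) * (∑ k, ((2 * (ip (z i) (z k) * ip (z i) (z k)) +
      (ip (z i) (v k) * ip (z i) (nab D X th z k) +
      ip (z i) (nab D X th z k) * ip (z i) (v k))) * (ip (v k) (v i) * ip (v k) y) +
      (ip (z i) (v k) * ip (z i) (z k) + ip (z i) (z k) * ip (z i) (v k)) *
      (ip (z k) (v i) * ip (v k) y + ip (v k) (v i) * ip (z k) y)) -
      ∑ k, (ip (z i) (v k) * ip (z i) (nab D X th z k + ip (z i) (z i) • v k) +
      ip (z i) (nab D X th z k + ip (z i) (z i) • v k) * ip (z i) (v k)) *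
      (ip (v k) (v i) * ip (v k) y)) = 0 := by
    rw [h1, h2]
    ring
  rw [← sum_sub_distrib, mul_sum, sum_congr rfl fun k _ => hterm k] at h7
  simp only [sum_add_distrib, sum_sub_distrib, ← mul_sum, sum_ite_eq, mem_univ, if_true] at h7
  rw [h3, h4, h5, h6] at h7
  linear_combination -h7

/-- (V2) -/
theorem Curve.V2 (hpos : SicAb.PosStar K) {D : K → K} {X : n → n → K} {th : ι → K}
    (hC : Curve D X th v z) (i : ι) (y : n → K) :
    ∑ k, (rat v z i k - star (rat v z i k)) * (2 * ip (z i) (z i) - xx v z i k) *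
      ip (v i) (v k) * ip (z k) y =
    ∑ k, xx v z i k * (2 * ip (z i) (z i) - xx v z i k) * ip (v i) (v k) * ip (v k) y := by
  have h1 := hC.four_key hpos i y
  have h2 := hC.four_xG i y
  have h3 := hC.four_az hpos i y
  have h4 := hC.four_sz i y
  have hl : ∀ k, (rat v z i k - star (rat v z i k)) * (2 * ip (z i) (z i) - xx v z i k) *
      ip (v i) (v k) * ip (z k) y =
      2 * ip (z i) (z i) * (rat v z i k * ip (v i) (v k) * ip (z k) y) -
      2 * ip (z i) (z i) * (star (rat v z i k) * ip (v i) (v k) * ip (z k) y) -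
      2 * (rat v z i k * xx v z i k * ip (v i) (v k) * ip (z k) y) := by
    intro k
    obtain ⟨_, x2⟩ := hC.four_x hpos i k
    linear_combination ip (v i) (v k) * ip (z k) y * x2
  have hr : ∀ k, xx v z i k * (2 * ip (z i) (z i) - xx v z i k) * ip (v i) (v k) * ip (v k) y =
      2 * ip (z i) (z i) * (xx v z i k * ip (v i) (v k) * ip (v k) y) -
      xx v z i k ^ 2 * ip (v i) (v k) * ip (v k) y := by
    intro k
    ring
  rw [sum_congr rfl fun k _ => hl k, sum_congr rfl fun k _ => hr k]
  simp only [sum_sub_distrib, ← mul_sum]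
  rw [h3, h4, h2]
  linear_combination -h1

/-- The derivative of the formula for `mm`. -/
theorem Curve.four_dm (hpos : SicAb.PosStar K) {D : K → K} {X : n → n → K} {th : ι → K}
    (hC : Curve D X th v z) {r : K} (hr : ∀ j, ip (z j) (z j) = r) (i k : ι) :
    RR v z (fun k => nab D X th z k + r • v k) i k +
      star (RR v z (fun k => nab D X th z k + r • v k) k i) =
    (rat v z i k - star (rat v z i k)) * (2 * r - xx v z i k) +
      D r * (1 + dd n K * (if i = k then 1 else 0)) - D (xx v z i k) := by
  have hD := hC.der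
  have hrs : star r = r := by
    rw [← hr i, star_ip]
  have h1 := hC.four_m hpos i k
  rw [hr i] at h1
  have h2 : D (1 + dd n K * (if i = k then (1 : K) else 0)) = 0 := by
    unfold dd
    rw [hD.add, hD.one, hD.mul, hD.natCast]
    split_ifs
    · rw [hD.one]
      ring
    · rw [hD.zero]
      ring
  have h3 := hC.D_RR z z i k
  rw [← mm_eq, h1, hD.sub, hD.mul, h2] at h3
  have h4 : RR v z v i k = -star (rat v z i k) := by
    rw [← RR_star, ← rat_eq, hC.tan.anti i k, star_neg]
  have h5 : RR v z v k i = star (rat v z i k) := by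
    rw [← RR_star, ← rat_eq]
  have h6 : RR v (nab D X th z) z i k = star (RR v z (nab D X th z) k i) := by
    rw [RR_star]
  have h7 : ∀ p q, RR v z (fun k => nab D X th z k + r • v k) p q =
      RR v z (nab D X th z) p q + r * RR v z v p q := by
    intro p q
    rw [RR_add z (nab D X th z) (fun k => r • v k), RR_smul]
  have h8 : (star (rat v z i k) - rat v z i k) * (dd n K * (if i = k then (1 : K) else 0)) = 0 := by
    split_ifs with hik
    · subst hik
      have h0 : rat v z i i = 0 := by
        unfold rat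
        rw [hC.tan.diag]
        ring
      rw [h0, star_zero]
      ring
    · ring
  rw [h7, h7, h4, h5, star_add, star_mul', hrs, star_star, ← h6]
  linear_combination -h3 - r * h8

/-- (6) -/
theorem Curve.h_zero (hpos : SicAb.PosStar K) {D : K → K} {X : n → n → K} {th : ι → K}
    (hC : Curve D X th v z) (i k : ι) :
    (rat v z i k - star (rat v z i k)) * (2 * ip (z i) (z i) - xx v z i k) = 0 := by
  obtain ⟨r, hr⟩ : ∃ r, ∀ j, ip (z j) (z j) = r := ⟨ip (z i) (z i), fun j => hC.rho_eq hpos j i⟩
  have hrs : star r = r := by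
    rw [← hr i, star_ip]
  have hu := hC.four_tan hpos i
  rw [hr i] at hu ⊢
  have xsym : ∀ j l, xx v z l j = xx v z j l := by
    intro j l
    unfold xx
    rw [hC.tan.anti j l, star_neg]
    ring
  have xstar : ∀ j l, star (xx v z j l) = xx v z j l := by
    intro j l
    have h1 := sq_real hpos hC.sys hC.tan hC.sec j l
    unfold xx
    rw [star_sub, star_mul', star_star, star_pow]
    linear_combination h1
  obtain ⟨h, hh⟩ : ∃ h : ι → ι → K, ∀ j l, h j l =
    (rat v z j l - star (rat v z j l)) * (2 * r - xx v z j l) := ⟨_, fun _ _ => rfl⟩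
  have hanti : ∀ j l, h l j = -h j l := by
    intro j l
    rw [hh, hh, xsym, hC.tan.anti j l, star_neg]
    ring
  have hstar : ∀ j l, star (h j l) = -h j l := by
    intro j l
    rw [hh, star_mul', star_sub, star_sub, star_star, star_mul', hrs, xstar]
    have : star (2 : K) = 2 := by
      rw [show (2 : K) = ((2 : ℕ) : K) by norm_num, star_natCast]
    rw [this]
    ring
  obtain ⟨u, hu'⟩ : ∃ u : ι → n → K, u = fun k => nab D X th z k + r • v k := ⟨_, rfl⟩
  rw [← hu'] at hu
  -- the first sum
  have s1 : ∑ j, ∑ l, h l j * RR v z u j l = 0 := by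
    have e1 : ∀ l, ∑ j, h l j * RR v z u j l =
        ∑ j, xx v z j l * (2 * r - xx v z j l) * rat v u j l := by
      intro l
      have h1 := hC.V2 hpos l (u l)
      rw [hr l] at h1
      have h2 : ∑ j, h l j * RR v z u j l = (dd n K + 1) * ∑ j, (rat v z l j -
          star (rat v z l j)) * (2 * r - xx v z l j) * ip (v l) (v j) * ip (z j) (u l) := by
        rw [mul_sum]
        refine sum_congr rfl fun j _ => ?_
        rw [hh]
        unfold RR
        ring
      rw [h2, h1, mul_sum]
      refine sum_congr rfl fun j _ => ?_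
      rw [xsym j l]
      unfold rat
      ring
    rw [sum_comm, sum_congr rfl fun l _ => e1 l]
    have e2 : ∑ l, ∑ j, xx v z j l * (2 * r - xx v z j l) * rat v u j l =
        -∑ l, ∑ j, xx v z j l * (2 * r - xx v z j l) * rat v u j l := by
      conv_lhs => rw [sum_comm]
      rw [← sum_neg_distrib]
      refine sum_congr rfl fun l _ => ?_
      rw [← sum_neg_distrib]
      refine sum_congr rfl fun j _ => ?_
      rw [xsym j l, hu.anti j l]
      ring
    exact self_eq_neg.1 e2
  have s2 : ∑ j, ∑ l, h l j * star (RR v z u l j) = 0 := by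
    have e1 := congrArg star s1
    rw [star_zero, star_sum] at e1
    simp only [star_sum, star_mul', hstar] at e1
    rw [sum_comm] at e1
    rw [← e1]
    refine sum_congr rfl fun j _ => sum_congr rfl fun l _ => ?_
    rw [hanti j l]
  have s3 : ∑ j, ∑ l, h l j * (D r * (1 + dd n K * (if j = l then 1 else 0)) - D (xx v z j l)) =
      0 := by
    have e2 : ∑ j, ∑ l, h l j * (D r * (1 + dd n K * (if j = l then 1 else 0)) -
        D (xx v z j l)) = -∑ j, ∑ l, h l j * (D r * (1 + dd n K * (if j = l then 1 else 0)) -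
        D (xx v z j l)) := by
      conv_lhs => rw [sum_comm]
      rw [← sum_neg_distrib]
      refine sum_congr rfl fun j _ => ?_
      rw [← sum_neg_distrib]
      refine sum_congr rfl fun l _ => ?_
      rw [xsym j l, hanti j l]
      simp only [eq_comm]
      ring
    exact self_eq_neg.1 e2
  have s4 : ∑ j, ∑ l, star (h j l) * h j l = 0 := by
    have e1 : ∀ j l, star (h j l) * h j l = h l j * RR v z u j l +
        h l j * star (RR v z u l j) -
        h l j * (D r * (1 + dd n K * (if j = l then 1 else 0)) - D (xx v z j l)) := by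
      intro j l
      have e2 := hC.four_dm hpos hr j l
      rw [← hu', ← hh] at e2
      rw [hstar, hanti j l]
      linear_combination (h j l) * e2
    simp only [e1, sum_add_distrib, sum_sub_distrib]
    rw [s1, s2, s3]
    ring
  rw [← hh]
  exact pos2 hpos s4 i k

end

end Pool.Agent.SicRg
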