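import Pool.Agent.Lib.MP_d0f9e0_co.Rg.RR

set_option autoImplicit false

namespace Pool.Agent.SicRg

open Finset

variable {K : Type*} [Field K] [StarRing K] {n ι : Type} [Fintype n] [Fintype ι]

/-!
File Gauge.  Existence of the gauge: `z0 k = D (v k) - <v k, D (v k)> v k`,
`M = ∑ z0 k (v k)^*` is skew Hermitian with trace `0`, `X = ((d+1)/d^2) M`,
`z k = z0 k - X v k + <v k, X v k> v k`, `th k = <v k, D (v k)> - <v k, X v k>`.
Then `Hor v z`, and `D` of `|G i k|^2 = const` gives the hypothesis of `Hor.tan`.
-/

theorem ga_ip_single [DecidableEq n] (x : n → K) (p : n) : ip x (Pi.single p 1) = star (x p) := by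
  rw [ip_def, sum_eq_single p]
  · rw [Pi.single_eq_same, mul_one]
  · intro b _ hb
    rw [Pi.single_eq_of_ne hb, mul_zero]
  · intro h
    exact absurd (mem_univ p) h

theorem ga_single_ip [DecidableEq n] (x : n → K) (p : n) : ip (Pi.single p 1) x = x p := by
  rw [← star_ip, ga_ip_single, star_star]

/-- the quadratic form of a matrix along the system -/
theorem ga_quad [DecidableEq n] [DecidableEq ι] {v : ι → n → K} (hv : Sys v) (X : n → n → K)
    (x y : n → K) :
    (dd n K + 1) * ∑ k, ip (v k) (fun p => ∑ q, X p q * v k q) * (ip x (v k) * ip (v k) y) =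
      dd n K * (ip x y * ∑ p, X p p + ip x (fun p => ∑ q, X p q * y q)) := by
  have h1 : ∀ k, ip (v k) (fun p => ∑ q, X p q * v k q) * (ip x (v k) * ip (v k) y) =
      ∑ p, ∑ q, X p q * ((ip x (v k) * ip (Pi.single q 1) (v k)) *
        (ip (v k) y * ip (v k) (Pi.single p 1))) := by
    intro k
    rw [ip_def (v k) (fun p => ∑ q, X p q * v k q), sum_mul]
    refine sum_congr rfl fun p _ => ?_
    rw [mul_sum, sum_mul]
    refine sum_congr rfl fun q _ => ?_
    rw [ga_ip_single, ga_single_ip]
    ring
  rw [sum_congr rfl fun k _ => h1 k, sum_comm, mul_sum]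
  have h2 : ∀ p q, (dd n K + 1) * ∑ k, X p q * ((ip x (v k) * ip (Pi.single q 1) (v k)) *
        (ip (v k) y * ip (v k) (Pi.single p 1))) =
      dd n K * (ip x y * (if q = p then X p p else 0) + star (x p) * (X p q * y q)) := by
    intro p q
    have h3 := hv.T2 x (Pi.single q 1) y (Pi.single p 1)
    rw [ga_ip_single, ga_ip_single, ga_single_ip] at h3
    rw [← mul_sum]
    by_cases hqp : q = p
    · subst hqp
      rw [Pi.single_eq_same, star_one] at h3
      rw [if_pos rfl]
      linear_combination X q q * h3
    · rw [Pi.single_eq_of_ne (Ne.symm hqp), star_zero] at h3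
      rw [if_neg hqp]
      linear_combination X p q * h3
  have h4 : ∀ p, (dd n K + 1) * ∑ k, ∑ q, X p q * ((ip x (v k) * ip (Pi.single q 1) (v k)) *
        (ip (v k) y * ip (v k) (Pi.single p 1))) =
      dd n K * (ip x y * X p p + star (x p) * ∑ q, X p q * y q) := by
    intro p
    rw [sum_comm, mul_sum, sum_congr rfl fun q _ => h2 p q, ← mul_sum, sum_add_distrib,
      ← mul_sum, ← mul_sum, sum_ite_eq' univ p, if_pos (mem_univ p)]
  rw [sum_congr rfl fun p _ => h4 p, ← mul_sum, sum_add_distrib, ← mul_sum]
  rfl

theorem exists_curve [CharZero K] [DecidableEq n] [DecidableEq ι] (hpos : SicAb.PosStar K)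
    {v : ι → n → K} (hv : Sys v) {D : K → K} (hD : SDer D) :
    ∃ (X : n → n → K) (th : ι → K) (z : ι → n → K), Curve D X th v z := by
  rcases isEmpty_or_nonempty ι with he | ⟨⟨i0⟩⟩
  · refine ⟨fun _ _ => 0, fun _ => 0, fun _ => 0, hD, ⟨fun p q => by simp, fun k => by simp⟩,
      hv, ?_, ⟨⟨fun k => by simp, fun x y => by simp⟩, fun i => (he.false i).elim,
        fun x x' y y' => by simp⟩⟩
    funext k
    exact (he.false k).elim
  have hd := hv.dd_ne i0
  have hd1 : dd n K + 1 ≠ 0 := dd_succ_ne
  have hsd : star (dd n K) = dd n K := by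
    unfold dd
    exact star_natCast _
  -- the raw derivative
  set v' : ι → n → K := fun k p => D (v k p) with hv'
  set z0 : ι → n → K := fun k => v' k - ip (v k) (v' k) • v k with hz0
  set c : K := (dd n K + 1) / dd n K ^ 2 with hc
  set Y : n → n → K := fun p q => ∑ k, z0 k p * star (v k q) with hY
  set X : n → n → K := fun p q => c * Y p q with hX
  set Xv : ι → n → K := fun k p => ∑ q, X p q * v k q with hXv
  set th : ι → K := fun k => ip (v k) (v' k) - ip (v k) (Xv k) with hth
  set z : ι → n → K := fun k => z0 k - Xv k + ip (v k) (Xv k) • v k with hz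
  have hsc : star c = c := by
    rw [hc, star_div₀, star_pow, star_add, star_one, hsd]
  -- derivatives of Hermitian products
  have hDip : ∀ x y : n → K, D (ip x y) =
      ip (fun p => D (x p)) y + ip x (fun p => D (y p)) := by
    intro x y
    rw [ip_def, ip_def, ip_def, hD.sum, ← sum_add_distrib]
    exact sum_congr rfl fun p _ => by rw [hD.mul, hD.star]
  have hu1 : ∀ k, ip (v' k) (v k) + ip (v k) (v' k) = 0 := by
    intro k
    rw [← hDip, hv.unit k, hD.one]
  have hu2 : ∀ k, star (ip (v k) (v' k)) = -ip (v k) (v' k) := by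
    intro k
    rw [star_ip]
    linear_combination hu1 k
  have hz0v : ∀ k, ip (v k) (z0 k) = 0 := by
    intro k
    simp only [hz0, ip_sub, ip_smul, hv.unit k]
    ring
  -- Y is skew
  have hYs : ∀ p q, star (Y p q) = -Y q p := by
    intro p q
    have h1 := congrArg D (hv.T1 (Pi.single q 1) (Pi.single p 1))
    simp only [ga_ip_single, ga_single_ip] at h1
    have h2 : D (dd n K * star ((Pi.single q (1 : K) : n → K) p)) = 0 := by
      by_cases hpq : p = q
      · subst hpq
        rw [Pi.single_eq_same, star_one, mul_one]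
        exact hD.natCast _
      · rw [Pi.single_eq_of_ne hpq, star_zero, mul_zero, hD.zero]
    rw [h2, hD.sum] at h1
    have h3 : star (Y p q) + Y q p = ∑ k, D (v k q * star (v k p)) := by
      simp only [hY, star_sum]
      rw [← sum_add_distrib]
      refine sum_congr rfl fun k _ => ?_
      rw [hD.mul, hD.star, star_mul', star_star]
      simp only [hz0, hv', Pi.sub_apply, Pi.smul_apply, smul_eq_mul, star_sub, star_mul']
      have h4 := hu2 k
      simp only [hv'] at h4
      rw [h4]
      ring
    rw [h1] at h3
    linear_combination h3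
  have hXs : ∀ p q, star (X p q) = -X q p := by
    intro p q
    simp only [hX, star_mul', hsc, hYs]
    ring
  have hXv2 : ∀ k, star (ip (v k) (Xv k)) = -ip (v k) (Xv k) := by
    intro k
    have h1 : ip (v k) (Xv k) = ∑ p, ∑ q, star (v k p) * X p q * v k q := by
      rw [ip_def]
      refine sum_congr rfl fun p _ => ?_
      rw [hXv, mul_sum]
      exact sum_congr rfl fun q _ => by ring
    have h2 : star (∑ p, ∑ q, star (v k p) * X p q * v k q) =
        ∑ p, ∑ q, -(star (v k q) * X q p * v k p) := by
      simp only [star_sum, star_mul', star_star, hXs]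
      exact sum_congr rfl fun p _ => sum_congr rfl fun q _ => by ring
    rw [h1, h2, sum_comm]
    simp only [sum_neg_distrib]
  have hths : ∀ k, star (th k) = -th k := by
    intro k
    simp only [hth, star_sub, hu2, hXv2]
    ring
  -- trace
  have htr : ∑ p, X p p = 0 := by
    have h1 : ∑ p, X p p = c * ∑ k, ip (v k) (z0 k) := by
      simp only [hX, hY, ip_def, mul_sum]
      rw [sum_comm]
      exact sum_congr rfl fun k _ => sum_congr rfl fun p _ => by ring
    rw [h1, sum_eq_zero fun k _ => hz0v k, mul_zero]
  have hnab : nab D X th v = z := by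
    funext k p
    simp only [nab, hz, hz0, hth, hXv, hv', Pi.add_apply, Pi.sub_apply, Pi.smul_apply,
      smul_eq_mul]
    ring
  have hXip : ∀ x y : n → K, ip x (fun p => ∑ q, X p q * y q) =
      c * ∑ k, ip x (z0 k) * ip (v k) y := by
    intro x y
    simp only [ip_def, hX, hY, mul_sum, sum_mul]
    rw [sum_congr rfl fun p _ => sum_comm, sum_comm]
    refine sum_congr rfl fun k _ => ?_
    rw [sum_comm]
    exact sum_congr rfl fun q _ => sum_congr rfl fun p _ => by ring
  have hhor : Hor v z := by
    refine ⟨fun k => ?_, fun x y => ?_⟩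
    · simp only [hz, ip_add, ip_sub, ip_smul, hz0v, hv.unit k]
      ring
    · have h1 : (dd n K + 1) * ∑ k, ip (v k) (Xv k) * (ip x (v k) * ip (v k) y) =
          dd n K * (ip x y * ∑ p, X p p + ip x (fun p => ∑ q, X p q * y q)) :=
        ga_quad hv X x y
      rw [htr, mul_zero, zero_add] at h1
      have h2 : ∑ k, ip x (z k) * ip (v k) y = ∑ k, ip x (z0 k) * ip (v k) y -
          ∑ k, ip x (Xv k) * ip (v k) y +
          ∑ k, ip (v k) (Xv k) * (ip x (v k) * ip (v k) y) := by
        rw [← sum_sub_distrib, ← sum_add_distrib]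
        refine sum_congr rfl fun k _ => ?_
        simp only [hz, ip_add, ip_sub, ip_smul]
        ring
      have h3 : ∑ k, ip x (Xv k) * ip (v k) y =
          dd n K * ip x (fun p => ∑ q, X p q * y q) := by
        have h4 : ∀ k, ip x (Xv k) * ip (v k) y =
            c * ∑ l, ip x (z0 l) * (ip (v l) (v k) * ip (v k) y) := by
          intro k
          have := hXip x (v k)
          rw [hXv]
          simp only [this, mul_sum, sum_mul]
          exact sum_congr rfl fun l _ => by ring
        rw [sum_congr rfl fun k _ => h4 k, ← mul_sum, sum_comm, hXip x y]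
        have h5 : ∀ l, ∑ k, ip x (z0 l) * (ip (v l) (v k) * ip (v k) y) =
            dd n K * (ip x (z0 l) * ip (v l) y) := by
          intro l
          rw [← mul_sum, hv.T1]
          ring
        rw [sum_congr rfl fun l _ => h5 l, ← mul_sum]
        ring
      have h6 := hXip x y
      rw [h2, h3]
      have h7 : ∑ k, ip x (z0 k) * ip (v k) y =
          dd n K ^ 2 / (dd n K + 1) * ip x (fun p => ∑ q, X p q * y q) := by
        rw [h6, hc]
        field_simp
      have h8 : ∑ k, ip (v k) (Xv k) * (ip x (v k) * ip (v k) y) =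
          dd n K / (dd n K + 1) * ip x (fun p => ∑ q, X p q * y q) := by
        rw [div_mul_eq_mul_div, eq_div_iff hd1, ← h1, mul_comm]
      rw [h7, h8]
      field_simp
      ring
  refine ⟨X, th, z, hD, ⟨hXs, hths⟩, hv, hnab, Hor.tan hpos hv hhor fun i k => ?_⟩
  have h1 := congrArg D (hv.ang i k)
  have h2 : D (1 + dd n K * (if i = k then 1 else 0)) = 0 := by
    by_cases hik : i = k
    · rw [if_pos hik, mul_one, add_comm]
      exact hD.dd
    · rw [if_neg hik, mul_zero, add_zero, hD.one]
  rw [h2, hD.mul, hD.dd, hD.mul, D_ip hD ⟨hXs, hths⟩ v v i k, D_ip hD ⟨hXs, hths⟩ v v k i,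
    hnab] at h1
  have h3 : star (rat v z i k) = (dd n K + 1) * (ip (z k) (v i) * ip (v i) (v k)) := by
    unfold rat
    rw [star_mul', star_mul', star_ip, star_ip, star_dd]
  have h4 : star (rat v z k i) = (dd n K + 1) * (ip (z i) (v k) * ip (v k) (v i)) := by
    unfold rat
    rw [star_mul', star_mul', star_ip, star_ip, star_dd]
  rw [star_add, h3, h4]
  unfold rat
  linear_combination h1

/-- The second order data of a curve. -/
theorem Curve.sec [CharZero K] [DecidableEq n] [DecidableEq ι] {D : K → K} {X : n → n → K}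
    {th : ι → K} {v z : ι → n → K} (hC : Curve D X th v z) :
    Sec v z (nab D X th z) (fun i k => D (rat v z i k)) := by
  refine ⟨fun k => ?_, fun x y => ?_, fun i k => ?_, fun i k => ?_⟩
  · have h := D_ip hC.der hC.skew v z k k
    rw [hC.tan.diag k, hC.der.zero, hC.dv] at h
    linear_combination -h
  · set x' : n → K := fun p => D (x p) - ∑ q, X p q * x q with hx'
    set y' : n → K := fun p => D (y p) - ∑ q, X p q * y q with hy'
    have hx : ∀ k, nab D X th (fun _ => x) k = x' - th k • x := by
      intro k
      funext p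
      simp only [nab, hx', Pi.sub_apply, Pi.smul_apply, smul_eq_mul]
    have hy : ∀ k, nab D X th (fun _ => y) k = y' - th k • y := by
      intro k
      funext p
      simp only [nab, hy', Pi.sub_apply, Pi.smul_apply, smul_eq_mul]
    have h1 : ∀ k, D (ip x (z k)) = ip x' (z k) + th k * ip x (z k) +
        ip x (nab D X th z k) := by
      intro k
      have h := D_ip hC.der hC.skew (fun _ => x) z k k
      rw [hx k, ip_sub_left, ip_smul_left, hC.skew.th] at h
      rw [h]
      ring
    have h2 : ∀ k, D (ip (v k) y) = ip (z k) y + ip (v k) y' - th k * ip (v k) y := by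
      intro k
      have h := D_ip hC.der hC.skew v (fun _ => y) k k
      rw [hC.dv, hy k, ip_sub, ip_smul] at h
      rw [h]
      ring
    have h3 := congrArg D (hC.tan.hor x y)
    rw [hC.der.sum, hC.der.zero] at h3
    have h4 : ∑ k, D (ip x (z k) * ip (v k) y) = ∑ k, ip x' (z k) * ip (v k) y +
        ∑ k, ip x (z k) * ip (v k) y' + ∑ k, ip x (nab D X th z k) * ip (v k) y +
        ∑ k, ip x (z k) * ip (z k) y := by
      rw [← sum_add_distrib, ← sum_add_distrib, ← sum_add_distrib]
      refine sum_congr rfl fun k _ => ?_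
      rw [hC.der.mul, h1, h2]
      ring
    rw [h4, hC.tan.hor, hC.tan.hor] at h3
    linear_combination h3
  · have h := hC.D_RR v z i k
    rw [hC.dv] at h
    have h1 : rat v z i k = RR v v z i k := rfl
    have h2 : rat v (nab D X th z) i k = RR v v (nab D X th z) i k := rfl
    have h3 : mm v z i k = RR v z z i k := rfl
    have h4 : D (rat v z i k) = D (RR v v z i k) := rfl
    change rat v (nab D X th z) i k = D (rat v z i k) - mm v z i k + rat v z i k ^ 2 -
      rat v z i k * star (rat v z i k)
    rw [h2, h3, h4, h, ← h1]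
    ring
  · have h : rat v z k i = -rat v z i k := hC.tan.anti i k
    change D (rat v z k i) = -D (rat v z i k)
    rw [h, hC.der.neg]

/-- If the covariant derivative vanishes then the triple products are constant. -/
theorem Curve.triple [DecidableEq ι] {D : K → K} {X : n → n → K}
    {th : ι → K} {v z : ι → n → K} (hC : Curve D X th v z) (hz : ∀ k, z k = 0) (i j k : ι) :
    D (ip (v i) (v j) * ip (v j) (v k) * ip (v k) (v i)) = 0 := by
  have h : ∀ i j, D (ip (v i) (v j)) = (th j - th i) * ip (v i) (v j) := by
    intro i j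
    rw [D_ip hC.der hC.skew v v i j, hC.dv, hz, hz, ip_zero, ip_zero_left]
    ring
  rw [hC.der.mul, hC.der.mul, h, h, h]
  ring

end Pool.Agent.SicRg
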