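import Pool.Agent.Lib.MP_d0f9e0_co.Rg.Count

set_option autoImplicit false

namespace Pool.Agent.SicRg

open Finset

variable {K : Type*} [Field K] [StarRing K] {n ι : Type} [Fintype n] [Fintype ι]

/-!
The integral structure of a nonconstant curve: the skew matrix `q` with entries `0, 1, -1` and the
skew matrix `al` of the real ratios (dnotes 4498 (8), 4676, 4712).
-/

variable [CharZero K] [DecidableEq ι] {v z : ι → n → K}

omit [CharZero K] [DecidableEq ι] in
theorem rat_diag (hz : Tan v z) (i : ι) : rat v z i i = 0 := by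
  unfold rat
  rw [hz.diag]
  ring

/-- the square of the matrix of ratios -/
theorem sum_aa (hv : Sys v) (hz : Tan v z) (i k : ι) :
    ∑ j, rat v z i j * rat v z j k = dd n K * rat v z i k ^ 2 := by
  have h := hv.T2 (v i) (v k) (z i) (z k)
  have h1 : ∑ j, rat v z i j * rat v z j k = -((dd n K + 1) * ((dd n K + 1) *
      ∑ j, (ip (v i) (v j) * ip (v k) (v j)) * (ip (v j) (z i) * ip (v j) (z k)))) := by
    rw [mul_sum, mul_sum, ← sum_neg_distrib]
    refine sum_congr rfl fun j _ => ?_
    rw [sa1 hz i j]
    unfold rat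
    ring
  have hang := hv.ang i k
  rw [h1, h, hz.diag, hz.diag, tr1 hv hz i k, tr2 hv hz i k]
  by_cases hik : i = k
  · subst hik
    rw [rat_diag hz]
    ring
  · rw [if_neg hik] at hang
    linear_combination (dd n K * rat v z i k ^ 2) * hang

omit [CharZero K] in
/-- the matrix of ratios times its adjoint -/
theorem sum_aas (hv : Sys v) (hz : Tan v z) (i k : ι) :
    ∑ j, rat v z i j * star (rat v z k j) = dd n K * mm v z k i := by
  have h := hv.T2 (v i) (z k) (z i) (v k)
  have h1 : ∑ j, rat v z i j * star (rat v z k j) = (dd n K + 1) * ((dd n K + 1) *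
      ∑ j, (ip (v i) (v j) * ip (z k) (v j)) * (ip (v j) (z i) * ip (v j) (v k))) := by
    rw [mul_sum, mul_sum]
    refine sum_congr rfl fun j _ => ?_
    rw [sa1 hz i j, sa2 hz k j]
    ring
  rw [h1, h, hz.diag]
  unfold mm
  ring

omit [CharZero K] in
theorem sum_asj (hv : Sys v) (hz : Tan v z) (i j : ι) :
    ∑ k, rat v z i k * (rat v z j k * star (rat v z j k)) =
      -((dd n K + 1) * (dd n K * (ip (z j) (z i) * ip (v i) (z j)))) := by
  have h := hz.bb (v i) (z j) (v i) (z j)
  have h2 := hz.hor (z j) (z j)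
  have h1 : ∑ k, rat v z i k * (rat v z j k * star (rat v z j k)) =
      (dd n K + 1) * ((dd n K + 1) *
      ∑ k, (ip (v i) (v k) * ip (z j) (z k) + ip (v i) (z k) * ip (z j) (v k)) *
        (ip (v k) (v i) * ip (v k) (z j))) -
      ∑ k, (dd n K + 1) * (((dd n K + 1) * (ip (v i) (v k) * ip (v k) (v i))) *
        (ip (z j) (z k) * ip (v k) (z j))) := by
    rw [mul_sum, mul_sum, ← sum_sub_distrib]
    refine sum_congr rfl fun k _ => ?_
    rw [sa3 hv hz j k]
    unfold rat
    ring
  have h3 : ∑ k, (dd n K + 1) * (((dd n K + 1) * (ip (v i) (v k) * ip (v k) (v i))) *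
        (ip (z j) (z k) * ip (v k) (z j))) = (dd n K + 1) * (∑ k, ip (z j) (z k) * ip (v k) (z j)) +
      (dd n K + 1) * (dd n K * (ip (z j) (z i) * ip (v i) (z j))) := by
    rw [mul_sum]
    have h4 : (dd n K + 1) * (dd n K * (ip (z j) (z i) * ip (v i) (z j))) =
        ∑ k, (dd n K + 1) * (dd n K * (if i = k then 1 else 0) *
          (ip (z j) (z k) * ip (v k) (z j))) := by
      rw [sum_eq_single i]
      · rw [if_pos rfl]; ring
      · intro b _ hb
        rw [if_neg (Ne.symm hb)]; ring
      · intro hi
        exact absurd (mem_univ i) hi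
    rw [h4, ← sum_add_distrib]
    refine sum_congr rfl fun k _ => ?_
    rw [hv.ang i k]
    ring
  rw [h1, h, h3, h2]
  ring

omit [CharZero K] in
/-- `star` separates the real and the imaginary part. -/
theorem star_sep [NeZero (2 : K)] {A B c : K} (hA : star A = A) (hB : star B = B)
    (hc : star c = -c) (hc0 : c ≠ 0) (h : A + c * B = 0) : A = 0 ∧ B = 0 := by
  have h1 := congrArg star h
  rw [star_add, star_mul', hA, hB, hc, star_zero] at h1
  have h2 : (2 : K) ≠ 0 := NeZero.ne _
  have h3 : (2 : K) * A = 0 := by linear_combination h + h1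
  have h4 : (2 : K) * (c * B) = 0 := by linear_combination h - h1
  exact ⟨(mul_eq_zero.1 h3).resolve_left h2,
    (mul_eq_zero.1 ((mul_eq_zero.1 h4).resolve_left h2)).resolve_left hc0⟩

/-- The integral structure of a nonconstant curve.  `d` is the dimension, `r` the squared speed,
`c` an imaginary square root of `-r`. -/
structure Par (d : ℕ) (r c : K) (q : ι → ι → ℤ) (al : ι → ι → K) : Prop where
  r0 : r ≠ 0
  cc : c ^ 2 = -r
  starc : star c = -c
  card : Fintype.card ι = d ^ 2
  val : ∀ i k, q i k = 0 ∨ q i k = 1 ∨ q i k = -1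
  anti : ∀ i k, q k i = -q i k
  alanti : ∀ i k, al k i = -al i k
  alstar : ∀ i k, star (al i k) = al i k
  alq : ∀ i k, q i k ≠ 0 → al i k = 0
  row : ∀ i, ∑ k, q i k = 0
  alrow : ∀ i, ∑ k, al i k = 0
  deg : ∀ i, 2 * ∑ k, q i k ^ 2 = (d : ℤ) * (d + 1)
  al_q : ∀ i k, ∑ j, al i j * (q j k : K) = 0
  gram : ∀ i k, 2 * r * ((∑ j, q i j * q k j : ℤ) : K) =
    (d : K) * al i k ^ 2 + (d : K) * r * (1 + (d : K) * (if i = k then 1 else 0) -
      3 * (q i k : K) ^ 2)
  al_s : ∀ i j, ∑ k, al i k * (al j k ^ 2 + r * (q j k : K) ^ 2) = -((d : K) * r * al i j)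
  q_s : ∀ i j, ∑ k, (q i k : K) * (al j k ^ 2 + r * (q j k : K) ^ 2) = (d : K) * r * (q i j : K)
  four : ∀ i, ∑ k, (al i k ^ 2 + r * (q i k : K) ^ 2) ^ 2 = 2 * (d : K) * ((d : K) + 1) * r ^ 2

theorem Curve.par (hpos : SicAb.PosStar K) {D : K → K} {X : n → n → K} {th : ι → K}
    (hC : Curve D X th v z) (k₀ : ι) (hz0 : z k₀ ≠ 0) :
    ∃ (r c : K) (q : ι → ι → ℤ) (al : ι → ι → K), Par (Fintype.card n) r c q al ∧
      (∀ i, ip (z i) (z i) = r) ∧ (∀ i k, rat v z i k = al i k + c * (q i k : K)) := by
  classical
  obtain ⟨r, hr⟩ : ∃ r, ∀ j, ip (z j) (z j) = r :=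
    ⟨ip (z k₀) (z k₀), fun j => hC.rho_eq hpos j k₀⟩
  have hr0 : r ≠ 0 := fun h => hz0 (ip_self hpos (by rw [hr, h]))
  have hrs : star r = r := by rw [← hr k₀, star_ip]
  have hd0 : dd n K ≠ 0 := hC.sys.dd_ne k₀
  have hd1 : dd n K + 1 ≠ 0 := dd_succ_ne
  have hds : star (dd n K) = dd n K := by unfold dd; rw [star_natCast]
  -- dichotomy
  have hdich : ∀ i k, star (rat v z i k) = rat v z i k ∨
      (star (rat v z i k) = -rat v z i k ∧ rat v z i k ^ 2 = -r) := by
    intro i k
    rcases hC.four_alt hpos i k with h | h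
    · exact Or.inl h
    · have h0 := hC.h_zero hpos i k
      rw [hr] at h0
      unfold xx at h0
      rw [h] at h0
      rcases mul_eq_zero.1 h0 with h3 | h3
      · left
        have h5 : rat v z i k = 0 := by
          have : (2 : K) * rat v z i k = 0 := by linear_combination h3
          exact (mul_eq_zero.1 this).resolve_left two_ne_zero
        rw [h5, star_zero]
      · right
        refine ⟨h, ?_⟩
        have : (2 : K) * (rat v z i k ^ 2 + r) = 0 := by linear_combination h3
        linear_combination (mul_eq_zero.1 this).resolve_left two_ne_zero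
  -- an imaginary entry
  obtain ⟨i₁, k₁, hc1, hc2⟩ : ∃ i k, star (rat v z i k) = -rat v z i k ∧
      rat v z i k ^ 2 = -r := by
    by_contra hno
    push Not at hno
    have h1 : ∀ k, star (rat v z k₀ k) = rat v z k₀ k := fun k =>
      (hdich k₀ k).resolve_right fun h => hno k₀ k h.1 h.2
    have hs1 := sum_s hC.sys hC.tan k₀
    have hs2 := sum_a2 hC.sys hC.tan k₀
    have h2 : ∑ k, rat v z k₀ k * star (rat v z k₀ k) = ∑ k, rat v z k₀ k ^ 2 :=
      sum_congr rfl fun k _ => by rw [h1]; ring
    rw [h2, hs2, hr] at hs1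
    exact mul_ne_zero (mul_ne_zero hd0 hd1) hr0 hs1.symm
  obtain ⟨c, hc⟩ : ∃ c, rat v z i₁ k₁ = c := ⟨_, rfl⟩
  rw [hc] at hc1 hc2
  have hc0 : c ≠ 0 := by
    intro h
    rw [h] at hc2
    apply hr0
    linear_combination hc2
  have hcc : c ≠ -c := by
    intro h
    apply hc0
    have : (2 : K) * c = 0 := by linear_combination h
    exact (mul_eq_zero.1 this).resolve_left two_ne_zero
  set q : ι → ι → ℤ := fun i k => if rat v z i k = c then 1 else if rat v z i k = -c then -1 else 0
    with hq
  set al : ι → ι → K := fun i k => rat v z i k - c * (q i k : K) with hal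
  have hal' : ∀ i k, rat v z i k = al i k + c * (q i k : K) := fun i k => by rw [hal]; ring
  have hval : ∀ i k, (q i k = 0 ∧ al i k = rat v z i k ∧ star (rat v z i k) = rat v z i k) ∨
      (q i k = 1 ∧ al i k = 0 ∧ rat v z i k = c) ∨
      (q i k = -1 ∧ al i k = 0 ∧ rat v z i k = -c) := by
    intro i k
    by_cases h1 : rat v z i k = c
    · right; left
      have h2 : q i k = 1 := by simp only [hq, if_pos h1]
      refine ⟨h2, ?_, h1⟩
      simp only [hal]
      rw [h2, h1]; push_cast; ring
    · by_cases h2 : rat v z i k = -c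
      · right; right
        have h3 : q i k = -1 := by simp only [hq, if_neg h1, if_pos h2]
        refine ⟨h3, ?_, h2⟩
        simp only [hal]
        rw [h3, h2]; push_cast; ring
      · left
        have h3 : q i k = 0 := by simp only [hq, if_neg h1, if_neg h2]
        refine ⟨h3, ?_, ?_⟩
        · simp only [hal]; rw [h3]; push_cast; ring
        · refine (hdich i k).resolve_right fun h => ?_
          have h4 : rat v z i k ^ 2 = c ^ 2 := by rw [h.2, hc2]
          rcases sq_eq_sq_iff_eq_or_eq_neg.1 h4 with h5 | h5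
          · exact h1 h5
          · exact h2 h5
  have hqv : ∀ i k, q i k = 0 ∨ q i k = 1 ∨ q i k = -1 := by
    intro i k
    rcases hval i k with h | h | h
    · exact Or.inl h.1
    · exact Or.inr (Or.inl h.1)
    · exact Or.inr (Or.inr h.1)
  have hals : ∀ i k, star (al i k) = al i k := by
    intro i k
    rcases hval i k with h | h | h
    · rw [h.2.1, h.2.2]
    · rw [h.2.1, star_zero]
    · rw [h.2.1, star_zero]
  have halq : ∀ i k, q i k ≠ 0 → al i k = 0 := by
    intro i k hne
    rcases hval i k with h | h | h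
    · exact absurd h.1 hne
    · exact h.2.1
    · exact h.2.1
  have halq' : ∀ i k, al i k * (q i k : K) = 0 := by
    intro i k
    by_cases h : q i k = 0
    · rw [h]; push_cast; ring
    · rw [halq i k h]; ring
  have hantir : ∀ i k, rat v z k i = -rat v z i k := fun i k => hC.tan.anti i k
  have hanti : ∀ i k, q k i = -q i k := by
    intro i k
    rcases hval i k with h | h | h
    · rcases hval k i with h' | h' | h'
      · rw [h.1, h'.1]; rfl
      · exfalso
        have h1 := hantir i k
        rw [h'.2.2] at h1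
        have h2 := h.2.2
        have h3 : rat v z i k = -c := by linear_combination h1
        rw [h3, star_neg, hc1] at h2
        exact hcc (by linear_combination h2)
      · exfalso
        have h1 := hantir i k
        rw [h'.2.2] at h1
        have h2 := h.2.2
        have h3 : rat v z i k = c := by linear_combination h1
        rw [h3, hc1] at h2
        exact hcc (by linear_combination -h2)
    · have h1 : rat v z k i = -c := by rw [hantir, h.2.2]
      have h2 : ¬ rat v z k i = c := by rw [h1]; exact fun hh => hcc hh.symm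
      have h3 : q k i = -1 := by simp only [hq, if_neg h2, if_pos h1]
      rw [h3, h.1]
    · have h1 : rat v z k i = c := by rw [hantir, h.2.2, neg_neg]
      have h3 : q k i = 1 := by simp only [hq, if_pos h1]
      rw [h3, h.1]; rfl
  have halanti : ∀ i k, al k i = -al i k := by
    intro i k
    simp only [hal]
    rw [hantir i k, hanti i k]
    push_cast
    ring
  have hqs : ∀ i k, star (q i k : K) = (q i k : K) := fun i k => by rw [star_intCast]
  have hq3 : ∀ i k, (q i k : K) ^ 3 = (q i k : K) := by
    intro i k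
    rcases hqv i k with h | h | h <;> rw [h] <;> norm_num
  have hxx : ∀ i k, xx v z i k = 2 * r * (q i k : K) ^ 2 := by
    intro i k
    unfold xx
    rcases hval i k with h | h | h
    · rw [h.1, h.2.2]; push_cast; ring
    · rw [h.1, h.2.2, hc1]; push_cast; linear_combination -2 * hc2
    · rw [h.1, h.2.2, star_neg, hc1]; push_cast; linear_combination -2 * hc2
  have hsa : ∀ i k, star (rat v z i k) = al i k - c * (q i k : K) := by
    intro i k
    rw [hal' i k, star_add, star_mul', hals, hqs, hc1]; ring
  have hss : ∀ i k, rat v z i k * star (rat v z i k) = al i k ^ 2 + r * (q i k : K) ^ 2 := by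
    intro i k
    rw [hsa, hal' i k]
    linear_combination -(q i k : K) ^ 2 * hc2
  haveI : NeZero (2 : K) := ⟨two_ne_zero⟩
  have hrow : (∀ i, ∑ k, al i k = 0) ∧ ∀ i, ∑ k, (q i k : K) = 0 := by
    have h1 : ∀ i, ∑ k, al i k = 0 ∧ ∑ k, (q i k : K) = 0 := by
      intro i
      have h2 := sum_a hC.sys hC.tan i
      rw [sum_congr rfl fun k _ => hal' i k, sum_add_distrib, ← mul_sum] at h2
      refine star_sep ?_ ?_ hc1 hc0 h2
      · rw [star_sum]; exact sum_congr rfl fun k _ => hals i k
      · rw [star_sum]; exact sum_congr rfl fun k _ => hqs i k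
    exact ⟨fun i => (h1 i).1, fun i => (h1 i).2⟩
  have hdeg : ∀ i, 2 * ∑ k, q i k ^ 2 = ((Fintype.card n : ℕ) : ℤ) * ((Fintype.card n : ℕ) + 1) := by
    intro i
    have hs1 := sum_s hC.sys hC.tan i
    have hs2 := sum_a2 hC.sys hC.tan i
    have h1 : ∑ k, xx v z i k = dd n K * (dd n K + 1) * r := by
      unfold xx
      rw [sum_sub_distrib, hs1, hs2, hr]; ring
    rw [sum_congr rfl fun k _ => hxx i k, ← mul_sum] at h1
    have h2 : (2 : K) * ∑ k, (q i k : K) ^ 2 = dd n K * (dd n K + 1) := by
      apply mul_right_cancel₀ hr0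
      linear_combination h1
    unfold dd at h2
    exact_mod_cast h2
  -- products
  have hprod : ∀ i k, ∑ j, al i j * (q j k : K) = 0 ∧
      2 * r * ∑ j, (q i j : K) * (q k j : K) = dd n K * al i k ^ 2 +
        dd n K * r * (1 + dd n K * (if i = k then 1 else 0) - 3 * (q i k : K) ^ 2) := by
    intro i k
    have h1 := sum_aa hC.sys hC.tan i k
    have h2 := sum_aas hC.sys hC.tan i k
    have h3 := hC.four_m hpos k i
    have hite : (if k = i then (1 : K) else 0) = if i = k then 1 else 0 := by
      by_cases h : i = k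
      · rw [if_pos h, if_pos h.symm]
      · rw [if_neg h, if_neg fun hh => h hh.symm]
    rw [hr, hxx, hite] at h3
    rw [h3] at h2
    have h4 : ∑ j, rat v z i j * rat v z j k = ∑ j, al i j * al j k -
        r * ∑ j, (q i j : K) * (q j k : K) + c * (∑ j, al i j * (q j k : K) +
          ∑ j, (q i j : K) * al j k) := by
      rw [mul_add, mul_sum, mul_sum, mul_sum, ← sum_sub_distrib, ← sum_add_distrib,
        ← sum_add_distrib]
      refine sum_congr rfl fun j _ => ?_
      rw [hal' i j, hal' j k]
      linear_combination (q i j : K) * (q j k : K) * hc2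
    have h5 : ∑ j, rat v z i j * star (rat v z k j) = -∑ j, al i j * al j k -
        r * ∑ j, (q i j : K) * (q j k : K) + c * (∑ j, al i j * (q j k : K) -
          ∑ j, (q i j : K) * al j k) := by
      rw [mul_sub, mul_sum, mul_sum, mul_sum, ← sum_sub_distrib, ← sum_neg_distrib,
        ← sum_sub_distrib, ← sum_add_distrib]
      refine sum_congr rfl fun j _ => ?_
      rw [hal' i j, hsa k j, halanti j k, hanti j k]
      push_cast
      linear_combination (q i j : K) * (q j k : K) * hc2
    rw [h4] at h1
    rw [h5] at h2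
    have e1 : star (∑ j, al i j * al j k) = ∑ j, al i j * al j k := by
      rw [star_sum]; exact sum_congr rfl fun j _ => by rw [star_mul', hals, hals]
    have e2 : star (∑ j, (q i j : K) * (q j k : K)) = ∑ j, (q i j : K) * (q j k : K) := by
      rw [star_sum]; exact sum_congr rfl fun j _ => by rw [star_mul', hqs, hqs]
    have e3 : star (∑ j, al i j * (q j k : K)) = ∑ j, al i j * (q j k : K) := by
      rw [star_sum]; exact sum_congr rfl fun j _ => by rw [star_mul', hals, hqs]
    have e4 : star (∑ j, (q i j : K) * al j k) = ∑ j, (q i j : K) * al j k := by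
      rw [star_sum]; exact sum_congr rfl fun j _ => by rw [star_mul', hals, hqs]
    have e5 : rat v z i k ^ 2 = al i k ^ 2 - r * (q i k : K) ^ 2 := by
      rw [hal' i k]
      linear_combination (q i k : K) ^ 2 * hc2 + 2 * c * halq' i k
    rw [e5] at h1
    have e6 : star (if i = k then (1 : K) else 0) = if i = k then 1 else 0 := by
      split_ifs <;> simp
    have hki : (q k i : K) ^ 2 = (q i k : K) ^ 2 := by
      rw [hanti i k]; push_cast; ring
    rw [hki] at h2
    obtain ⟨A, hA⟩ : ∃ A, ∑ j, al i j * al j k = A := ⟨_, rfl⟩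
    obtain ⟨B, hB⟩ : ∃ B, ∑ j, (q i j : K) * (q j k : K) = B := ⟨_, rfl⟩
    obtain ⟨C, hCC⟩ : ∃ C, ∑ j, al i j * (q j k : K) = C := ⟨_, rfl⟩
    obtain ⟨E, hE⟩ : ∃ E, ∑ j, (q i j : K) * al j k = E := ⟨_, rfl⟩
    obtain ⟨f, hf⟩ : ∃ f, (if i = k then (1 : K) else 0) = f := ⟨_, rfl⟩
    rw [hA, hB, hCC, hE] at h1 h2
    rw [hA] at e1
    rw [hB] at e2
    rw [hCC] at e3
    rw [hE] at e4
    rw [hf] at e6 h2
    have g1 : A - r * B - dd n K * (al i k ^ 2 - r * (q i k : K) ^ 2) = 0 ∧ C + E = 0 := by
      refine star_sep ?_ ?_ hc1 hc0 (c := c) (by linear_combination h1)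
      · simp only [star_sub, star_mul', star_pow, e1, e2, hrs, hds, hals, hqs]
      · rw [star_add, e3, e4]
    have g2 : -A - r * B - dd n K * (r * (1 + dd n K * f) - 2 * r * (q i k : K) ^ 2) = 0 ∧
        C - E = 0 := by
      refine star_sep ?_ ?_ hc1 hc0 (c := c) (by linear_combination h2)
      · have h2s : star (2 : K) = 2 := by
          have := star_natCast (R := K) 2
          exact_mod_cast this
        simp only [star_sub, star_neg, star_mul', star_pow, star_add, star_one, e1, e2, e6, hrs,
          hds, hqs, h2s]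
      · rw [star_sub, e3, e4]
    constructor
    · rw [hCC]
      have : (2 : K) * C = 0 := by linear_combination g1.2 + g2.2
      exact (mul_eq_zero.1 this).resolve_left two_ne_zero
    · have h7 : ∑ j, (q i j : K) * (q k j : K) = -B := by
        rw [← hB, ← sum_neg_distrib]
        refine sum_congr rfl fun j _ => ?_
        rw [hanti j k]; push_cast; ring
      rw [h7, hf]
      linear_combination g1.1 + g2.1
  have hthree : ∀ i j, ∑ k, al i k * (al j k ^ 2 + r * (q j k : K) ^ 2) = -(dd n K * r * al i j) ∧
      ∑ k, (q i k : K) * (al j k ^ 2 + r * (q j k : K) ^ 2) = dd n K * r * (q i j : K) := by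
    intro i j
    have h1 := sum_asj hC.sys hC.tan i j
    have h2 : ip (z j) (z i) = (r - 2 * r * (q j i : K) ^ 2) * ip (v j) (v i) := by
      rw [hC.four_zz hpos j i, hr, hxx]
    rw [h2, tr1 hC.sys hC.tan i j] at h1
    have h3 : -((dd n K + 1) * (dd n K * ((r - 2 * r * (q j i : K) ^ 2) * ip (v j) (v i) *
        (rat v z i j * ip (v i) (v j))))) =
        -(dd n K * (r - 2 * r * (q i j : K) ^ 2) * rat v z i j) := by
      have hang := hC.sys.ang i j
      have hki : (q j i : K) ^ 2 = (q i j : K) ^ 2 := by
        rw [hanti i j]; push_cast; ring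
      rw [hki]
      by_cases hij : i = j
      · subst hij
        rw [rat_diag hC.tan]; ring
      · rw [if_neg hij] at hang
        linear_combination -(dd n K * (r - 2 * r * (q i j : K) ^ 2) * rat v z i j) * hang
    rw [h3] at h1
    have h4 : ∑ k, rat v z i k * (rat v z j k * star (rat v z j k)) =
        ∑ k, al i k * (al j k ^ 2 + r * (q j k : K) ^ 2) +
        c * ∑ k, (q i k : K) * (al j k ^ 2 + r * (q j k : K) ^ 2) := by
      rw [mul_sum, ← sum_add_distrib]
      refine sum_congr rfl fun k _ => ?_
      rw [hss j k, hal' i k]; ring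
    rw [h4] at h1
    have h5 : (∑ k, al i k * (al j k ^ 2 + r * (q j k : K) ^ 2) + dd n K * r * al i j = 0) ∧
        (∑ k, (q i k : K) * (al j k ^ 2 + r * (q j k : K) ^ 2) - dd n K * r * (q i j : K) = 0) := by
      refine star_sep ?_ ?_ hc1 hc0 (c := c) ?_
      · rw [star_add, star_sum]
        congr 1
        · refine sum_congr rfl fun k _ => ?_
          simp only [star_mul', star_add, star_pow, hals, hqs, hrs]
        · simp only [star_mul', hals, hrs, hds]
      · rw [star_sub, star_sum]
        congr 1
        · refine sum_congr rfl fun k _ => ?_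
          simp only [star_mul', star_add, star_pow, hals, hqs, hrs]
        · simp only [star_mul', hqs, hrs, hds]
      · rw [hal' i j] at h1
        have h6 := halq' i j
        have h7 := hq3 i j
        linear_combination h1 + 2 * dd n K * r * (q i j : K) * h6 + 2 * dd n K * r * c * h7
    constructor
    · linear_combination h5.1
    · linear_combination h5.2
  refine ⟨r, c, q, al, ⟨hr0, hc2, hc1, hC.sys.card, hqv, hanti, halanti, hals, halq, ?_, hrow.1,
    hdeg, fun i k => (hprod i k).1, ?_, fun i j => (hthree i j).1, fun i j => (hthree i j).2, ?_⟩,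
    hr, hal'⟩
  · intro i
    have := hrow.2 i
    exact_mod_cast this
  · intro i k
    have h1 := (hprod i k).2
    push_cast
    unfold dd at h1
    exact h1
  · intro i
    have h1 := sum_s2 hC.sys hC.tan i
    rw [hr, sum_congr rfl fun k _ => by rw [hss i k]] at h1
    unfold dd at h1
    exact h1

end Pool.Agent.SicRg
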