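import Pool.Agent.Lib.MP_d0f9e0_co.Rg.Defs

set_option autoImplicit false

namespace Pool.Agent.SicRg

open Finset

variable {K : Type*} [Field K] [StarRing K] {n ι : Type} [Fintype n] [Fintype ι]

/-!
File Rig.  Rigidity (Lemma R of dnote 4498).
-/

theorem ip_rat [CharZero K] [DecidableEq ι] {v : ι → n → K} (hv : Sys v) {u : ι → n → K}
    (hu : Hor v u) (i k : ι) : ip (v i) (u k) = rat v u i k * ip (v i) (v k) := by
  have h1 := hv.ang i k
  unfold rat
  by_cases hik : i = k
  · subst hik
    rw [hu.diag]
    ring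
  · rw [if_neg hik] at h1
    linear_combination (-(ip (v i) (u k))) * h1

private theorem sum_ang [DecidableEq ι] {v : ι → n → K} (hv : Sys v) (i : ι) (g : ι → K) :
    (dd n K + 1) * ∑ k, (ip (v i) (v k) * ip (v k) (v i)) * g k = ∑ k, g k + dd n K * g i := by
  rw [Finset.mul_sum]
  have e1 : ∀ k, (dd n K + 1) * ((ip (v i) (v k) * ip (v k) (v i)) * g k) =
      g k + dd n K * if i = k then g k else 0 := by
    intro k
    rw [← mul_assoc, hv.ang]
    split_ifs <;> ring
  rw [Finset.sum_congr rfl fun k _ => e1 k, Finset.sum_add_distrib, ← Finset.mul_sum]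
  rw [Finset.sum_ite_eq Finset.univ i, if_pos (Finset.mem_univ i)]

private theorem hor_star {v u : ι → n → K} (hu : Hor v u) (x y : n → K) :
    ∑ k, ip x (v k) * ip (u k) y = 0 := by
  have h1 := congrArg star (hu.hor y x)
  rw [star_sum, star_zero] at h1
  rw [← h1]
  refine Finset.sum_congr rfl fun k _ => ?_
  rw [star_mul, star_ip, star_ip]

/-- The rank one projections span. -/
private theorem span_aux [CharZero K] [DecidableEq ι] {v : ι → n → K} (hv : Sys v) {α : Type}
    [Fintype α] (γ : α → K) (b c : α → n → K)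
    (h : ∀ j, ∑ m, γ m * (ip (v j) (b m) * ip (c m) (v j)) = 0) (x a : n → K) :
    ∑ m, γ m * (ip x (b m) * ip (c m) a) = 0 := by
  by_cases hd : dd n K = 0
  · -- dimension zero
    have h0 : Fintype.card n = 0 := by exact_mod_cast hd
    have : IsEmpty n := Fintype.card_eq_zero_iff.1 h0
    refine Finset.sum_eq_zero fun m _ => ?_
    rw [ip_def]
    simp
  have hd1 : dd n K + 1 ≠ 0 := dd_succ_ne
  -- the trace
  have htr : ∑ m, γ m * ip (c m) (b m) = 0 := by
    have e1 : ∑ j, ∑ m, γ m * (ip (v j) (b m) * ip (c m) (v j)) =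
        dd n K * ∑ m, γ m * ip (c m) (b m) := by
      rw [Finset.sum_comm, Finset.mul_sum]
      refine Finset.sum_congr rfl fun m _ => ?_
      rw [← Finset.mul_sum]
      have e2 : ∑ j, ip (v j) (b m) * ip (c m) (v j) = dd n K * ip (c m) (b m) := by
        rw [← hv.T1]
        exact Finset.sum_congr rfl fun j _ => mul_comm _ _
      rw [e2]
      ring
    rw [Finset.sum_eq_zero fun j _ => h j] at e1
    exact (mul_eq_zero.1 e1.symm).resolve_left hd
  have e3 : (dd n K + 1) * ∑ j, (ip x (v j) * ip (v j) a) *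
      ∑ m, γ m * (ip (v j) (b m) * ip (c m) (v j)) =
      dd n K * (ip x a * ∑ m, γ m * ip (c m) (b m) + ∑ m, γ m * (ip x (b m) * ip (c m) a)) := by
    have e4 : ∑ j, (ip x (v j) * ip (v j) a) * ∑ m, γ m * (ip (v j) (b m) * ip (c m) (v j)) =
        ∑ m, γ m * ∑ j, (ip x (v j) * ip (c m) (v j)) * (ip (v j) a * ip (v j) (b m)) := by
      rw [Finset.sum_congr rfl fun j _ => Finset.mul_sum _ _ _, Finset.sum_comm]
      refine Finset.sum_congr rfl fun m _ => ?_
      rw [Finset.mul_sum]
      exact Finset.sum_congr rfl fun j _ => by ring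
    rw [e4, Finset.mul_sum, mul_add, Finset.mul_sum, Finset.mul_sum, Finset.mul_sum,
      ← Finset.sum_add_distrib]
    refine Finset.sum_congr rfl fun m _ => ?_
    linear_combination (γ m) * hv.T2 x (c m) a (b m)
  rw [Finset.sum_eq_zero fun j _ => by rw [h j, mul_zero], mul_zero, htr, mul_zero, zero_add] at e3
  exact (mul_eq_zero.1 e3.symm).resolve_left hd

/-- Lemma R: a variation preserving the angles to first order is a tangent vector. -/
theorem Hor.tan [CharZero K] [DecidableEq n] [DecidableEq ι] (hpos : SicAb.PosStar K)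
    {v : ι → n → K} (hv : Sys v) {u : ι → n → K} (hu : Hor v u)
    (hre : ∀ i k, rat v u i k + rat v u k i + star (rat v u i k + rat v u k i) = 0) : Tan v u := by
  have hd1 : dd n K + 1 ≠ 0 := dd_succ_ne
  have hsd : star (dd n K + 1) = dd n K + 1 := by
    unfold dd
    rw [star_add, star_natCast, star_one]
  have hsrat : ∀ i k, star (rat v u i k) = (dd n K + 1) * (ip (u k) (v i) * ip (v i) (v k)) := by
    intro i k
    unfold rat
    rw [star_mul, star_mul, hsd, star_ip, star_ip]
    ring
  -- the first step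
  have hF : ∀ (j : ι) (x a : n → K),
      ∑ k, ((ip (v j) (u k) * ip (v k) (v j) + ip (v j) (v k) * ip (u k) (v j)) *
        (ip x (v k) * ip (v k) a) + (ip (v j) (v k) * ip (v k) (v j)) *
        (ip x (u k) * ip (v k) a + ip x (v k) * ip (u k) a)) = 0 := by
    intro j x a
    have h0 : (dd n K + 1) * ∑ k, ((ip (v j) (u k) * ip (v k) (v j) +
        ip (v j) (v k) * ip (u k) (v j)) *
        (ip x (v k) * ip (v k) a) + (ip (v j) (v k) * ip (v k) (v j)) *
        (ip x (u k) * ip (v k) a + ip x (v k) * ip (u k) a)) = 0 := by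
      rw [Finset.sum_add_distrib, mul_add, sum_ang hv j
        (fun k => ip x (u k) * ip (v k) a + ip x (v k) * ip (u k) a), Finset.sum_add_distrib,
        hu.hor, hor_star hu, Finset.mul_sum]
      have e1 : ∀ k, (dd n K + 1) * ((ip (v j) (u k) * ip (v k) (v j) +
          ip (v j) (v k) * ip (u k) (v j)) * (ip x (v k) * ip (v k) a)) =
          -((dd n K + 1) * ((ip (v j) (v k) * ip x (v k)) * (ip (v k) (u j) * ip (v k) a)) +
          (dd n K + 1) * ((ip (u j) (v k) * ip x (v k)) * (ip (v k) (v j) * ip (v k) a))) := by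
        intro k
        have h1 := hre j k
        rw [star_add, hsrat, hsrat] at h1
        unfold rat at h1
        linear_combination (ip x (v k) * ip (v k) a) * h1
      rw [Finset.sum_congr rfl fun k _ => e1 k, Finset.sum_neg_distrib, Finset.sum_add_distrib,
        ← Finset.mul_sum, ← Finset.mul_sum, hv.T2, hv.T2]
      have h2 : ip (v j) (u j) = 0 := hu.diag j
      have h3 : ip (u j) (v j) = 0 := by
        rw [← star_ip, h2, star_zero]
      rw [h2, h3]
      ring
    exact (mul_eq_zero.1 h0).resolve_left hd1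
  -- the tensor and its adjoint
  have hG : ∀ x x' a a' : n → K,
      ∑ k, (ip x (v k) * ip x' (u k) + ip x (u k) * ip x' (v k)) * (ip (v k) a * ip (v k) a') +
      ∑ k, (ip x (v k) * ip x' (v k)) * (ip (u k) a * ip (v k) a' + ip (v k) a * ip (u k) a') =
      0 := by
    intro x x' a a'
    have h1 := span_aux hv (α := ι × Fin 3)
      (fun m => ![ip x' (v m.1) * ip (v m.1) a', ip x' (v m.1) * ip (v m.1) a',
        ip x' (u m.1) * ip (v m.1) a' + ip x' (v m.1) * ip (u m.1) a'] m.2)
      (fun m => ![u m.1, v m.1, v m.1] m.2) (fun m => ![v m.1, u m.1, v m.1] m.2)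
      (fun j => by
        rw [Fintype.sum_prod_type, ← hF j x' a']
        refine Finset.sum_congr rfl fun k _ => ?_
        rw [Fin.sum_univ_three]
        change (ip x' (v k) * ip (v k) a') * (ip (v j) (u k) * ip (v k) (v j)) +
          (ip x' (v k) * ip (v k) a') * (ip (v j) (v k) * ip (u k) (v j)) +
          (ip x' (u k) * ip (v k) a' + ip x' (v k) * ip (u k) a') *
          (ip (v j) (v k) * ip (v k) (v j)) = _
        ring) x a
    rw [Fintype.sum_prod_type] at h1
    rw [← h1, ← Finset.sum_add_distrib]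
    refine Finset.sum_congr rfl fun k _ => ?_
    rw [Fin.sum_univ_three]
    change _ = (ip x' (v k) * ip (v k) a') * (ip x (u k) * ip (v k) a) +
      (ip x' (v k) * ip (v k) a') * (ip x (v k) * ip (u k) a) +
      (ip x' (u k) * ip (v k) a' + ip x' (v k) * ip (u k) a') * (ip x (v k) * ip (v k) a)
    ring
  -- the tensor is zero
  obtain ⟨wt, hwt⟩ : ∃ wt : ι → n × n → K, ∀ k P, wt k P = v k P.1 * u k P.2 + u k P.1 * v k P.2 :=
    ⟨_, fun _ _ => rfl⟩
  obtain ⟨Wt, hWt⟩ : ∃ Wt : ι → n × n → K, ∀ k P, Wt k P = v k P.1 * v k P.2 :=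
    ⟨_, fun _ _ => rfl⟩
  have hsingle : ∀ (p : n) (y : n → K), ip (Pi.single p 1) y = y p := by
    intro p y
    rw [ip_def, Finset.sum_eq_single p]
    · rw [Pi.single_eq_same, star_one, one_mul]
    · intro q _ hq
      rw [Pi.single_eq_of_ne hq, star_zero, zero_mul]
    · intro h
      exact absurd (Finset.mem_univ p) h
  have hsingle' : ∀ (p : n) (y : n → K), ip y (Pi.single p 1) = star (y p) := by
    intro p y
    rw [← star_ip, hsingle]
  have hanti : ∀ P Q : n × n, star (∑ k, wt k P * star (Wt k Q)) = -∑ k, wt k Q * star (Wt k P) := by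
    intro P Q
    have h1 := hG (Pi.single Q.1 1) (Pi.single Q.2 1) (Pi.single P.1 1) (Pi.single P.2 1)
    simp only [hsingle, hsingle'] at h1
    rw [star_sum, eq_neg_iff_add_eq_zero, ← h1, add_comm]
    congr 1
    · refine Finset.sum_congr rfl fun k _ => ?_
      rw [hwt, hWt, star_mul]
      ring
    · refine Finset.sum_congr rfl fun k _ => ?_
      rw [hwt, hWt, star_mul, star_star, star_add, star_mul, star_mul]
      ring
  have hipw : ∀ k l, ip (Wt k) (wt l) = 2 * (ip (v k) (v l) * ip (v k) (u l)) := by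
    intro k l
    simp only [ip_def, hWt, hwt]
    rw [Fintype.sum_prod_type, Finset.sum_mul_sum, Finset.mul_sum]
    have e1 : ∀ x : n, ∑ y : n, star (v k x * v k y) * (v l x * u l y + u l x * v l y) =
        ∑ y : n, (star (v k x) * v l x * (star (v k y) * u l y)) +
        ∑ y : n, (star (v k y) * v l y * (star (v k x) * u l x)) := by
      intro x
      rw [← Finset.sum_add_distrib]
      refine Finset.sum_congr rfl fun y _ => ?_
      rw [star_mul]
      ring
    rw [Finset.sum_congr rfl fun x _ => e1 x, Finset.sum_add_distrib]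
    have e2 : ∑ x : n, ∑ y : n, (star (v k y) * v l y * (star (v k x) * u l x)) =
        ∑ x : n, ∑ y : n, (star (v k x) * v l x * (star (v k y) * u l y)) := Finset.sum_comm
    rw [e2, ← Finset.mul_sum]
    ring
  have hnorm : ∑ P, ∑ Q, star (∑ k, wt k P * star (Wt k Q)) * ∑ k, wt k P * star (Wt k Q) = 0 := by
    have e1 : ∀ P Q, star (∑ k, wt k P * star (Wt k Q)) * ∑ k, wt k P * star (Wt k Q) =
        -∑ k, ∑ l, (star (Wt k P) * wt l P) * (star (Wt l Q) * wt k Q) := by
      intro P Q
      rw [hanti, neg_mul, Finset.sum_mul_sum]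
      congr 1
      exact Finset.sum_congr rfl fun k _ => Finset.sum_congr rfl fun l _ => by ring
    rw [Finset.sum_congr rfl fun P _ => Finset.sum_congr rfl fun Q _ => e1 P Q]
    simp only [Finset.sum_neg_distrib]
    have e2 : ∑ P, ∑ Q, ∑ k, ∑ l, (star (Wt k P) * wt l P) * (star (Wt l Q) * wt k Q) =
        ∑ k, ∑ l, ip (Wt k) (wt l) * ip (Wt l) (wt k) := by
      have g2 : ∀ k l, ip (Wt k) (wt l) * ip (Wt l) (wt k) =
          ∑ P, ∑ Q, (star (Wt k P) * wt l P) * (star (Wt l Q) * wt k Q) := by
        intro k l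
        rw [ip_def, ip_def, Finset.sum_mul_sum]
      rw [Finset.sum_congr rfl fun k _ => Finset.sum_congr rfl fun l _ => g2 k l]
      rw [Finset.sum_congr rfl fun P _ => Finset.sum_comm]
      rw [Finset.sum_comm]
      refine Finset.sum_congr rfl fun k _ => ?_
      rw [Finset.sum_congr rfl fun P _ => Finset.sum_comm]
      rw [Finset.sum_comm]
    rw [e2]
    have e3 : (dd n K + 1) * ∑ k, ∑ l, ip (Wt k) (wt l) * ip (Wt l) (wt k) = 0 := by
      have e4 : ∀ k, (dd n K + 1) * ∑ l, ip (Wt k) (wt l) * ip (Wt l) (wt k) =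
          4 * ∑ l, ip (v k) (u l) * ip (v l) (u k) := by
        intro k
        have e5 : ∑ l, ip (Wt k) (wt l) * ip (Wt l) (wt k) =
            ∑ l, (ip (v k) (v l) * ip (v l) (v k)) * (4 * (ip (v k) (u l) * ip (v l) (u k))) := by
          refine Finset.sum_congr rfl fun l _ => ?_
          rw [hipw, hipw]
          ring
        rw [e5, sum_ang hv k (fun l => 4 * (ip (v k) (u l) * ip (v l) (u k))), hu.diag k]
        rw [← Finset.mul_sum]
        ring
      rw [Finset.mul_sum, Finset.sum_congr rfl fun k _ => e4 k, ← Finset.mul_sum]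
      have e6 : ∀ k, ∑ l, ip (v k) (u l) * ip (v l) (u k) = 0 := fun k => hu.hor (v k) (u k)
      rw [Finset.sum_eq_zero fun k _ => e6 k, mul_zero]
    rw [(mul_eq_zero.1 e3).resolve_left hd1, neg_zero]
  have hzero : ∀ P Q : n × n, ∑ k, wt k P * star (Wt k Q) = 0 := by
    intro P Q
    have h1 : ∑ x ∈ (Finset.univ : Finset ((n × n) × (n × n))),
        star (∑ k, wt k x.1 * star (Wt k x.2)) * ∑ k, wt k x.1 * star (Wt k x.2) = 0 := by
      rw [Fintype.sum_prod_type]
      exact hnorm
    exact hpos ((n × n) × (n × n)) Finset.univ (fun x => ∑ k, wt k x.1 * star (Wt k x.2)) h1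
      (P, Q) (Finset.mem_univ _)
  have hbb : BB v u := by
    intro x x' y y'
    have e1 : ∀ k, (ip x (v k) * ip x' (u k) + ip x (u k) * ip x' (v k)) *
        (ip (v k) y * ip (v k) y') =
        ∑ P : n × n, ∑ Q : n × n, (star (x P.1) * star (x' P.2) * (y Q.1 * y' Q.2)) *
          (wt k P * star (Wt k Q)) := by
      intro k
      have f1 : ip x (v k) * ip x' (u k) + ip x (u k) * ip x' (v k) =
          ∑ P : n × n, star (x P.1) * star (x' P.2) * wt k P := by
        rw [ip_def, ip_def, ip_def, ip_def, Finset.sum_mul_sum, Finset.sum_mul_sum,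
          Fintype.sum_prod_type, ← Finset.sum_add_distrib]
        refine Finset.sum_congr rfl fun p _ => ?_
        rw [← Finset.sum_add_distrib]
        refine Finset.sum_congr rfl fun q _ => ?_
        rw [hwt]
        ring
      have f2 : ip (v k) y * ip (v k) y' = ∑ Q : n × n, star (Wt k Q) * (y Q.1 * y' Q.2) := by
        rw [ip_def, ip_def, Finset.sum_mul_sum, Fintype.sum_prod_type]
        refine Finset.sum_congr rfl fun p _ => Finset.sum_congr rfl fun q _ => ?_
        rw [hWt, star_mul]
        ring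
      rw [f1, f2, Finset.sum_mul_sum]
      exact Finset.sum_congr rfl fun P _ => Finset.sum_congr rfl fun Q _ => by ring
    rw [Finset.sum_congr rfl fun k _ => e1 k, Finset.sum_comm]
    refine Finset.sum_eq_zero fun P _ => ?_
    rw [Finset.sum_comm]
    refine Finset.sum_eq_zero fun Q _ => ?_
    rw [← Finset.mul_sum, hzero, mul_zero]
  -- antisymmetry of the ratios
  have hdiag : ∀ j, rat v u j j = 0 := by
    intro j
    unfold rat
    rw [hu.diag, zero_mul, mul_zero]
  have hsum : ∀ j, ∑ k, (rat v u j k + rat v u k j) * star (rat v u k j) = 0 := by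
    intro j
    have ha : ∀ x : n → K, dd n K * ip x (u j) + ∑ k, rat v u j k * (ip (v k) (v j) * ip x (v k)) =
        0 := by
      intro x
      have h1 := hbb (v j) x (v j) (v j)
      have h2 : (dd n K + 1) * ∑ k, (ip (v j) (v k) * ip x (u k) + ip (v j) (u k) * ip x (v k)) *
          (ip (v k) (v j) * ip (v k) (v j)) =
          ∑ k, ip x (u k) * ip (v k) (v j) + dd n K * (ip x (u j) * ip (v j) (v j)) +
          ∑ k, rat v u j k * (ip (v k) (v j) * ip x (v k)) := by
        rw [← sum_ang hv j (fun k => ip x (u k) * ip (v k) (v j)), Finset.mul_sum, Finset.mul_sum,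
          ← Finset.sum_add_distrib]
        refine Finset.sum_congr rfl fun k _ => ?_
        unfold rat
        ring
      rw [h1, mul_zero, hu.hor, hv.unit] at h2
      linear_combination -h2
    have hb : ∀ x : n → K, dd n K * ip x (u j) =
        ∑ k, rat v u k j * (ip (v k) (v j) * ip x (v k)) := by
      intro x
      rw [← hv.T1]
      refine Finset.sum_congr rfl fun k _ => ?_
      rw [ip_rat hv hu k j]
      ring
    have hc : ∑ k, (rat v u j k + rat v u k j) * (ip (v k) (v j) * ip (u j) (v k)) = 0 := by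
      have h1 := ha (u j)
      rw [hb (u j), ← Finset.sum_add_distrib] at h1
      rw [← h1]
      exact Finset.sum_congr rfl fun k _ => by ring
    have hd : ∀ k, ip (u j) (v k) = star (rat v u k j) * ip (v j) (v k) := by
      intro k
      rw [← star_ip, ip_rat hv hu k j, star_mul, star_ip, mul_comm]
    have he : (dd n K + 1) * ∑ k, (rat v u j k + rat v u k j) *
        (ip (v k) (v j) * ip (u j) (v k)) =
        ∑ k, (rat v u j k + rat v u k j) * star (rat v u k j) := by
      have h1 := sum_ang hv j (fun k => (rat v u j k + rat v u k j) * star (rat v u k j))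
      simp only [hdiag, star_zero, mul_zero, add_zero] at h1
      rw [← h1]
      congr 1
      refine Finset.sum_congr rfl fun k _ => ?_
      rw [hd]
      ring
    rw [← he, hc, mul_zero]
  have hall : ∑ j, ∑ k, star (rat v u j k + rat v u k j) * (rat v u j k + rat v u k j) = 0 := by
    have h1 : ∑ j, ∑ k, (rat v u j k + rat v u k j) * star (rat v u k j) = 0 :=
      Finset.sum_eq_zero fun j _ => hsum j
    have h2 : ∑ j, ∑ k, (rat v u k j + rat v u j k) * star (rat v u j k) = 0 := by
      rw [Finset.sum_comm]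
      exact h1
    have h3 : ∀ j k, star (rat v u j k + rat v u k j) * (rat v u j k + rat v u k j) =
        (rat v u j k + rat v u k j) * star (rat v u k j) +
        (rat v u k j + rat v u j k) * star (rat v u j k) := by
      intro j k
      rw [star_add]
      ring
    rw [Finset.sum_congr rfl fun j _ => Finset.sum_congr rfl fun k _ => h3 j k]
    simp only [Finset.sum_add_distrib]
    have h4 : ∑ j, ∑ k, (rat v u j k + rat v u k j) * star (rat v u k j) =
        ∑ j, (∑ k, (rat v u j k + rat v u k j) * star (rat v u k j)) := rfl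
    simp only [add_mul, Finset.sum_add_distrib] at h1 h2 ⊢
    linear_combination h1 + h2
  have hs0 : ∀ j k, rat v u j k + rat v u k j = 0 := by
    intro j k
    have h1 : ∑ x ∈ (Finset.univ : Finset (ι × ι)),
        star (rat v u x.1 x.2 + rat v u x.2 x.1) * (rat v u x.1 x.2 + rat v u x.2 x.1) = 0 := by
      rw [Fintype.sum_prod_type]
      exact hall
    exact hpos (ι × ι) Finset.univ (fun x => rat v u x.1 x.2 + rat v u x.2 x.1) h1 (j, k)
      (Finset.mem_univ _)
  exact {
    diag := hu.diag
    hor := hu.hor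
    anti := fun i k => by linear_combination hs0 k i
    bb := hbb }

end Pool.Agent.SicRg
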