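import Pool.Agent.Lib.MP_d0f9e0_co.Rg.Three

set_option autoImplicit false

namespace Pool.Agent.SicRg

open Finset

variable {K : Type*} [Field K] [StarRing K] {n ι : Type} [Fintype n] [Fintype ι]

/-!
File Scal.  (5) of dnote 4498: `S` is a scalar.
-/

variable [CharZero K] [DecidableEq n] [DecidableEq ι] {v z : ι → n → K}

theorem Curve.et_symm (hpos : SicAb.PosStar K) {D : K → K} {X : n → n → K} {th : ι → K}
    (hC : Curve D X th v z) (i k : ι) : et v z i k = et v z k i := by
  have hd := hC.sys.dd_ne i
  have hsd : star (dd n K) = dd n K := by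
    unfold dd; rw [star_natCast]
  have hes : ∀ i k, star (et v z i k) = et v z k i := fun i k => et_star i k
  -- where the difference is not zero the ratio is real, and so is its derivative
  have hreal : ∀ i k, (D (rat v z i k) - star (D (rat v z i k))) *
      (et v z i k - et v z k i) = 0 := by
    intro i k
    have h1 := hC.del_real hpos i k
    rcases mul_eq_zero.1 h1 with h | h
    · have h2 : D (rat v z i k) = star (D (rat v z i k)) := by
        rw [← hC.der.star, ← sub_eq_zero.1 h]
      rw [sub_eq_zero.2 h2, zero_mul]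
    · rw [h, mul_zero]
  have h1 := sum_del hpos hC.sys hC.tan hC.sec
  have h2 := congrArg star h1
  rw [star_sum, star_zero] at h2
  have h3 : ∀ i k, star ((D (rat v z i k) + (et v z i k - et v z k i) / dd n K) *
      (et v z i k - et v z k i)) =
      -((D (rat v z i k) + (et v z i k - et v z k i) / dd n K) * (et v z i k - et v z k i)) -
      2 / dd n K * (star (et v z i k - et v z k i) * (et v z i k - et v z k i)) := by
    intro i k
    have e1 := hreal i k
    rw [star_mul', star_add, star_div₀, hsd, star_sub, hes, hes]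
    linear_combination e1
  have h4 : ∑ i, ∑ k, star (et v z i k - et v z k i) * (et v z i k - et v z k i) = 0 := by
    have h5 : ∑ i, star (∑ k, (D (rat v z i k) + (et v z i k - et v z k i) / dd n K) *
        (et v z i k - et v z k i)) =
        -(∑ i, ∑ k, (D (rat v z i k) + (et v z i k - et v z k i) / dd n K) *
          (et v z i k - et v z k i)) -
        2 / dd n K * ∑ i, ∑ k, star (et v z i k - et v z k i) * (et v z i k - et v z k i) := by
      rw [← Finset.sum_neg_distrib, Finset.mul_sum, ← Finset.sum_sub_distrib]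
      refine Finset.sum_congr rfl fun i _ => ?_
      rw [star_sum, ← Finset.sum_neg_distrib, Finset.mul_sum, ← Finset.sum_sub_distrib]
      exact Finset.sum_congr rfl fun k _ => h3 i k
    rw [h5, h1] at h2
    have h6 : 2 / dd n K * ∑ i, ∑ k, star (et v z i k - et v z k i) *
        (et v z i k - et v z k i) = 0 := by linear_combination -h2
    rcases mul_eq_zero.1 h6 with h | h
    · exact absurd h (div_ne_zero two_ne_zero hd)
    · exact h
  exact sub_eq_zero.1 (pos2 hpos h4 i k)

theorem Curve.opr_v (hpos : SicAb.PosStar K) {D : K → K} {X : n → n → K} {th : ι → K}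
    (hC : Curve D X th v z) (i : ι) :
    opr z z v i = (dd n K * ip (z i) (z i)) • v i := by
  have hd := hC.sys.dd_ne i
  have hd1 : dd n K + 1 ≠ 0 := dd_succ_ne
  have e1 := sum_e2 hC.sys hC.tan i
  have e2 := sum_ee hC.sys hC.tan i
  have e3 : ∑ k, et v z i k * star (et v z i k) = ∑ k, et v z i k ^ 2 := by
    refine Finset.sum_congr rfl fun k _ => ?_
    rw [et_star i k, ← hC.et_symm hpos i k, sq]
  rw [e1, e2] at e3
  have e4 : ip (opr z z v i) (opr z z v i) = ip (v i) (opr z z v i) ^ 2 := by
    have h : (dd n K * (dd n K + 1)) * (ip (opr z z v i) (opr z z v i) -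
        ip (v i) (opr z z v i) ^ 2) = 0 := by linear_combination e3
    exact sub_eq_zero.1 ((mul_eq_zero.1 h).resolve_left (mul_ne_zero hd hd1))
  have e5 : ip (opr z z v i) (v i) = ip (v i) (opr z z v i) := (opr_comm v v i i).symm
  have e6 := S_diag hC.sys hC.tan i
  rw [← sub_eq_zero]
  apply ip_self hpos
  rw [← e6, ip_sub, ip_sub_left, ip_sub_left, ip_smul, ip_smul, ip_smul_left, ip_smul_left,
    hC.sys.unit, e4, star_ip, e5]
  ring

theorem Curve.rho_eq (hpos : SicAb.PosStar K) {D : K → K} {X : n → n → K} {th : ι → K}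
    (hC : Curve D X th v z) (i k : ι) : ip (z i) (z i) = ip (z k) (z k) := by
  by_cases hik : i = k
  · rw [hik]
  have hd := hC.sys.dd_ne i
  have h1 := hC.et_symm hpos i k
  unfold et at h1
  rw [hC.opr_v hpos k, hC.opr_v hpos i, ip_smul, ip_smul] at h1
  have h2 := hC.sys.ang i k
  rw [if_neg hik] at h2
  have h3 : dd n K * (ip (z i) (z i) - ip (z k) (z k)) = 0 := by
    linear_combination -h1 + (dd n K * ip (z k) (z k) - dd n K * ip (z i) (z i)) * h2
  exact sub_eq_zero.1 ((mul_eq_zero.1 h3).resolve_left hd)

theorem Curve.opr_eq (hpos : SicAb.PosStar K) {D : K → K} {X : n → n → K} {th : ι → K}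
    (hC : Curve D X th v z) (i : ι) (y : ι → n → K) :
    opr z z y i = (dd n K * ip (z i) (z i)) • y i := by
  have hd := hC.sys.dd_ne i
  apply ip_ext
  intro w
  have h1 : dd n K * ip w (opr z z y i) = ∑ k, ip w (opr z z v k) * ip (v k) (y i) := by
    have h2 : ∀ k, ip w (opr z z v k) * ip (v k) (y i) =
        ∑ j, ip w (z j) * (ip (z j) (v k) * ip (v k) (y i)) := by
      intro k
      rw [ip_opr, Finset.sum_mul]
      exact Finset.sum_congr rfl fun j _ => by ring
    rw [Finset.sum_congr rfl fun k _ => h2 k, Finset.sum_comm, ip_opr, Finset.mul_sum]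
    refine Finset.sum_congr rfl fun j _ => ?_
    rw [← Finset.mul_sum, hC.sys.T1]
    ring
  have h3 : ∑ k, ip w (opr z z v k) * ip (v k) (y i) =
      dd n K * (dd n K * ip (z i) (z i) * ip w (y i)) := by
    have h4 : ∀ k, ip w (opr z z v k) * ip (v k) (y i) =
        dd n K * ip (z i) (z i) * (ip w (v k) * ip (v k) (y i)) := by
      intro k
      rw [hC.opr_v hpos k, ip_smul, hC.rho_eq hpos k i]
      ring
    rw [Finset.sum_congr rfl fun k _ => h4 k, ← Finset.mul_sum, hC.sys.T1]
    ring
  rw [ip_smul]
  have h5 : dd n K * (ip w (opr z z y i) - dd n K * ip (z i) (z i) * ip w (y i)) = 0 := by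
    rw [mul_sub, h1, h3]; ring
  exact sub_eq_zero.1 ((mul_eq_zero.1 h5).resolve_left hd)

end Pool.Agent.SicRg
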