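import Pool.Agent.Lib.MP_d0f9e0_co.Rg.Four

set_option autoImplicit false

namespace Pool.Agent.SicRg

open Finset

variable {K : Type*} [Field K] [StarRing K] {n ι : Type} [Fintype n] [Fintype ι]

/-!
Matrix identities for the ratios along a curve which is not constant.
-/

section

variable [CharZero K] [DecidableEq ι] {v z : ι → n → K}

/-- `sum a P = - d z v^*` -/
theorem sfI1 (hv : Sys v) (hz : Tan v z) (i : ι) (x y : n → K) :
    ∑ k, rat v z i k * ip x (v k) * ip (v k) y = -(dd n K * ip x (z i) * ip (v i) y) := by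
  have h := hz.bb x (v i) y (v i)
  have h2 := hz.hor x y
  have h3 : ∑ k, rat v z i k * ip x (v k) * ip (v k) y = (dd n K + 1) *
      ∑ k, (ip x (v k) * ip (v i) (z k) + ip x (z k) * ip (v i) (v k)) *
      (ip (v k) y * ip (v k) (v i)) - ∑ k, ip x (z k) * ip (v k) y -
      ∑ k, dd n K * (if i = k then ip x (z k) * ip (v k) y else 0) := by
    rw [mul_sum, ← sum_sub_distrib, ← sum_sub_distrib]
    refine sum_congr rfl fun k _ => ?_
    have h1 : rat v z i k = (dd n K + 1) * (ip (v i) (z k) * ip (v k) (v i)) := rfl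
    have hang := hv.ang i k
    rw [h1]
    split_ifs at hang ⊢ with hik
    · linear_combination -(ip x (z k) * ip (v k) y) * hang
    · linear_combination -(ip x (z k) * ip (v k) y) * hang
  rw [h3, h, h2, ← mul_sum, sum_ite_eq, if_pos (mem_univ i)]
  ring

theorem sf_a0 (hz : Tan v z) (i : ι) : rat v z i i = 0 := by
  unfold rat
  rw [hz.diag i]
  ring

/-- (M3) -/
theorem sfM3 (hv : Sys v) (hz : Tan v z) (i j : ι) :
    ∑ k, rat v z i k * rat v z j k = -(dd n K * rat v z i j ^ 2) := by
  have h := sfI1 hv hz i (v j) (z j)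
  have h1 : ∑ k, rat v z i k * rat v z j k = -((dd n K + 1) *
      ∑ k, rat v z i k * ip (v j) (v k) * ip (v k) (z j)) := by
    rw [mul_sum, ← sum_neg_distrib]
    refine sum_congr rfl fun k _ => ?_
    rw [sb1 hz j k]
    ring
  rw [h1, h]
  have h2 := tr1 hv hz i j
  have h3 := tr2 hv hz i j
  have hang := hv.ang i j
  split_ifs at hang with hij
  · subst hij
    rw [sf_a0 hz i, hz.diag i]
    ring
  · rw [h2, h3]
    linear_combination -(dd n K * rat v z i j ^ 2) * hang

end

section

variable [CharZero K] [DecidableEq n] [DecidableEq ι] {v z : ι → n → K}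
  {D : K → K} {X : n → n → K} {th : ι → K}

/-- (M4) -/
theorem Curve.sfM4 (hpos : SicAb.PosStar K) (hC : Curve D X th v z) (i j : ι) :
    ∑ k, rat v z i k * star (rat v z j k) =
      dd n K * (ip (z i) (z i) * (1 + dd n K * (if i = j then 1 else 0)) - xx v z i j) := by
  have hv := hC.sys
  have hz := hC.tan
  have h := sfI1 hv hz i (z j) (v j)
  have h1 : ∑ k, rat v z i k * star (rat v z j k) = -((dd n K + 1) *
      ∑ k, rat v z i k * ip (z j) (v k) * ip (v k) (v j)) := by
    rw [mul_sum, ← sum_neg_distrib]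
    refine sum_congr rfl fun k _ => ?_
    rw [sb2 hz j k]
    ring
  have h2 := hC.four_m hpos j i
  have h3 : mm v z j i = (dd n K + 1) * (ip (z j) (z i) * ip (v i) (v j)) := rfl
  have h4 : xx v z j i = xx v z i j := by
    unfold xx
    rw [s_symm hz i j, a2_symm hz i j]
  rw [h1, h, ← h4]
  rw [h3, hC.rho_eq hpos j i] at h2
  simp only [eq_comm (a := j) (b := i)] at h2
  linear_combination dd n K * h2

theorem Curve.sf_ra (hpos : SicAb.PosStar K) (hC : Curve D X th v z) (i k : ι) :
    (ip (z i) (z i) - xx v z i k) * rat v z i k = ip (z i) (z i) * star (rat v z i k) := by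
  have h0 := hC.h_zero hpos i k
  rcases hC.four_alt hpos i k with h | h
  · unfold xx
    rw [h]
    ring
  · rw [h] at h0 ⊢
    have h1 : (2 : K) * (rat v z i k * (2 * ip (z i) (z i) - xx v z i k)) = 0 := by
      linear_combination h0
    have h2 := (mul_eq_zero.1 h1).resolve_left two_ne_zero
    linear_combination h2

/-- (M2) -/
theorem Curve.sfM2 (hpos : SicAb.PosStar K) (hC : Curve D X th v z) (i j : ι) :
    ∑ k, rat v z i k * star (rat v z i k) * rat v z j k =
      dd n K * (ip (z i) (z i) * star (rat v z i j)) := by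
  have hv := hC.sys
  have hz := hC.tan
  have h := hz.bb (v j) (z i) (v j) (z i)
  have hs : ∑ k, star (rat v z i k) = 0 := by
    rw [← star_sum, sum_a hv hz i, star_zero]
  have h1 : ∑ k, rat v z i k * star (rat v z i k) * rat v z j k = (dd n K + 1) * ((dd n K + 1) *
      ∑ k, (ip (v j) (v k) * ip (z i) (z k) + ip (v j) (z k) * ip (z i) (v k)) *
      (ip (v k) (v j) * ip (v k) (z i))) +
      ip (z i) (z i) * ∑ k, star (rat v z i k) +
      ip (z i) (z i) * ∑ k, dd n K * (if j = k then star (rat v z i k) else 0) := by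
    rw [mul_sum, mul_sum, mul_sum, mul_sum, ← sum_add_distrib, ← sum_add_distrib]
    refine sum_congr rfl fun k _ => ?_
    have e1 : rat v z j k = (dd n K + 1) * (ip (v j) (z k) * ip (v k) (v j)) := rfl
    have e2 := sb3 hv hz i k
    have e3 := hC.four_zz hpos i k
    have e4 := sb1 hz i k
    have e5 := hC.sf_ra hpos i k
    have hang := hv.ang j k
    have e6 : (dd n K + 1) * (ip (v j) (v k) * ip (v k) (v j)) *
        (star (rat v z i k) * ip (z i) (z i)) =
        ip (z i) (z i) * star (rat v z i k) +
          ip (z i) (z i) * (dd n K * (if j = k then star (rat v z i k) else 0)) := by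
      rw [hang]
      split_ifs
      · ring
      · ring
    rw [e2, e1, e3]
    linear_combination e6 + (dd n K + 1) * (ip (v j) (v k) * ip (v k) (v j)) * e5 -
      (dd n K + 1) * (ip (v j) (v k) * ip (v k) (v j)) * (ip (z i) (z i) - xx v z i k) * e4
  rw [h1, h, hs, ← mul_sum, sum_ite_eq, if_pos (mem_univ j)]
  ring

end

end Pool.Agent.SicRg
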