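import Pool.Agent.Lib.MP_d0f9e0_co.Rg.SfA

set_option autoImplicit false

namespace Pool.Agent.SicRg

open Finset

/-- The normalised ratios `q + b` along a curve of maximal systems which is not constant:
`q` is an integer matrix with entries `0, 1, -1`, and `b = 0` where `q` is not zero. -/
structure SfSys {K ι : Type*} [Field K] [Fintype ι] [DecidableEq ι] (d : ℕ) (q : ι → ι → ℤ)
    (b : ι → ι → K) : Prop where
  card : Fintype.card ι = d ^ 2
  qanti : ∀ i k, q k i = -q i k
  qv : ∀ i k, q i k = 0 ∨ q i k = 1 ∨ q i k = -1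
  banti : ∀ i k, b k i = -b i k
  bq : ∀ i k, q i k ≠ 0 → b i k = 0
  qsum : ∀ i, ∑ k, (q i k : K) = 0
  bsum : ∀ i, ∑ k, b i k = 0
  T : ∀ i k, 2 * ∑ l, (q i l : K) * (q k l : K) =
    d * (1 + d * (if i = k then 1 else 0) - 3 * (q i k : K) ^ 2 - b i k ^ 2)
  BB : ∀ i k, 2 * ∑ l, b i l * b k l =
    -(d * (1 + d * (if i = k then 1 else 0) - (q i k : K) ^ 2 + b i k ^ 2))
  QB : ∀ i k, ∑ l, (q i l : K) * b k l = 0
  SB : ∀ i j, ∑ k, ((q i k : K) ^ 2 - b i k ^ 2) * b j k = d * b i j

variable {K : Type*} [Field K] [StarRing K] {n ι : Type} [Fintype n] [Fintype ι]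
  [CharZero K] [DecidableEq n] [DecidableEq ι] {v z : ι → n → K}
  {D : K → K} {X : n → n → K} {th : ι → K}

theorem Curve.sfSys (hpos : SicAb.PosStar K) (hC : Curve D X th v z) (i0 : ι)
    (hr : ip (z i0) (z i0) ≠ 0) :
    ∃ (q : ι → ι → ℤ) (b : ι → ι → K), SfSys (Fintype.card n) q b := by
  classical
  have hv := hC.sys
  have hz := hC.tan
  obtain ⟨r, hrd⟩ : ∃ r, r = ip (z i0) (z i0) := ⟨_, rfl⟩
  have hri : ∀ i, ip (z i) (z i) = r := fun i => by rw [hrd]; exact hC.rho_eq hpos i i0
  rw [← hrd] at hr
  have hd0 : dd n K ≠ 0 := hv.dd_ne i0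
  have hd1 : dd n K + 1 ≠ 0 := dd_succ_ne
  -- the two cases
  have hcase : ∀ i k, (xx v z i k = 0 ∧ star (rat v z i k) = rat v z i k) ∨
      (xx v z i k = 2 * r ∧ rat v z i k ^ 2 = -r ∧ star (rat v z i k) = -rat v z i k) := by
    intro i k
    have h0 := hC.h_zero hpos i k
    rw [hri] at h0
    rcases hC.four_alt hpos i k with h | h
    · left
      refine ⟨?_, h⟩
      unfold xx
      rw [h]
      ring
    · have hx : xx v z i k = -(2 * rat v z i k ^ 2) := by
        unfold xx
        rw [h]
        ring
      rw [h] at h0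
      have h1 : (2 : K) * (rat v z i k * (2 * r - xx v z i k)) = 0 := by
        linear_combination h0
      rcases mul_eq_zero.1 ((mul_eq_zero.1 h1).resolve_left two_ne_zero) with h2 | h2
      · left
        rw [hx, h, h2]
        constructor <;> ring
      · right
        refine ⟨by linear_combination -h2, ?_, h⟩
        have h3 : (2 : K) * (rat v z i k ^ 2 + r) = 0 := by linear_combination h2 + hx
        linear_combination (mul_eq_zero.1 h3).resolve_left two_ne_zero
  -- a pair with `x` not zero
  obtain ⟨j0, hj0⟩ : ∃ j0, xx v z i0 j0 ≠ 0 := by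
    by_contra hcon
    push Not at hcon
    have h1 : ∑ k, xx v z i0 k = dd n K * (dd n K + 1) * r := by
      have e1 := sum_s hv hz i0
      have e2 := sum_a2 hv hz i0
      rw [hri] at e1
      rw [← e1, ← sub_zero (∑ k, rat v z i0 k * star (rat v z i0 k)), ← e2, ← sum_sub_distrib]
      rfl
    rw [sum_eq_zero fun k _ => hcon k] at h1
    exact mul_ne_zero (mul_ne_zero hd0 hd1) hr h1.symm
  obtain ⟨I, hId⟩ : ∃ I, I = rat v z i0 j0 := ⟨_, rfl⟩
  have hI := (hcase i0 j0).resolve_left fun h => hj0 h.1
  rw [← hId] at hI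
  obtain ⟨-, hI2, hIs⟩ := hI
  have hI0 : I ≠ 0 := by
    intro h
    rw [h] at hI2
    apply hr
    linear_combination hI2
  have hpm : ∀ i k, xx v z i k ≠ 0 → rat v z i k = I ∨ rat v z i k = -I := by
    intro i k hx
    have h1 := ((hcase i k).resolve_left fun h => hx h.1).2.1
    have h2 : rat v z i k ^ 2 = I ^ 2 := by rw [h1, hI2]
    exact sq_eq_sq_iff_eq_or_eq_neg.1 h2
  obtain ⟨q, hq⟩ : ∃ q : ι → ι → ℤ, ∀ i k, q i k = if xx v z i k = 0 then 0 else
      if rat v z i k = I then 1 else -1 := ⟨_, fun _ _ => rfl⟩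
  obtain ⟨b, hb⟩ : ∃ b : ι → ι → K, ∀ i k, b i k = if xx v z i k = 0 then
      rat v z i k / I else 0 := ⟨_, fun _ _ => rfl⟩
  have hII : (2 : K) ≠ 0 := two_ne_zero
  have hneg : -I ≠ I := by
    intro h
    apply hI0
    have : (2 : K) * I = 0 := by linear_combination -h
    exact (mul_eq_zero.1 this).resolve_left two_ne_zero
  -- a = I (q + b), conj a = -I (q - b)
  have ha : ∀ i k, rat v z i k = I * ((q i k : K) + b i k) := by
    intro i k
    rw [hq, hb]
    by_cases hx : xx v z i k = 0
    · rw [if_pos hx, if_pos hx]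
      push_cast
      field_simp
      ring
    · rw [if_neg hx, if_neg hx]
      rcases hpm i k hx with h | h
      · rw [if_pos h, h]
        push_cast
        ring
      · rw [h, if_neg hneg]
        push_cast
        ring
  have has : ∀ i k, star (rat v z i k) = -I * ((q i k : K) - b i k) := by
    intro i k
    have h1 := ha i k
    rcases hcase i k with ⟨hx, hs⟩ | ⟨hx, _, hs⟩
    · have h2 : (q i k : K) = 0 := by rw [hq, if_pos hx]; norm_num
      rw [hs, h1, h2]
      ring
    · have hx0 : xx v z i k ≠ 0 := by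
        rw [hx]
        exact mul_ne_zero two_ne_zero hr
      have h2 : b i k = 0 := by rw [hb, if_neg hx0]
      rw [hs, h1, h2]
      ring
  have hxq : ∀ i k, xx v z i k = 2 * r * (q i k : K) ^ 2 := by
    intro i k
    by_cases hx : xx v z i k = 0
    · rw [hq, if_pos hx, hx]
      norm_num
    · have h3 : xx v z i k = 2 * r := ((hcase i k).resolve_left fun h => hx h.1).1
      rw [h3, hq, if_neg hx]
      split_ifs <;> norm_num
  have hbq : ∀ i k, q i k ≠ 0 → b i k = 0 := by
    intro i k h
    rw [hb, if_neg]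
    intro hx
    apply h
    rw [hq, if_pos hx]
  have hqb0 : ∀ i k, (q i k : K) * b i k = 0 := by
    intro i k
    by_cases h : q i k = 0
    · rw [h]
      norm_num
    · rw [hbq i k h, mul_zero]
  -- the identities
  have e1 : ∀ i j, ∑ k, ((q i k : K) + b i k) * ((q j k : K) + b j k) =
      -(dd n K * ((q i j : K) + b i j) ^ 2) := by
    intro i j
    have h1 := sfM3 hv hz i j
    simp only [ha] at h1
    have h2 : ∑ k, I * ((q i k : K) + b i k) * (I * ((q j k : K) + b j k)) =
        I ^ 2 * ∑ k, ((q i k : K) + b i k) * ((q j k : K) + b j k) := by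
      rw [mul_sum]
      exact sum_congr rfl fun k _ => by ring
    rw [h2] at h1
    apply mul_left_cancel₀ (pow_ne_zero 2 hI0)
    rw [h1]
    ring
  have hsd : star (dd n K) = dd n K := by
    unfold dd
    rw [star_natCast]
  have e1' : ∀ i j, ∑ k, ((q i k : K) - b i k) * ((q j k : K) - b j k) =
      -(dd n K * ((q i j : K) - b i j) ^ 2) := by
    intro i j
    have h1 := congrArg star (sfM3 hv hz i j)
    rw [star_sum, star_neg, star_mul', star_pow, hsd, has] at h1
    have h2 : ∑ k, star (rat v z i k * rat v z j k) =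
        I ^ 2 * ∑ k, ((q i k : K) - b i k) * ((q j k : K) - b j k) := by
      rw [mul_sum]
      refine sum_congr rfl fun k _ => ?_
      rw [star_mul', has, has]
      ring
    rw [h2] at h1
    apply mul_left_cancel₀ (pow_ne_zero 2 hI0)
    rw [h1]
    ring
  have e2 : ∀ i j, ∑ k, ((q i k : K) + b i k) * ((q j k : K) - b j k) =
      dd n K * (1 + dd n K * (if i = j then 1 else 0) - 2 * (q i j : K) ^ 2) := by
    intro i j
    have h1 := hC.sfM4 hpos i j
    rw [hri, hxq] at h1
    have h2 : ∑ k, rat v z i k * star (rat v z j k) =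
        r * ∑ k, ((q i k : K) + b i k) * ((q j k : K) - b j k) := by
      rw [mul_sum]
      refine sum_congr rfl fun k _ => ?_
      rw [ha i k, has j k]
      linear_combination -((q i k : K) + b i k) * ((q j k : K) - b j k) * hI2
    rw [h2] at h1
    apply mul_left_cancel₀ hr
    rw [h1]
    ring
  have e3 : ∀ i j, ∑ k, ((q i k : K) ^ 2 - b i k ^ 2) * ((q j k : K) + b j k) =
      -(dd n K * ((q i j : K) - b i j)) := by
    intro i j
    have h1 := hC.sfM2 hpos i j
    rw [hri, has i j] at h1
    have h2 : ∑ k, rat v z i k * star (rat v z i k) * rat v z j k =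
        (r * I) * ∑ k, ((q i k : K) ^ 2 - b i k ^ 2) * ((q j k : K) + b j k) := by
      rw [mul_sum]
      refine sum_congr rfl fun k _ => ?_
      rw [has i k, ha i k, ha j k]
      linear_combination -((q i k : K) ^ 2 - b i k ^ 2) * ((q j k : K) + b j k) * I * hI2
    rw [h2] at h1
    apply mul_left_cancel₀ (mul_ne_zero hr hI0)
    rw [h1]
    ring
  have hrs : star r = r := by
    rw [← hri i0, star_ip]
  have e3' : ∀ i j, ∑ k, ((q i k : K) ^ 2 - b i k ^ 2) * ((q j k : K) - b j k) =
      -(dd n K * ((q i j : K) + b i j)) := by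
    intro i j
    have h1 := congrArg star (hC.sfM2 hpos i j)
    rw [hri, star_sum, star_mul', star_mul', hsd, hrs, star_star, ha i j] at h1
    have h2 : ∑ k, star (rat v z i k * star (rat v z i k) * rat v z j k) =
        -(r * I) * ∑ k, ((q i k : K) ^ 2 - b i k ^ 2) * ((q j k : K) - b j k) := by
      rw [mul_sum]
      refine sum_congr rfl fun k _ => ?_
      rw [star_mul', star_mul', star_star, has i k, ha i k, has j k]
      linear_combination ((q i k : K) ^ 2 - b i k ^ 2) * ((q j k : K) - b j k) * I * hI2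
    rw [h2] at h1
    apply mul_left_cancel₀ (mul_ne_zero hr hI0)
    linear_combination -h1
  have hasum : ∀ i, ∑ k, ((q i k : K) + b i k) = 0 := by
    intro i
    have h1 := sum_a hv hz i
    rw [sum_congr rfl fun k _ => ha i k, ← mul_sum] at h1
    exact (mul_eq_zero.1 h1).resolve_left hI0
  have hasum' : ∀ i, ∑ k, ((q i k : K) - b i k) = 0 := by
    intro i
    have h1 := congrArg star (sum_a hv hz i)
    rw [star_sum, star_zero, sum_congr rfl fun k _ => has i k, ← mul_sum] at h1
    exact (mul_eq_zero.1 h1).resolve_left (neg_ne_zero.2 hI0)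
  have hanti : ∀ i k, ((q k i : K) + b k i) = -((q i k : K) + b i k) := by
    intro i k
    have h1 := a_anti hz i k
    rw [ha, ha] at h1
    apply mul_left_cancel₀ hI0
    rw [h1]
    ring
  have hanti' : ∀ i k, ((q k i : K) - b k i) = -((q i k : K) - b i k) := by
    intro i k
    have h1 := congrArg star (a_anti hz i k)
    rw [star_neg, has, has] at h1
    apply mul_left_cancel₀ hI0
    linear_combination -h1
  refine ⟨q, b, ?_⟩
  have h2 : (2 : K) ≠ 0 := two_ne_zero
  have hdd : (Fintype.card n : K) = dd n K := rfl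
  refine ⟨hv.card, fun i k => ?_, fun i k => ?_, fun i k => ?_, hbq, fun i => ?_, fun i => ?_,
    fun i k => ?_, fun i k => ?_, fun i k => ?_, fun i j => ?_⟩
  · have h3 : (q k i : K) = -(q i k : K) := by
      apply mul_left_cancel₀ h2
      linear_combination hanti i k + hanti' i k
    exact_mod_cast h3
  · rw [hq]
    split_ifs <;> simp
  · apply mul_left_cancel₀ h2
    linear_combination hanti i k - hanti' i k
  · have h3 : (2 : K) * ∑ k, (q i k : K) =
        ∑ k, ((q i k : K) + b i k) + ∑ k, ((q i k : K) - b i k) := by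
      rw [mul_sum, ← sum_add_distrib]
      exact sum_congr rfl fun k _ => by ring
    rw [hasum, hasum', add_zero] at h3
    exact (mul_eq_zero.1 h3).resolve_left h2
  · have h3 : (2 : K) * ∑ k, b i k =
        ∑ k, ((q i k : K) + b i k) - ∑ k, ((q i k : K) - b i k) := by
      rw [mul_sum, ← sum_sub_distrib]
      exact sum_congr rfl fun k _ => by ring
    rw [hasum, hasum', sub_zero] at h3
    exact (mul_eq_zero.1 h3).resolve_left h2
  · have f1 := e1 i k
    have f2 := e1' i k
    have f3 := e2 i k
    have f4 := e2 k i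
    have h3 : (4 : K) * ∑ l, (q i l : K) * (q k l : K) =
        ∑ l, ((q i l : K) + b i l) * ((q k l : K) + b k l) +
        ∑ l, ((q i l : K) - b i l) * ((q k l : K) - b k l) +
        ∑ l, ((q i l : K) + b i l) * ((q k l : K) - b k l) +
        ∑ l, ((q k l : K) + b k l) * ((q i l : K) - b i l) := by
      rw [mul_sum, ← sum_add_distrib, ← sum_add_distrib, ← sum_add_distrib]
      exact sum_congr rfl fun l _ => by ring
    rw [f1, f2, f3, f4] at h3
    have h4 : (q k i : K) ^ 2 = (q i k : K) ^ 2 := by
      have h5 : (q k i : K) = -(q i k : K) := by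
        apply mul_left_cancel₀ h2
        linear_combination hanti i k + hanti' i k
      rw [h5]
      ring
    rw [h4] at h3
    simp only [eq_comm (a := k) (b := i)] at h3
    rw [hdd]
    apply mul_left_cancel₀ h2
    linear_combination h3
  · have f1 := e1 i k
    have f2 := e1' i k
    have f3 := e2 i k
    have f4 := e2 k i
    have h3 : (4 : K) * ∑ l, b i l * b k l =
        ∑ l, ((q i l : K) + b i l) * ((q k l : K) + b k l) +
        ∑ l, ((q i l : K) - b i l) * ((q k l : K) - b k l) -
        ∑ l, ((q i l : K) + b i l) * ((q k l : K) - b k l) -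
        ∑ l, ((q k l : K) + b k l) * ((q i l : K) - b i l) := by
      rw [mul_sum, ← sum_add_distrib, ← sum_sub_distrib, ← sum_sub_distrib]
      exact sum_congr rfl fun l _ => by ring
    rw [f1, f2, f3, f4] at h3
    have h4 : (q k i : K) ^ 2 = (q i k : K) ^ 2 := by
      have h5 : (q k i : K) = -(q i k : K) := by
        apply mul_left_cancel₀ h2
        linear_combination hanti i k + hanti' i k
      rw [h5]
      ring
    rw [h4] at h3
    simp only [eq_comm (a := k) (b := i)] at h3
    rw [hdd]
    apply mul_left_cancel₀ h2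
    linear_combination h3
  · have f1 := e1 i k
    have f2 := e1' i k
    have f3 := e2 i k
    have f4 := e2 k i
    have h3 : (4 : K) * ∑ l, (q i l : K) * b k l =
        ∑ l, ((q i l : K) + b i l) * ((q k l : K) + b k l) -
        ∑ l, ((q i l : K) - b i l) * ((q k l : K) - b k l) -
        ∑ l, ((q i l : K) + b i l) * ((q k l : K) - b k l) +
        ∑ l, ((q k l : K) + b k l) * ((q i l : K) - b i l) := by
      rw [mul_sum, ← sum_sub_distrib, ← sum_sub_distrib, ← sum_add_distrib]
      exact sum_congr rfl fun l _ => by ring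
    rw [f1, f2, f3, f4] at h3
    have h4 : (q k i : K) ^ 2 = (q i k : K) ^ 2 := by
      have h5 : (q k i : K) = -(q i k : K) := by
        apply mul_left_cancel₀ h2
        linear_combination hanti i k + hanti' i k
      rw [h5]
      ring
    rw [h4] at h3
    simp only [eq_comm (a := k) (b := i)] at h3
    have h6 := hqb0 i k
    have h7 : (4 : K) * ∑ l, (q i l : K) * b k l = 0 := by
      linear_combination h3 - 4 * dd n K * h6
    exact (mul_eq_zero.1 h7).resolve_left (by norm_num)
  · have f1 := e3 i j
    have f2 := e3' i j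
    have h3 : (2 : K) * ∑ k, ((q i k : K) ^ 2 - b i k ^ 2) * b j k =
        ∑ k, ((q i k : K) ^ 2 - b i k ^ 2) * ((q j k : K) + b j k) -
        ∑ k, ((q i k : K) ^ 2 - b i k ^ 2) * ((q j k : K) - b j k) := by
      rw [mul_sum, ← sum_sub_distrib]
      exact sum_congr rfl fun k _ => by ring
    rw [f1, f2] at h3
    rw [hdd]
    apply mul_left_cancel₀ h2
    linear_combination h3

end Pool.Agent.SicRg
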