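import Pool.Agent.Lib.MP_d0f9e0_co.Rg.SfB

set_option autoImplicit false

namespace Pool.Agent.SicRg

open Finset

/-!
Consequences of the system `SfSys` over the integers.
-/

section defs

variable {ι : Type*} [Fintype ι] [DecidableEq ι]

/-- the Gram matrix of `q` -/
def sfT (q : ι → ι → ℤ) (i k : ι) : ℤ := ∑ l, q i l * q k l

/-- `W = - b b^T` -/
def sfW (d : ℕ) (q : ι → ι → ℤ) (i k : ι) : ℤ :=
  d * (1 + d * (if i = k then 1 else 0) - 2 * q i k ^ 2) - sfT q i k

/-- the adjacency matrix of the complement -/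
def sfC (q : ι → ι → ℤ) (i k : ι) : ℤ := 1 - (if i = k then 1 else 0) - q i k ^ 2

/-- the number of common neighbours -/
def sfB2 (q : ι → ι → ℤ) (i k : ι) : ℤ := ∑ l, q i l ^ 2 * q k l ^ 2

end defs

variable {K ι : Type*} [Field K] [CharZero K] [Fintype ι] [DecidableEq ι]
  {d : ℕ} {q : ι → ι → ℤ} {b : ι → ι → K}

namespace SfSys

omit [CharZero K] in
theorem q0 (h : SfSys d q b) (i : ι) : q i i = 0 := by
  have := h.qanti i i
  omega

theorem b0 (h : SfSys d q b) (i : ι) : b i i = 0 := by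
  have h1 := h.banti i i
  have h2 : (2 : K) * b i i = 0 := by linear_combination h1
  exact (mul_eq_zero.1 h2).resolve_left two_ne_zero

omit [CharZero K] in
theorem d_ne (h : SfSys d q b) (i : ι) : d ≠ 0 := by
  intro hd
  have h1 : 0 < Fintype.card ι := Fintype.card_pos_iff.mpr ⟨i⟩
  rw [h.card, hd] at h1
  simp at h1

omit [CharZero K] in
theorem q2_symm (h : SfSys d q b) (i k : ι) : q k i ^ 2 = q i k ^ 2 := by
  rw [h.qanti i k]
  ring

omit [CharZero K] [DecidableEq ι] in
theorem t_symm' (q : ι → ι → ℤ) (i k : ι) : sfT q k i = sfT q i k := by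
  unfold sfT
  exact sum_congr rfl fun l _ => mul_comm _ _

omit [CharZero K] [DecidableEq ι] in
theorem b2_symm' (q : ι → ι → ℤ) (i k : ι) : sfB2 q k i = sfB2 q i k := by
  unfold sfB2
  exact sum_congr rfl fun l _ => mul_comm _ _

omit [CharZero K] in
theorem w_symm (h : SfSys d q b) (i k : ι) : sfW d q k i = sfW d q i k := by
  unfold sfW
  rw [t_symm' q i k, h.q2_symm i k]
  simp only [eq_comm]

omit [CharZero K] in
theorem T' (h : SfSys d q b) (i k : ι) : 2 * (sfT q i k : K) =
    d * (1 + d * (if i = k then 1 else 0) - 3 * (q i k : K) ^ 2 - b i k ^ 2) := by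
  rw [← h.T i k]
  unfold sfT
  push_cast
  rfl

omit [CharZero K] in
theorem W' (h : SfSys d q b) (i k : ι) : 2 * (sfW d q i k : K) =
    d * (1 + d * (if i = k then 1 else 0) - (q i k : K) ^ 2 + b i k ^ 2) := by
  have h1 := h.T' i k
  unfold sfW
  push_cast
  linear_combination -h1

theorem bb (h : SfSys d q b) (i k : ι) : ∑ l, b i l * b k l = -(sfW d q i k : K) := by
  have h1 := h.BB i k
  have h2 := h.W' i k
  apply mul_left_cancel₀ (two_ne_zero (α := K))
  rw [h1]
  linear_combination h2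

theorem bb' (h : SfSys d q b) (i k : ι) : ∑ l, b i l * b l k = (sfW d q i k : K) := by
  have h1 := h.bb i k
  rw [← neg_eq_iff_eq_neg] at h1
  rw [← h1, ← sum_neg_distrib]
  refine sum_congr rfl fun l _ => ?_
  rw [h.banti k l]
  ring

theorem wb (h : SfSys d q b) (i j : ι) : ∑ k, (sfW d q i k : K) * b j k = -(d ^ 2 * b i j) := by
  have hd : (d : K) ≠ 0 := by exact_mod_cast h.d_ne i
  have h1 := h.SB i j
  have h2 : d * ∑ k, ((q i k : K) ^ 2 - b i k ^ 2) * b j k =
      d * ∑ k, b j k + d * ∑ k, d * (if i = k then b j k else 0) -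
      2 * ∑ k, (sfW d q i k : K) * b j k := by
    rw [mul_sum, mul_sum, mul_sum, mul_sum, ← sum_add_distrib, ← sum_sub_distrib]
    refine sum_congr rfl fun k _ => ?_
    have h3 := h.W' i k
    split_ifs at h3 ⊢
    · linear_combination (b j k) * h3
    · linear_combination (b j k) * h3
  rw [h1, h.bsum j, ← mul_sum, sum_ite_eq, if_pos (mem_univ i), h.banti i j] at h2
  apply mul_left_cancel₀ (two_ne_zero (α := K))
  linear_combination h2

theorem wb' (h : SfSys d q b) (i l : ι) : ∑ j, (sfW d q i j : K) * b j l = d ^ 2 * b i l := by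
  have h1 := h.wb i l
  rw [← neg_eq_iff_eq_neg] at h1
  rw [← h1, ← sum_neg_distrib]
  refine sum_congr rfl fun j _ => ?_
  rw [h.banti l j]
  ring

theorem bw (h : SfSys d q b) (i k : ι) : ∑ j, b i j * (sfW d q j k : K) = d ^ 2 * b i k := by
  have h1 := h.wb k i
  rw [h.banti i k] at h1
  rw [← neg_neg (d ^ 2 * b i k), ← mul_neg, ← h1]
  refine sum_congr rfl fun j _ => ?_
  rw [h.w_symm k j]
  ring

omit [CharZero K] in
theorem bt (h : SfSys d q b) (i k : ι) : ∑ j, b i j * (sfT q j k : K) = 0 := by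
  unfold sfT
  push_cast
  have h1 : ∑ j, b i j * ∑ l, (q j l : K) * (q k l : K) =
      -∑ l, (q k l : K) * ∑ j, (q l j : K) * b i j := by
    rw [← sum_neg_distrib]
    simp only [mul_sum, ← sum_neg_distrib]
    rw [sum_comm]
    refine sum_congr rfl fun l _ => sum_congr rfl fun j _ => ?_
    rw [h.qanti l j]
    push_cast
    ring
  rw [h1, sum_eq_zero fun l _ => by rw [h.QB l i, mul_zero], neg_zero]

/-- `b B = 0` -/
theorem bB (h : SfSys d q b) (i k : ι) : ∑ j, b i j * ((q j k ^ 2 : ℤ) : K) = 0 := by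
  have hd : (d : K) ≠ 0 := by exact_mod_cast h.d_ne i
  have h1 : 2 * d * ∑ j, b i j * ((q j k ^ 2 : ℤ) : K) =
      d * ∑ j, b i j + d * ∑ j, d * (if j = k then b i j else 0) -
      ∑ j, b i j * (sfW d q j k : K) - ∑ j, b i j * (sfT q j k : K) := by
    rw [mul_sum, mul_sum, mul_sum, ← sum_add_distrib, ← sum_sub_distrib, ← sum_sub_distrib]
    refine sum_congr rfl fun j _ => ?_
    unfold sfW
    push_cast
    split_ifs
    · ring
    · ring
  rw [h.bsum i, h.bw i k, h.bt i k, ← mul_sum, sum_ite_eq', if_pos (mem_univ k)] at h1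
  have h2 : 2 * d * ∑ j, b i j * ((q j k ^ 2 : ℤ) : K) = 0 := by
    rw [h1]
    ring
  exact (mul_eq_zero.1 h2).resolve_left (mul_ne_zero two_ne_zero hd)

theorem Bb (h : SfSys d q b) (i k : ι) : ∑ j, ((q i j ^ 2 : ℤ) : K) * b j k = 0 := by
  have h1 := h.bB k i
  rw [← neg_zero, ← h1, ← sum_neg_distrib]
  refine sum_congr rfl fun j _ => ?_
  rw [h.banti k j, h.q2_symm i j]
  ring

/-- `W B = 0` -/
theorem wB (h : SfSys d q b) (i k : ι) : ∑ j, sfW d q i j * q j k ^ 2 = 0 := by
  have h1 : ∑ j, (sfW d q i j : K) * ((q j k ^ 2 : ℤ) : K) =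
      ∑ l, b i l * ∑ j, b l j * ((q j k ^ 2 : ℤ) : K) := by
    simp only [mul_sum]
    rw [sum_comm]
    refine sum_congr rfl fun j _ => ?_
    rw [← h.bb' i j, sum_mul]
    exact sum_congr rfl fun l _ => by ring
  have h2 : ∑ l, b i l * ∑ j, b l j * ((q j k ^ 2 : ℤ) : K) = 0 :=
    sum_eq_zero fun l _ => by rw [h.bB l k, mul_zero]
  rw [h2] at h1
  exact_mod_cast h1

/-- `W W = d ^ 2 W` -/
theorem ww (h : SfSys d q b) (i k : ι) : ∑ j, sfW d q i j * sfW d q j k = d ^ 2 * sfW d q i k := by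
  have h1 : ∑ j, (sfW d q i j : K) * (sfW d q j k : K) =
      ∑ l, (∑ j, (sfW d q i j : K) * b j l) * b l k := by
    simp only [sum_mul]
    rw [sum_comm]
    refine sum_congr rfl fun j _ => ?_
    rw [← h.bb' j k, mul_sum]
    exact sum_congr rfl fun l _ => by ring
  have h2 : ∑ l, (∑ j, (sfW d q i j : K) * b j l) * b l k = d ^ 2 * (sfW d q i k : K) := by
    rw [← h.bb' i k, mul_sum]
    refine sum_congr rfl fun l _ => ?_
    rw [h.wb' i l]
    ring
  rw [h2] at h1
  exact_mod_cast h1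

theorem t_edge (h : SfSys d q b) {i k : ι} (hq : q i k ≠ 0) : sfT q i k = -d := by
  have h1 := h.T' i k
  have hik : i ≠ k := fun e => hq (by rw [e]; exact h.q0 k)
  have h2 : (q i k : K) ^ 2 = 1 := by
    rcases h.qv i k with e | e | e
    · exact absurd e hq
    · rw [e]; norm_num
    · rw [e]; norm_num
  rw [h.bq i k hq, if_neg hik, h2] at h1
  have h3 : (2 : K) * (sfT q i k : K) = 2 * (-(d : K)) := by
    rw [h1]
    ring
  have h4 := mul_left_cancel₀ (two_ne_zero (α := K)) h3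
  exact_mod_cast h4

theorem t_diag (h : SfSys d q b) (i : ι) : 2 * sfT q i i = d * (1 + d) := by
  have h1 := h.T' i i
  rw [h.b0 i, h.q0 i, if_pos rfl] at h1
  have h2 : (2 : K) * (sfT q i i : K) = d * (1 + d) := by
    rw [h1]
    push_cast
    ring
  exact_mod_cast h2

theorem b_sq (h : SfSys d q b) {i k : ι} (hik : i ≠ k) (hq : q i k = 0) :
    d * b i k ^ 2 = d - 2 * (sfT q i k : K) := by
  have h1 := h.T' i k
  rw [if_neg hik, hq] at h1
  push_cast at h1
  linear_combination h1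

theorem w_edge (h : SfSys d q b) {i k : ι} (hq : q i k ≠ 0) : sfW d q i k = 0 := by
  have hik : i ≠ k := fun e => hq (by rw [e]; exact h.q0 k)
  have h2 : q i k ^ 2 = 1 := by
    rcases h.qv i k with e | e | e
    · exact absurd e hq
    · rw [e]; norm_num
    · rw [e]; norm_num
  unfold sfW
  rw [h.t_edge hq, if_neg hik, h2]
  ring

omit [CharZero K] in
theorem t_diag' (i : ι) : ∑ l, q i l ^ 2 = sfT q i i := by
  unfold sfT
  exact sum_congr rfl fun l _ => sq _

omit [CharZero K] in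
theorem q_sum_int [CharZero K] (h : SfSys d q b) (i : ι) : ∑ l, q i l = 0 := by
  have h1 := h.qsum i
  exact_mod_cast h1

theorem t_sum (h : SfSys d q b) (i : ι) : ∑ k, sfT q i k = 0 := by
  unfold sfT
  rw [sum_comm]
  refine sum_eq_zero fun l _ => ?_
  rw [← mul_sum]
  have h1 : ∑ k, q k l = 0 := by
    have h2 := h.q_sum_int l
    rw [← neg_zero, ← h2, ← sum_neg_distrib]
    exact sum_congr rfl fun k _ => h.qanti l k
  rw [h1, mul_zero]

omit [CharZero K] in
/-- `C C` -/
theorem cc (h : SfSys d q b) (i k : ι) : ∑ j, sfC q i j * sfC q j k =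
    d ^ 2 - 2 - sfT q i i - sfT q k k + (if i = k then 1 else 0) + 2 * q i k ^ 2 + sfB2 q i k := by
  unfold sfC sfB2
  have h1 : ∀ j, (1 - (if i = j then (1 : ℤ) else 0) - q i j ^ 2) *
      (1 - (if j = k then (1 : ℤ) else 0) - q j k ^ 2) =
      1 - (if i = j then (1 : ℤ) else 0) - q i j ^ 2 - (if j = k then (1 : ℤ) else 0) - q k j ^ 2 +
      (if i = j then (if j = k then (1 : ℤ) else 0) else 0) +
      (if j = k then q i j ^ 2 else 0) + (if i = j then q j k ^ 2 else 0) +
      q i j ^ 2 * q k j ^ 2 := by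
    intro j
    rw [h.q2_symm k j]
    split_ifs <;> ring
  simp only [h1, sum_add_distrib, sum_sub_distrib, sum_ite_eq, sum_ite_eq', mem_univ, if_true,
    t_diag']
  rw [sum_const, card_univ, h.card]
  simp only [nsmul_eq_mul, mul_one]
  push_cast
  ring

omit [CharZero K] in
/-- `C B` -/
theorem cB (h : SfSys d q b) (i k : ι) : ∑ j, sfC q i j * q j k ^ 2 =
    sfT q k k - q i k ^ 2 - sfB2 q i k := by
  unfold sfC sfB2
  have h1 : ∀ j, (1 - (if i = j then (1 : ℤ) else 0) - q i j ^ 2) * q j k ^ 2 =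
      q k j ^ 2 - (if i = j then q j k ^ 2 else 0) - q i j ^ 2 * q k j ^ 2 := by
    intro j
    rw [h.q2_symm k j]
    split_ifs <;> ring
  simp only [h1, sum_sub_distrib, sum_ite_eq, mem_univ, if_true, t_diag']

end SfSys

end Pool.Agent.SicRg
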