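import Pool.Agent.Lib.MP_d0f9e0_co.Rg.SfC

set_option autoImplicit false

namespace Pool.Agent.SicRg

open Finset Polynomial

/-!
Reduction modulo a prime over `2`: the entrywise square is the Frobenius map.
-/

section two

universe u0

theorem coe_zint {K : Type*} [Field K] (a : ℤ) :
    (((a : ℤ) : integralClosure ℤ K) : K) = (a : K) := by
  exact map_intCast (algebraMap (integralClosure ℤ K) K) a

theorem two_int_of_sq {K : Type*} [Field K] (x : K) (a c : ℤ) (h : x ^ 2 = a * x + c) :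
    IsIntegral ℤ x := by
  refine ⟨X ^ 2 + (C (-a) * X + C (-c)), ?_, ?_⟩
  · exact monic_X_pow_add ((degree_linear_le).trans_lt (by norm_num))
  · rw [eval₂_add, eval₂_add, eval₂_mul, eval₂_pow, eval₂_X, eval₂_C, eval₂_C, map_neg, map_neg,
      eq_intCast, eq_intCast, h]
    ring

theorem int_of_rat {K : Type*} [Field K] [CharZero K] (y : K) (hy : IsIntegral ℤ y) (n c : ℤ)
    (hc : c ≠ 0) (h : c * y = n) : ∃ Y : ℤ, y = Y := by
  have hc' : (c : K) ≠ 0 := by exact_mod_cast hc
  have h1 : y = algebraMap ℚ K ((n : ℚ) / c) := by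
    rw [map_div₀, map_intCast, map_intCast, ← h]
    field_simp
  rw [h1] at hy
  have h2 : IsIntegral ℤ ((n : ℚ) / c) :=
    (isIntegral_algebraMap_iff (algebraMap ℚ K).injective).1 hy
  obtain ⟨Y, hY⟩ := IsIntegrallyClosed.isIntegral_iff.1 h2
  refine ⟨Y, ?_⟩
  rw [h1, ← hY]
  simp

theorem exists_phi (K : Type u0) [Field K] [CharZero K] :
    ∃ (κ : Type u0) (_ : Field κ) (_ : CharP κ 2) (_ : integralClosure ℤ K →+* κ), True := by
  have h1 : Ideal.span {(2 : integralClosure ℤ K)} ≠ ⊤ := by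
    rw [Ne, Ideal.span_singleton_eq_top]
    intro hu
    obtain ⟨y, hy⟩ := hu.exists_right_inv
    have h2 : (2 : K) * (y : K) = 1 := by
      have h3 := congrArg (fun z : integralClosure ℤ K => (z : K)) hy
      exact h3
    obtain ⟨Y, hY⟩ := int_of_rat (y : K) y.2 1 2 (by norm_num) (by push_cast; exact h2)
    rw [hY] at h2
    have h3 : 2 * Y = 1 := by exact_mod_cast h2
    omega
  obtain ⟨P, hP, hle⟩ := Ideal.exists_le_maximal _ h1
  have h2 : (2 : integralClosure ℤ K) ∈ P := hle (Ideal.subset_span rfl)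
  letI : Field (integralClosure ℤ K ⧸ P) := Ideal.Quotient.field P
  refine ⟨integralClosure ℤ K ⧸ P, inferInstance, ?_, Ideal.Quotient.mk P, trivial⟩
  apply CharTwo.of_one_ne_zero_of_two_eq_zero one_ne_zero
  have h3 := Ideal.Quotient.eq_zero_iff_mem.2 h2
  rw [← h3, map_ofNat]

theorem char2_sq_inj {κ : Type*} [Field κ] [CharP κ 2] {x y : κ} (h : x ^ 2 = y ^ 2) : x = y := by
  have h2 : (2 : κ) = 0 := CharTwo.two_eq_zero
  have h1 : (x - y) ^ 2 = 0 := by
    linear_combination h + (y ^ 2 - x * y) * h2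
  exact sub_eq_zero.1 (pow_eq_zero_iff (two_ne_zero) |>.1 h1)

theorem char2_sum_sq {κ ι : Type*} [Field κ] [CharP κ 2] (s : Finset ι) (f : ι → κ) :
    (∑ i ∈ s, f i) ^ 2 = ∑ i ∈ s, f i ^ 2 := by
  classical
  have h2 : (2 : κ) = 0 := CharTwo.two_eq_zero
  induction s using Finset.induction_on with
  | empty => simp
  | insert a s ha ih =>
    rw [sum_insert ha, sum_insert ha, ← ih]
    linear_combination (f a * ∑ i ∈ s, f i) * h2

theorem char2_int_sq {κ : Type*} [Field κ] [CharP κ 2] (n : ℤ) : (n : κ) ^ 2 = n := by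
  have h1 : ((n ^ 2 - n : ℤ) : κ) = 0 := by
    rw [CharP.intCast_eq_zero_iff κ 2]
    have h2 : n ^ 2 - n = n * (n - 1) := by ring
    rw [h2]
    exact (Int.even_mul_pred_self n).two_dvd
  push_cast at h1
  exact sub_eq_zero.1 h1

end two

variable {K ι : Type*} [Field K] [CharZero K] [Fintype ι] [DecidableEq ι]
  {d : ℕ} {q : ι → ι → ℤ} {b : ι → ι → K}

namespace SfSys

omit [CharZero K] in
theorem c_cases (h : SfSys d q b) (i k : ι) :
    (sfC q i k = 1 ∧ i ≠ k ∧ q i k = 0) ∨ (sfC q i k = 0 ∧ (i = k ∨ q i k ≠ 0)) := by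
  unfold sfC
  by_cases hik : i = k
  · right
    subst hik
    rw [if_pos rfl, h.q0 i]
    exact ⟨by norm_num, Or.inl rfl⟩
  · rw [if_neg hik]
    rcases h.qv i k with e | e | e
    · left
      rw [e]
      exact ⟨by norm_num, hik, rfl⟩
    · right
      rw [e]
      exact ⟨by norm_num, Or.inr (by norm_num)⟩
    · right
      rw [e]
      exact ⟨by norm_num, Or.inr (by norm_num)⟩

theorem b_zero_of (h : SfSys d q b) {i k : ι} (hik : i = k ∨ q i k ≠ 0) : b i k = 0 := by
  rcases hik with e | e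
  · rw [e]
    exact h.b0 k
  · exact h.bq i k e

theorem b_int (h : SfSys d q b) (i k : ι) : IsIntegral ℤ ((d : K) * b i k) := by
  rcases h.c_cases i k with ⟨_, hik, hq⟩ | ⟨_, hc⟩
  · refine two_int_of_sq _ 0 (d * (d - 2 * sfT q i k)) ?_
    have h1 := h.b_sq hik hq
    push_cast
    linear_combination d * h1
  · rw [h.b_zero_of hc, mul_zero]
    exact isIntegral_zero

theorem t_even (h : SfSys d q b) (hd : ¬ 2 ∣ (d : ℤ)) (i k : ι) : (2 : ℤ) ∣ sfT q i k + q i k := by
  obtain ⟨κ, _, _, φ, -⟩ := exists_phi K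
  obtain ⟨bO, hbO⟩ : ∃ bO : ι → ι → integralClosure ℤ K, ∀ i k, (bO i k : K) = d * b i k :=
    ⟨fun i k => ⟨_, h.b_int i k⟩, fun _ _ => rfl⟩
  have hdκ : ((d : ℤ) : κ) = 1 := by
    have h1 : (((d : ℤ) - 1 : ℤ) : κ) = 0 := by
      rw [CharP.intCast_eq_zero_iff κ 2]
      push_cast
      omega
    push_cast at h1
    push_cast
    exact sub_eq_zero.1 h1
  have hφb : ∀ i k, φ (bO i k) = ((sfC q i k : ℤ) : κ) := by
    intro i k
    rcases h.c_cases i k with ⟨hc, hik, hq⟩ | ⟨hc, hb⟩
    · rw [hc]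
      have h1 : (bO i k) ^ 2 = ((d * (d - 2 * sfT q i k) : ℤ) : integralClosure ℤ K) := by
        apply Subtype.ext
        rw [coe_zint]
        push_cast
        rw [hbO]
        have h1 := h.b_sq hik hq
        linear_combination d * h1
      have h2 := congrArg φ h1
      rw [map_pow, map_intCast] at h2
      apply char2_sq_inj
      rw [h2]
      have h3 : (2 : κ) = 0 := CharTwo.two_eq_zero
      push_cast at hdκ ⊢
      rw [hdκ]
      linear_combination -(sfT q i k : κ) * h3
    · have h1 : bO i k = 0 := by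
        apply Subtype.ext
        rw [hbO, h.b_zero_of hb]
        simp
      rw [h1, hc, map_zero]
      norm_num
  have h1 : ∑ l, ((q i l : ℤ) : integralClosure ℤ K) * bO k l = 0 := by
    apply Subtype.ext
    push_cast
    have h2 := h.QB i k
    rw [← mul_zero (d : K), ← h2, mul_sum]
    refine sum_congr rfl fun l _ => ?_
    rw [hbO]
    ring
  have h2 := congrArg φ h1
  rw [map_sum, map_zero] at h2
  simp only [map_mul, map_intCast, hφb] at h2
  have h3 : ((∑ l, q i l * sfC q k l : ℤ) : κ) = 0 := by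
    push_cast
    exact h2
  rw [CharP.intCast_eq_zero_iff κ 2] at h3
  have h4 : ∑ l, q i l * sfC q k l = -(sfT q i k + q i k) - ∑ l, q i l * (q k l ^ 2 - q k l) := by
    have h5 : ∑ l, q i l * sfC q k l = ∑ l, q i l - ∑ l, (if k = l then q i l else 0) -
        ∑ l, q i l * q k l - ∑ l, q i l * (q k l ^ 2 - q k l) := by
      rw [← sum_sub_distrib, ← sum_sub_distrib, ← sum_sub_distrib]
      refine sum_congr rfl fun l _ => ?_
      unfold sfC
      split_ifs <;> ring
    rw [h5, h.q_sum_int i, sum_ite_eq, if_pos (mem_univ k)]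
    unfold sfT
    ring
  have h5 : (2 : ℤ) ∣ ∑ l, q i l * (q k l ^ 2 - q k l) := by
    refine dvd_sum fun l _ => dvd_mul_of_dvd_right ?_ _
    have h6 : q k l ^ 2 - q k l = q k l * (q k l - 1) := by ring
    rw [h6]
    exact (Int.even_mul_pred_self _).two_dvd
  rw [h4] at h3
  push_cast at h3
  omega

end SfSys

end Pool.Agent.SicRg
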