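import Pool.Agent.Lib.MP_d0f9e0_co.Rg.SfD

set_option autoImplicit false

namespace Pool.Agent.SicRg

open Finset

/-!
The two congruences: entrywise square is the Frobenius map modulo a prime over `2`.
-/

variable {K ι : Type*} [Field K] [CharZero K] [Fintype ι] [DecidableEq ι]
  {d m : ℕ} {q : ι → ι → ℤ} {b : ι → ι → K}

namespace SfSys

omit [CharZero K] in
theorem c_sq (h : SfSys d q b) (i k : ι) : (sfC q i k : K) ^ 2 = sfC q i k := by
  rcases h.c_cases i k with ⟨hc, _⟩ | ⟨hc, _⟩ <;> rw [hc] <;> norm_num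

theorem cb (h : SfSys d q b) (i k : ι) : (sfC q i k : K) * b i k = b i k := by
  rcases h.c_cases i k with ⟨hc, _⟩ | ⟨hc, e⟩
  · rw [hc]
    norm_num
  · rw [h.b_zero_of e, mul_zero]

/-- the entries of `d (C + b) / 2` are integral -/
theorem o_int (h : SfSys d q b) (hd : ¬ 2 ∣ (d : ℤ)) (i k : ι) :
    IsIntegral ℤ ((d : K) * (sfC q i k + b i k) / 2) := by
  rcases h.c_cases i k with ⟨hc, hik, hq⟩ | ⟨hc, e⟩
  · obtain ⟨s, hs⟩ := h.t_even hd i k
    rw [hq, add_zero] at hs
    refine two_int_of_sq _ d (-(d * s)) ?_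
    have h1 := h.b_sq hik hq
    rw [hs] at h1
    rw [hc]
    push_cast at h1 ⊢
    linear_combination d / 4 * h1
  · rw [h.b_zero_of e, hc]
    simp only [Int.cast_zero, add_zero, mul_zero, zero_div]
    exact isIntegral_zero

/-- `o ^ 2 + d ^ 2 m delta = (d / 2) (W + d b)` -/
theorem zrel (h : SfSys d q b) (hm : d + 1 = 4 * m) (i k : ι) :
    ((d : K) * (sfC q i k + b i k) / 2) ^ 2 + d ^ 2 * m * (if i = k then 1 else 0) =
      d / 2 * (sfW d q i k + d * b i k) := by
  have h1 := h.W' i k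
  have h2 := h.c_sq i k
  have h3 := h.cb i k
  have hm' : (d : K) + 1 = 4 * m := by exact_mod_cast hm
  have h4 : (sfC q i k : K) = 1 - (if i = k then 1 else 0) - (q i k : K) ^ 2 := by
    unfold sfC
    push_cast
    rfl
  linear_combination (d : K) ^ 2 / 4 * h2 + (d : K) ^ 2 / 2 * h3 - d / 4 * h1 +
    (d : K) ^ 2 / 4 * h4 - (d : K) ^ 2 / 4 * (if i = k then 1 else 0) * hm'

theorem zz (h : SfSys d q b) (i k : ι) :
    ∑ j, ((d : K) / 2 * (sfW d q i j + d * b i j)) * (d / 2 * (sfW d q j k + d * b j k)) =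
      d ^ 3 * (d / 2 * (sfW d q i k + d * b i k)) := by
  have h1 := h.ww i k
  have h1' : ∑ j, (sfW d q i j : K) * (sfW d q j k : K) = d ^ 2 * (sfW d q i k : K) := by
    exact_mod_cast h1
  have h2 := h.wb' i k
  have h3 := h.bw i k
  have h4 := h.bb' i k
  have h5 : ∑ j, ((d : K) / 2 * (sfW d q i j + d * b i j)) * (d / 2 * (sfW d q j k + d * b j k)) =
      (d : K) ^ 2 / 4 * ∑ j, (sfW d q i j : K) * (sfW d q j k : K) +
      (d : K) ^ 3 / 4 * ∑ j, (sfW d q i j : K) * b j k +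
      (d : K) ^ 3 / 4 * ∑ j, b i j * (sfW d q j k : K) +
      (d : K) ^ 4 / 4 * ∑ j, b i j * b j k := by
    simp only [mul_sum, ← sum_add_distrib]
    exact sum_congr rfl fun j _ => by ring
  rw [h5, h1', h2, h3, h4]
  ring

theorem zB (h : SfSys d q b) (i k : ι) :
    ∑ j, ((d : K) / 2 * (sfW d q i j + d * b i j)) * ((q j k ^ 2 : ℤ) : K) = 0 := by
  have h1 := h.wB i k
  have h1' : ∑ j, (sfW d q i j : K) * ((q j k ^ 2 : ℤ) : K) = 0 := by
    exact_mod_cast h1
  have h2 := h.bB i k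
  have h5 : ∑ j, ((d : K) / 2 * (sfW d q i j + d * b i j)) * ((q j k ^ 2 : ℤ) : K) =
      (d : K) / 2 * ∑ j, (sfW d q i j : K) * ((q j k ^ 2 : ℤ) : K) +
      (d : K) ^ 2 / 2 * ∑ j, b i j * ((q j k ^ 2 : ℤ) : K) := by
    simp only [mul_sum, ← sum_add_distrib]
    exact sum_congr rfl fun j _ => by ring
  rw [h5, h1', h2]
  ring

/-- `o B = (d / 2) C B` -/
theorem oB (h : SfSys d q b) (i k : ι) :
    ∑ j, ((d : K) * (sfC q i j + b i j) / 2) * ((q j k ^ 2 : ℤ) : K) =
      d / 2 * ((sfT q k k - q i k ^ 2 - sfB2 q i k : ℤ) : K) := by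
  have h1 := h.cB i k
  have h1' : ∑ j, (sfC q i j : K) * ((q j k ^ 2 : ℤ) : K) =
      ((sfT q k k - q i k ^ 2 - sfB2 q i k : ℤ) : K) := by
    rw [← h1]
    push_cast
    rfl
  have h2 := h.bB i k
  have h5 : ∑ j, ((d : K) * (sfC q i j + b i j) / 2) * ((q j k ^ 2 : ℤ) : K) =
      (d : K) / 2 * ∑ j, (sfC q i j : K) * ((q j k ^ 2 : ℤ) : K) +
      (d : K) / 2 * ∑ j, b i j * ((q j k ^ 2 : ℤ) : K) := by
    simp only [mul_sum, ← sum_add_distrib]
    exact sum_congr rfl fun j _ => by ring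
  rw [h5, h1', h2]
  ring

theorem Cb (h : SfSys d q b) (i k : ι) : ∑ j, (sfC q i j : K) * b j k = -b i k := by
  have h0 : ∑ j, b j k = 0 := by
    have h1 := h.bsum k
    rw [← neg_zero, ← h1, ← sum_neg_distrib]
    exact sum_congr rfl fun j _ => h.banti k j
  have h1 := h.Bb i k
  have h2 : ∑ j, (sfC q i j : K) * b j k = ∑ j, b j k - ∑ j, (if i = j then b j k else 0) -
      ∑ j, ((q i j ^ 2 : ℤ) : K) * b j k := by
    rw [← sum_sub_distrib, ← sum_sub_distrib]
    refine sum_congr rfl fun j _ => ?_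
    unfold sfC
    push_cast
    split_ifs <;> ring
  rw [h2, h0, h1, sum_ite_eq, if_pos (mem_univ i)]
  ring

theorem bC (h : SfSys d q b) (i k : ι) : ∑ j, b i j * (sfC q j k : K) = -b i k := by
  have h0 := h.bsum i
  have h1 := h.bB i k
  have h2 : ∑ j, b i j * (sfC q j k : K) = ∑ j, b i j - ∑ j, (if j = k then b i j else 0) -
      ∑ j, b i j * ((q j k ^ 2 : ℤ) : K) := by
    rw [← sum_sub_distrib, ← sum_sub_distrib]
    refine sum_congr rfl fun j _ => ?_
    unfold sfC
    push_cast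
    split_ifs <;> ring
  rw [h2, h0, h1, sum_ite_eq', if_pos (mem_univ k)]
  ring

/-- `4 (o o + d o) = d ^ 2 (C C + W + 2 C)` -/
theorem oo (h : SfSys d q b) (i k : ι) :
    4 * (∑ j, ((d : K) * (sfC q i j + b i j) / 2) * ((d : K) * (sfC q j k + b j k) / 2) +
      d * ((d : K) * (sfC q i k + b i k) / 2)) =
      ((d ^ 2 * (∑ j, sfC q i j * sfC q j k + sfW d q i k + 2 * sfC q i k) : ℤ) : K) := by
  have h1 := h.Cb i k
  have h2 := h.bC i k
  have h3 := h.bb' i k
  have h5 : ∑ j, ((d : K) * (sfC q i j + b i j) / 2) * ((d : K) * (sfC q j k + b j k) / 2) =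
      (d : K) ^ 2 / 4 * ∑ j, (sfC q i j : K) * (sfC q j k : K) +
      (d : K) ^ 2 / 4 * ∑ j, (sfC q i j : K) * b j k +
      (d : K) ^ 2 / 4 * ∑ j, b i j * (sfC q j k : K) +
      (d : K) ^ 2 / 4 * ∑ j, b i j * b j k := by
    simp only [mul_sum, ← sum_add_distrib]
    exact sum_congr rfl fun j _ => by ring
  rw [h5, h1, h2, h3]
  push_cast
  ring

/-- The two congruences. -/
theorem cong (h : SfSys d q b) (hm : d + 1 = 4 * m) (i k : ι) :
    (∃ c : ℤ, 2 * c = sfT q k k - q i k ^ 2 - sfB2 q i k ∧ (2 : ℤ) ∣ c + m * q i k ^ 2) ∧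
    (8 : ℤ) ∣ ∑ j, sfC q i j * sfC q j k + sfW d q i k + 2 * sfC q i k := by
  obtain ⟨κ, _, _, φ, -⟩ := exists_phi K
  have hm' : (d : ℤ) + 1 = 4 * m := by exact_mod_cast hm
  have hd : ¬ 2 ∣ (d : ℤ) := by omega
  have h20 : (2 : κ) = 0 := CharTwo.two_eq_zero
  have hdκ : (d : κ) = 1 := by
    have h1 : (((d : ℤ) - 1 : ℤ) : κ) = 0 := by
      rw [CharP.intCast_eq_zero_iff κ 2]
      push_cast
      omega
    push_cast at h1
    exact sub_eq_zero.1 h1
  have hmκ : (m : κ) ^ 2 = m := by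
    have h1 := char2_int_sq (κ := κ) (m : ℤ)
    push_cast at h1
    exact h1
  obtain ⟨oO, hoO⟩ : ∃ oO : ι → ι → integralClosure ℤ K,
      ∀ i k, (oO i k : K) = (d : K) * (sfC q i k + b i k) / 2 :=
    ⟨fun i k => ⟨_, h.o_int hd i k⟩, fun _ _ => rfl⟩
  obtain ⟨δ, hδ⟩ : ∃ δ : ι → ι → ℕ, ∀ i k, δ i k = if i = k then 1 else 0 :=
    ⟨_, fun _ _ => rfl⟩
  have hδ2 : ∀ i k, (δ i k : κ) ^ 2 = δ i k := by
    intro i k
    rw [hδ]
    split_ifs <;> norm_num
  obtain ⟨Z, hZ⟩ : ∃ Z : ι → ι → integralClosure ℤ K, ∀ i k,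
      Z i k = oO i k ^ 2 + ((d ^ 2 * m * δ i k : ℕ) : ℤ) := ⟨_, fun _ _ => rfl⟩
  have hZc : ∀ i k, (Z i k : K) = d / 2 * (sfW d q i k + d * b i k) := by
    intro i k
    rw [← h.zrel hm i k, hZ]
    have e1 : ((oO i k ^ 2 + (((d ^ 2 * m * δ i k : ℕ) : ℤ) : integralClosure ℤ K) :
        integralClosure ℤ K) : K) = (oO i k : K) ^ 2 +
        ((((d ^ 2 * m * δ i k : ℕ) : ℤ) : integralClosure ℤ K) : K) := rfl
    rw [e1, coe_zint, hoO, hδ]
    push_cast
    ring
  -- the images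
  obtain ⟨e, he⟩ : ∃ e : ι → ι → κ, ∀ i k, e i k = φ (oO i k) + m * δ i k := ⟨_, fun _ _ => rfl⟩
  have hφZ : ∀ i k, φ (Z i k) = e i k ^ 2 := by
    intro i k
    rw [hZ, he, map_add, map_pow, map_intCast]
    push_cast
    rw [hdκ]
    have e1 := hδ2 i k
    linear_combination -(φ (oO i k) * m * δ i k) * h20 - (m : κ) ^ 2 * e1 - (δ i k : κ) * hmκ
  -- `e` is idempotent
  have hee : ∀ i k, ∑ j, e i j * e j k = e i k := by
    intro i k
    have h1 : ∑ j, Z i j * Z j k = ((d : ℤ) : integralClosure ℤ K) ^ 3 * Z i k := by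
      apply Subtype.ext
      have e1 : ((∑ j, Z i j * Z j k : integralClosure ℤ K) : K) =
          ∑ j, (Z i j : K) * (Z j k : K) := by
        push_cast
        rfl
      have e2 : ((((d : ℤ) : integralClosure ℤ K) ^ 3 * Z i k : integralClosure ℤ K) : K) =
          ((((d : ℤ) : integralClosure ℤ K)) : K) ^ 3 * (Z i k : K) := rfl
      rw [e1, e2, coe_zint, hZc, sum_congr rfl fun j _ => by rw [hZc, hZc], h.zz i k]
      push_cast
      rfl
    have h2 := congrArg φ h1
    rw [map_sum, map_mul, map_pow, map_intCast] at h2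
    simp only [map_mul, hφZ] at h2
    push_cast at h2
    rw [hdκ, one_pow, one_mul] at h2
    apply char2_sq_inj
    rw [char2_sum_sq, ← h2]
    exact sum_congr rfl fun j _ => by ring
  have heB : ∀ i k, ∑ j, e i j * ((q j k ^ 2 : ℤ) : κ) = 0 := by
    intro i k
    have h1 : ∑ j, Z i j * ((q j k ^ 2 : ℤ) : integralClosure ℤ K) = 0 := by
      apply Subtype.ext
      have e1 : ((∑ j, Z i j * ((q j k ^ 2 : ℤ) : integralClosure ℤ K) : integralClosure ℤ K) : K) =
          ∑ j, (Z i j : K) * (((q j k ^ 2 : ℤ) : integralClosure ℤ K) : K) := by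
        rw [AddSubmonoidClass.coe_finsetSum]
        rfl
      rw [e1, sum_congr rfl fun j _ => by rw [hZc, coe_zint], h.zB i k]
      rfl
    have h2 := congrArg φ h1
    rw [map_sum, map_zero] at h2
    simp only [map_mul, hφZ, map_intCast] at h2
    have h3 : (∑ j, e i j * ((q j k ^ 2 : ℤ) : κ)) ^ 2 = 0 := by
      rw [char2_sum_sq, ← h2]
      refine sum_congr rfl fun j _ => ?_
      rw [mul_pow, char2_int_sq]
    exact pow_eq_zero_iff (two_ne_zero) |>.1 h3
  constructor
  · -- first congruence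
    have hy : ((∑ j, oO i j * ((q j k ^ 2 : ℤ) : integralClosure ℤ K) : integralClosure ℤ K) : K) =
        d / 2 * ((sfT q k k - q i k ^ 2 - sfB2 q i k : ℤ) : K) := by
      rw [← h.oB i k, AddSubmonoidClass.coe_finsetSum]
      refine sum_congr rfl fun j _ => ?_
      have e1 : ((oO i j * ((q j k ^ 2 : ℤ) : integralClosure ℤ K) : integralClosure ℤ K) : K) =
          (oO i j : K) * (((q j k ^ 2 : ℤ) : integralClosure ℤ K) : K) := rfl
      rw [e1, coe_zint, hoO]
    obtain ⟨Y, hY⟩ := int_of_rat (K := K) _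
      (∑ j, oO i j * ((q j k ^ 2 : ℤ) : integralClosure ℤ K)).2
      (d * (sfT q k k - q i k ^ 2 - sfB2 q i k)) 2 (by norm_num) (by
        rw [hy]
        push_cast
        ring)
    have hYO : ∑ j, oO i j * ((q j k ^ 2 : ℤ) : integralClosure ℤ K) =
        ((Y : ℤ) : integralClosure ℤ K) := by
      apply Subtype.ext
      rw [hY, coe_zint]
    have h2Y : 2 * Y = d * (sfT q k k - q i k ^ 2 - sfB2 q i k) := by
      rw [hY] at hy
      have e1 : (2 : K) * (Y : K) = d * ((sfT q k k - q i k ^ 2 - sfB2 q i k : ℤ) : K) := by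
        rw [hy]
        ring
      exact_mod_cast e1
    have hφY : (Y : κ) + m * ((q i k ^ 2 : ℤ) : κ) = 0 := by
      have e1 := heB i k
      have e2 := congrArg φ hYO
      rw [map_sum, map_intCast] at e2
      simp only [map_mul, map_intCast] at e2
      rw [← e2]
      have e3 : ∑ j, e i j * ((q j k ^ 2 : ℤ) : κ) = ∑ j, φ (oO i j) * ((q j k ^ 2 : ℤ) : κ) +
          ∑ j, (if i = j then m * ((q j k ^ 2 : ℤ) : κ) else 0) := by
        rw [← sum_add_distrib]
        refine sum_congr rfl fun j _ => ?_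
        rw [he, hδ]
        split_ifs
        · push_cast
          ring
        · push_cast
          ring
      rw [e3, sum_ite_eq, if_pos (mem_univ i)] at e1
      exact e1
    have hev : (2 : ℤ) ∣ Y + m * q i k ^ 2 := by
      rw [← Nat.cast_ofNat (R := ℤ), ← CharP.intCast_eq_zero_iff κ 2]
      push_cast at hφY ⊢
      exact hφY
    -- divide by the odd number `d`
    have h2dvd : (2 : ℤ) ∣ sfT q k k - q i k ^ 2 - sfB2 q i k := by
      have e1 : (2 : ℤ) ∣ d * (sfT q k k - q i k ^ 2 - sfB2 q i k) := ⟨Y, h2Y.symm⟩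
      rcases Int.Prime.dvd_mul' Nat.prime_two e1 with e2 | e2
      · exact absurd (by exact_mod_cast e2) hd
      · exact_mod_cast e2
    obtain ⟨c, hc⟩ := h2dvd
    refine ⟨c, hc.symm, ?_⟩
    rw [hc] at h2Y
    have hYc : Y = d * c := by linarith
    rw [hYc] at hev
    have hd1 : (2 : ℤ) ∣ (d - 1) * c := dvd_mul_of_dvd_left (by omega) c
    have e3 : c + m * q i k ^ 2 = (d * c + m * q i k ^ 2) - (d - 1) * c := by ring
    rw [e3]
    exact dvd_sub hev hd1
  · -- second congruence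
    have hy := h.oo i k
    have hyO : ((∑ j, oO i j * oO j k + ((d : ℤ) : integralClosure ℤ K) * oO i k :
        integralClosure ℤ K) : K) =
        ∑ j, ((d : K) * (sfC q i j + b i j) / 2) * ((d : K) * (sfC q j k + b j k) / 2) +
        d * ((d : K) * (sfC q i k + b i k) / 2) := by
      have e1 : ((∑ j, oO i j * oO j k + ((d : ℤ) : integralClosure ℤ K) * oO i k :
        integralClosure ℤ K) : K) = ((∑ j, oO i j * oO j k : integralClosure ℤ K) : K) +
        (((d : ℤ) : integralClosure ℤ K) : K) * (oO i k : K) := rfl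
      rw [e1, AddSubmonoidClass.coe_finsetSum, coe_zint, hoO]
      congr 1
      · refine sum_congr rfl fun j _ => ?_
        have e2 : ((oO i j * oO j k : integralClosure ℤ K) : K) = (oO i j : K) * (oO j k : K) := rfl
        rw [e2, hoO, hoO]
      · push_cast
        rfl
    obtain ⟨Y, hY⟩ := int_of_rat (K := K) _
      (∑ j, oO i j * oO j k + ((d : ℤ) : integralClosure ℤ K) * oO i k).2
      (d ^ 2 * (∑ j, sfC q i j * sfC q j k + sfW d q i k + 2 * sfC q i k)) 4 (by norm_num) (by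
        rw [hyO, ← hy]
        push_cast
        ring)
    have hYO : ∑ j, oO i j * oO j k + ((d : ℤ) : integralClosure ℤ K) * oO i k =
        ((Y : ℤ) : integralClosure ℤ K) := by
      apply Subtype.ext
      rw [hY, coe_zint]
    have h4Y : 4 * Y = d ^ 2 * (∑ j, sfC q i j * sfC q j k + sfW d q i k + 2 * sfC q i k) := by
      rw [← hyO, hY] at hy
      exact_mod_cast hy
    have hφY : (Y : κ) = 0 := by
      have e2 := congrArg φ hYO
      rw [map_add, map_sum, map_mul, map_intCast, map_intCast] at e2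
      simp only [map_mul] at e2
      rw [← e2]
      have e1 := hee i k
      have e3 : ∑ j, e i j * e j k = ∑ j, φ (oO i j) * φ (oO j k) +
          ∑ j, (if j = k then (m : κ) * φ (oO i j) else 0) +
          ∑ j, (if i = j then (m : κ) * φ (oO j k) else 0) +
          ∑ j, (if i = j then (m : κ) ^ 2 * δ j k else 0) := by
        rw [← sum_add_distrib, ← sum_add_distrib, ← sum_add_distrib]
        refine sum_congr rfl fun j _ => ?_
        rw [he, he, hδ i j, hδ j k]
        split_ifs <;> push_cast <;> ring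
      rw [e3, sum_ite_eq, sum_ite_eq, sum_ite_eq', if_pos (mem_univ i), if_pos (mem_univ k),
        if_pos (mem_univ i), he] at e1
      push_cast
      rw [hdκ]
      linear_combination e1 - (m : κ) * φ (oO i k) * h20 - (δ i k : κ) * hmκ +
        φ (oO i k) * h20
    have hev : (2 : ℤ) ∣ Y := by
      rw [← Nat.cast_ofNat (R := ℤ), ← CharP.intCast_eq_zero_iff κ 2]
      exact hφY
    obtain ⟨c, hc⟩ := hev
    have h8 : (8 : ℤ) ∣ d ^ 2 * (∑ j, sfC q i j * sfC q j k + sfW d q i k + 2 * sfC q i k) := by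
      refine ⟨c, ?_⟩
      rw [← h4Y, hc]
      ring
    have hcop : IsCoprime (8 : ℤ) ((d : ℤ) ^ 2) := by
      have e1 : IsCoprime (2 : ℤ) (d : ℤ) := by
        rw [Int.isCoprime_iff_gcd_eq_one]
        rcases Int.even_or_odd (d : ℤ) with e | e
        · exact absurd e.two_dvd hd
        · exact (Int.isCoprime_iff_gcd_eq_one).1 (by
            obtain ⟨s, hs⟩ := e
            exact ⟨-s, 1, by rw [hs]; ring⟩)
      have e2 : (8 : ℤ) = 2 ^ 3 := by norm_num
      rw [e2]
      exact e1.pow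
    exact hcop.dvd_of_dvd_mul_left h8

end SfSys

end Pool.Agent.SicRg
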