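import Pool.Agent.Lib.MP_d0f9e0_co.Rg.Sixteen

set_option autoImplicit false

namespace Pool.Agent.SicRg

open Finset

/-!
File Small.  No circles of maximal systems in the dimensions `4`, `7`, `8` (dnote 4797):
there are no transitive triangles, hence `q = 0` is an equivalence relation.
-/

section mat

variable {K : Type*} [Field K] [CharZero K] {ι : Type} [Fintype ι] [DecidableEq ι]

/-- The matrix algebra of the structure: for `a`, `q`, `Q`, `J` with the identities of a circle,
the diagonal of `(J - Q) A Q` is twice the one of `(Q - q) Q (Q + q)`. -/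
theorem sm_mat (a q Q J A : Matrix ι ι K) (d r D : K) (hd : d ≠ 0) (hr : r ≠ 0)
    (h1 : a * Q = 0) (h2 : a * q = 0) (h2' : q * a = 0) (h4 : Q * J = D • J) (h4' : J * Q = D • J)
    (h5 : J * q = 0) (h5' : q * J = 0) (h6 : J * J = (d * d) • J)
    (h7 : a * a = r • (-(q * q) + (2 * d) • Q - d • J - (d * d) • (1 : Matrix ι ι K)))
    (h8 : d • A = (-2 : K) • (q * q) + (2 * d) • Q) (hD : 2 * D = d * (d + 1)) (i : ι)
    (hJ : J i i = 1) (hQ : Q i i = 0) (hQ2 : (Q * Q) i i = D) :
    ((J - Q) * (A * Q)) i i = 2 * ((Q - q) * Q * (Q + q)) i i := by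
  have e1 : q * q * Q = (2 * d) • (Q * Q) - (d * D) • J - (d * d) • Q := by
    have e : a * a * Q = (r • (-(q * q) + (2 * d) • Q - d • J - (d * d) •
      (1 : Matrix ι ι K))) * Q := by rw [h7]
    rw [Matrix.mul_assoc a a Q, h1, Matrix.mul_zero] at e
    simp only [Matrix.smul_mul, Matrix.sub_mul, Matrix.add_mul, Matrix.neg_mul, Matrix.one_mul,
      h4'] at e
    have e' := (smul_eq_zero.1 e.symm).resolve_left hr
    linear_combination (norm := module) (-1 : K) • e'
  have e2 : q * Q = Q * q := by
    have e : a * a * q = (r • (-(q * q) + (2 * d) • Q - d • J - (d * d) •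
      (1 : Matrix ι ι K))) * q := by rw [h7]
    have f : q * (a * a) = q * (r • (-(q * q) + (2 * d) • Q - d • J - (d * d) •
      (1 : Matrix ι ι K))) := by rw [h7]
    rw [Matrix.mul_assoc a a q, h2, Matrix.mul_zero] at e
    rw [← Matrix.mul_assoc q a a, h2', Matrix.zero_mul] at f
    simp only [Matrix.smul_mul, Matrix.sub_mul, Matrix.add_mul, Matrix.neg_mul, Matrix.one_mul,
      h5] at e
    simp only [Matrix.mul_smul, Matrix.mul_sub, Matrix.mul_add, Matrix.mul_neg, Matrix.mul_one,
      h5'] at f
    have e' := (smul_eq_zero.1 e.symm).resolve_left hr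
    have f' := (smul_eq_zero.1 f.symm).resolve_left hr
    rw [← Matrix.mul_assoc q q q] at f'
    have g : (2 * d) • (q * Q - Q * q) = 0 := by
      linear_combination (norm := module) (1 : K) • f' - (1 : K) • e'
    exact sub_eq_zero.1 ((smul_eq_zero.1 g).resolve_left (mul_ne_zero two_ne_zero hd))
  have e3 : A * Q = (2 * D) • J + (2 * d) • Q - (2 : K) • (Q * Q) := by
    have e : (d • A) * Q = ((-2 : K) • (q * q) + (2 * d) • Q) * Q := by rw [h8]
    simp only [Matrix.smul_mul, Matrix.add_mul] at e
    rw [e1] at e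
    have g : d • (A * Q - ((2 * D) • J + (2 * d) • Q - (2 : K) • (Q * Q))) = 0 := by
      linear_combination (norm := module) (1 : K) • e
    exact sub_eq_zero.1 ((smul_eq_zero.1 g).resolve_left hd)
  have e4 : (J - Q) * (A * Q) = (2 * D * (d * d) - 4 * D * D + 2 * d * D) • J -
      (2 * d) • (Q * Q) + (2 : K) • (Q * Q * Q) := by
    rw [e3]
    simp only [Matrix.sub_mul, Matrix.mul_sub, Matrix.mul_add, Matrix.mul_smul, h4, h4', h6,
      ← Matrix.mul_assoc, Matrix.smul_mul]
    module
  have e5 : (Q - q) * Q * (Q + q) = Q * Q * Q - (2 * d) • (Q * Q) + (d * D) • J +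
      (d * d) • Q := by
    have g1 : Q * Q * q = q * Q * Q := by
      rw [Matrix.mul_assoc, ← e2, ← Matrix.mul_assoc, ← e2]
    have g2 : q * Q * q = q * q * Q := by
      rw [Matrix.mul_assoc, ← e2, ← Matrix.mul_assoc]
    simp only [Matrix.sub_mul, Matrix.mul_add, g1, g2, e1]
    module
  rw [e4, e5]
  simp only [Matrix.add_apply, Matrix.sub_apply, Matrix.smul_apply, smul_eq_mul, hJ, hQ, hQ2]
  linear_combination (-2 * D) * hD

end mat

section par

variable {K : Type*} [Field K] [StarRing K] {ι : Type} [Fintype ι] [CharZero K] [DecidableEq ι]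
variable {d : ℕ} {r c : K} {q : ι → ι → ℤ} {al : ι → ι → K}

/-- Without transitive triangles `q = 0` is transitive. -/
theorem Par.sm_rel {n : Type} [Fintype n] (hpos : SicAb.PosStar K) (h : Par d r c q al)
    (hd : (d : K) ≠ 0)
    (haa : ∀ i k, ∑ j, al i j * al j k = r * ∑ j, (q i j : K) * (q j k : K) +
      (d : K) * (al i k ^ 2 - r * (q i k : K) ^ 2)) {zi : n → K} (hzi : ip zi zi = r)
    (hno : ∀ i k l, q i k = -1 → q i l = -1 → q k l = -1 → False) {i k l : ι}
    (hik : q i k = 0) (hil : q i l ≠ 0) : q k l ≠ 0 := by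
  classical
  have hr := h.r0
  obtain ⟨D, hD⟩ : ∃ D : K, D = (d : K) * (d + 1) / 2 := ⟨_, rfl⟩
  have hD2 : 2 * D = (d : K) * (d + 1) := by
    rw [hD]
    ring
  have hdeg : ∀ i, ∑ k, (q i k : K) ^ 2 = D := by
    intro i
    have h1 := h.deg i
    have h2 : (2 : K) * ∑ k, (q i k : K) ^ 2 = (d : K) * (d + 1) := by exact_mod_cast h1
    have h3 : (2 : K) * (∑ k, (q i k : K) ^ 2 - D) = 0 := by linear_combination h2 - hD2
    exact sub_eq_zero.1 ((mul_eq_zero.1 h3).resolve_left two_ne_zero)
  have hsq : ∀ i k, (q k i : K) ^ 2 = (q i k : K) ^ 2 := by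
    intro i k
    have h1 := h.sq i k
    exact_mod_cast h1
  have hanti : ∀ i k, (q k i : K) = -(q i k : K) := by
    intro i k
    rw [h.anti i k]
    push_cast
    ring
  have hrow : ∀ i, ∑ k, (q i k : K) = 0 := by
    intro i
    have h1 := h.row i
    exact_mod_cast h1
  have hcard : (Fintype.card ι : K) = (d : K) * d := by
    rw [h.card]
    push_cast
    ring
  have hdi : ∀ i, q i i = 0 := h.q_diag
  obtain ⟨A, hA⟩ : ∃ A : Matrix ι ι K, A = Matrix.of (fun i k => al i k ^ 2 / r + 1 +
    (d : K) * (if i = k then 1 else 0) - (q i k : K) ^ 2) := ⟨_, rfl⟩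
  have hAe : ∀ i k, A i k = al i k ^ 2 / r + 1 + (d : K) * (if i = k then 1 else 0) -
      (q i k : K) ^ 2 := by
    intro i k
    rw [hA]
    rfl
  have key := sm_mat (Matrix.of fun i k => al i k) (Matrix.of fun i k => (q i k : K))
    (Matrix.of fun i k => (q i k : K) ^ 2) (Matrix.of fun _ _ => (1 : K)) A (d : K) r D hd hr
    (by
      ext i k
      simp only [Matrix.mul_apply, Matrix.of_apply, Matrix.zero_apply]
      rw [← h.al_Q hd i k]
      exact sum_congr rfl fun j _ => by rw [hsq k j])
    (by
      ext i k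
      simp only [Matrix.mul_apply, Matrix.of_apply, Matrix.zero_apply]
      exact h.al_q i k)
    (by
      ext i k
      simp only [Matrix.mul_apply, Matrix.of_apply, Matrix.zero_apply]
      rw [← h.al_q k i]
      exact sum_congr rfl fun j _ => by rw [hanti j i, h.alanti k j]; ring)
    (by
      ext i k
      simp only [Matrix.mul_apply, Matrix.of_apply, Matrix.smul_apply, mul_one, smul_eq_mul]
      exact hdeg i)
    (by
      ext i k
      simp only [Matrix.mul_apply, Matrix.of_apply, Matrix.smul_apply, mul_one, smul_eq_mul,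
        one_mul]
      rw [← hdeg k]
      exact sum_congr rfl fun j _ => hsq k j)
    (by
      ext i k
      simp only [Matrix.mul_apply, Matrix.of_apply, Matrix.zero_apply, one_mul]
      rw [← neg_eq_zero, ← hrow k, ← sum_neg_distrib]
      exact sum_congr rfl fun j _ => by rw [hanti k j, neg_neg])
    (by
      ext i k
      simp only [Matrix.mul_apply, Matrix.of_apply, Matrix.zero_apply, mul_one]
      exact hrow i)
    (by
      ext i k
      simp only [Matrix.mul_apply, Matrix.of_apply, Matrix.smul_apply, mul_one, smul_eq_mul,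
        sum_const, card_univ, nsmul_eq_mul]
      exact hcard)
    (by
      ext i k
      simp only [Matrix.mul_apply, Matrix.of_apply, Matrix.smul_apply, smul_eq_mul,
        Matrix.add_apply, Matrix.sub_apply, Matrix.neg_apply, Matrix.one_apply]
      rw [haa i k]
      have h1 := h.gram i k
      have h2 : ((∑ j, q i j * q k j : ℤ) : K) = -∑ j, (q i j : K) * (q j k : K) := by
        push_cast
        rw [← sum_neg_distrib]
        exact sum_congr rfl fun j _ => by rw [hanti k j]; ring
      rw [h2] at h1
      linear_combination -h1)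
    (by
      ext i k
      simp only [Matrix.mul_apply, Matrix.of_apply, Matrix.smul_apply, smul_eq_mul,
        Matrix.add_apply]
      rw [hAe]
      have h1 := h.gram i k
      have h2 : ((∑ j, q i j * q k j : ℤ) : K) = -∑ j, (q i j : K) * (q j k : K) := by
        push_cast
        rw [← sum_neg_distrib]
        exact sum_congr rfl fun j _ => by rw [hanti k j]; ring
      rw [h2] at h1
      apply mul_left_cancel₀ hr
      have h3 : r * (al i k ^ 2 / r) = al i k ^ 2 := by field_simp
      linear_combination (d : K) * h3 - h1) hD2 i rfl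
    (by
      simp only [Matrix.of_apply]
      rw [hdi]
      norm_num)
    (by
      simp only [Matrix.mul_apply, Matrix.of_apply]
      rw [← hdeg i]
      refine sum_congr rfl fun j _ => ?_
      rw [hsq i j]
      rcases h.val i j with h1 | h1 | h1 <;> rw [h1] <;> norm_num)
  -- the right side vanishes
  have hrhs : ((Matrix.of (fun i k => (q i k : K) ^ 2) - Matrix.of fun i k => (q i k : K)) *
      Matrix.of (fun i k => (q i k : K) ^ 2) *
      (Matrix.of (fun i k => (q i k : K) ^ 2) + Matrix.of fun i k => (q i k : K))) i i = 0 := by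
    simp only [Matrix.mul_apply, Matrix.of_apply, Matrix.sub_apply, Matrix.add_apply]
    refine sum_eq_zero fun a _ => ?_
    by_cases ha : q i a = -1
    · have h1 : ∑ b, ((q i b : K) ^ 2 - (q i b : K)) * (q b a : K) ^ 2 = 0 := by
        refine sum_eq_zero fun b _ => ?_
        rcases h.val i b with hb | hb | hb
        · rw [hb]
          push_cast
          ring
        · rw [hb]
          push_cast
          ring
        · rcases h.val b a with hc | hc | hc
          · rw [hc]
            push_cast
            ring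
          · exfalso
            refine hno i a b ha hb ?_
            rw [h.anti b a, hc]
          · exact (hno i b a hb ha hc).elim
      rw [h1, zero_mul]
    · have h1 : (q a i : K) ^ 2 + (q a i : K) = 0 := by
        rcases h.val i a with hb | hb | hb
        · rw [h.anti i a, hb]
          norm_num
        · rw [h.anti i a, hb]
          norm_num
        · exact absurd hb ha
      rw [h1, mul_zero]
  rw [hrhs, mul_zero] at key
  -- the left side is a sum of squares
  have hkl : k ≠ l := by
    rintro rfl
    exact hil hik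
  intro hq
  obtain ⟨w, hw⟩ : ∃ w : ι → ι → ℤ, ∀ a b, w a b = if q i a = 0 ∧ q i b ≠ 0 ∧ q a b = 0 then 1
    else 0 := ⟨_, fun _ _ => rfl⟩
  have hsum : ∑ p ∈ (univ : Finset ((ι × ι) × Option n)),
      star ((w p.1.1 p.1.2 : K) * p.2.elim (al p.1.1 p.1.2) zi) *
        ((w p.1.1 p.1.2 : K) * p.2.elim (al p.1.1 p.1.2) zi) = 0 := by
    rw [← Finset.univ_product_univ, Finset.sum_product, ← Finset.univ_product_univ,
      Finset.sum_product]
    simp only [Matrix.mul_apply, Matrix.of_apply, Matrix.sub_apply] at key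
    rw [← mul_zero r, ← key, mul_sum]
    refine sum_congr rfl fun a _ => ?_
    rw [mul_sum, mul_sum]
    refine sum_congr rfl fun b _ => ?_
    rw [Fintype.sum_option]
    simp only [Option.elim]
    have e1 : ∑ j, star ((w a b : K) * zi j) * ((w a b : K) * zi j) = (w a b : K) ^ 2 * r := by
      rw [← hzi, ip_def, mul_sum]
      refine sum_congr rfl fun j _ => ?_
      rw [star_mul', star_intCast]
      ring
    rw [e1, star_mul', star_intCast, h.alstar, hAe, hw]
    by_cases h1 : q i a = 0
    · by_cases h2 : q i b = 0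
      · rw [if_neg (by tauto)]
        have h3 : (q b i : K) ^ 2 = 0 := by
          rw [hsq i b, h2]
          norm_num
        rw [h3]
        push_cast
        ring
      · have hab : a ≠ b := by
          rintro rfl
          exact h2 h1
        have h3 : (q b i : K) ^ 2 = 1 := by
          rw [hsq i b]
          have := h.qsq h2
          exact_mod_cast this
        have h4 : (q i a : K) ^ 2 = 0 := by
          rw [h1]
          norm_num
        rw [h3, h4, if_neg hab]
        by_cases h5 : q a b = 0
        · rw [if_pos ⟨h1, h2, h5⟩, h5]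
          push_cast
          field_simp
          ring
        · rw [if_neg (by tauto), h.alq a b h5]
          have h6 : (q a b : K) ^ 2 = 1 := by
            have := h.qsq h5
            exact_mod_cast this
          rw [h6]
          push_cast
          ring
    · rw [if_neg (by tauto)]
      have h4 : (q i a : K) ^ 2 = 1 := by
        have := h.qsq h1
        exact_mod_cast this
      rw [h4]
      push_cast
      ring
  have hz : zi = 0 := by
    funext p
    have h1 := hpos ((ι × ι) × Option n) univ
      (fun p => (w p.1.1 p.1.2 : K) * p.2.elim (al p.1.1 p.1.2) zi) hsum ((k, l), some p)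
      (mem_univ _)
    simp only [Option.elim] at h1
    rw [hw, if_pos ⟨hik, hil, hq⟩] at h1
    push_cast at h1
    rw [one_mul] at h1
    exact h1
  rw [hz, ip_zero] at hzi
  exact hr hzi.symm

omit [CharZero K] in
/-- the classes of `q = 0` have `d (d - 1) / 2` elements -/
theorem Par.sm_card [Nonempty ι] (h : Par d r c q al)
    (htr : ∀ i k l, q i k = 0 → q i l ≠ 0 → q k l ≠ 0) : ∃ m, 2 * m + d = d * d ∧ m ∣ d * d := by
  classical
  have hcl : ∀ i, 2 * (univ.filter fun k => q i k = 0).card + d = d * d := by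
    intro i
    have h1 := h.deg i
    have h2 : ∑ k, q i k ^ 2 = ((univ.filter fun k => ¬ q i k = 0).card : ℤ) := by
      rw [← sum_filter_add_sum_filter_not univ (fun k => q i k = 0),
        sum_eq_zero fun k hk => by rw [(mem_filter.1 hk).2]; norm_num, zero_add,
        sum_congr rfl fun k hk => h.qsq (mem_filter.1 hk).2]
      simp
    have h3 := card_filter_add_card_filter_not (s := (univ : Finset ι)) (fun k => q i k = 0)
    rw [card_univ, h.card] at h3
    rw [h2] at h1
    have h4 : 2 * (univ.filter fun k => ¬ q i k = 0).card = d * (d + 1) := by exact_mod_cast h1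
    nlinarith
  let s : Setoid ι := ⟨fun i k => q i k = 0, ⟨h.q_diag, fun {i k} hik => by
    rw [h.anti i k, hik]; rfl, fun {i j k} hij hjk => by
    by_contra hne
    exact htr i j k hij hne hjk⟩⟩
  obtain ⟨i⟩ := ‹Nonempty ι›
  refine ⟨(univ.filter fun k => q i k = 0).card, hcl i, ?_⟩
  have h1 := Finset.card_eq_sum_card_fiberwise (f := fun k : ι => (Quotient.mk s k))
    (s := univ) (t := univ) (fun _ _ => mem_univ _)
  have h2 : ∀ b : Quotient s, (univ.filter fun k : ι => Quotient.mk s k = b).card =
      (univ.filter fun k => q i k = 0).card := by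
    intro b
    obtain ⟨j, rfl⟩ := Quotient.exists_rep b
    have h3 : (univ.filter fun k : ι => Quotient.mk s k = Quotient.mk s j) =
        univ.filter fun k => q j k = 0 := by
      ext k
      simp only [mem_filter, mem_univ, true_and]
      constructor
      · intro hk
        exact Quotient.exact hk.symm
      · intro hk
        exact (Quotient.sound hk).symm
    rw [h3]
    have h4 := hcl i
    have h5 := hcl j
    omega
  rw [sum_congr rfl fun b _ => h2 b, sum_const, smul_eq_mul, card_univ, h.card] at h1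
  rw [pow_two] at h1
  exact ⟨_, by rw [h1, mul_comm]⟩

end par

section tri

variable {K : Type*} [Field K] [StarRing K] [CharZero K] {n : Type} [Fintype n]

/-- norms are not negative -/
theorem sm_neg (hpos : SicAb.PosStar K) {w : n → K} {a b : ℕ} (hb : 0 < b)
    (h : (a : K) * (a : K) * ip w w = -(b : K)) : False := by
  have h1 : ∑ p ∈ (univ : Finset (n ⊕ Fin b)), star (Sum.elim (fun j => (a : K) * w j)
      (fun _ => (1 : K)) p) * Sum.elim (fun j => (a : K) * w j) (fun _ => (1 : K)) p = 0 := by
    rw [Fintype.sum_sum_type]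
    simp only [Sum.elim_inl, Sum.elim_inr, star_mul', star_natCast, star_one, mul_one, sum_const,
      card_univ, Fintype.card_fin, nsmul_eq_mul]
    rw [ip_def, mul_sum] at h
    have h2 : ∑ x, (a : K) * star (w x) * ((a : K) * w x) = ∑ i, (a : K) * (a : K) *
        (star (w i) * w i) := sum_congr rfl fun i _ => by ring
    rw [h2, h]
    ring
  have h2 := hpos (n ⊕ Fin b) univ _ h1 (Sum.inr ⟨0, hb⟩) (mem_univ _)
  simp only [Sum.elim_inr] at h2
  exact one_ne_zero h2

omit [CharZero K] in
/-- four vectors of a transitive triangle -/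
theorem sm_four {a1 a2 b1 b2 : n → K} {k : K} (h1 : ip a1 a1 = 2) (h2 : ip a2 a2 = 2)
    (h3 : ip b1 b1 = 2) (h4 : ip b2 b2 = 2) (h5 : ip a1 a2 = 0) (h6 : ip b1 b2 = 0)
    (h7 : ip a2 b1 = 0) (x1 : ip a1 b1 * ip b1 a1 = k) (x2 : ip a1 b2 * ip b2 a1 = k)
    (x3 : ip a2 b2 * ip b2 a2 = k) : ∃ w : n → K,
      ip w w = (8 - 2 * k) * ((8 - 2 * k) * (8 - 4 * k) - 4 * k * k) := by
  have h5' : ip a2 a1 = 0 := by rw [← star_ip, h5, star_zero]
  have h6' : ip b2 b1 = 0 := by rw [← star_ip, h6, star_zero]
  have h7' : ip b1 a2 = 0 := by rw [← star_ip, h7, star_zero]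
  have s2 : star (2 : K) = 2 := star_ofNat 2
  have s4 : star (4 : K) = 4 := star_ofNat 4
  have s8 : star (8 : K) = 8 := star_ofNat 8
  have hk : star k = k := by rw [← x1, star_mul', star_ip, star_ip, mul_comm]
  obtain ⟨x, hx⟩ : ∃ x, ip a1 b1 = x := ⟨_, rfl⟩
  obtain ⟨y, hy⟩ : ∃ y, ip a1 b2 = y := ⟨_, rfl⟩
  obtain ⟨t, ht⟩ : ∃ t, ip a2 b2 = t := ⟨_, rfl⟩
  have hx' : ip b1 a1 = star x := by rw [← hx, star_ip]
  have hy' : ip b2 a1 = star y := by rw [← hy, star_ip]
  have ht' : ip b2 a2 = star t := by rw [← ht, star_ip]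
  rw [hx, hx'] at x1
  rw [hy, hy'] at x2
  rw [ht, ht'] at x3
  refine ⟨(8 - 2 * k) • ((2 : K) • b2 - y • a1 - t • a2) +
    (2 * star x * y) • ((2 : K) • b1 - x • a1), ?_⟩
  simp only [ip_add, ip_sub, ip_add_left, ip_sub_left, ip_smul, ip_smul_left, h1, h2, h3, h4, h5,
    h6, h7, h5', h6', h7', hx, hy, ht, hx', hy', ht', star_mul', star_sub, star_star, s2, s8, hk]
  obtain ⟨x', hxx⟩ : ∃ x', star x = x' := ⟨_, rfl⟩
  obtain ⟨y', hyy⟩ : ∃ y', star y = y' := ⟨_, rfl⟩
  obtain ⟨t', htt⟩ : ∃ t', star t = t' := ⟨_, rfl⟩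
  rw [hxx] at x1
  rw [hyy] at x2
  rw [htt] at x3
  rw [hxx, hyy, htt]
  linear_combination (-8 * (8 - 2 * k) * y * y' + 32 * y * y' - 8 * (x * x' + k) * y * y') * x1 +
    (-2 * (8 - 2 * k) ^ 2 - 8 * (8 - 2 * k) * k + 32 * k - 8 * k ^ 2) * x2 -
    2 * (8 - 2 * k) ^ 2 * x3

end tri

section fin

variable {K : Type*} [Field K] [StarRing K] {n ι : Type} [Fintype n] [Fintype ι]
  [CharZero K] [DecidableEq n] [DecidableEq ι] {v z : ι → n → K}
  {D : K → K} {X : n → n → K} {th : ι → K}

/-- No circles of maximal systems in the dimensions `4`, `7`, `8`. -/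
theorem Curve.small (hpos : SicAb.PosStar K) (hC : Curve D X th v z)
    (hn : Fintype.card n = 4 ∨ Fintype.card n = 7 ∨ Fintype.card n = 8) (k₀ : ι) : z k₀ = 0 := by
  classical
  by_contra hz0
  have : Nonempty ι := ⟨k₀⟩
  obtain ⟨r, c, q, al, hP, hr, hrat⟩ := hC.par hpos k₀ hz0
  have hr0 := hP.r0
  have hc0 : c ≠ 0 := by
    rintro rfl
    apply hr0
    have := hP.cc
    linear_combination this
  have hd0 : (Fintype.card n : K) ≠ 0 := hC.sys.dd_ne k₀
  have haa : ∀ i k, ∑ j, al i j * al j k = r * ∑ j, (q i j : K) * (q j k : K) +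
      (Fintype.card n : K) * (al i k ^ 2 - r * (q i k : K) ^ 2) := by
    intro i k
    have h1 := sum_aa hC.sys hC.tan i k
    have h2 := congrArg star h1
    have hs : ∀ i k, star (rat v z i k) = al i k - c * (q i k : K) := by
      intro i k
      rw [hrat, star_add, star_mul', hP.alstar, star_intCast, hP.starc]
      ring
    rw [star_sum] at h2
    simp only [star_mul', star_pow, hs] at h2
    have h3 : star (dd n K) = dd n K := by
      unfold dd
      rw [star_natCast]
    rw [h3] at h2
    simp only [hrat] at h1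
    have h4 : 2 * (∑ j, al i j * al j k) + 2 * c ^ 2 * ∑ j, (q i j : K) * (q j k : K) =
        ∑ j, (al i j + c * (q i j : K)) * (al j k + c * (q j k : K)) +
        ∑ j, (al i j - c * (q i j : K)) * (al j k - c * (q j k : K)) := by
      rw [mul_sum, mul_sum, ← sum_add_distrib, ← sum_add_distrib]
      exact sum_congr rfl fun j _ => by ring
    rw [h1, h2] at h4
    have h5 : (2 : K) * (∑ j, al i j * al j k - (r * ∑ j, (q i j : K) * (q j k : K) +
        (Fintype.card n : K) * (al i k ^ 2 - r * (q i k : K) ^ 2))) = 0 := by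
      have h6 := hP.cc
      unfold dd at h4
      linear_combination h4 + (2 * (Fintype.card n : K) * (q i k : K) ^ 2 -
        2 * ∑ j, (q i j : K) * (q j k : K)) * h6
    exact sub_eq_zero.1 ((mul_eq_zero.1 h5).resolve_left two_ne_zero)
  -- no transitive triangles
  have hno : ∀ i k l, q i k = -1 → q i l = -1 → q k l = -1 → False := by
    intro i k l hik hil hkl
    have hcs : star c⁻¹ = -c⁻¹ := by rw [star_inv₀, hP.starc, inv_neg]
    have hzz : ∀ i k, ip (z i) (z k) = (r - 2 * r * (q i k : K) ^ 2) * ip (v i) (v k) := by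
      intro i k
      have h1 := hC.four_zz hpos i k
      rw [hr] at h1
      rw [h1]
      congr 2
      unfold xx
      rw [hrat, star_add, star_mul', hP.alstar, star_intCast, hP.starc]
      by_cases hq : q i k = 0
      · rw [hq]
        push_cast
        ring
      · rw [hP.alq i k hq]
        linear_combination (-2 * (q i k : K) ^ 2) * hP.cc
    have hci : c⁻¹ * c = 1 := inv_mul_cancel₀ hc0
    have hcr : c⁻¹ * c⁻¹ * r = -1 := by
      have h1 := hP.cc
      have h2 : r = -c ^ 2 := by linear_combination h1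
      rw [h2]
      field_simp
    have hvz : ∀ i k, q i k ≠ 0 → ip (v i) (c⁻¹ • z k) = (q i k : K) * ip (v i) (v k) := by
      intro i k hq
      rw [ip_smul, tr1 hC.sys hC.tan i k, hrat, hP.alq i k hq]
      linear_combination (q i k : K) * ip (v i) (v k) * hci
    have hzv : ∀ i k, q i k ≠ 0 → ip (c⁻¹ • z i) (v k) = -(q i k : K) * ip (v i) (v k) := by
      intro i k hq
      rw [ip_smul_left, hcs, tr3 hC.sys hC.tan i k, hrat, hP.alq i k hq, zero_add, star_mul',
        star_intCast, hP.starc]
      linear_combination (-(q i k : K)) * ip (v i) (v k) * hci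
    have hyy : ∀ i k, q i k ≠ 0 → ip (c⁻¹ • z i) (c⁻¹ • z k) = -ip (v i) (v k) := by
      intro i k hq
      rw [ip_smul, ip_smul_left, hcs, hzz]
      have h1 : (q i k : K) ^ 2 = 1 := by
        have := hP.qsq hq
        exact_mod_cast this
      rw [h1]
      linear_combination (ip (v i) (v k)) * hcr
    have hvv0 : ∀ i, ip (v i) (c⁻¹ • z i) = 0 := by
      intro i
      rw [ip_smul, hC.tan.diag, mul_zero]
    have hzv0 : ∀ i, ip (c⁻¹ • z i) (v i) = 0 := by
      intro i
      rw [← star_ip, hvv0, star_zero]
    have hyy0 : ∀ i, ip (c⁻¹ • z i) (c⁻¹ • z i) = 1 := by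
      intro i
      rw [ip_smul, ip_smul_left, hcs, hr]
      linear_combination -hcr
    have hee : ∀ i, ip (v i + c⁻¹ • z i) (v i + c⁻¹ • z i) = 2 := by
      intro i
      simp only [ip_add, ip_add_left, hvv0, hzv0, hyy0, hC.sys.unit]
      norm_num
    have hgg : ∀ i, ip (v i - c⁻¹ • z i) (v i - c⁻¹ • z i) = 2 := by
      intro i
      simp only [ip_sub, ip_sub_left, hvv0, hzv0, hyy0, hC.sys.unit]
      norm_num
    have hee' : ∀ i k, q i k ≠ 0 → ip (v i + c⁻¹ • z i) (v k + c⁻¹ • z k) = 0 := by
      intro i k hq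
      simp only [ip_add, ip_add_left, hvz i k hq, hzv i k hq, hyy i k hq]
      ring
    have hgg' : ∀ i k, q i k ≠ 0 → ip (v i - c⁻¹ • z i) (v k - c⁻¹ • z k) = 0 := by
      intro i k hq
      simp only [ip_sub, ip_sub_left, hvz i k hq, hzv i k hq, hyy i k hq]
      ring
    have heg0 : ∀ i, ip (v i + c⁻¹ • z i) (v i - c⁻¹ • z i) = 0 := by
      intro i
      simp only [ip_add_left, ip_sub, hvv0, hzv0, hyy0, hC.sys.unit]
      norm_num
    have heg : ∀ i k, q i k = -1 → ip (v i + c⁻¹ • z i) (v k - c⁻¹ • z k) *
        ip (v k - c⁻¹ • z k) (v i + c⁻¹ • z i) = 16 / (dd n K + 1) := by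
      intro i k hq
      have hq' : q i k ≠ 0 := by rw [hq]; norm_num
      have hki : q k i = 1 := by rw [hP.anti i k, hq]; norm_num
      have hki' : q k i ≠ 0 := by rw [hki]; norm_num
      have h1 := hC.sys.ang i k
      have hne : i ≠ k := by
        rintro rfl
        rw [hP.q_diag] at hq
        norm_num at hq
      rw [if_neg hne, mul_zero, add_zero] at h1
      simp only [ip_add_left, ip_add, ip_sub, ip_sub_left, hvz i k hq', hzv i k hq', hyy i k hq',
        hvz k i hki', hzv k i hki', hyy k i hki', hq, hki]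
      push_cast
      rw [eq_div_iff (dd_succ_ne (n := n) (K := K))]
      linear_combination 16 * h1
    have hkl' : q k l ≠ 0 := by rw [hkl]; norm_num
    have hik' : q i k ≠ 0 := by rw [hik]; norm_num
    obtain ⟨w, hw⟩ := sm_four (hee i) (hee k) (hgg k) (hgg l) (hee' i k hik') (hgg' k l hkl')
      (heg0 k) (heg i k hik) (heg i l hil) (heg k l hkl)
    rcases hn with hn | hn | hn
    · have hdd : dd n K = 4 := by
        unfold dd
        rw [hn]
        norm_num
      rw [hdd] at hw
      refine sm_neg hpos (w := w) (a := 25) (b := 48640) (by norm_num) ?_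
      rw [hw]
      norm_num
    · have hdd : dd n K = 7 := by
        unfold dd
        rw [hn]
        norm_num
      rw [hdd] at hw
      refine sm_neg hpos (w := w) (a := 1) (b := 64) (by norm_num) ?_
      rw [hw]
      norm_num
    · have hdd : dd n K = 8 := by
        unfold dd
        rw [hn]
        norm_num
      rw [hdd] at hw
      refine sm_neg hpos (w := w) (a := 27) (b := 28160) (by norm_num) ?_
      rw [hw]
      norm_num
  obtain ⟨m, hm1, hm2⟩ := hP.sm_card fun i k l hik hil => hP.sm_rel hpos hd0 haa (hr k₀) hno hik hil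
  rcases hn with hn | hn | hn
  · rw [hn] at hm1 hm2
    have hm : m = 6 := by omega
    rw [hm] at hm2
    norm_num at hm2
  · rw [hn] at hm1 hm2
    have hm : m = 21 := by omega
    rw [hm] at hm2
    norm_num at hm2
  · rw [hn] at hm1 hm2
    have hm : m = 28 := by omega
    rw [hm] at hm2
    norm_num at hm2

end fin

end Pool.Agent.SicRg
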