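import Pool.Agent.Lib.MP_d0f9e0_co.Rg.CirZ
import Pool.Agent.Lib.MP_d0f9e0_co.Rg.Small

set_option autoImplicit false

/-!
The dimensions without circles, with `d = 8`.
-/

namespace Pool.Agent.SicRg

open Finset Pool.Agent.SicAb

variable {d : ℕ}

theorem zeroD_small (h : d = 4 ∨ d = 7 ∨ d = 8) : ZeroD d := by
  intro K _ _ _ hpos D X th v z hC k
  exact hC.small hpos (by rw [Fintype.card_fin]; exact h) k

theorem zeroD_good8 (h : d % 4 = 1 ∨ d % 4 = 2 ∨ (d % 4 = 3 ∧ d % 64 ≠ 3 ∧ d % 64 ≠ 63) ∨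
    d = 4 ∨ d = 8) : ZeroD d := by
  rcases h with h | h | h | h | h
  · exact zeroD_good (Or.inl h)
  · exact zeroD_good (Or.inr (Or.inl h))
  · exact zeroD_good (Or.inr (Or.inr (Or.inl h)))
  · exact zeroD_small (Or.inl h)
  · exact zeroD_small (Or.inr (Or.inr h))

end Pool.Agent.SicRg
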