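import Pool.Agent.Lib.MP_d0f9e0_co.Rg.Rig

set_option autoImplicit false

namespace Pool.Agent.SicRg

open Finset

variable {K : Type*} [Field K] [StarRing K] {n ι : Type} [Fintype n] [Fintype ι]

/-!
First order identities, `a = rat v z`, `s = a * star a`.  Each is one use of
`T1`, `T2` or `BB`; the translation of the terms: for all `i k` (diagonal included, where both
sides vanish) `ip (v i) (z k) = a i k * G i k`, `ip (v k) (z i) = - a i k * G k i`,
`ip (z i) (v k) = - star (a i k) * G i k`, `ip (z k) (v i) = star (a i k) * G k i`.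
-/

variable [CharZero K] [DecidableEq ι] {v z : ι → n → K}

omit [CharZero K] [DecidableEq ι] in
theorem st_opr (x y : ι → n → K) (i k : ι) :
    ip (x i) (opr z z y k) = ip (opr z z x i) (y k) := by
  rw [ip_opr, opr_ip]

omit [CharZero K] in
theorem st_rat (hz : Tan v z) (i k : ι) :
    rat v z i k = -((dd n K + 1) * (ip (v k) (z i) * ip (v i) (v k))) := by
  rw [hz.anti k i]
  rfl

omit [CharZero K] in
theorem st_star_rat (hz : Tan v z) (i k : ι) :
    star (rat v z i k) = -((dd n K + 1) * (ip (z i) (v k) * ip (v k) (v i))) := by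
  rw [st_rat hz i k, star_neg, star_mul', star_mul', star_ip, star_ip]
  have h : star (dd n K + 1) = dd n K + 1 := by
    unfold dd
    rw [star_add, star_natCast, star_one]
  rw [h]

theorem st_star_rat' (hv : Sys v) (hz : Tan v z) (i k : ι) :
    star (rat v z i k) * ip (v i) (v k) = -ip (z i) (v k) := by
  have h1 := ip_rat hv hz.toHor k i
  have h2 : star (ip (v k) (z i)) = star (rat v z k i) * ip (v i) (v k) := by
    rw [h1, star_mul', star_ip]
  rw [star_ip, hz.anti i k, star_neg] at h2
  linear_combination h2

/-- the stress identity of (4) -/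
theorem stress (hv : Sys v) (hz : Tan v z) (i : ι) (y : n → K) (hy : ip (v i) y = 0) :
    ∑ k, (et v z i k - et v z k i) * (rat v z i k - star (rat v z i k)) *
      ip (v i) (v k) * ip (v k) y = 0 := by
  set Sv := opr z z v i with hSv
  have hzi : ip (v i) (z i) = 0 := hz.diag i
  have hzi' : ip (z i) (v i) = 0 := by rw [← star_ip, hzi, star_zero]
  have hSr : ip Sv (v i) = ip (v i) Sv := by rw [hSv, st_opr v v i i]
  have hz0 : dd n K + 1 ≠ 0 := dd_succ_ne
  have t1 : ∑ k, et v z i k * rat v z i k * ip (v i) (v k) * ip (v k) y = 0 := by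
    have h := hv.T2 Sv (v i) (z i) y
    rw [hzi, hy, mul_zero, mul_zero, add_zero, mul_zero] at h
    have h' : ∑ k, et v z i k * rat v z i k * ip (v i) (v k) * ip (v k) y =
        -((dd n K + 1) * ∑ k, (ip Sv (v k) * ip (v i) (v k)) * (ip (v k) (z i) * ip (v k) y)) := by
      rw [mul_sum, ← sum_neg_distrib]
      refine sum_congr rfl fun k _ => ?_
      rw [st_rat hz i k]
      unfold et
      rw [st_opr v v i k, ← hSv]
      have hang := hv.ang i k
      by_cases hik : i = k
      · subst hik
        rw [hzi]
        ring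
      · rw [if_neg hik, mul_zero, add_zero] at hang
        linear_combination -((dd n K + 1) * ip Sv (v k) * ip (v k) (z i) * ip (v i) (v k) *
          ip (v k) y) * hang
    rw [h', h, neg_zero]
  have t2 : ∑ k, et v z k i * rat v z i k * ip (v i) (v k) * ip (v k) y = 0 := by
    have h := hz.bb (v i) (v i) Sv y
    have h' : 2 * ∑ k, et v z k i * rat v z i k * ip (v i) (v k) * ip (v k) y =
        (dd n K + 1) * ∑ k, (ip (v i) (v k) * ip (v i) (z k) + ip (v i) (z k) * ip (v i) (v k)) *
          (ip (v k) Sv * ip (v k) y) := by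
      rw [mul_sum, mul_sum]
      refine sum_congr rfl fun k _ => ?_
      have h1 := ip_rat hv hz.toHor i k
      unfold et
      rw [← hSv]
      linear_combination (-2) * (dd n K + 1) * ip (v k) Sv * ip (v i) (v k) * ip (v k) y * h1
    rw [h, mul_zero] at h'
    exact (mul_eq_zero.mp h').resolve_left two_ne_zero
  have t3 : ∑ k, et v z i k * star (rat v z i k) * ip (v i) (v k) * ip (v k) y =
      -(dd n K * (ip (z i) y * ip Sv (v i))) := by
    have h := hv.T2 (z i) Sv (v i) y
    rw [hzi', zero_mul, zero_add] at h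
    rw [← h, mul_sum, ← sum_neg_distrib]
    refine sum_congr rfl fun k _ => ?_
    have h1 := st_star_rat' hv hz i k
    unfold et
    rw [st_opr v v i k, ← hSv]
    linear_combination (dd n K + 1) * ip Sv (v k) * ip (v k) (v i) * ip (v k) y * h1
  have t4 : ∑ k, et v z k i * star (rat v z i k) * ip (v i) (v k) * ip (v k) y =
      -(dd n K * (ip (z i) y * ip (v i) Sv)) := by
    have h := hv.T2 (z i) (v i) Sv y
    rw [hy, mul_zero, zero_add] at h
    rw [← h, mul_sum, ← sum_neg_distrib]
    refine sum_congr rfl fun k _ => ?_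
    have h1 := st_star_rat' hv hz i k
    unfold et
    rw [← hSv]
    linear_combination (dd n K + 1) * ip (v k) Sv * ip (v i) (v k) * ip (v k) y * h1
  have hsum : ∑ k, (et v z i k - et v z k i) * (rat v z i k - star (rat v z i k)) *
      ip (v i) (v k) * ip (v k) y =
      ∑ k, et v z i k * rat v z i k * ip (v i) (v k) * ip (v k) y -
      ∑ k, et v z k i * rat v z i k * ip (v i) (v k) * ip (v k) y -
      ∑ k, et v z i k * star (rat v z i k) * ip (v i) (v k) * ip (v k) y +
      ∑ k, et v z k i * star (rat v z i k) * ip (v i) (v k) * ip (v k) y := by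
    rw [← sum_sub_distrib, ← sum_sub_distrib, ← sum_add_distrib]
    exact sum_congr rfl fun k _ => by ring
  rw [hsum, t1, t2, t3, t4, hSr]
  ring

end Pool.Agent.SicRg
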