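import Pool.Agent.Lib.MP_d0f9e0_co.Rg.RR

set_option autoImplicit false

namespace Pool.Agent.SicRg

open Finset

variable {K : Type*} [Field K] [StarRing K] {n ι : Type} [Fintype n] [Fintype ι]

/-!
First order identities, `a = rat v z`, `s = a * star a`.  Each is one use of
`T1`, `T2` or `BB`; the translation of the terms: for all `i k` (diagonal included, where both
sides vanish) `ip (v i) (z k) = a i k * G i k`, `ip (v k) (z i) = - a i k * G k i`,
`ip (z i) (v k) = - star (a i k) * G i k`, `ip (z k) (v i) = star (a i k) * G k i`.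
-/

variable [CharZero K] [DecidableEq ι] {v z : ι → n → K}

omit [CharZero K] in
theorem sb1 (hz : Tan v z) (i k : ι) :
    rat v z i k = -((dd n K + 1) * (ip (v k) (z i) * ip (v i) (v k))) := hz.anti k i

omit [CharZero K] in
theorem sb2 (hz : Tan v z) (i k : ι) :
    star (rat v z i k) = -((dd n K + 1) * (ip (z i) (v k) * ip (v k) (v i))) := by
  rw [sb1 hz i k, star_neg, star_mul', star_mul', star_ip, star_ip, star_dd]

omit [CharZero K] in
theorem sb_zz (hz : Tan v z) (i : ι) : ip (z i) (v i) = 0 := by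
  rw [← star_ip, hz.diag i, star_zero]

omit [CharZero K] in
theorem sb3 (hv : Sys v) (hz : Tan v z) (i k : ι) :
    rat v z i k * star (rat v z i k) = (dd n K + 1) * (ip (z i) (v k) * ip (v k) (z i)) := by
  have hang := hv.ang i k
  by_cases hik : i = k
  · subst hik
    rw [sb1 hz i i, hz.diag i]
    ring
  · rw [if_neg hik, mul_zero, add_zero] at hang
    rw [sb2 hz i k, sb1 hz i k]
    linear_combination (dd n K + 1) * ip (v k) (z i) * ip (z i) (v k) * hang

omit [CharZero K] [DecidableEq ι] in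
theorem sb_et (i k : ι) : et v z i k = (dd n K + 1) * (ip (opr z z v i) (v k) * ip (v k) (v i)) := by
  unfold et
  rw [opr_comm v v i k]

omit [CharZero K] [DecidableEq ι] in
theorem sb_et' (i k : ι) :
    star (et v z i k) = (dd n K + 1) * (ip (v k) (opr z z v i) * ip (v i) (v k)) := by
  rw [sb_et, star_mul', star_mul', star_ip, star_ip, star_dd]

theorem sum_e2 (hv : Sys v) (hz : Tan v z) (i : ι) :
    ∑ k, et v z i k * star (et v z i k) = dd n K * (dd n K + 1) *
      (ip (opr z z v i) (opr z z v i) + ip (v i) (opr z z v i) ^ 2) := by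
  have h := hv.T2 (opr z z v i) (v i) (opr z z v i) (v i)
  rw [hv.unit i, ← opr_comm v v i i] at h
  have h1 : ∑ k, et v z i k * star (et v z i k) = (dd n K + 1) * ((dd n K + 1) *
      ∑ k, (ip (opr z z v i) (v k) * ip (v i) (v k)) *
        (ip (v k) (opr z z v i) * ip (v k) (v i))) := by
    rw [mul_sum, mul_sum]
    refine sum_congr rfl fun k _ => ?_
    rw [sb_et', sb_et]
    ring
  rw [h1, h]
  ring

theorem sum_ee (hv : Sys v) (hz : Tan v z) (i : ι) :
    ∑ k, et v z i k ^ 2 = 2 * dd n K * (dd n K + 1) * ip (v i) (opr z z v i) ^ 2 := by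
  have h := hv.T2 (opr z z v i) (opr z z v i) (v i) (v i)
  rw [← opr_comm v v i i] at h
  have h1 : ∑ k, et v z i k ^ 2 = (dd n K + 1) * ((dd n K + 1) *
      ∑ k, (ip (opr z z v i) (v k) * ip (opr z z v i) (v k)) *
        (ip (v k) (v i) * ip (v k) (v i))) := by
    rw [mul_sum, mul_sum]
    refine sum_congr rfl fun k _ => ?_
    rw [sb_et]
    ring
  rw [h1, h]
  ring

theorem sum_me (hv : Sys v) (hz : Tan v z) (i : ι) :
    ∑ k, mm v z i k * et v z i k = (dd n K + 1) * ip (opr z z v i) (opr z z v i) := by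
  have h := hz.bb (opr z z v i) (z i) (v i) (v i)
  have h1 : ∑ k, mm v z i k * et v z i k = (dd n K + 1) * ((dd n K + 1) *
      ∑ k, (ip (opr z z v i) (v k) * ip (z i) (z k) + ip (opr z z v i) (z k) * ip (z i) (v k)) *
      (ip (v k) (v i) * ip (v k) (v i))) +
      (dd n K + 1) * ∑ k, ip (opr z z v i) (z k) * ip (z k) (v i) := by
    rw [mul_sum, mul_sum, mul_sum, ← sum_add_distrib]
    refine sum_congr rfl fun k _ => ?_
    rw [sb_et]
    unfold mm
    have h4 := tr4 hv hz i k
    have h2 := sb2 hz i k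
    linear_combination -((dd n K + 1) * ip (opr z z v i) (z k)) * h4 -
      (dd n K + 1) * ip (opr z z v i) (z k) * ip (v k) (v i) * h2
  rw [h1, h, ip_opr]
  ring

theorem sum_se (hv : Sys v) (hz : Tan v z) (i : ι) :
    ∑ k, rat v z i k * star (rat v z i k) * et v z i k =
      dd n K * (dd n K + 1) * ip (z i) (z i) * ip (v i) (opr z z v i) := by
  have h := hv.T2 (z i) (opr z z v i) (z i) (v i)
  rw [← opr_comm v v i i, sb_zz hz i] at h
  have h1 : ∑ k, rat v z i k * star (rat v z i k) * et v z i k = (dd n K + 1) * ((dd n K + 1) *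
      ∑ k, (ip (z i) (v k) * ip (opr z z v i) (v k)) * (ip (v k) (z i) * ip (v k) (v i))) := by
    rw [mul_sum, mul_sum]
    refine sum_congr rfl fun k _ => ?_
    rw [sb_et, sb3 hv hz i k]
    ring
  rw [h1, h]
  ring

theorem sum_a2e (hv : Sys v) (hz : Tan v z) (i : ι) :
    ∑ k, rat v z i k ^ 2 * et v z i k = 0 := by
  have h := hv.T2 (opr z z v i) (v i) (z i) (z i)
  rw [hz.diag i, mul_zero, add_zero, mul_zero] at h
  have h1 : ∑ k, rat v z i k ^ 2 * et v z i k = (dd n K + 1) * ((dd n K + 1) *
      ∑ k, (ip (opr z z v i) (v k) * ip (v i) (v k)) * (ip (v k) (z i) * ip (v k) (z i))) := by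
    rw [mul_sum, mul_sum]
    refine sum_congr rfl fun k _ => ?_
    have hang := hv.ang i k
    by_cases hik : i = k
    · subst hik
      rw [sb1 hz i i, hz.diag i]
      ring
    · rw [if_neg hik, mul_zero, add_zero] at hang
      rw [sb_et, sb1 hz i k]
      linear_combination (dd n K + 1) ^ 2 * ip (v k) (z i) ^ 2 * ip (v i) (v k) *
        ip (opr z z v i) (v k) * hang
  rw [h1, h, mul_zero]

theorem sum_a2e' (hv : Sys v) (hz : Tan v z) (i : ι) :
    ∑ k, star (rat v z i k) ^ 2 * et v z i k = 0 := by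
  have h := congrArg star (hz.bb (v i) (v i) (z i) (opr z z v i))
  rw [star_sum, star_zero] at h
  have h1 : 2 * ∑ k, star (rat v z i k) ^ 2 * et v z i k = -((dd n K + 1) * ((dd n K + 1) *
      ∑ k, star ((ip (v i) (v k) * ip (v i) (z k) + ip (v i) (z k) * ip (v i) (v k)) *
        (ip (v k) (z i) * ip (v k) (opr z z v i))))) := by
    rw [mul_sum, mul_sum, mul_sum, ← sum_neg_distrib]
    refine sum_congr rfl fun k _ => ?_
    simp only [star_mul', star_add, star_ip]
    rw [sb_et]
    have h4 := tr4 hv hz i k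
    have h2 := sb2 hz i k
    linear_combination 2 * (dd n K + 1) * ip (opr z z v i) (v k) * (star (rat v z i k) *
      ip (v k) (v i) * h2 + (dd n K + 1) * ip (z i) (v k) * ip (v k) (v i) * h4)
  rw [h, mul_zero, mul_zero, neg_zero] at h1
  exact (mul_eq_zero.mp h1).resolve_left two_ne_zero

end Pool.Agent.SicRg
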