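import Pool.Agent.Lib.MP_d0f9e0_co.Rg.RR

set_option autoImplicit false

namespace Pool.Agent.SicRg

open Finset

variable {K : Type*} [Field K] [StarRing K] {n ι : Type} [Fintype n] [Fintype ι]

variable [CharZero K] [DecidableEq ι] {v z : ι → n → K}

theorem S_diag (hv : Sys v) (hz : Tan v z) (i : ι) :
    ip (v i) (opr z z v i) = dd n K * ip (z i) (z i) := by
  rw [ip_opr, ← hv.T1]
  refine sum_congr rfl fun j _ => ?_
  rw [tr1 hv hz i j, tr4 hv hz i j, tr3 hv hz i j, tr2 hv hz i j]
  ring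

/-- `<v i, S z i> = 0` -/
theorem Sz_diag (hv : Sys v) (hz : Tan v z) (i : ι) : ip (v i) (opr z z z i) = 0 := by
  have h0 : dd n K + 1 ≠ 0 := dd_succ_ne
  have hB := hz.bb (z i) (z i) (v i) (v i)
  have h1 : 2 * star (ip (v i) (opr z z z i)) = -((dd n K + 1) *
      ∑ k, (ip (z i) (v k) * ip (z i) (z k) + ip (z i) (z k) * ip (z i) (v k)) *
      (ip (v k) (v i) * ip (v k) (v i))) := by
    rw [ip_opr, star_sum, mul_sum, mul_sum, ← sum_neg_distrib]
    refine sum_congr rfl fun k _ => ?_
    rw [star_mul', star_ip, star_ip, tr4 hv hz i k, tr3 hv hz i k]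
    have hang := hv.ang i k
    by_cases hik : i = k
    · subst hik
      have h2 : rat v z i i = 0 := by
        unfold rat
        rw [hz.diag i]
        ring
      rw [h2, star_zero]
      ring
    · rw [if_neg hik, mul_zero, add_zero] at hang
      linear_combination -(2 * star (rat v z i k) * ip (v k) (v i) * ip (z i) (z k)) * hang
  rw [hB, mul_zero, neg_zero] at h1
  have h2 := (mul_eq_zero.mp h1).resolve_left two_ne_zero
  rwa [star_eq_zero] at h2

theorem trace_S2 (hv : Sys v) :
    ∑ i, ip (opr z z v i) (opr z z v i) = dd n K * ∑ i, ip (z i) (opr z z z i) := by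
  have h1 : ∀ i, ip (opr z z v i) (opr z z v i) =
      ∑ j, ∑ k, ip (z k) (v i) * ip (v i) (z j) * ip (z j) (z k) := by
    intro i
    rw [opr_ip]
    refine sum_congr rfl fun j _ => ?_
    rw [ip_opr, mul_sum]
    exact sum_congr rfl fun k _ => by ring
  rw [sum_congr rfl fun i _ => h1 i, sum_comm, mul_sum]
  refine sum_congr rfl fun j _ => ?_
  rw [sum_comm, ip_opr, mul_sum]
  refine sum_congr rfl fun k _ => ?_
  rw [← sum_mul, hv.T1]
  ring

/-- `(s o G) V^* = d R V^*` -/
theorem sG (hv : Sys v) (hz : Tan v z) (i : ι) (y : n → K) :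
    ∑ k, rat v z i k * star (rat v z i k) * ip (v i) (v k) * ip (v k) y =
      dd n K * ip (z i) (z i) * ip (v i) y := by
  have h := hv.T2 (z i) (v i) (z i) y
  rw [hz.diag i, mul_zero, add_zero] at h
  rw [mul_assoc (dd n K), ← h, mul_sum]
  refine sum_congr rfl fun k _ => ?_
  have h3 := tr3 hv hz i k
  have h1 : rat v z i k = -((dd n K + 1) * (ip (v k) (z i) * ip (v i) (v k))) := hz.anti k i
  linear_combination (rat v z i k * ip (v k) y) * h3 - ip (z i) (v k) * ip (v k) y * h1

/-- `(a^2 o G) V^* = 0` -/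
theorem a2G (hv : Sys v) (hz : Tan v z) (i : ι) (y : n → K) :
    ∑ k, rat v z i k ^ 2 * ip (v i) (v k) * ip (v k) y = 0 := by
  have h := hz.bb (v i) (v i) (z i) y
  have h2 : 2 * ∑ k, rat v z i k ^ 2 * ip (v i) (v k) * ip (v k) y = -((dd n K + 1) *
      ∑ k, (ip (v i) (v k) * ip (v i) (z k) + ip (v i) (z k) * ip (v i) (v k)) *
      (ip (v k) (z i) * ip (v k) y)) := by
    rw [mul_sum, mul_sum, ← sum_neg_distrib]
    refine sum_congr rfl fun k _ => ?_
    have h3 := tr1 hv hz i k
    have h1 : rat v z i k = -((dd n K + 1) * (ip (v k) (z i) * ip (v i) (v k))) := hz.anti k i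
    linear_combination -(2 * rat v z i k * ip (v k) y) * h3 +
      2 * ip (v i) (z k) * ip (v k) y * h1
  rw [h, mul_zero, neg_zero] at h2
  exact (mul_eq_zero.mp h2).resolve_left two_ne_zero

/-- `(conj a^2 o G) V^* = 0` -/
theorem a2G' (hv : Sys v) (hz : Tan v z) (i : ι) (y : n → K) :
    ∑ k, star (rat v z i k) ^ 2 * ip (v i) (v k) * ip (v k) y = 0 := by
  have h := hv.T2 (z i) (z i) (v i) y
  have hd : ip (z i) (v i) = 0 := by rw [← star_ip, hz.diag i, star_zero]
  rw [hd, zero_mul, mul_zero, add_zero, mul_zero] at h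
  rw [← h, mul_sum]
  refine sum_congr rfl fun k _ => ?_
  have h3 := tr3 hv hz i k
  have h1 : star (rat v z i k) = -((dd n K + 1) * (ip (z i) (v k) * ip (v k) (v i))) := by
    have h4 : rat v z i k = -((dd n K + 1) * (ip (v k) (z i) * ip (v i) (v k))) := hz.anti k i
    rw [h4, star_neg, star_mul', star_mul', star_ip, star_ip, star_dd]
  linear_combination (star (rat v z i k) * ip (v k) y) * h3 - ip (z i) (v k) * ip (v k) y * h1

end Pool.Agent.SicRg
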