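import Pool.Agent.Lib.MP_d0f9e0_co.Rg.SumsA
import Pool.Agent.Lib.MP_d0f9e0_co.Rg.SumsB
import Pool.Agent.Lib.MP_d0f9e0_co.Rg.SumsC
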