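import Pool.Agent.Lib.MP_d0f9e0_co.Rg.RR

set_option autoImplicit false

namespace Pool.Agent.SicRg

open Finset

variable {K : Type*} [Field K] [StarRing K] {n ι : Type} [Fintype n] [Fintype ι]

/-!
First order identities, `a = rat v z`, `s = a * star a`.  Each is one use of
`T1`, `T2` or `BB`; the translation of the terms: for all `i k` (diagonal included, where both
sides vanish) `ip (v i) (z k) = a i k * G i k`, `ip (v k) (z i) = - a i k * G k i`,
`ip (z i) (v k) = - star (a i k) * G i k`, `ip (z k) (v i) = star (a i k) * G k i`.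
-/

variable [CharZero K] [DecidableEq ι] {v z : ι → n → K}

omit [Fintype ι] [CharZero K] [DecidableEq ι] in
theorem mm_star (i k : ι) : star (mm v z i k) = mm v z k i := by
  rw [mm_eq, mm_eq, RR_star]

omit [CharZero K] [DecidableEq ι] in
theorem et_star (i k : ι) : star (et v z i k) = et v z k i := by
  unfold et
  rw [opr_comm v v i k, star_mul', star_mul', star_ip, star_ip, star_dd]

omit [CharZero K] in
theorem sa1 (hz : Tan v z) (i k : ι) :
    rat v z i k = -((dd n K + 1) * (ip (v k) (z i) * ip (v i) (v k))) := hz.anti k i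

omit [CharZero K] in
theorem sa2 (hz : Tan v z) (i k : ι) :
    star (rat v z i k) = -((dd n K + 1) * (ip (z i) (v k) * ip (v k) (v i))) := by
  rw [sa1 hz i k, star_neg, star_mul', star_mul', star_ip, star_ip, star_dd]

omit [CharZero K] in
theorem sa3 (hv : Sys v) (hz : Tan v z) (i k : ι) :
    rat v z i k * star (rat v z i k) = (dd n K + 1) * (ip (z i) (v k) * ip (v k) (z i)) := by
  have hang := hv.ang i k
  by_cases hik : i = k
  · subst hik
    rw [sa1 hz i i, hz.diag i]
    ring
  · rw [if_neg hik, mul_zero, add_zero] at hang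
    rw [sa2 hz i k, sa1 hz i k]
    linear_combination (dd n K + 1) * ip (v k) (z i) * ip (z i) (v k) * hang

theorem sum_a (hv : Sys v) (hz : Tan v z) (i : ι) : ∑ k, rat v z i k = 0 := by
  unfold rat
  rw [← mul_sum, hz.hor, mul_zero]

theorem sum_a2 (hv : Sys v) (hz : Tan v z) (i : ι) : ∑ k, rat v z i k ^ 2 = 0 := by
  have h := hz.bb (v i) (v i) (z i) (v i)
  have h1 : 2 * ∑ k, rat v z i k ^ 2 = -((dd n K + 1) * ((dd n K + 1) *
      ∑ k, (ip (v i) (v k) * ip (v i) (z k) + ip (v i) (z k) * ip (v i) (v k)) *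
        (ip (v k) (z i) * ip (v k) (v i)))) := by
    rw [mul_sum, mul_sum, mul_sum, ← sum_neg_distrib]
    refine sum_congr rfl fun k _ => ?_
    have h1 := sa1 hz i k
    have h2 : rat v z i k = (dd n K + 1) * (ip (v i) (z k) * ip (v k) (v i)) := rfl
    linear_combination 2 * rat v z i k * h1 -
      2 * (dd n K + 1) * ip (v k) (z i) * ip (v i) (v k) * h2
  rw [h, mul_zero, mul_zero, neg_zero] at h1
  exact (mul_eq_zero.mp h1).resolve_left two_ne_zero

theorem sum_s (hv : Sys v) (hz : Tan v z) (i : ι) :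
    ∑ k, rat v z i k * star (rat v z i k) = dd n K * (dd n K + 1) * ip (z i) (z i) := by
  rw [sum_congr rfl fun k _ => sa3 hv hz i k, ← mul_sum, hv.T1]
  ring

theorem sum_s2 (hv : Sys v) (hz : Tan v z) (i : ι) :
    ∑ k, (rat v z i k * star (rat v z i k)) ^ 2 =
      2 * dd n K * (dd n K + 1) * ip (z i) (z i) ^ 2 := by
  have h := hv.T2 (z i) (z i) (z i) (z i)
  have h1 : ∑ k, (rat v z i k * star (rat v z i k)) ^ 2 = (dd n K + 1) * ((dd n K + 1) *
      ∑ k, (ip (z i) (v k) * ip (z i) (v k)) * (ip (v k) (z i) * ip (v k) (z i))) := by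
    rw [mul_sum, mul_sum]
    refine sum_congr rfl fun k _ => ?_
    rw [sa3 hv hz i k]
    ring
  rw [h1, h]
  ring

theorem sum_ma2 (hv : Sys v) (hz : Tan v z) (i : ι) :
    ∑ k, mm v z i k * rat v z i k ^ 2 =
      ∑ k, rat v z i k * star (rat v z i k) * rat v z i k ^ 2 := by
  have h := hz.bb (v i) (z i) (z i) (z i)
  have h1 : ∑ k, mm v z i k * rat v z i k ^ 2 -
      ∑ k, rat v z i k * star (rat v z i k) * rat v z i k ^ 2 = (dd n K + 1) * ((dd n K + 1) *
      ∑ k, (ip (v i) (v k) * ip (z i) (z k) + ip (v i) (z k) * ip (z i) (v k)) *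
        (ip (v k) (z i) * ip (v k) (z i))) := by
    rw [mul_sum, mul_sum, ← sum_sub_distrib]
    refine sum_congr rfl fun k _ => ?_
    have hang := hv.ang i k
    have h1 := sa1 hz i k
    have ht := tr1 hv hz i k
    rw [sa3 hv hz i k]
    unfold mm
    by_cases hik : i = k
    · subst hik
      rw [h1, hz.diag i]
      ring
    · rw [if_neg hik, mul_zero, add_zero] at hang
      rw [ht, h1]
      linear_combination (dd n K + 1) ^ 2 * ip (z i) (z k) * ip (v k) (z i) ^ 2 *
        ip (v i) (v k) * hang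
  rw [h, mul_zero, mul_zero] at h1
  exact sub_eq_zero.mp h1

theorem sum_sm (hv : Sys v) (hz : Tan v z) (i : ι) :
    ∑ k, rat v z i k * star (rat v z i k) * mm v z i k = 0 := by
  have h := hz.bb (z i) (z i) (v i) (z i)
  have h1 : 2 * ∑ k, rat v z i k * star (rat v z i k) * mm v z i k = (dd n K + 1) *
      ((dd n K + 1) *
      ∑ k, (ip (z i) (v k) * ip (z i) (z k) + ip (z i) (z k) * ip (z i) (v k)) *
        (ip (v k) (v i) * ip (v k) (z i))) := by
    rw [mul_sum, mul_sum, mul_sum]
    refine sum_congr rfl fun k _ => ?_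
    rw [sa3 hv hz i k]
    unfold mm
    ring
  rw [h, mul_zero, mul_zero] at h1
  exact (mul_eq_zero.mp h1).resolve_left two_ne_zero

theorem sum_m2 (hv : Sys v) (hz : Tan v z) (i : ι) :
    ∑ k, mm v z i k * star (mm v z i k) =
      (dd n K + 1) * (ip (z i) (opr z z z i) + dd n K * ip (z i) (z i) ^ 2) := by
  have h1 : dd n K * ip (z i) (z i) ^ 2 = ∑ k, dd n K * (if i = k then 1 else 0) *
      (ip (z i) (z k) * ip (z k) (z i)) := by
    rw [sum_eq_single i]
    · rw [if_pos rfl]
      ring
    · intro b _ hb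
      rw [if_neg (Ne.symm hb)]
      ring
    · intro h
      exact absurd (mem_univ i) h
  rw [h1, ip_opr, ← sum_add_distrib, mul_sum]
  refine sum_congr rfl fun k _ => ?_
  have hang := hv.ang i k
  rw [mm_star]
  unfold mm
  linear_combination (dd n K + 1) * ip (z i) (z k) * ip (z k) (z i) * hang

end Pool.Agent.SicRg
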