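import Pool.Agent.Lib.MP_d0f9e0_co.Rg.Two
import Pool.Agent.Lib.MP_d0f9e0_co.Rg.Gauge
import Pool.Agent.Lib.MP_d0f9e0_co.Rg.Stress
import Pool.Agent.Lib.MP_d0f9e0_co.Rg.RR

set_option autoImplicit false

namespace Pool.Agent.SicRg

open Finset

variable {K : Type*} [Field K] [StarRing K] {n ι : Type} [Fintype n] [Fintype ι]

/-!
File Three.  (3) and (4) of dnote 4498.
-/

variable [CharZero K] [DecidableEq n] [DecidableEq ι] {v z w : ι → n → K} {ad : ι → ι → K}

omit [DecidableEq n] in
/-- the ratio of `u = w + S v / d` -/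
theorem rat_u (hpos : SicAb.PosStar K) (hv : Sys v) (hz : Tan v z) (hw : Sec v z w ad)
    (i k : ι) : rat v (fun k => w k + (dd n K)⁻¹ • opr z z v k) i k =
      ad i k + (et v z i k - et v z k i) / dd n K := by
  have hd := hv.dd_ne i
  have hm := m_formula hpos hv hz hw i k
  have hm' : mm v z i k = et v z k i / dd n K - xx v z i k := by
    field_simp
    linear_combination hm
  have h1 : rat v (fun k => w k + (dd n K)⁻¹ • opr z z v k) i k =
      rat v w i k + (dd n K)⁻¹ * et v z i k := by
    unfold rat et
    rw [ip_add, ip_smul]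
    ring
  rw [h1, hw.rat, hm']
  unfold xx
  ring

/-- (3): `u = w + S v / d` is a tangent vector -/
theorem tan_u (hpos : SicAb.PosStar K) (hv : Sys v) (hz : Tan v z) (hw : Sec v z w ad) :
    Tan v (fun k => w k + (dd n K)⁻¹ • opr z z v k) := by
  refine Hor.tan hpos hv ⟨fun k => ?_, fun x y => ?_⟩ fun i k => ?_
  · have hd := hv.dd_ne k
    rw [ip_add, ip_smul, hw.diag, S_diag hv hz k]
    field_simp
    ring
  · have h1 : ∀ k, ip x (w k + (dd n K)⁻¹ • opr z z v k) * ip (v k) y =
        ip x (w k) * ip (v k) y + (dd n K)⁻¹ * ∑ j, ip x (z j) * (ip (z j) (v k) * ip (v k) y) := by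
      intro k
      rw [ip_add, ip_smul, ip_opr, add_mul, mul_assoc, sum_mul]
      congr 2
      exact sum_congr rfl fun j _ => by ring
    rw [sum_congr rfl fun k _ => h1 k, sum_add_distrib, hw.hor, ← mul_sum, sum_comm]
    have h2 : ∑ j, ∑ k, ip x (z j) * (ip (z j) (v k) * ip (v k) y) =
        dd n K * ∑ j, ip x (z j) * ip (z j) y := by
      rw [mul_sum]
      refine sum_congr rfl fun j _ => ?_
      rw [← mul_sum, hv.T1]
      ring
    rw [h2]
    rcases isEmpty_or_nonempty ι with he | ⟨⟨j⟩⟩
    · simp
    · have hd := hv.dd_ne j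
      field_simp
      ring
  · have h1 := rat_u hpos hv hz hw i k
    have h2 := rat_u hpos hv hz hw k i
    have h3 : rat v (fun k => w k + (dd n K)⁻¹ • opr z z v k) i k +
        rat v (fun k => w k + (dd n K)⁻¹ • opr z z v k) k i = 0 := by
      rw [h1, h2, hw.anti i k]
      ring
    rw [h3, star_zero, add_zero]

/-- (3) -/
theorem sum_del (hpos : SicAb.PosStar K) (hv : Sys v) (hz : Tan v z) (hw : Sec v z w ad) :
    ∑ i, ∑ k, (ad i k + (et v z i k - et v z k i) / dd n K) * (et v z i k - et v z k i) = 0 := by
  have hu := tan_u hpos hv hz hw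
  have hr := rat_u hpos hv hz hw
  set u := fun k => w k + (dd n K)⁻¹ • opr z z v k with hu_def
  have h1 : ∀ i, ∑ k, rat v u i k * et v z i k =
      -(dd n K * (dd n K + 1) * ip (opr z z v i) (u i)) := by
    intro i
    set Sv := opr z z v i with hSv
    have hB := hu.bb (v i) Sv (v i) (v i)
    have hH := hu.hor Sv (v i)
    have h2 : (dd n K + 1) * (dd n K + 1) * ∑ k, (ip (v i) (v k) * ip Sv (u k) +
        ip (v i) (u k) * ip Sv (v k)) * (ip (v k) (v i) * ip (v k) (v i)) =
        (dd n K + 1) * ∑ k, ip Sv (u k) * ip (v k) (v i) +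
        (dd n K + 1) * (dd n K * ip Sv (u i)) + ∑ k, rat v u i k * et v z i k := by
      have h3 : dd n K * ip Sv (u i) = ∑ k, dd n K * (if i = k then 1 else 0) *
          (ip Sv (u k) * ip (v k) (v i)) := by
        rw [sum_eq_single i]
        · rw [if_pos rfl, hv.unit i]
          ring
        · intro b _ hb
          rw [if_neg (Ne.symm hb)]
          ring
        · intro h
          exact absurd (mem_univ i) h
      rw [h3, mul_sum, mul_sum, mul_sum, ← sum_add_distrib, ← sum_add_distrib]
      refine sum_congr rfl fun k _ => ?_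
      have hang := hv.ang i k
      unfold et
      rw [opr_comm v v i k, ← hSv]
      unfold rat
      linear_combination (dd n K + 1) * ip Sv (u k) * ip (v k) (v i) * hang
    rw [hB, hH] at h2
    linear_combination -h2
  have h4 : ∑ i, ip (opr z z v i) (u i) = 0 := by
    have h5 : ∀ i, ip (opr z z v i) (u i) = ∑ j, ip (z j) (u i) * ip (v i) (z j) := by
      intro i
      rw [opr_ip]
      exact sum_congr rfl fun j _ => mul_comm _ _
    rw [sum_congr rfl fun i _ => h5 i, sum_comm]
    exact sum_eq_zero fun j _ => hu.hor (z j) (z j)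
  have h6 : ∑ i, ∑ k, rat v u i k * et v z i k = 0 := by
    rw [sum_congr rfl fun i _ => h1 i, sum_neg_distrib, ← mul_sum, h4, mul_zero, neg_zero]
  have h7 : ∑ i, ∑ k, rat v u i k * et v z k i = 0 := by
    rw [sum_comm, ← neg_eq_zero, ← h6, ← sum_neg_distrib]
    refine sum_congr rfl fun k _ => ?_
    rw [← sum_neg_distrib]
    exact sum_congr rfl fun i _ => by rw [hu.anti k i]; ring
  have h8 : ∑ i, ∑ k, (ad i k + (et v z i k - et v z k i) / dd n K) *
      (et v z i k - et v z k i) = ∑ i, ∑ k, rat v u i k * et v z i k -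
      ∑ i, ∑ k, rat v u i k * et v z k i := by
    rw [← sum_sub_distrib]
    refine sum_congr rfl fun i _ => ?_
    rw [← sum_sub_distrib]
    exact sum_congr rfl fun k _ => by rw [hr i k]; ring
  rw [h8, h6, h7, sub_zero]

/-- the sum of `lam (r + r^T + conj)` vanishes -/
theorem three_sum (hv : Sys v) (hz : Tan v z) (Y : ι → n → K) (hY : ∀ i, ip (v i) (Y i) = 0)
    (lam : ι → ι → K)
    (hl : ∀ i k, lam i k = (rat v z i k - star (rat v z i k)) * (et v z i k - et v z k i))
    (hs : ∀ i k, star (lam i k) = lam i k) (hsym : ∀ i k, lam k i = lam i k) :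
    ∑ i, ∑ k, lam i k * (RR v v Y i k + RR v v Y k i + star (RR v v Y i k) +
      star (RR v v Y k i)) = 0 := by
  have h1 : ∑ i, ∑ k, lam i k * RR v v Y k i = 0 := by
    refine sum_eq_zero fun i _ => ?_
    have h2 := stress hv hz i (Y i) (hY i)
    have h3 : ∑ k, lam i k * RR v v Y k i = (dd n K + 1) *
        ∑ k, (et v z i k - et v z k i) * (rat v z i k - star (rat v z i k)) *
          ip (v i) (v k) * ip (v k) (Y i) := by
      rw [mul_sum]
      refine sum_congr rfl fun k _ => ?_
      rw [hl i k]
      unfold RR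
      ring
    rw [h3, h2, mul_zero]
  have h2 : ∑ i, ∑ k, lam i k * RR v v Y i k = 0 := by
    rw [sum_comm, ← h1]
    exact sum_congr rfl fun k _ => sum_congr rfl fun i _ => by rw [hsym i k]
  have h3 : ∑ i, ∑ k, lam i k * star (RR v v Y i k) = 0 := by
    have : star (∑ i, ∑ k, lam i k * RR v v Y i k) = ∑ i, ∑ k, lam i k * star (RR v v Y i k) := by
      simp only [star_sum, star_mul', hs]
    rw [← this, h2, star_zero]
  have h4 : ∑ i, ∑ k, lam i k * star (RR v v Y k i) = 0 := by
    have : star (∑ i, ∑ k, lam i k * RR v v Y k i) = ∑ i, ∑ k, lam i k * star (RR v v Y k i) := by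
      simp only [star_sum, star_mul', hs]
    rw [← this, h1, star_zero]
  have h5 : ∑ i, ∑ k, lam i k * (RR v v Y i k + RR v v Y k i + star (RR v v Y i k) +
      star (RR v v Y k i)) = ∑ i, ∑ k, lam i k * RR v v Y i k + ∑ i, ∑ k, lam i k * RR v v Y k i +
      ∑ i, ∑ k, lam i k * star (RR v v Y i k) + ∑ i, ∑ k, lam i k * star (RR v v Y k i) := by
    simp only [mul_add, sum_add_distrib]
  rw [h5, h1, h2, h3, h4]
  ring

section third

variable {D : K → K} {X : n → n → K} {th : ι → K}

omit [CharZero K] [DecidableEq n] in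
theorem three_hor' (hz : Tan v z) (x y : n → K) : ∑ j, ip x (v j) * ip (z j) y = 0 := by
  have h := congrArg star (hz.hor y x)
  rw [star_sum, star_zero] at h
  rw [← h]
  exact sum_congr rfl fun j _ => by rw [star_mul', star_ip, star_ip, mul_comm]

omit [CharZero K] [DecidableEq ι] [DecidableEq n] in
theorem star_dinv : star ((dd n K)⁻¹) = (dd n K)⁻¹ := by
  unfold dd
  rw [star_inv₀, star_natCast]

omit [CharZero K] [DecidableEq n] in
theorem three_B (hz : Tan v z) (i k : ι) :
    RR v v (opr z w v) i k =
      RR v v (opr z (fun k => w k + (dd n K)⁻¹ • opr z z v k) v) i k := by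
  unfold RR
  congr 2
  rw [ip_opr, ip_opr]
  have h1 : ∀ j, ip (v i) (w j + (dd n K)⁻¹ • opr z z v j) * ip (z j) (v k) =
      ip (v i) (w j) * ip (z j) (v k) +
        (dd n K)⁻¹ * (ip (opr z z v i) (v j) * ip (z j) (v k)) := by
    intro j
    rw [ip_add, ip_smul, opr_comm v v i j]
    ring
  rw [sum_congr rfl fun j _ => h1 j, sum_add_distrib, ← mul_sum, three_hor' hz, mul_zero,
    add_zero]

omit [CharZero K] [DecidableEq n] in
theorem three_C (hz : Tan v z) (i k : ι) :
    RR v v (opr w z v) i k =
      star (RR v v (opr z (fun k => w k + (dd n K)⁻¹ • opr z z v k) v) k i) := by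
  rw [RR_star]
  unfold RR
  congr 2
  rw [ip_opr, opr_ip]
  have h1 : ∀ j, ip (v i) (z j) * ip (w j + (dd n K)⁻¹ • opr z z v j) (v k) =
      ip (v i) (z j) * ip (w j) (v k) +
        (dd n K)⁻¹ * (ip (v i) (z j) * ip (v j) (opr z z v k)) := by
    intro j
    rw [ip_add_left, ip_smul_left, star_dinv, opr_comm v v j k]
    ring
  rw [sum_congr rfl fun j _ => h1 j, sum_add_distrib, ← mul_sum, hz.hor, mul_zero, add_zero]

theorem Curve.D_et (hC : Curve D X th v z) (i k : ι) :
    D (et v z i k) = star (RR v v (opr z z z) k i) +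
      (star (RR v v (opr z (fun k => nab D X th z k + (dd n K)⁻¹ • opr z z v k) v) k i) +
        RR v v (opr z (fun k => nab D X th z k + (dd n K)⁻¹ • opr z z v k) v) i k +
        RR v v (opr z z z) i k) + (star (rat v z i k) - rat v z i k) * et v z i k := by
  have hz := hC.tan
  have h1 : nab D X th (opr z z v) k = opr (nab D X th z) z v k + opr z (nab D X th z) v k +
      opr z z (nab D X th v) k := nab_opr hC.der hC.skew z z v k
  rw [hC.dv] at h1
  have h2 : RR v v (nab D X th (opr z z v)) i k = RR v v (opr (nab D X th z) z v) i k +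
      RR v v (opr z (nab D X th z) v) i k + RR v v (opr z z z) i k := by
    unfold RR
    rw [h1, ip_add, ip_add]
    ring
  have h3 : RR v z (opr z z v) i k = star (RR v v (opr z z z) k i) := by
    rw [RR_star]
    unfold RR
    rw [opr_comm z v i k]
  rw [et_eq, hC.D_RR v (opr z z v) i k, hC.dv, h2, h3, three_B hz, three_C hz]

theorem Curve.D_mm (hC : Curve D X th v z) (i k : ι) :
    D (mm v z i k) =
      (RR v z (fun k => nab D X th z k + (dd n K)⁻¹ • opr z z v k) i k -
        (dd n K)⁻¹ * star (RR v v (opr z z z) k i)) +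
      (star (RR v z (fun k => nab D X th z k + (dd n K)⁻¹ • opr z z v k) k i) -
        (dd n K)⁻¹ * RR v v (opr z z z) i k) +
      (star (rat v z i k) - rat v z i k) * mm v z i k := by
  have h3 : ∀ i k, RR v z (opr z z v) i k = star (RR v v (opr z z z) k i) := by
    intro i k
    rw [RR_star]
    unfold RR
    rw [opr_comm z v i k]
  have h4 : ∀ i k, RR v z (nab D X th z) i k =
      RR v z (fun k => nab D X th z k + (dd n K)⁻¹ • opr z z v k) i k -
        (dd n K)⁻¹ * star (RR v v (opr z z z) k i) := by
    intro i k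
    rw [← h3]
    unfold RR
    rw [ip_add, ip_smul]
    ring
  have h5 : RR v (nab D X th z) z i k =
      star (RR v z (fun k => nab D X th z k + (dd n K)⁻¹ • opr z z v k) k i) -
        (dd n K)⁻¹ * RR v v (opr z z z) i k := by
    rw [← RR_star, h4 k i, star_sub, star_mul', star_star, star_dinv]
  rw [mm_eq, hC.D_RR z z i k, h5, h4]
  ring

theorem Curve.rat_y (hC : Curve D X th v z) (u : ι → n → K) (i k : ι) :
    RR v v (fun k => nab D X th u k + (dd n K)⁻¹ • opr z u v k) i k =
      D (rat v u i k) - RR v z u i k - (star (rat v z i k) - rat v z i k) * rat v u i k +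
        (dd n K)⁻¹ * RR v v (opr z u v) i k := by
  rw [rat_eq, hC.D_RR v u i k, hC.dv]
  unfold RR
  rw [ip_add, ip_smul]
  ring

theorem Curve.y_diag (hC : Curve D X th v z) {u : ι → n → K} (hu : Tan v u) (i : ι) :
    ip (v i) (nab D X th u i + (dd n K)⁻¹ • opr z u v i) = 0 := by
  have hv := hC.sys
  have hz := hC.tan
  have hd := hv.dd_ne i
  have h1 := D_ip hC.der hC.skew v u i i
  rw [hu.diag i, hC.der.zero, hC.dv, mul_zero, add_zero] at h1
  have h2 : ip (v i) (opr z u v i) = dd n K * ip (z i) (u i) := by
    rw [ip_opr, ← hv.T1]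
    refine sum_congr rfl fun j _ => ?_
    rw [tr1 hv hu i j, tr4 hv hz i j, tr3 hv hz i j, tr2 hv hu i j]
    ring
  rw [ip_add, ip_smul, h2]
  field_simp
  linear_combination -h1

end third

/-- (4) -/
theorem Curve.del_real (hpos : SicAb.PosStar K) {D : K → K} {X : n → n → K} {th : ι → K}
    (hC : Curve D X th v z) (i k : ι) :
    (rat v z i k - star (rat v z i k)) * (et v z i k - et v z k i) = 0 := by
  have hv := hC.sys
  have hz := hC.tan
  have hw := hC.sec
  have hu := tan_u hpos hv hz hw
  have hr := rat_u hpos hv hz hw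
  have hdet := fun i k => hC.D_et i k
  have hdmm := fun i k => hC.D_mm i k
  set u := fun k => nab D X th z k + (dd n K)⁻¹ • opr z z v k with hu_def
  have hry := fun i k => hC.rat_y u i k
  have hyd := fun i => hC.y_diag hu i
  have hanti : ∀ i k, rat v z k i = -rat v z i k := hz.anti
  have hsq := sq_real hpos hv hz hw
  have hm := m_formula hpos hv hz hw
  have hDn : ∀ a b : K, D (a * b) = D a * b + a * D b := hC.der.mul
  have hdD : D (dd n K) = 0 := hC.der.natCast _
  -- the basic identity
  have key : ∀ i k, dd n K * (RR v v (fun k => nab D X th u k + (dd n K)⁻¹ • opr z u v k) i k +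
      RR v v (fun k => nab D X th u k + (dd n K)⁻¹ • opr z u v k) k i +
      star (RR v v (fun k => nab D X th u k + (dd n K)⁻¹ • opr z u v k) i k) +
      star (RR v v (fun k => nab D X th u k + (dd n K)⁻¹ • opr z u v k) k i)) +
      2 * (RR v v (opr z z z) i k + RR v v (opr z z z) k i + star (RR v v (opr z z z) i k) +
      star (RR v v (opr z z z) k i)) =
      6 * ((rat v z i k - star (rat v z i k)) * (et v z i k - et v z k i)) := by
    intro i k
    have hd := hv.dd_ne i
    have hdd : dd n K * (dd n K)⁻¹ = 1 := mul_inv_cancel₀ hd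
    have E1 := congrArg D (hm i k)
    have E2 := congrArg D (hm k i)
    have m1 := hm i k
    have m2 := hm k i
    rw [hDn, hdD, hC.der.sub, hDn, hdD, hdmm, hdet] at E1 E2
    have r1 := hry i k
    have r2 := hry k i
    have s1 := congrArg star r1
    have s2 := congrArg star r2
    simp only [star_add, star_sub, star_mul', star_star, star_dinv] at s1 s2
    have c1 := hr i k
    have c2 : rat v u k i = -rat v u i k := hu.anti i k
    have a2 := hanti i k
    have sq1 := congrArg D (hsq i k)
    have hx1 : ∀ b : K, D (b * star b - b ^ 2) = D b * star b + b * star (D b) -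
        2 * (b * D b) := by
      intro b
      rw [hC.der.sub, hDn, sq, hDn, hC.der.star]
      ring
    have hx2 : ∀ b : K, D (b ^ 2) = 2 * (b * D b) := by
      intro b
      rw [sq, hDn]
      ring
    rw [hx2, hx2, hC.der.star] at sq1
    unfold xx at E1 E2 m1 m2
    rw [hx1] at E1 E2
    rw [c2, a2, hC.der.neg] at r2 s2
    rw [a2, hC.der.neg] at E2
    rw [a2] at E1 m2
    simp only [star_neg] at r2 s2 E1 E2 m2
    have hse1 : star (et v z i k) = et v z k i := et_star i k
    have hse2 : star (et v z k i) = et v z i k := et_star k i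
    have sc1 := congrArg star c1
    rw [div_eq_mul_inv] at c1
    rw [star_add, star_div₀, star_sub, hse1, hse2] at sc1
    have hsd : star (dd n K) = dd n K := by
      unfold dd
      exact star_natCast _
    rw [hsd, div_eq_mul_inv] at sc1
    set a := rat v z i k with ha
    set n1 := RR v z u i k with hn1
    set n2 := RR v z u k i with hn2
    set ζ1 := RR v v (opr z z z) i k with hζ1
    set ζ2 := RR v v (opr z z z) k i with hζ2
    set κ1 := RR v v (opr z u v) i k with hκ1
    set κ2 := RR v v (opr z u v) k i with hκ2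
    set η1 := et v z i k with hη1
    set η2 := et v z k i with hη2
    have e1 : dd n K * (n1 + star n2) = ζ1 + star ζ2 + star ζ1 + ζ2 + star κ1 + κ2 +
        2 * (a - star a) * η2 - (a - star a) * dd n K * (a * star a - a ^ 2) -
        dd n K * (D a * star a + a * star (D a) - 2 * (a * D a)) := by
      linear_combination E1 + (ζ1 + star ζ2) * hdd + (a - star a) * m1
    have e2 : dd n K * (n2 + star n1) = ζ2 + star ζ1 + star ζ2 + ζ1 + star κ2 + κ1 +
        2 * (star a - a) * η1 - (star a - a) * dd n K * (a * star a - a ^ 2) -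
        dd n K * (D a * star a + a * star (D a) - 2 * (a * D a)) := by
      linear_combination E2 + (ζ2 + star ζ1) * hdd + (star a - a) * m2
    linear_combination dd n K * (r1 + r2 + s1 + s2) - e1 - e2 +
      (4 * (a - star a) * (η1 - η2) + κ1 + κ2 + star κ1 + star κ2) * hdd - dd n K * sq1 +
      2 * dd n K * (a - star a) * (c1 - sc1)
  set lam : ι → ι → K := fun i k =>
    (rat v z i k - star (rat v z i k)) * (et v z i k - et v z k i) with hlam
  have hs : ∀ i k, star (lam i k) = lam i k := by
    intro i k
    have hse1 : star (et v z i k) = et v z k i := et_star i k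
    have hse2 : star (et v z k i) = et v z i k := et_star k i
    simp only [hlam, star_mul', star_sub, star_star, hse1, hse2]
    ring
  have hsym : ∀ i k, lam k i = lam i k := by
    intro i k
    simp only [hlam, hanti i k, star_neg]
    ring
  have h1 := three_sum hv hz (fun k => nab D X th u k + (dd n K)⁻¹ • opr z u v k) hyd lam
    (fun _ _ => rfl) hs hsym
  have h2 := three_sum hv hz (opr z z z) (fun i => Sz_diag hv hz i) lam
    (fun _ _ => rfl) hs hsym
  have h3 : ∑ i, ∑ k, star (lam i k) * lam i k = 0 := by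
    have h4 : ∑ i, ∑ k, 6 * (star (lam i k) * lam i k) = dd n K *
        ∑ i, ∑ k, lam i k * (RR v v (fun k => nab D X th u k + (dd n K)⁻¹ • opr z u v k) i k +
          RR v v (fun k => nab D X th u k + (dd n K)⁻¹ • opr z u v k) k i +
          star (RR v v (fun k => nab D X th u k + (dd n K)⁻¹ • opr z u v k) i k) +
          star (RR v v (fun k => nab D X th u k + (dd n K)⁻¹ • opr z u v k) k i)) +
        2 * ∑ i, ∑ k, lam i k * (RR v v (opr z z z) i k + RR v v (opr z z z) k i +
          star (RR v v (opr z z z) i k) + star (RR v v (opr z z z) k i)) := by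
      simp only [mul_sum, ← sum_add_distrib]
      refine sum_congr rfl fun i _ => sum_congr rfl fun k _ => ?_
      rw [hs]
      have h5 : lam i k = (rat v z i k - star (rat v z i k)) * (et v z i k - et v z k i) := rfl
      linear_combination lam i k * (6 * h5 - key i k)
    rw [h1, h2, mul_zero, mul_zero, add_zero] at h4
    simp only [← mul_sum] at h4
    exact (mul_eq_zero.mp h4).resolve_left (by norm_num)
  exact pos2 hpos h3 i k

end Pool.Agent.SicRg
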