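import Pool.Agent.Lib.MP_d0f9e0_co.Rg.Sums

set_option autoImplicit false

namespace Pool.Agent.SicRg

open Finset

variable {K : Type*} [Field K] [StarRing K] {n ι : Type} [Fintype n] [Fintype ι]

/-!
File Two.  (1), (1'), (2) of dnote 4498.
-/

omit [StarRing K] in
theorem sum_symm_anti [CharZero K] (f g : ι → ι → K) (hf : ∀ i k, f k i = f i k)
    (hg : ∀ i k, g k i = -g i k) : ∑ i, ∑ k, f i k * g i k = 0 := by
  have h1 : ∑ i, ∑ k, f i k * g i k = ∑ i, ∑ k, f k i * g k i := sum_comm
  have h2 : ∑ i, ∑ k, f k i * g k i = -∑ i, ∑ k, f i k * g i k := by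
    rw [← sum_neg_distrib]
    refine sum_congr rfl fun i _ => ?_
    rw [← sum_neg_distrib]
    refine sum_congr rfl fun k _ => ?_
    rw [hf i k, hg i k]
    ring
  rw [h2] at h1
  have h3 : 2 * ∑ i, ∑ k, f i k * g i k = 0 := by linear_combination h1
  exact (mul_eq_zero.mp h3).resolve_left two_ne_zero

omit [StarRing K] in
theorem sum_symm_swap (f g : ι → ι → K) (hf : ∀ i k, f k i = f i k) :
    ∑ i, ∑ k, f i k * g k i = ∑ i, ∑ k, f i k * g i k := by
  rw [sum_comm]
  refine sum_congr rfl fun i _ => sum_congr rfl fun k _ => ?_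
  rw [hf i k]

variable [CharZero K] [DecidableEq ι] {v z w : ι → n → K} {ad : ι → ι → K}

theorem a_anti (hz : Tan v z) (i k : ι) : rat v z k i = -rat v z i k := hz.anti i k

/-- the ratio `<v k, w i> / <v k, v i>` in terms of the data at `i k` -/
theorem b_ki (hz : Tan v z) (hw : Sec v z w ad) (i k : ι) :
    rat v w k i = -ad i k - star (mm v z i k) + rat v z i k ^ 2 -
      rat v z i k * star (rat v z i k) := by
  rw [hw.rat k i, hw.anti i k, mm_star, a_anti hz i k, star_neg]
  ring

theorem sum_a2b (hv : Sys v) (hz : Tan v z) (i : ι) :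
    ∑ k, rat v z i k ^ 2 * rat v w k i = 0 := by
  have h := hz.bb (v i) (v i) (z i) (w i)
  have h2 : 2 * ∑ k, rat v z i k ^ 2 * rat v w k i = -((dd n K + 1) * ((dd n K + 1) *
      ∑ k, (ip (v i) (v k) * ip (v i) (z k) + ip (v i) (z k) * ip (v i) (v k)) *
      (ip (v k) (z i) * ip (v k) (w i)))) := by
    rw [mul_sum, mul_sum, mul_sum, ← sum_neg_distrib]
    refine sum_congr rfl fun k _ => ?_
    have h3 := tr1 hv hz i k
    have h1 : rat v z i k = -((dd n K + 1) * (ip (v k) (z i) * ip (v i) (v k))) := hz.anti k i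
    have h4 : rat v w k i = (dd n K + 1) * (ip (v k) (w i) * ip (v i) (v k)) := rfl
    rw [h4]
    linear_combination -(2 * (dd n K + 1) * rat v z i k * ip (v k) (w i)) * h3 +
      2 * (dd n K + 1) * ip (v i) (z k) * ip (v k) (w i) * h1
  rw [h, mul_zero, mul_zero, neg_zero] at h2
  exact (mul_eq_zero.mp h2).resolve_left two_ne_zero

theorem sum_a2b' (hv : Sys v) (hz : Tan v z) (i : ι) :
    ∑ k, star (rat v z i k) ^ 2 * rat v w k i = 0 := by
  have h := hv.T2 (z i) (z i) (v i) (w i)
  have hd : ip (z i) (v i) = 0 := by rw [← star_ip, hz.diag i, star_zero]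
  rw [hd, zero_mul, mul_zero, add_zero, mul_zero] at h
  have h1 : ∑ k, star (rat v z i k) ^ 2 * rat v w k i = (dd n K + 1) * ((dd n K + 1) *
      ∑ k, (ip (z i) (v k) * ip (z i) (v k)) * (ip (v k) (v i) * ip (v k) (w i))) := by
    rw [mul_sum, mul_sum]
    refine sum_congr rfl fun k _ => ?_
    have h3 := tr3 hv hz i k
    have h2 := sb2 hz i k
    have h4 : rat v w k i = (dd n K + 1) * (ip (v k) (w i) * ip (v i) (v k)) := rfl
    rw [h4]
    linear_combination ((dd n K + 1) * star (rat v z i k) * ip (v k) (w i)) * h3 -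
      (dd n K + 1) * ip (v k) (w i) * ip (z i) (v k) * h2
  rw [h1, h, mul_zero]

theorem sum_sb (hv : Sys v) (hz : Tan v z) (hw : Sec v z w ad) (i : ι) :
    ∑ k, rat v z i k * star (rat v z i k) * rat v w k i =
      -(dd n K * (dd n K + 1) * ip (z i) (z i) ^ 2) := by
  have h := hv.T2 (z i) (v i) (z i) (w i)
  rw [hz.diag i, mul_zero, add_zero, hw.diag i] at h
  have h1 : ∑ k, rat v z i k * star (rat v z i k) * rat v w k i =
      (dd n K + 1) * ((dd n K + 1) *
      ∑ k, (ip (z i) (v k) * ip (v i) (v k)) * (ip (v k) (z i) * ip (v k) (w i))) := by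
    rw [mul_sum, mul_sum]
    refine sum_congr rfl fun k _ => ?_
    have h4 : rat v w k i = (dd n K + 1) * (ip (v k) (w i) * ip (v i) (v k)) := rfl
    rw [h4, sb3 hv hz i k]
    ring
  rw [h1, h]
  ring

theorem a2_symm (hz : Tan v z) (i k : ι) : rat v z k i ^ 2 = rat v z i k ^ 2 := by
  rw [a_anti hz i k]
  ring

theorem s_symm (hz : Tan v z) (i k : ι) :
    rat v z k i * star (rat v z k i) = rat v z i k * star (rat v z i k) := by
  rw [a_anti hz i k, star_neg]
  ring

/-- (1): `a ^ 2` is real. -/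
theorem sq_real (hpos : SicAb.PosStar K) (hv : Sys v) (hz : Tan v z) (hw : Sec v z w ad)
    (i k : ι) : rat v z i k ^ 2 = star (rat v z i k) ^ 2 := by
  have e1 : ∑ i, ∑ k, (rat v z i k ^ 2 - star (rat v z i k) ^ 2) * rat v w k i = 0 := by
    refine sum_eq_zero fun i _ => ?_
    have h1 : ∑ k, (rat v z i k ^ 2 - star (rat v z i k) ^ 2) * rat v w k i =
        ∑ k, rat v z i k ^ 2 * rat v w k i - ∑ k, star (rat v z i k) ^ 2 * rat v w k i := by
      rw [← sum_sub_distrib]
      exact sum_congr rfl fun k _ => by ring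
    rw [h1, sum_a2b hv hz i, sum_a2b' hv hz i, sub_zero]
  have hf : ∀ i k, rat v z k i ^ 2 - star (rat v z k i) ^ 2 =
      rat v z i k ^ 2 - star (rat v z i k) ^ 2 := by
    intro i k
    rw [a_anti hz i k, star_neg]
    ring
  have e2 : ∑ i, ∑ k, (rat v z i k ^ 2 - star (rat v z i k) ^ 2) * ad i k = 0 :=
    sum_symm_anti (fun i k => rat v z i k ^ 2 - star (rat v z i k) ^ 2) ad hf hw.anti
  have e3 : ∑ i, ∑ k, (rat v z i k ^ 2 - star (rat v z i k) ^ 2) *
      (mm v z i k - star (mm v z i k)) = 0 :=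
    sum_symm_anti (fun i k => rat v z i k ^ 2 - star (rat v z i k) ^ 2)
      (fun i k => mm v z i k - star (mm v z i k)) hf (fun i k => by
        have h1 : star (mm v z i k) = mm v z k i := mm_star i k
        have h2 : star (mm v z k i) = mm v z i k := mm_star k i
        show mm v z k i - star (mm v z k i) = -(mm v z i k - star (mm v z i k))
        rw [h1, h2]
        ring)
  -- the sum without the antisymmetric term
  have e4 : ∑ i, ∑ k, (rat v z i k ^ 2 - star (rat v z i k) ^ 2) *
      (rat v z i k ^ 2 - rat v z i k * star (rat v z i k) - star (mm v z i k)) = 0 := by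
    have h1 : ∑ i, ∑ k, (rat v z i k ^ 2 - star (rat v z i k) ^ 2) *
      (rat v z i k ^ 2 - rat v z i k * star (rat v z i k) - star (mm v z i k)) =
      ∑ i, ∑ k, (rat v z i k ^ 2 - star (rat v z i k) ^ 2) * rat v w k i +
      ∑ i, ∑ k, (rat v z i k ^ 2 - star (rat v z i k) ^ 2) * ad i k := by
      rw [← sum_add_distrib]
      refine sum_congr rfl fun i _ => ?_
      rw [← sum_add_distrib]
      refine sum_congr rfl fun k _ => ?_
      rw [b_ki hz hw i k]
      ring
    rw [h1, e1, e2, add_zero]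
  have e5 : ∑ i, ∑ k, (star (rat v z i k) ^ 2 - rat v z i k ^ 2) *
      (star (rat v z i k) ^ 2 - rat v z i k * star (rat v z i k) - mm v z i k) = 0 := by
    have h1 := congrArg star e4
    rw [star_sum, star_zero] at h1
    rw [← h1]
    refine sum_congr rfl fun i _ => ?_
    rw [star_sum]
    refine sum_congr rfl fun k _ => ?_
    simp only [star_mul', star_sub, star_pow, star_star]
    ring
  have e6 : ∑ i, ∑ k, star (rat v z i k ^ 2 - star (rat v z i k) ^ 2) *
      (rat v z i k ^ 2 - star (rat v z i k) ^ 2) = 0 := by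
    have h1 : ∑ i, ∑ k, star (rat v z i k ^ 2 - star (rat v z i k) ^ 2) *
      (rat v z i k ^ 2 - star (rat v z i k) ^ 2) =
      -(∑ i, ∑ k, (rat v z i k ^ 2 - star (rat v z i k) ^ 2) *
      (rat v z i k ^ 2 - rat v z i k * star (rat v z i k) - star (mm v z i k)) +
      ∑ i, ∑ k, (star (rat v z i k) ^ 2 - rat v z i k ^ 2) *
      (star (rat v z i k) ^ 2 - rat v z i k * star (rat v z i k) - mm v z i k) -
      ∑ i, ∑ k, (rat v z i k ^ 2 - star (rat v z i k) ^ 2) *
      (mm v z i k - star (mm v z i k))) := by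
      rw [← sum_add_distrib, ← sum_sub_distrib, ← sum_neg_distrib]
      refine sum_congr rfl fun i _ => ?_
      rw [← sum_add_distrib, ← sum_sub_distrib, ← sum_neg_distrib]
      refine sum_congr rfl fun k _ => ?_
      simp only [star_sub, star_pow, star_star]
      ring
    rw [h1, e4, e5, e3]
    ring
  have e7 := pos2 hpos e6 i k
  exact sub_eq_zero.mp e7

/-- (1') -/
theorem sum_sa2 (hpos : SicAb.PosStar K) (hv : Sys v) (hz : Tan v z) (hw : Sec v z w ad) :
    ∑ i, ∑ k, rat v z i k * star (rat v z i k) * rat v z i k ^ 2 =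
      dd n K * (dd n K + 1) * ∑ i, ip (z i) (z i) ^ 2 := by
  have e1 : ∑ i, ∑ k, rat v z i k * star (rat v z i k) * rat v w k i =
      -(dd n K * (dd n K + 1) * ∑ i, ip (z i) (z i) ^ 2) := by
    rw [mul_sum, ← sum_neg_distrib]
    exact sum_congr rfl fun i _ => sum_sb hv hz hw i
  have e2 : ∑ i, ∑ k, rat v z i k * star (rat v z i k) * ad i k = 0 :=
    sum_symm_anti (fun i k => rat v z i k * star (rat v z i k)) ad (s_symm hz) hw.anti
  have e3 : ∑ i, ∑ k, rat v z i k * star (rat v z i k) * star (mm v z i k) = 0 := by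
    have h1 : ∑ i, ∑ k, rat v z i k * star (rat v z i k) * mm v z k i =
        ∑ i, ∑ k, rat v z i k * star (rat v z i k) * mm v z i k :=
      sum_symm_swap (fun i k => rat v z i k * star (rat v z i k)) (fun i k => mm v z i k)
        (s_symm hz)
    have h2 : ∑ i, ∑ k, rat v z i k * star (rat v z i k) * star (mm v z i k) =
        ∑ i, ∑ k, rat v z i k * star (rat v z i k) * mm v z k i :=
      sum_congr rfl fun i _ => sum_congr rfl fun k _ => by rw [mm_star]
    rw [h2, h1]
    exact sum_eq_zero fun i _ => sum_sm hv hz i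
  have e4 : ∑ i, ∑ k, (rat v z i k * star (rat v z i k)) ^ 2 =
      2 * dd n K * (dd n K + 1) * ∑ i, ip (z i) (z i) ^ 2 := by
    rw [mul_sum]
    exact sum_congr rfl fun i _ => sum_s2 hv hz i
  have e5 : ∑ i, ∑ k, rat v z i k * star (rat v z i k) * rat v z i k ^ 2 =
      ∑ i, ∑ k, rat v z i k * star (rat v z i k) * rat v w k i +
      ∑ i, ∑ k, rat v z i k * star (rat v z i k) * ad i k +
      ∑ i, ∑ k, rat v z i k * star (rat v z i k) * star (mm v z i k) +
      ∑ i, ∑ k, (rat v z i k * star (rat v z i k)) ^ 2 := by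
    rw [← sum_add_distrib, ← sum_add_distrib, ← sum_add_distrib]
    refine sum_congr rfl fun i _ => ?_
    rw [← sum_add_distrib, ← sum_add_distrib, ← sum_add_distrib]
    refine sum_congr rfl fun k _ => ?_
    rw [b_ki hz hw i k]
    ring
  rw [e5, e1, e2, e3, e4]
  ring

/-- (2) -/
theorem m_formula (hpos : SicAb.PosStar K) (hv : Sys v) (hz : Tan v z) (hw : Sec v z w ad)
    (i k : ι) : dd n K * mm v z i k = et v z k i - dd n K * xx v z i k := by
  have hreal := sq_real hpos hv hz hw
  have hsa := sum_sa2 hpos hv hz hw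
  have hxs : ∀ i k, xx v z k i = xx v z i k := by
    intro i k
    unfold xx
    rw [s_symm hz i k, a2_symm hz i k]
  have hxr : ∀ i k, star (xx v z i k) = xx v z i k := by
    intro i k
    unfold xx
    rw [star_sub, star_mul', star_star, star_pow, ← hreal i k]
    ring
  have hms : ∀ i k, star (mm v z i k) = mm v z k i := fun i k => mm_star i k
  have hes : ∀ i k, star (et v z i k) = et v z k i := fun i k => et_star i k
  have hSd : ∀ i, ip (v i) (opr z z v i) = dd n K * ip (z i) (z i) := fun i => S_diag hv hz i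
  have hT := trace_S2 (z := z) hv
  -- the double sums
  have e1 : ∑ i, ∑ k, mm v z i k * star (mm v z i k) =
      (dd n K + 1) * (∑ i, ip (z i) (opr z z z i) + dd n K * ∑ i, ip (z i) (z i) ^ 2) := by
    rw [sum_congr rfl fun i _ => sum_m2 hv hz i, ← mul_sum, sum_add_distrib, ← mul_sum]
  have e2 : ∑ i, ∑ k, xx v z i k * mm v z i k =
      -(dd n K * (dd n K + 1) * ∑ i, ip (z i) (z i) ^ 2) := by
    rw [← hsa, ← sum_neg_distrib]
    refine sum_congr rfl fun i _ => ?_
    have h1 := sum_ma2 hv hz i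
    have h2 := sum_sm hv hz i
    have h3 : ∑ k, xx v z i k * mm v z i k =
        ∑ k, rat v z i k * star (rat v z i k) * mm v z i k -
        ∑ k, mm v z i k * rat v z i k ^ 2 := by
      rw [← sum_sub_distrib]
      refine sum_congr rfl fun k _ => ?_
      unfold xx
      ring
    rw [h3, h1, h2, zero_sub]
  have e2' : ∑ i, ∑ k, xx v z i k * mm v z k i =
      -(dd n K * (dd n K + 1) * ∑ i, ip (z i) (z i) ^ 2) := by
    rw [← e2]
    exact sum_symm_swap (fun i k => xx v z i k) (fun i k => mm v z i k) hxs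
  have e3 : ∑ i, ∑ k, mm v z i k * et v z i k =
      (dd n K + 1) * (dd n K * ∑ i, ip (z i) (opr z z z i)) := by
    rw [← hT, mul_sum]
    exact sum_congr rfl fun i _ => sum_me hv hz i
  have e3' : ∑ i, ∑ k, mm v z k i * et v z k i =
      (dd n K + 1) * (dd n K * ∑ i, ip (z i) (opr z z z i)) := by
    rw [← e3, sum_comm]
  have e4 : ∑ i, ∑ k, xx v z i k ^ 2 =
      2 * (dd n K * (dd n K + 1) * ∑ i, ip (z i) (z i) ^ 2) := by
    have h1 : ∑ i, ∑ k, xx v z i k ^ 2 =
        2 * ∑ i, ∑ k, (rat v z i k * star (rat v z i k)) ^ 2 -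
        2 * ∑ i, ∑ k, rat v z i k * star (rat v z i k) * rat v z i k ^ 2 := by
      rw [mul_sum, mul_sum, ← sum_sub_distrib]
      refine sum_congr rfl fun i _ => ?_
      rw [mul_sum, mul_sum, ← sum_sub_distrib]
      refine sum_congr rfl fun k _ => ?_
      unfold xx
      have h2 := hreal i k
      linear_combination rat v z i k ^ 2 * h2
    have h3 : ∑ i, ∑ k, (rat v z i k * star (rat v z i k)) ^ 2 =
        2 * dd n K * (dd n K + 1) * ∑ i, ip (z i) (z i) ^ 2 := by
      rw [mul_sum]
      exact sum_congr rfl fun i _ => sum_s2 hv hz i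
    rw [h1, h3, hsa]
    ring
  have e5 : ∑ i, ∑ k, xx v z i k * et v z i k =
      dd n K ^ 2 * (dd n K + 1) * ∑ i, ip (z i) (z i) ^ 2 := by
    rw [mul_sum]
    refine sum_congr rfl fun i _ => ?_
    have h1 := sum_se hv hz i
    have h2 := sum_a2e hv hz i
    have h3 : ∑ k, xx v z i k * et v z i k =
        ∑ k, rat v z i k * star (rat v z i k) * et v z i k -
        ∑ k, rat v z i k ^ 2 * et v z i k := by
      rw [← sum_sub_distrib]
      refine sum_congr rfl fun k _ => ?_
      unfold xx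
      ring
    rw [h3, h1, h2, hSd i]
    ring
  have e5' : ∑ i, ∑ k, xx v z i k * et v z k i =
      dd n K ^ 2 * (dd n K + 1) * ∑ i, ip (z i) (z i) ^ 2 := by
    rw [← e5]
    exact sum_symm_swap (fun i k => xx v z i k) (fun i k => et v z i k) hxs
  have e6 : ∑ i, ∑ k, et v z i k * star (et v z i k) = dd n K * (dd n K + 1) *
      (dd n K * ∑ i, ip (z i) (opr z z z i) + dd n K ^ 2 * ∑ i, ip (z i) (z i) ^ 2) := by
    rw [← hT, mul_sum, ← sum_add_distrib, mul_sum]
    refine sum_congr rfl fun i _ => ?_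
    rw [sum_e2 hv hz i, hSd i]
    ring
  have e7 : ∑ i, ∑ k, star (dd n K * mm v z i k + dd n K * xx v z i k - et v z k i) *
      (dd n K * mm v z i k + dd n K * xx v z i k - et v z k i) = 0 := by
    have hd : star (dd n K) = dd n K := by
      unfold dd
      exact star_natCast _
    have h1 : ∑ i, ∑ k, star (dd n K * mm v z i k + dd n K * xx v z i k - et v z k i) *
      (dd n K * mm v z i k + dd n K * xx v z i k - et v z k i) =
      dd n K ^ 2 * ∑ i, ∑ k, mm v z i k * star (mm v z i k) +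
      dd n K ^ 2 * ∑ i, ∑ k, xx v z i k * mm v z i k +
      dd n K ^ 2 * ∑ i, ∑ k, xx v z i k * mm v z k i -
      dd n K * ∑ i, ∑ k, mm v z i k * et v z i k -
      dd n K * ∑ i, ∑ k, mm v z k i * et v z k i +
      dd n K ^ 2 * ∑ i, ∑ k, xx v z i k ^ 2 -
      dd n K * ∑ i, ∑ k, xx v z i k * et v z i k -
      dd n K * ∑ i, ∑ k, xx v z i k * et v z k i +
      ∑ i, ∑ k, et v z i k * star (et v z i k) := by
      simp only [mul_sum, ← sum_add_distrib, ← sum_sub_distrib]
      refine sum_congr rfl fun i _ => ?_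
      refine sum_congr rfl fun k _ => ?_
      rw [star_sub, star_add, star_mul', star_mul', hd, hxr i k, hms i k, hes k i, hes i k]
      ring
    rw [h1, e1, e2, e2', e3, e3', e4, e5, e5', e6]
    ring
  have e8 := pos2 hpos e7 i k
  linear_combination e8

end Pool.Agent.SicRg
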